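import Pool.Agent.Lib.MP_1aae89_al.Cyc
import Pool.Agent.Lib.MP_1aae89_al.Ind

/-!
# Combinations of induced characters: definition (MP_1aae89_al, Q1)
-/

set_option autoImplicit false

namespace Pool.Agent.Lib.MP_1aae89_al

/-- `m a χ = ∑_j m_j (θ_j)^Y` with integers `m`, `m_j`, `p ∤ m`, a character `a` of degree prime to `p`
and level less than `b`, and characters `θ_j` of subgroups `T_j`, such that for each `j` the index of
`T_j` is divisible by `p`, or `θ_j = α_j β_j` with a character `α_j` of level less than `b` and a linear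
character `β_j` such that `β_j(t)^(p^(b-1)) ≠ κ(t)` for some element `t ∈ T_j` of `p`-power order -/
def IndComb (p b : ℕ) {Y : Type} [Group Y] [Fintype Y] (χ : Y → ℂ) (κ : Y →* ℂˣ) : Prop :=
  ∃ (m : ℤ) (a : Y → ℂ) (n k : ℕ) (T : Fin k → Subgroup Y) (c : Fin k → ℤ)
    (θ : (j : Fin k) → T j → ℂ),
    ¬ (p : ℤ) ∣ m ∧ IsCharacter a ∧ lev p a < b ∧ a 1 = n ∧ ¬ p ∣ n ∧
    (∀ j, IsCharacter (θ j) ∧ (p ∣ (T j).index ∨ ∃ (α : T j → ℂ) (β : T j →* ℂˣ),
      IsCharacter α ∧ lev p α < b ∧ (∀ t, θ j t = α t * (β t : ℂ)) ∧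
      ∃ (t : T j) (i : ℕ), t ^ p ^ i = 1 ∧ β t ^ p ^ (b - 1) ≠ κ t)) ∧
    ∀ y, (m : ℂ) * a y * χ y = ∑ j, (c j : ℂ) * ind (T j) (θ j) y

end Pool.Agent.Lib.MP_1aae89_al
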