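import Pool.Agent.Lib.MP_1aae89_al.W3.SpecC
import Pool.Agent.Lib.MP_1aae89_al.W6.StatC

/-!
# Induced characters and combinations of induced characters: specifications (MP_1aae89_al, Q1)
-/

set_option autoImplicit false

namespace Pool.Agent.Lib.MP_1aae89_al.W6

open Pool.Agent.Lib.MP_1aae89_al Pool.Agent.Lib.MP_1aae89_al.BF Pool.Agent.Lib.MP_1aae89_al.W3 Finset
open Pool.Agent.Lib.MP1aae89 (Pex)

/-- IND. Combinations of induced characters.
PROOF. `q = p^(b-1)`, `dl q f k` for a character `f` of `P` is `∑_{η^q = k} |P|⁻¹ ∑_x f(x) η(x)⁻¹` (`ml_spec`),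
linear in `f`. Let `m a χ = ∑_j c_j (θ_j)^Y` as in `IndComb`. (1) For each `j`,
`p ∣ dl q ((θ_j)^Y|P) (K|P)`: otherwise SCK gives `x` with `x⁻¹ P x ≤ T_j`, so the index of `T_j` is prime
to `p`, `P₁ = cjP T_j P x` is a Sylow subgroup of `T_j` (`INR_card`, `W3/INR.lean`), and
`p ∤ dl q (θ_j|P₁) (K|P₁)`; so `θ_j = α β` as in the second case. By LVF (1) for `a = b - 1`,
`α(x^(1 + q t)) = α(x)` for `x ∈ P₁` (`x^s0 = x`, PRM (2); choose `L = |Y|`, `s0` by `exists_pex`), and CMU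
gives `dl q (β α) k ≡ α(1) dl q β k`; so `dl q β (K|P₁) ≠ 0`, and `β^q = K` on `P₁` (`dl` of a linear
character `β`: `ml β η = 0` for `η ≠ β`, compare `W3/GPG.lean`). The element `t` is conjugate in `T_j` to an
element of `P₁` (Sylow), so `β(t)^q = K(t)`, a contradiction. (2) By linearity
`m · dl q (a χ|P) (K|P) = ∑_j c_j dl q ((θ_j)^Y|P) (K|P)` (integers; `(θ_j)^Y` is a character, IDC), so
`p ∣ dl q (a χ|P) (K|P)`. (3) CMU for the character `a` (level less than `b`, LVF): `dl q (χ a) k ≡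
n dl q χ k`. -/
def SpecIND : Prop := ∀ (p b : ℕ), p.Prime → 2 ≤ b → ∀ {Y : Type} [Group Y] [Fintype Y]
  (P : Subgroup Y), Nat.card P = p ^ (Nat.card Y).factorization p → ∀ χ : Y → ℂ, IsCharacter χ →
  ∀ K : Lin Y, IndComb p b χ K → p ∣ dl (p ^ (b - 1)) (fun x : P => χ x) (resL P K)

/-- Q1D. The level of the induced character (copy of Q1C in `W3/Q1C.lean`; the upper bounds are
`W.specLRS`). -/
def SpecQ1D : Prop := ∀ (p : ℕ), p.Prime → ∀ {G : Type} [Group G] [Fintype G] (M : Subgroup G),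
  ¬ p ∣ M.index → ∀ ψ : M → ℂ, IsCharacter ψ → ∀ n : ℕ, ψ 1 = n → ¬ p ∣ n → ∀ b : ℕ, 2 ≤ b →
  (∀ P₁ : Subgroup M, Nat.card P₁ = p ^ (Nat.card M).factorization p →
    p ∣ dl (p ^ (b - 1)) (fun x : P₁ => ψ x) (resL P₁ (1 : Lin M))) →
  ∀ P : Subgroup G, Nat.card P = p ^ (Nat.card G).factorization p →
  b ≤ lev p (fun x : P => ind M ψ (x : G))

/-- INI. Induced characters.
PROOF. The second part of the proof of INR (`W3/INR.lean`), with `s` for `hpr.rep`; `n = |X : T| k` from the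
values at `1` (`Q1C_one` in `W3/Q1C.lean`). -/
def SpecINI : Prop := ∀ (p : ℕ), p.Prime → ∀ (L s0 : ℕ), L ≠ 0 → Pex p L s0 → ∀ b : ℕ, 2 ≤ b →
  ∀ {X : Type} [Group X] [Fintype X], Nat.card X ∣ L → ∀ P : Subgroup X,
  Nat.card P = p ^ (Nat.card X).factorization p → ∀ (n : ℕ)
  (r : X →* Matrix (Fin n) (Fin n) ℂ), Sch r → ¬ p ∣ n → ∀ T : Subgroup X, ¬ p ∣ T.index →
  ∀ (k : ℕ) (s : T →* Matrix (Fin k) (Fin k) ℂ), Sch s →
  (∀ g, (r g).trace = ind T (fun t => (s t).trace) g) → (∀ b' : ℕ, b ≤ b' → IC p b' T) →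
  FX p s0 b (fun y => (r y).trace) → ∀ K : Lin X, K ^ p = 1 →
  (∃ y, (r (y ^ (1 + s0 * p ^ (b - 1)))).trace ≠ (K y : ℂ) * (r y).trace) →
  p ∣ dl (p ^ (b - 1)) (fun x : P => (r x).trace) (resL P K)

end Pool.Agent.Lib.MP_1aae89_al.W6
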