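import Pool.Agent.Lib.MP_1aae89_al.W.Spec
import Pool.Agent.Lib.MP_1aae89_al.W3.SpecC
import Pool.Agent.Lib.MP_1aae89_al.W3.SpecA
import Pool.Agent.Lib.MP_1aae89_al.W3.SpecB
import Pool.Agent.Lib.MP_1aae89_al.W.SCA
import Pool.Agent.Lib.MP_1aae89_al.W5.SpecA
import Pool.Agent.Lib.MP_1aae89_al.W6.SpecB

section
/-!
# ORT: orthogonality of the characters of representations with scalar commutant
-/
set_option autoImplicit false

namespace Pool.Agent.Lib.MP_1aae89_al.W

open Pool.Agent.Lib.MP_1aae89_al Pool.Agent.Lib.MP_1aae89_al.BF Finset Matrix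

theorem ort_aux {M : Type} [Group M] [Fintype M] {n m : ℕ}
    {r : M →* Matrix (Fin n) (Fin n) ℂ} {s : M →* Matrix (Fin m) (Fin m) ℂ} (hr : Sch r)
    (hs : Sch s) (hn : n ≠ 0) (hm : m ≠ 0) (T : Matrix (Fin m) (Fin n) ℂ)
    (hTi : ∀ g, s g * T = T * r g) (a : Fin m) (b : Fin n) (hab : T a b ≠ 0) (g : M) :
    (s g).trace = (r g).trace := by
  have hn' : (n : ℂ) ≠ 0 := by exact_mod_cast hn
  have hm' : (m : ℂ) ≠ 0 := by exact_mod_cast hm
  have hG : (Fintype.card M : ℂ) ≠ 0 := by exact_mod_cast Fintype.card_ne_zero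
  set T' : Matrix (Fin n) (Fin m) ℂ := ∑ g, r g * Matrix.single b a (1 : ℂ) * s g⁻¹ with hT'd
  have h3 : T' * T = ((Fintype.card M : ℂ) * T a b / n) • (1 : Matrix (Fin n) (Fin n) ℂ) := by
    have h4 : T' * T = ∑ g, r g * (Matrix.single b a (1 : ℂ) * T) * r g⁻¹ := by
      rw [hT'd, Matrix.sum_mul]
      refine sum_congr rfl fun g _ => ?_
      rw [Matrix.mul_assoc, hTi]
      simp only [Matrix.mul_assoc]
    rw [h4, avg hr hn]
    congr 3
    rw [Matrix.trace, Finset.sum_eq_single b]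
    · rw [Matrix.diag_apply, Matrix.single_mul_apply_same, one_mul]
    · intro k _ hk
      rw [Matrix.diag_apply, Matrix.single_mul_apply_of_ne (h := hk)]
    · intro h; exact absurd (mem_univ _) h
  have h5 : T * T' = ((Fintype.card M : ℂ) * T a b / m) • (1 : Matrix (Fin m) (Fin m) ℂ) := by
    have h4 : T * T' = ∑ g, s g * (T * Matrix.single b a (1 : ℂ)) * s g⁻¹ := by
      rw [hT'd, Matrix.mul_sum]
      refine sum_congr rfl fun g _ => ?_
      simp only [← Matrix.mul_assoc]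
      rw [hTi]
    rw [h4, avg hs hm]
    congr 3
    rw [Matrix.trace, Finset.sum_eq_single a]
    · rw [Matrix.diag_apply, Matrix.mul_single_apply_same, mul_one]
    · intro k _ hk
      rw [Matrix.diag_apply, Matrix.mul_single_apply_of_ne (hbj := hk)]
    · intro h; exact absurd (mem_univ _) h
  set c := (Fintype.card M : ℂ) * T a b / n with hc
  set c' := (Fintype.card M : ℂ) * T a b / m with hc'
  have hc0 : c' ≠ 0 := div_ne_zero (mul_ne_zero hG hab) hm'
  have h6 : c' • T = c • T := by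
    have e1 : T * T' * T = c' • T := by rw [h5, Matrix.smul_mul, Matrix.one_mul]
    have e2 : T * T' * T = c • T := by rw [Matrix.mul_assoc, h3, Matrix.mul_smul, Matrix.mul_one]
    rw [← e1, e2]
  have h7 : c' = c := by
    have e := congrFun (congrFun h6 a) b
    rw [Matrix.smul_apply, Matrix.smul_apply, smul_eq_mul, smul_eq_mul] at e
    exact mul_right_cancel₀ hab e
  have h8 : c' * (s g).trace = c * (r g).trace := by
    have e1 : (s g * (T * T')).trace = c' * (s g).trace := by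
      rw [h5, Matrix.mul_smul, Matrix.mul_one, trace_smul, smul_eq_mul]
    have e2 : (s g * (T * T')).trace = c * (r g).trace := by
      rw [← Matrix.mul_assoc, hTi, Matrix.trace_mul_comm, ← Matrix.mul_assoc, h3, Matrix.smul_mul,
        Matrix.one_mul, trace_smul, smul_eq_mul]
    rw [← e1, e2]
  rw [h7] at h8
  exact mul_left_cancel₀ (h7 ▸ hc0) h8

theorem specORT : SpecORT := by
  intro M _ _ n m r s hr hs hn hm
  have hn' : (n : ℂ) ≠ 0 := by exact_mod_cast hn
  refine ⟨fun h => ?_, ?_⟩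
  · have h1 := orth hr hn 1 1
    simp only [Matrix.one_mul, Matrix.mul_one] at h1
    rw [trace_one, Fintype.card_fin, div_mul_cancel₀ _ hn'] at h1
    rw [← h1]
    exact sum_congr rfl fun g _ => by rw [h g]
  · rintro ⟨g0, hg0⟩
    have h0 : ∀ (j : Fin m) (i : Fin n),
        ∑ g, s g * Matrix.single j i (1 : ℂ) * r g⁻¹ = 0 := by
      intro j i
      by_contra hne
      have h2 : ∃ a b, (∑ g, s g * Matrix.single j i (1 : ℂ) * r g⁻¹) a b ≠ 0 := by
        by_contra hall
        push Not at hall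
        exact hne (Matrix.ext hall)
      obtain ⟨a, b, hab⟩ := h2
      exact hg0 (ort_aux hr hs hn hm _ (fun g => avg2 s r _ g) a b hab g0)
    have h3 : ∀ g ∈ (univ : Finset M), (s g).trace * (r g⁻¹).trace =
        ∑ j, ∑ i, (s g * Matrix.single j i (1 : ℂ) * r g⁻¹ : Matrix (Fin m) (Fin n) ℂ) j i := by
      intro g _
      simp only [entry]
      rw [Matrix.trace, Matrix.trace, Finset.sum_mul_sum]
      rfl
    rw [sum_congr rfl h3, sum_comm]
    refine sum_eq_zero fun j _ => ?_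
    rw [sum_comm]
    refine sum_eq_zero fun i _ => ?_
    have h4 := congrFun (congrFun (h0 j i) j) i
    rw [Matrix.sum_apply] at h4
    exact h4

end Pool.Agent.Lib.MP_1aae89_al.W
end

section
/-!
# Module GPG: `p`-groups are good
-/
set_option autoImplicit false

namespace Pool.Agent.Lib.MP_1aae89_al.W3

open Pool.Agent.Lib.MP_1aae89_al Pool.Agent.Lib.MP_1aae89_al.BF Finset
open Pool.Agent.Lib.MP1aae89 (Pex pp_pow)

/-- a linear character as a representation of degree one -/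
noncomputable def GPG_rep {P : Type} [Group P] (μ : Lin P) : P →* Matrix (Fin 1) (Fin 1) ℂ where
  toFun x := ((μ x : ℂˣ) : ℂ) • (1 : Matrix (Fin 1) (Fin 1) ℂ)
  map_one' := by rw [map_one, Units.val_one, one_smul]
  map_mul' x y := by
    rw [map_mul, Units.val_mul, Matrix.smul_mul, Matrix.mul_smul, smul_smul, Matrix.one_mul]

theorem GPG_rep_trace {P : Type} [Group P] (μ : Lin P) (x : P) :
    (GPG_rep μ x).trace = ((μ x : ℂˣ) : ℂ) := by
  change ((((μ x : ℂˣ) : ℂ) • (1 : Matrix (Fin 1) (Fin 1) ℂ)).trace) = _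
  rw [Matrix.trace_smul, Matrix.trace_one, Fintype.card_fin]
  simp

theorem GPG_rep_sch {P : Type} [Group P] (μ : Lin P) : Sch (GPG_rep μ) := by
  intro T _
  refine ⟨T 0 0, ?_⟩
  ext i j
  fin_cases i
  fin_cases j
  simp

/-- an irreducible character with a linear constituent is this constituent -/
theorem GPG_lin {P : Type} [Group P] [Fintype P] {n : ℕ} {r : P →* Matrix (Fin n) (Fin n) ℂ}
    (hr : Sch r) (hn : n ≠ 0) (μ : Lin P) (hμ : ml (fun x => (r x).trace) μ ≠ 0) :
    ∀ x, (r x).trace = ((μ x : ℂˣ) : ℂ) := by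
  by_contra hcon
  push Not at hcon
  obtain ⟨g, hg⟩ := hcon
  have h1 := (W.specORT (GPG_rep μ) r (GPG_rep_sch μ) hr one_ne_zero hn).2
    ⟨g, by rw [GPG_rep_trace]; exact hg⟩
  have h2 := ml_spec (isCharacter_trace r) μ
  have h3 : ∑ x, (r x).trace * (((μ x)⁻¹ : ℂˣ) : ℂ) = 0 := by
    rw [← h1]
    refine sum_congr rfl fun x _ => ?_
    rw [GPG_rep_trace, map_inv]
  rw [h3, mul_zero] at h2
  exact hμ (by exact_mod_cast h2)

/-- a `p`-element is conjugate into a Sylow subgroup -/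
theorem GPG_conj {Y : Type} [Group Y] [Finite Y] {p : ℕ} (hp : p.Prime) (P : Subgroup Y)
    (hP : Nat.card P = p ^ (Nat.card Y).factorization p) {x : Y} {k : ℕ} (hx : x ^ p ^ k = 1) :
    ∃ g : Y, g * x * g⁻¹ ∈ P := by
  have hF : Fact p.Prime := ⟨hp⟩
  have h1 : IsPGroup p (Subgroup.zpowers x) := by
    rw [IsPGroup.iff_card]
    rw [Nat.card_zpowers]
    exact (Nat.dvd_prime_pow hp).1 (orderOf_dvd_of_pow_eq_one hx) |>.imp fun a ha => ha.2
  obtain ⟨Q, hQ⟩ := h1.exists_le_sylow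
  obtain ⟨g, hg⟩ := MulAction.exists_smul_eq Y Q (Sylow.ofCard P hP)
  refine ⟨g, ?_⟩
  have h2 : g * x * g⁻¹ ∈ ((g • Q : Sylow p Y) : Subgroup Y) := by
    rw [Sylow.coe_subgroup_smul, Subgroup.mem_pointwise_smul_iff_inv_smul_mem]
    have h3 : (MulAut.conj g)⁻¹ • (g * x * g⁻¹) = x := by
      rw [MulAut.smul_def, MulAut.conj_inv_apply]
      group
    rw [h3]
    exact hQ (Subgroup.mem_zpowers x)
  rw [hg] at h2
  exact h2

theorem specGPG : SpecGPG := by
  intro p b hp hb Z _ _ e hZ Y _ _ f hc hker hran b' hb' L s0 hL hcard hs P hP n r hr hn hFX K hK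
    hne
  classical
  have hFp : Fact p.Prime := ⟨hp⟩
  have hn0 : n ≠ 0 := by
    rintro rfl
    exact hn (dvd_zero p)
  -- surjectivity
  have hsurj : Function.Surjective f := by
    rw [← MonoidHom.range_eq_top, ← Subgroup.index_eq_one]
    have h1 : f.range.index ∣ p ^ e := by
      rw [← hZ, ← Subgroup.index_mul_card f.range]
      exact dvd_mul_right _ _
    obtain ⟨k, -, hk⟩ := (Nat.dvd_prime_pow hp).1 h1
    rw [hk]
    rcases Nat.eq_zero_or_pos k with h | h
    · rw [h, pow_zero]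
    · exact (hran (by rw [hk]; exact dvd_pow_self p h.ne')).elim
  have hcY : Nat.card Y = Nat.card f.ker * p ^ e := by
    rw [← hZ, ← Subgroup.card_mul_index f.ker, Subgroup.index_ker, MonoidHom.range_eq_top.2 hsurj,
      Subgroup.card_top]
  have hk0 : Nat.card f.ker ≠ 0 := Nat.card_pos.ne'
  have hfac : (Nat.card Y).factorization p = e := by
    rw [hcY, Nat.factorization_mul hk0 (pow_pos hp.pos e).ne', hp.factorization_pow]
    have h1 : (Nat.card f.ker).factorization p = 0 :=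
      Nat.factorization_eq_zero_of_not_dvd ((Nat.Prime.coprime_iff_not_dvd hp).1 hker.symm)
    rw [Finsupp.add_apply, h1, Finsupp.single_apply, if_pos rfl, zero_add]
  rw [hfac] at hP
  have hPg : ∀ x ∈ P, x ^ p ^ e = 1 := by
    intro x hx
    have := congrArg Subtype.val (pow_card_eq_one' (x := (⟨x, hx⟩ : P)))
    rwa [Subgroup.coe_pow, hP] at this
  have hkp : ∀ x : Y, f x = 1 → x ^ Nat.card f.ker = 1 := by
    intro x hx
    have := congrArg Subtype.val (pow_card_eq_one' (x := (⟨x, hx⟩ : f.ker)))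
    rwa [Subgroup.coe_pow] at this
  have hinj : ∀ x ∈ P, f x = 1 → x = 1 := by
    intro x hx h
    exact orderOf_eq_one_iff.1 (Nat.eq_one_of_dvd_coprimes (hker.pow_right e)
      (orderOf_dvd_of_pow_eq_one (hkp x h)) (orderOf_dvd_of_pow_eq_one (hPg x hx)))
  have hon : ∀ z : Z, ∃ x ∈ P, f x = z := by
    have h1 : Function.Injective (f.comp P.subtype) := by
      rw [injective_iff_map_eq_one]
      rintro ⟨x, hx⟩ h
      exact Subtype.ext (hinj x hx h)
    have h2 : Function.Bijective (f.comp P.subtype) :=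
      (Nat.bijective_iff_injective_and_card _).2 ⟨h1, by rw [hP, hZ]⟩
    intro z
    obtain ⟨x, hx⟩ := h2.2 z
    exact ⟨x.1, x.2, hx⟩
  have hdec : ∀ y : Y, ∃ c, f c = 1 ∧ ∃ x ∈ P, y = c * x := by
    intro y
    obtain ⟨x, hx, h⟩ := hon (f y)
    exact ⟨y * x⁻¹, by rw [map_mul, map_inv, h, mul_inv_cancel], x, hx, by group⟩
  -- the restriction to `P` has a scalar commutant
  have hrP : Sch (r.comp P.subtype) := by
    intro T hT
    apply hr
    intro y
    obtain ⟨c, hc1, x, hx, rfl⟩ := hdec y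
    obtain ⟨a, ha⟩ := hr (r c) fun g => by rw [← map_mul, ← map_mul, hc c hc1 g]
    have h1 := hT ⟨x, hx⟩
    change T * r x = r x * T at h1
    rw [map_mul, ha]
    simp only [Matrix.smul_mul, Matrix.mul_smul, Matrix.one_mul]
    rw [h1]
  have hfin : Fintype P := Fintype.ofFinite P
  -- a linear constituent
  have hex : ∃ μ : Lin P, ml (fun x : P => (r x).trace) μ ≠ 0 := by
    by_contra hcon
    push Not at hcon
    have h1 := deg e P hP (fun x : P => (r x).trace) ⟨n, r.comp P.subtype, fun _ => rfl⟩ n (by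
      rw [OneMemClass.coe_one, map_one, Matrix.trace_one, Fintype.card_fin])
    have h2 : ∑ μ : Lin P, mlt (fun x : P => (r x).trace) μ = 0 :=
      sum_eq_zero fun μ _ => by rw [← ml_eq]; exact hcon μ
    rw [h2] at h1
    exact hn ((Nat.modEq_zero_iff_dvd).1 h1.symm)
  have hlin : ∀ μ : Lin P, ml (fun x : P => (r x).trace) μ ≠ 0 →
      ∀ x : P, (r x).trace = ((μ x : ℂˣ) : ℂ) := fun μ hμ => GPG_lin hrP hn0 μ hμ
  obtain ⟨μ, hμ⟩ := hex
  have hn1 : n = 1 := by
    have h1 := hlin μ hμ 1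
    rw [map_one, OneMemClass.coe_one, map_one, Matrix.trace_one, Fintype.card_fin,
      Units.val_one] at h1
    exact_mod_cast h1
  subst hn1
  have hmul : ∀ x y : Y, (r (x * y)).trace = (r x).trace * (r y).trace := by
    intro x y
    rw [map_mul, Matrix.trace_fin_one, Matrix.trace_fin_one, Matrix.trace_fin_one,
      Matrix.mul_apply, Fin.sum_univ_one]
  have hone : (r 1).trace = 1 := by rw [map_one, Matrix.trace_one, Fintype.card_fin]; simp
  have hpow : ∀ (x : Y) (k : ℕ), (r (x ^ k)).trace = (r x).trace ^ k := by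
    intro x k
    induction k with
    | zero => rw [pow_zero, pow_zero, hone]
    | succ k ih => rw [pow_succ, hmul, ih, pow_succ]
  have hcj : ∀ g x : Y, (r (g * x * g⁻¹)).trace = (r x).trace := by
    intro g x
    have h1 : (r g).trace * (r g⁻¹).trace = 1 := by rw [← hmul, mul_inv_cancel, hone]
    rw [hmul, hmul]
    calc (r g).trace * (r x).trace * (r g⁻¹).trace
        = (r x).trace * ((r g).trace * (r g⁻¹).trace) := by ring
      _ = (r x).trace := by rw [h1, mul_one]
  have hKcj : ∀ g x : Y, K (g * x * g⁻¹) = K x := by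
    intro g x
    rw [map_mul, map_mul, map_inv, mul_comm (K g), mul_assoc, mul_inv_cancel, mul_one]
  -- the conclusion
  by_contra hcon
  have hdl : dl (p ^ (b' - 1)) (fun x : P => (r x).trace) (resL P K) ≠ 0 := by
    intro h
    rw [h] at hcon
    exact hcon (dvd_zero p)
  unfold dl at hdl
  obtain ⟨η, hη, hη0⟩ := Finset.exists_ne_zero_of_sum_ne_zero hdl
  have hηq : η ^ p ^ (b' - 1) = resL P K := by
    simpa only [Finset.mem_filter, Finset.mem_univ, true_and] using hη
  have hδ := hlin η hη0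
  have hq : ∀ x ∈ P, (r x).trace ^ p ^ (b' - 1) = ((K x : ℂˣ) : ℂ) := by
    intro x hx
    have h1 := hδ ⟨x, hx⟩
    rw [h1]
    have h2 := congrArg (fun ν : Lin P => ν ⟨x, hx⟩) hηq
    have h3 : (η ⟨x, hx⟩) ^ p ^ (b' - 1) = K x := by
      rw [← Lin.pow_apply]
      exact h2
    rw [← h3, Units.val_pow_eq_pow_val]
  obtain ⟨y, hy⟩ := hne
  apply hy
  have hyL : y ^ L = 1 := by
    obtain ⟨k, hk⟩ := hcard
    rw [hk, pow_mul, pow_card_eq_one', one_pow]
  have h1 : (y ^ s0) ^ p ^ L.factorization p = 1 := pp_pow hs hyL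
  obtain ⟨g, hg⟩ := GPG_conj hp P (by rw [hfac]; exact hP) h1
  have h2 : (r (y ^ s0)).trace ^ p ^ (b' - 1) = ((K (y ^ s0) : ℂˣ) : ℂ) := by
    rw [← hcj g, ← hKcj g]
    exact hq _ hg
  have hKp : (K y) ^ p = 1 := by
    rw [← Lin.pow_apply, hK, Lin.one_apply]
  have h3 : K (y ^ s0) = K y := by
    rw [map_pow]
    by_cases hpL : p ∣ L
    · have h4 : s0 ≡ 1 [MOD p] := by
        refine hs.one.of_dvd ?_
        exact dvd_pow_self p (hp.factorization_pos_of_dvd hL hpL).ne'
      have h5 : (K y) ^ s0 = (K y) ^ 1 :=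
        pow_eq_pow_iff_modEq.mpr (h4.of_dvd (orderOf_dvd_of_pow_eq_one hKp))
      rw [h5, pow_one]
    · have h4 : (K y) ^ L = 1 := by rw [← map_pow, hyL, map_one]
      have h5 : K y = 1 := orderOf_eq_one_iff.1 (Nat.eq_one_of_dvd_coprimes
        ((Nat.Prime.coprime_iff_not_dvd hp).2 hpL) (orderOf_dvd_of_pow_eq_one hKp)
        (orderOf_dvd_of_pow_eq_one h4))
      rw [h5, one_pow]
  rw [pow_add, pow_one, hmul, pow_mul, hpow (y ^ s0), h2, h3, mul_comm]

end Pool.Agent.Lib.MP_1aae89_al.W3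
end

section
/-!
# IDC: the induced function of a character is a character
-/
set_option autoImplicit false

namespace Pool.Agent.Lib.MP_1aae89_al.W3

open Pool.Agent.Lib.MP_1aae89_al Pool.Agent.Lib.MP_1aae89_al.BF Finset

open Classical in
/-- extension by zero -/
noncomputable def idcE {G : Type} [Group G] {H : Subgroup G} {n : ℕ}
    (ρ : H →* Matrix (Fin n) (Fin n) ℂ) (x : G) : Matrix (Fin n) (Fin n) ℂ :=
  if h : x ∈ H then ρ ⟨x, h⟩ else 0

theorem idcE_mem {G : Type} [Group G] {H : Subgroup G} {n : ℕ}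
    (ρ : H →* Matrix (Fin n) (Fin n) ℂ) {x : G} (h : x ∈ H) : idcE ρ x = ρ ⟨x, h⟩ := dif_pos h

theorem idcE_not {G : Type} [Group G] {H : Subgroup G} {n : ℕ}
    (ρ : H →* Matrix (Fin n) (Fin n) ℂ) {x : G} (h : x ∉ H) : idcE ρ x = 0 := dif_neg h

theorem idcE_mul {G : Type} [Group G] {H : Subgroup G} {n : ℕ}
    (ρ : H →* Matrix (Fin n) (Fin n) ℂ) (x : G) {y : G} (hy : y ∈ H) :
    idcE ρ (x * y) = idcE ρ x * idcE ρ y := by
  by_cases hx : x ∈ H
  · rw [idcE_mem ρ hx, idcE_mem ρ hy, idcE_mem ρ (H.mul_mem hx hy), ← map_mul]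
    rfl
  · rw [idcE_not ρ hx, idcE_not ρ fun h => hx ?_, Matrix.zero_mul]
    exact (H.mul_mem_cancel_right hy).1 h

theorem idcE_mul' {G : Type} [Group G] {H : Subgroup G} {n : ℕ}
    (ρ : H →* Matrix (Fin n) (Fin n) ℂ) {x : G} (hx : x ∈ H) (y : G) :
    idcE ρ (x * y) = idcE ρ x * idcE ρ y := by
  by_cases hy : y ∈ H
  · exact idcE_mul ρ x hy
  · rw [idcE_not ρ hy, idcE_not ρ fun h => hy ?_, Matrix.mul_zero]
    exact (H.mul_mem_cancel_left hx).1 h

open Classical in
/-- the induced matrices -/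
noncomputable def idcR {G : Type} [Group G] [Fintype G] {H : Subgroup G} {n : ℕ}
    (ρ : H →* Matrix (Fin n) (Fin n) ℂ) :
    G →* Matrix ((G ⧸ H) × Fin n) ((G ⧸ H) × Fin n) ℂ where
  toFun g := Matrix.of fun i j => idcE ρ (i.1.out⁻¹ * g * j.1.out) i.2 j.2
  map_one' := by
    ext ⟨q, a⟩ ⟨s, c⟩
    rw [Matrix.of_apply, mul_one]
    by_cases h : q = s
    · subst h
      have h1 : (q.out⁻¹ * q.out : G) ∈ H := by rw [inv_mul_cancel]; exact H.one_mem
      have h2 : (⟨q.out⁻¹ * q.out, h1⟩ : H) = 1 := Subtype.ext (inv_mul_cancel _)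
      rw [idcE_mem ρ h1, h2, map_one]
      by_cases hac : a = c
      · subst hac
        rw [Matrix.one_apply_eq, Matrix.one_apply_eq]
      · rw [Matrix.one_apply_ne hac, Matrix.one_apply_ne fun h => hac (Prod.ext_iff.1 h).2]
    · have h1 : (q.out⁻¹ * s.out : G) ∉ H := by
        intro h1
        apply h
        rw [← QuotientGroup.eq] at h1
        rwa [QuotientGroup.out_eq', QuotientGroup.out_eq'] at h1
      rw [idcE_not ρ h1, Matrix.one_apply_ne fun h' => h (Prod.ext_iff.1 h').1]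
      rfl
  map_mul' g g' := by
    ext ⟨q, a⟩ ⟨s, c⟩
    rw [Matrix.of_apply, Matrix.mul_apply, Fintype.sum_prod_type]
    set u : G ⧸ H := QuotientGroup.mk (g' * s.out) with hu
    have hy : u.out⁻¹ * g' * s.out ∈ H := by
      rw [mul_assoc, ← QuotientGroup.eq, QuotientGroup.out_eq']
    have h1 : q.out⁻¹ * (g * g') * s.out =
        (q.out⁻¹ * g * u.out) * (u.out⁻¹ * g' * s.out) := by group
    rw [Finset.sum_eq_single u]
    · change idcE ρ (q.out⁻¹ * (g * g') * s.out) a c = _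
      rw [h1, idcE_mul ρ _ hy, Matrix.mul_apply]
      rfl
    · intro v _ hv
      refine Finset.sum_eq_zero fun b _ => ?_
      have h2 : v.out⁻¹ * g' * s.out ∉ H := by
        intro h2
        apply hv
        rw [mul_assoc, ← QuotientGroup.eq, QuotientGroup.out_eq'] at h2
        rw [h2]
      rw [Matrix.of_apply, Matrix.of_apply]
      change _ * idcE ρ (v.out⁻¹ * g' * s.out) b c = 0
      rw [idcE_not ρ h2, Matrix.zero_apply, mul_zero]
    · intro h; exact absurd (mem_univ _) h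

theorem specIDC : SpecIDC := by
  classical
  intro G _ _ H θ ⟨n, ρ, hρ⟩
  let e : (G ⧸ H) × Fin n ≃ Fin (Fintype.card ((G ⧸ H) × Fin n)) := Fintype.equivFin _
  let φ : Matrix ((G ⧸ H) × Fin n) ((G ⧸ H) × Fin n) ℂ →*
      Matrix (Fin (Fintype.card ((G ⧸ H) × Fin n))) (Fin (Fintype.card ((G ⧸ H) × Fin n))) ℂ :=
    (Matrix.reindexAlgEquiv ℂ ℂ e).toRingEquiv.toRingHom.toMonoidHom
  refine ⟨Fintype.card ((G ⧸ H) × Fin n), φ.comp (idcR ρ), fun g => ?_⟩
  have htr : ((φ.comp (idcR ρ)) g).trace = ∑ q : G ⧸ H, (idcE ρ (q.out⁻¹ * g * q.out)).trace := by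
    have h1 : ((φ.comp (idcR ρ)) g).trace = ∑ i, idcR ρ g (e.symm i) (e.symm i) := rfl
    rw [h1, Equiv.sum_comp e.symm fun x => idcR ρ g x x, Fintype.sum_prod_type]
    rfl
  rw [htr]
  unfold ind
  -- the extension by zero
  have hθ : ∀ x : G, (if h : x ∈ H then θ ⟨x, h⟩ else 0) = (idcE ρ x).trace := by
    intro x
    by_cases h : x ∈ H
    · rw [dif_pos h, idcE_mem ρ h, hρ]
    · rw [dif_neg h, idcE_not ρ h, Matrix.trace_zero]
  have hsum : ∑ x : G, (if h : x⁻¹ * g * x ∈ H then θ ⟨x⁻¹ * g * x, h⟩ else 0) =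
      ∑ qh : (G ⧸ H) × H, (idcE ρ (qh.1.out⁻¹ * g * qh.1.out)).trace := by
    symm
    refine Fintype.sum_bijective (fun qh : (G ⧸ H) × H => qh.1.out * (qh.2 : G)) ⟨?_, ?_⟩ _ _ ?_
    · rintro ⟨q, h⟩ ⟨q', h'⟩ heq
      change q.out * (h : G) = q'.out * (h' : G) at heq
      have h1 : q = q' := by
        have h2 := congrArg (QuotientGroup.mk : G → G ⧸ H) heq
        rwa [QuotientGroup.mk_mul_of_mem _ h.2, QuotientGroup.mk_mul_of_mem _ h'.2,
          QuotientGroup.out_eq', QuotientGroup.out_eq'] at h2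
      subst h1
      rw [Prod.mk.injEq]
      exact ⟨rfl, Subtype.ext (mul_left_cancel heq)⟩
    · intro x
      refine ⟨⟨QuotientGroup.mk x, ⟨(QuotientGroup.mk x : G ⧸ H).out⁻¹ * x, ?_⟩⟩, ?_⟩
      · rw [← QuotientGroup.eq, QuotientGroup.out_eq']
      · change (QuotientGroup.mk x : G ⧸ H).out * ((QuotientGroup.mk x : G ⧸ H).out⁻¹ * x) = x
        group
    · rintro ⟨q, h⟩
      change (idcE ρ (q.out⁻¹ * g * q.out)).trace = _
      rw [hθ]
      have h1 : (q.out * (h : G))⁻¹ * g * (q.out * (h : G)) =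
          (h : G)⁻¹ * ((q.out⁻¹ * g * q.out) * (h : G)) := by group
      rw [h1, idcE_mul' ρ (H.inv_mem h.2), idcE_mul ρ _ h.2, Matrix.trace_mul_comm,
        Matrix.mul_assoc, ← idcE_mul ρ (h : G) (H.inv_mem h.2), mul_inv_cancel]
      have h2 : idcE ρ (1 : G) = 1 := by
        rw [idcE_mem ρ H.one_mem]
        exact map_one ρ
      rw [h2, Matrix.mul_one]
  rw [hsum, Fintype.sum_prod_type]
  simp only [sum_const, card_univ, nsmul_eq_mul]
  rw [← Finset.mul_sum, ← mul_assoc, Nat.card_eq_fintype_card, inv_mul_cancel₀, one_mul]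
  exact_mod_cast Fintype.card_ne_zero

end Pool.Agent.Lib.MP_1aae89_al.W3
end

section
/-!
# Module PRM: facts on exponents
-/
set_option autoImplicit false

namespace Pool.Agent.Lib.MP_1aae89_al.W3

open Pool.Agent.Lib.MP_1aae89_al Pool.Agent.Lib.MP_1aae89_al.BF Finset
open Pool.Agent.Lib.MP1aae89 (Pex pp_pow)

namespace PRM

theorem coprime {p : ℕ} (hp : p.Prime) {L s0 : ℕ} (hs : Pex p L s0) {a : ℕ} (ha : 1 ≤ a) (i : ℕ) :
    (1 + s0 * p ^ a * i).Coprime L := by
  have h0 : (1 + s0 * p ^ a * i).Coprime (ordProj[p] L * ordCompl[p] L) := by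
    refine Nat.Coprime.mul_right (Nat.Coprime.pow_right _ ?_) ?_
    · rw [Nat.coprime_comm, Nat.Prime.coprime_iff_not_dvd hp]
      intro h
      rw [Nat.dvd_add_left] at h
      · exact hp.one_lt.ne' (Nat.dvd_one.mp h)
      · refine Dvd.dvd.mul_right (Dvd.dvd.mul_left ?_ _) _
        exact dvd_pow_self p (by omega)
    · obtain ⟨k, hk⟩ := hs.zero
      have h1 : s0 * p ^ a * i = ordCompl[p] L * (k * p ^ a * i) := by
        conv_lhs => rw [hk]
        ring
      rw [h1]
      exact (Nat.coprime_add_mul_left_left _ _ _).mpr (Nat.coprime_one_left _)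
  rwa [Nat.ordProj_mul_ordCompl_eq_self L p] at h0

theorem twist {p : ℕ} {L s0 : ℕ} (hs : Pex p L s0) (A b t' : ℕ) (hA : A.Coprime p) :
    ∃ t : ℕ, A + s0 * p ^ b * t' ≡ A * (1 + s0 * p ^ b * t) [MOD L] := by
  have hA' : A.Coprime (ordProj[p] L) := Nat.Coprime.pow_right _ hA
  have h1 : A ^ (Nat.totient (ordProj[p] L)) ≡ 1 [MOD ordProj[p] L] := Nat.ModEq.pow_totient hA'
  have hpos : 0 < ordProj[p] L ∨ ordProj[p] L = 0 := by omega
  have h2 : ∃ m : ℕ, A * m ≡ 1 [MOD ordProj[p] L] := by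
    rcases hpos with h | h
    · refine ⟨A ^ (Nat.totient (ordProj[p] L) - 1), ?_⟩
      rw [← pow_succ', Nat.sub_add_cancel (Nat.totient_pos.2 h)]
      exact h1
    · rw [h] at hA' ⊢
      refine ⟨1, ?_⟩
      have : A = 1 := by simpa using hA'
      rw [this]
  obtain ⟨m, hm⟩ := h2
  refine ⟨m * t', ?_⟩
  obtain ⟨k, hk⟩ := hs.zero
  have h3 : A * (m * t') ≡ t' [MOD ordProj[p] L] := by
    have := hm.mul_right t'
    rwa [one_mul, mul_assoc] at this
  have h4 : ordCompl[p] L * (A * (m * t')) ≡ ordCompl[p] L * t' [MOD L] := by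
    have := h3.mul_left' (ordCompl[p] L)
    rwa [mul_comm (ordCompl[p] L) (ordProj[p] L), Nat.ordProj_mul_ordCompl_eq_self L p] at this
  have h5 := (h4.mul_right (k * p ^ b)).symm
  have e1 : A + s0 * p ^ b * t' = A + ordCompl[p] L * t' * (k * p ^ b) := by
    conv_lhs => rw [hk]
    ring
  have e2 : A * (1 + s0 * p ^ b * (m * t')) = A + ordCompl[p] L * (A * (m * t')) * (k * p ^ b) := by
    conv_lhs => rw [hk]
    ring
  rw [e1, e2]
  exact h5.add_left A

theorem indep {p : ℕ} (hp : p.Prime) {L s0 : ℕ} (hL : L ≠ 0) (hs : Pex p L s0) {L' s0' : ℕ}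
    (hL' : L' ≠ 0) (hs' : Pex p L' s0') {X : Type} [Group X] (y : X) (hy : y ^ L = 1)
    (hy' : y ^ L' = 1) : y ^ s0 = y ^ s0' := by
  have ho : orderOf y ∣ L := orderOf_dvd_of_pow_eq_one hy
  have ho' : orderOf y ∣ L' := orderOf_dvd_of_pow_eq_one hy'
  have h0 : orderOf y ≠ 0 := fun h => hL (Nat.eq_zero_of_zero_dvd (h ▸ ho))
  rw [pow_eq_pow_iff_modEq]
  have h1 : s0 ≡ s0' [MOD ordProj[p] (orderOf y)] :=
    (hs.one.of_dvd (Nat.ordProj_dvd_ordProj_of_dvd hL ho p)).trans
      (hs'.one.of_dvd (Nat.ordProj_dvd_ordProj_of_dvd hL' ho' p)).symm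
  have h2 : s0 ≡ s0' [MOD ordCompl[p] (orderOf y)] := by
    have h3 : s0 ≡ 0 [MOD ordCompl[p] (orderOf y)] :=
      (Nat.modEq_zero_iff_dvd).2 ((Nat.ordCompl_dvd_ordCompl_of_dvd ho p).trans hs.zero)
    have h4 : s0' ≡ 0 [MOD ordCompl[p] (orderOf y)] :=
      (Nat.modEq_zero_iff_dvd).2 ((Nat.ordCompl_dvd_ordCompl_of_dvd ho' p).trans hs'.zero)
    exact h3.trans h4.symm
  have hco : (ordProj[p] (orderOf y)).Coprime (ordCompl[p] (orderOf y)) :=
    Nat.Coprime.pow_left _ (Nat.coprime_ordCompl hp h0)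
  have h3 := (Nat.modEq_and_modEq_iff_modEq_mul hco).1 ⟨h1, h2⟩
  rwa [Nat.ordProj_mul_ordCompl_eq_self] at h3

end PRM

theorem specPRM : SpecPRM := by
  intro p hp L s0 hL hs
  refine ⟨fun a i ha => PRM.coprime hp hs ha i, fun {X} _ y k hy hk => ?_, fun {X} _ y hy hc => ?_,
    fun {X} _ y hy => ?_, fun A b t' hA => PRM.twist hs A b t' hA,
    fun L' s0' hL' hs' {X} _ y hy hy' => PRM.indep hp hL hs hL' hs' y hy hy'⟩
  · exact W.pow_s0_self hp hL hs (orderOf_dvd_of_pow_eq_one hy) hk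
  · exact W.pow_s0_one hp hL hs (orderOf_dvd_of_pow_eq_one hy) hc
  · exact pp_pow hs hy

end Pool.Agent.Lib.MP_1aae89_al.W3
end

section
/-!
# Module INE of Theorem W3 (MP_1aae89_al): Galois twists of induced class functions
-/
set_option autoImplicit false

namespace Pool.Agent.Lib.MP_1aae89_al.W3

open Pool.Agent.Lib.MP_1aae89_al Pool.Agent.Lib.MP_1aae89_al.BF Finset
open Pool.Agent.Lib.MP_1aae89_al.W (GC LD nR)
open Pool.Agent.Lib.MP1aae89 (Pex)

namespace INE

/-- membership of a power with an exponent prime to the order of the group -/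
theorem pow_mem_iff {X : Type} [Group X] [Finite X] (T : Subgroup X) {κ : ℕ}
    (hκ : (Nat.card X).Coprime κ) (z : X) : z ^ κ ∈ T ↔ z ∈ T := by
  refine ⟨fun h => ?_, fun h => T.pow_mem h κ⟩
  obtain ⟨m, hm⟩ := exists_pow_eq_self_of_coprime
    (show κ.Coprime (orderOf z) from (hκ.symm).coprime_dvd_right (orderOf_dvd_natCard z))
  rw [← hm]
  exact T.pow_mem h m

end INE

/-- INE. -/
theorem specINE : SpecINE := by
  intro p hp L s0 hL hs X _ _ hX T θ K a ha hθ y
  classical
  have hκ : (Nat.card X).Coprime (1 + s0 * p ^ a) := by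
    have h1 := PRM.coprime hp hs ha 1
    rw [mul_one] at h1
    exact (h1.coprime_dvd_right hX).symm
  unfold ind
  rw [mul_left_comm]
  refine congrArg ((Nat.card T : ℂ)⁻¹ * ·) ?_
  rw [mul_sum]
  refine Finset.sum_congr rfl fun x _ => ?_
  have h1 : x⁻¹ * y ^ (1 + s0 * p ^ a) * x = (x⁻¹ * y * x) ^ (1 + s0 * p ^ a) := by
    have h2 := conj_pow (i := 1 + s0 * p ^ a) (a := x⁻¹) (b := y)
    rw [inv_inv] at h2
    exact h2.symm
  by_cases h : x⁻¹ * y * x ∈ T
  · have h' : x⁻¹ * y ^ (1 + s0 * p ^ a) * x ∈ T := by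
      rw [h1]; exact T.pow_mem h _
    rw [dif_pos h, dif_pos h']
    have h3 : (⟨x⁻¹ * y ^ (1 + s0 * p ^ a) * x, h'⟩ : T) =
        (⟨x⁻¹ * y * x, h⟩ : T) ^ (1 + s0 * p ^ a) := by
      apply Subtype.ext
      rw [SubmonoidClass.coe_pow]
      exact h1
    rw [h3, hθ]
    congr 2
    show K (x⁻¹ * y * x) = K y
    rw [map_mul, map_mul, map_inv, mul_comm (K x)⁻¹, mul_assoc, inv_mul_cancel, mul_one]
  · have h' : ¬ x⁻¹ * y ^ (1 + s0 * p ^ a) * x ∈ T := by
      rw [h1, INE.pow_mem_iff T hκ]; exact h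
    rw [dif_neg h, dif_neg h', mul_zero]

end Pool.Agent.Lib.MP_1aae89_al.W3
end

section
/-!
# Module INJ of Theorem W3 (MP_1aae89_al): `f` is injective on `H0 P'`
-/
set_option autoImplicit false

namespace Pool.Agent.Lib.MP_1aae89_al.W3

open Pool.Agent.Lib.MP_1aae89_al Pool.Agent.Lib.MP_1aae89_al.BF Finset
open Pool.Agent.Lib.MP_1aae89_al.W (GC LD nR)
open Pool.Agent.Lib.MP1aae89 (Pex)

/-- INJ. -/
theorem specINJ : SpecINJ := by
  intro p hp X Y _ _ _ _ f hcen hker H0 P' _ hinj hP' y hy hfy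
  rw [sup_comm, ← SetLike.mem_coe, Subgroup.mul_normal] at hy
  obtain ⟨x, hx, h, hh, rfl⟩ := hy
  have hx : x ∈ P' := hx
  have hh : h ∈ H0 := hh
  have hfy : f (x * h) = 1 := hfy
  show x * h = 1
  obtain ⟨k, hk⟩ := hP' ⟨x, hx⟩
  have hk' : x ^ p ^ k = 1 := by
    have := congrArg (Subtype.val) hk
    simpa using this
  have hc : ∀ z, (x * h) * z = z * (x * h) := hcen _ hfy
  -- x = (x h) h⁻¹
  have h1 : (x * h) ^ p ^ k = h ^ p ^ k := by
    have hcomm : Commute (x * h) h := hc h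
    have h2 : x = (x * h) * h⁻¹ := by group
    have h3 : x ^ p ^ k = (x * h) ^ p ^ k * (h⁻¹) ^ p ^ k := by
      conv_lhs => rw [h2]
      exact (hcomm.inv_right).mul_pow _
    rw [hk', inv_pow] at h3
    exact (mul_inv_eq_one.1 h3.symm)
  have h4 : h ^ p ^ k = 1 := by
    apply hinj _ (H0.pow_mem hh _)
    rw [← h1, map_pow, hfy, one_pow]
  have h5 : (x * h) ^ p ^ k = 1 := h1.trans h4
  have h6 : (x * h) ^ Nat.card f.ker = 1 := by
    have h7 : (⟨x * h, hfy⟩ : f.ker) ^ Nat.card f.ker = 1 := pow_card_eq_one'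
    have := congrArg Subtype.val h7
    simpa using this
  have h8 : (Nat.card f.ker).Coprime (p ^ k) := Nat.Coprime.pow_right _ hker
  have h9 : orderOf (x * h) ∣ Nat.gcd (Nat.card f.ker) (p ^ k) :=
    Nat.dvd_gcd (orderOf_dvd_of_pow_eq_one h6) (orderOf_dvd_of_pow_eq_one h5)
  rw [h8.gcd_eq_one, Nat.dvd_one, orderOf_eq_one_iff] at h9
  exact h9

end Pool.Agent.Lib.MP_1aae89_al.W3
end

section
/-!
# Module INR: the inertia step
-/
set_option autoImplicit false

namespace Pool.Agent.Lib.MP_1aae89_al.W3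

open Pool.Agent.Lib.MP_1aae89_al Pool.Agent.Lib.MP_1aae89_al.BF Finset
open Pool.Agent.Lib.MP1aae89 (Pex)

/-- the order of the conjugate of a Sylow subgroup -/
theorem INR_card {p : ℕ} {X : Type} [Group X] [Finite X] (T P : Subgroup X)
    (hP : Nat.card P = p ^ (Nat.card X).factorization p) (hT : ¬ p ∣ T.index) (x : X)
    (hx : ∀ y ∈ P, x⁻¹ * y * x ∈ T) :
    Nat.card (cjP T P x) = p ^ (Nat.card T).factorization p := by
  have h1 : (Nat.card T).factorization p = (Nat.card X).factorization p := by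
    rw [← Subgroup.card_mul_index T, Nat.factorization_mul Nat.card_pos.ne'
      Subgroup.index_ne_zero_of_finite, Finsupp.add_apply,
      Nat.factorization_eq_zero_of_not_dvd hT, add_zero]
  rw [h1, ← hP]
  have hmem : ∀ z : T, z ∈ cjP T P x ↔ x * (z : X) * x⁻¹ ∈ P := fun z => Iff.rfl
  refine Nat.card_congr ⟨fun z => ⟨x * (z.1 : X) * x⁻¹, (hmem z.1).1 z.2⟩,
    fun y => ⟨⟨x⁻¹ * (y : X) * x, hx y y.2⟩, (hmem _).2 ?_⟩, ?_, ?_⟩
  · have h2 : x * (x⁻¹ * (y : X) * x) * x⁻¹ = y := by group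
    change x * (x⁻¹ * (y : X) * x) * x⁻¹ ∈ P
    rw [h2]
    exact y.2
  · intro z
    refine Subtype.ext (Subtype.ext ?_)
    change x⁻¹ * (x * (z.1 : X) * x⁻¹) * x = z.1
    group
  · intro y
    refine Subtype.ext ?_
    change x * (x⁻¹ * (y : X) * x) * x⁻¹ = y
    group

/-- every function has a finite level -/
theorem INR_level {p L s0 : ℕ} (hpex : Pex p L s0) {X : Type} [Group X]
    (hX : ∀ y : X, y ^ L = 1) (ψ : X → ℂ) {b : ℕ} (hb : L.factorization p ≤ b) :
    FX p s0 b ψ := by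
  intro t y
  have h1 : L ∣ s0 * p ^ b * t := by
    obtain ⟨c, hc⟩ := hpex.zero
    obtain ⟨d, rfl⟩ := Nat.exists_eq_add_of_le hb
    have h2 : s0 * p ^ (L.factorization p + d) * t =
        (ordProj[p] L * ordCompl[p] L) * (c * p ^ d * t) := by
      conv_lhs => rw [hc, pow_add]
      ring
    rw [h2, Nat.ordProj_mul_ordCompl_eq_self]
    exact dvd_mul_right _ _
  obtain ⟨c, hc⟩ := h1
  rw [pow_add, pow_one, hc, pow_mul, hX, one_pow, mul_one]

theorem specINR (hSCK : SpecSCK) (hINE : SpecINE) (hPWL : SpecPWL) (hPRM : SpecPRM)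
    (hSU0 : SpecSU0) : SpecINR := by
  intro p hp L s0 hL hpex b hb X _ _ hX P hP n r hr hn T E hE hE0 hT hT' hIC hFX K hK hne
  classical
  have : Fintype X := Fintype.ofFinite X
  have : Fintype P := Fintype.ofFinite P
  have hn0 : n ≠ 0 := by
    rintro rfl
    exact hn (dvd_zero p)
  have hXL : ∀ y : X, y ^ L = 1 := by
    intro y
    obtain ⟨c, hc⟩ := hX
    rw [hc, pow_mul, pow_card_eq_one', one_pow]
  -- the pair
  obtain ⟨k, J, J', hJ, hJ'⟩ := idem_factor E hE
  have hpr : Pr r ⊥ T k J J' := by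
    refine ⟨bot_le, ?_, hJ', ?_, ?_⟩
    · rintro rfl
      apply hE0
      rw [← hJ]
      ext i j
      rw [Matrix.mul_apply]
      simp
    · intro w hw
      rw [hJ]
      exact (hT w hw).symm
    · intro g hg
      rw [hJ]
      exact hT' g hg
  have hs : Sch hpr.rep := hpr.sch hr hn0
  have hidx : n = T.index * k := hpr.index hr hn0
  have hTi : ¬ p ∣ T.index := fun h => hn (hidx ▸ dvd_mul_of_dvd_left h k)
  have hk : ¬ p ∣ k := fun h => hn (hidx ▸ dvd_mul_of_dvd_right h T.index)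
  set ψ : T → ℂ := fun w => (hpr.rep w).trace with hψ
  have hψc : IsCharacter ψ := isCharacter_trace hpr.rep
  have hind : ∀ g : X, (r g).trace = ind T ψ g := fun g => hpr.trace_ind hr hn0 g
  have hTL : Nat.card T ∣ L := (Subgroup.card_subgroup_dvd_card T).trans hX
  by_contra hcon
  have hcon2 : ∀ (q : ℕ) (K' : Lin X),
      ¬ p ∣ dl q (fun x : P => (r x).trace) (resL P K') →
      ¬ p ∣ dl q (fun x : P => ind T ψ (x : X)) (resL P K') := by
    intro q K' h
    have h1 : (fun x : P => ind T ψ (x : X)) = fun x : P => (r x).trace :=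
      funext fun x => (hind x).symm
    rw [h1]
    exact h
  by_cases hc : FX p s0 b ψ
  · -- first case
    obtain ⟨x, hx, hx2⟩ := hSCK p hp T P _ hP ψ hψc K (p ^ (b - 1))
      (dvd_pow_self p (by omega)) (hcon2 _ _ hcon)
    have h1 : ∀ y : T, ψ (y ^ (1 + s0 * p ^ (b - 1))) = ((K (y : X) : ℂˣ) : ℂ) * ψ y := by
      by_contra h2
      push Not at h2
      refine hx2 (hIC hTi b le_rfl L s0 hL hTL hpex (cjP T P x) (INR_card T P hP hTi x hx) k
        hpr.rep hs hk hc (resL T K) ?_ h2)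
      refine Lin.ext fun y => ?_
      rw [Lin.pow_apply, resL_apply, ← Lin.pow_apply, hK]
      rfl
    obtain ⟨y, hy⟩ := hne
    apply hy
    rw [hind, hind]
    exact hINE p hp L s0 hL hpex hX T ψ K (b - 1) (by omega) h1 y
  · -- second case
    have hex : ∃ b' : ℕ, b ≤ b' ∧ FX p s0 b' ψ :=
      ⟨max b (L.factorization p), le_max_left _ _, INR_level hpex (fun y => by
        refine Subtype.ext ?_
        rw [Subgroup.coe_pow, hXL]
        rfl) ψ (le_max_right _ _)⟩
    obtain ⟨hb1, hb2⟩ := Nat.find_spec hex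
    have hmin := fun m => Nat.find_min hex (m := m)
    set b' := Nat.find hex with hb'
    have hlt : b < b' := by
      rcases Nat.lt_or_ge b b' with h | h
      · exact h
      · have h1 : b' = b := le_antisymm h hb1
        rw [h1] at hb2
        exact absurd hb2 hc
    have hnl : ∃ y : T, ψ (y ^ (1 + s0 * p ^ (b' - 1))) ≠ ψ y := by
      by_contra h1
      push Not at h1
      have h2 := hPWL p hp L s0 hL hpex b' (by omega) ψ (fun y => by
        refine Subtype.ext ?_
        rw [Subgroup.coe_pow, hXL]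
        rfl) hb2 h1
      exact hmin (b' - 1) (by omega) ⟨by omega, h2⟩
    have hPpow : ∀ x : P, (x : X) ^ p ^ (Nat.card X).factorization p = 1 := by
      intro x
      have h1 : x ^ Nat.card P = 1 := pow_card_eq_one'
      rw [hP] at h1
      have h2 := congrArg (Subtype.val) h1
      rw [Subgroup.coe_pow] at h2
      exact h2
    have hPs0 : ∀ x : P, (x : X) ^ s0 = x := fun x =>
      (hPRM p hp L s0 hL hpex).2.1 (x : X) _ (hXL x) (hPpow x)
    have h3 : ∀ (t : ℕ) (x : P), (r ((x ^ (1 + p ^ (b' - 1) * t) : P) : X)).trace =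
        (r (x : X)).trace := by
      intro t x
      have h4 := hFX (p ^ (b' - 1 - b) * t) (x : X)
      simp only at h4
      have h5 : s0 * p ^ b * (p ^ (b' - 1 - b) * t) = s0 * (p ^ (b' - 1) * t) := by
        have h6 : p ^ (b' - 1) = p ^ b * p ^ (b' - 1 - b) := by
          rw [← pow_add]
          congr 1
          omega
        rw [h6]
        ring
      rw [h5, pow_add, pow_mul, hPs0 x, ← pow_add] at h4
      rw [Subgroup.coe_pow]
      exact h4
    have h7 : dl (p ^ (b' - 1)) (fun x : P => (r x).trace) 1 ≡ n [MOD p] :=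
      hSU0 p hp _ hP (fun x : P => (r x).trace) ((isCharacter_trace r).comp P.subtype) b'
        (by omega) h3 n (by
          change (r ((1 : P) : X)).trace = n
          rw [Subgroup.coe_one, map_one, Matrix.trace_one, Fintype.card_fin])
    have h8 : ¬ p ∣ dl (p ^ (b' - 1)) (fun x : P => (r x).trace) (resL P (1 : Lin X)) := by
      intro h9
      exact hn ((h7.dvd_iff dvd_rfl).1 h9)
    obtain ⟨x, hx, hx2⟩ := hSCK p hp T P _ hP ψ hψc 1 (p ^ (b' - 1))
      (dvd_pow_self p (by omega)) (hcon2 _ _ h8)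
    refine hx2 (hIC hTi b' hb1 L s0 hL hTL hpex (cjP T P x) (INR_card T P hP hTi x hx) k
      hpr.rep hs hk hb2 (resL T 1) ?_ ?_)
    · refine Lin.ext fun y => ?_
      rw [Lin.pow_apply, resL_apply, Lin.one_apply, Lin.one_apply, one_pow]
    · obtain ⟨y, hy⟩ := hnl
      refine ⟨y, ?_⟩
      rw [resL_apply, Lin.one_apply, Units.val_one, one_mul]
      exact hy

end Pool.Agent.Lib.MP_1aae89_al.W3
end

section
/-!
# ISO: invariance under isomorphisms
-/
set_option autoImplicit false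

namespace Pool.Agent.Lib.MP_1aae89_al.W3

open Pool.Agent.Lib.MP_1aae89_al Pool.Agent.Lib.MP_1aae89_al.BF Finset
open Pool.Agent.Lib.MP1aae89 (Pex)

namespace ISOM

variable {X Y : Type} [Group X] [Group Y]

theorem schE {n : ℕ} (e : X ≃* Y) {r : Y →* Matrix (Fin n) (Fin n) ℂ} (hr : Sch r) :
    Sch (r.comp e.toMonoidHom) := by
  intro T hT
  refine hr T fun g => ?_
  have h1 := hT (e.symm g)
  have h2 : (r.comp e.toMonoidHom) (e.symm g) = r g := by
    show r (e (e.symm g)) = r g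
    rw [MulEquiv.apply_symm_apply]
  rwa [h2] at h1

theorem fxE {p s0 a n : ℕ} (e : X ≃* Y) {r : Y →* Matrix (Fin n) (Fin n) ℂ}
    (h : FX p s0 a (fun y => (r y).trace)) :
    FX p s0 a (fun y => ((r.comp e.toMonoidHom) y).trace) := by
  intro t y
  show (r (e (y ^ (1 + s0 * p ^ a * t)))).trace = (r (e y)).trace
  rw [map_pow]
  exact h t (e y)

theorem fxE' {p s0 a n : ℕ} (e : X ≃* Y) {r : Y →* Matrix (Fin n) (Fin n) ℂ}
    (h : FX p s0 a (fun y => ((r.comp e.toMonoidHom) y).trace)) :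
    FX p s0 a (fun y => (r y).trace) := by
  intro t y
  have h1 := h t (e.symm y)
  have h2 : (r (e ((e.symm y) ^ (1 + s0 * p ^ a * t)))).trace = (r (e (e.symm y))).trace := h1
  rw [map_pow, MulEquiv.apply_symm_apply] at h2
  exact h2

theorem ic [Finite X] [Finite Y] (hQDL : SpecQDL) (p b : ℕ) (e : X ≃* Y) (h : IC p b X) :
    IC p b Y := by
  intro L s0 hL hcL hpex P hP n r hr hpn hfx K hK hex
  have hXY : Nat.card X = Nat.card Y := Nat.card_congr e.toEquiv
  let PX : Subgroup X := P.comap e.toMonoidHom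
  let π : PX →* P := MonoidHom.mk' (fun x => ⟨e x, x.2⟩) fun x y =>
    Subtype.ext (map_mul e (x : X) (y : X))
  have hπs : Function.Surjective π := by
    rintro ⟨y, hy⟩
    refine ⟨⟨e.symm y, ?_⟩, ?_⟩
    · show e (e.symm y) ∈ P
      rw [MulEquiv.apply_symm_apply]
      exact hy
    · exact Subtype.ext (MulEquiv.apply_symm_apply e y)
  have hπi : Function.Injective π := by
    intro x y hxy
    have h1 : e (x : X) = e (y : X) := congrArg Subtype.val hxy
    exact Subtype.ext (e.injective h1)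
  have hPX : Nat.card PX = p ^ (Nat.card X).factorization p := by
    rw [hXY, ← hP]
    exact Nat.card_congr (Equiv.ofBijective π ⟨hπi, hπs⟩)
  have hKX : (pb e.toMonoidHom K) ^ p = 1 := by
    apply Lin.ext
    intro x
    rw [Lin.pow_apply, pb_apply, ← Lin.pow_apply, hK, Lin.one_apply, Lin.one_apply]
  have hexX : ∃ y, ((r.comp e.toMonoidHom) (y ^ (1 + s0 * p ^ (b - 1)))).trace ≠
      (pb e.toMonoidHom K y : ℂ) * ((r.comp e.toMonoidHom) y).trace := by
    obtain ⟨y, hy⟩ := hex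
    refine ⟨e.symm y, ?_⟩
    intro h1
    apply hy
    have h2 : (r (e ((e.symm y) ^ (1 + s0 * p ^ (b - 1))))).trace =
      (K (e (e.symm y)) : ℂ) * (r (e (e.symm y))).trace := h1
    rw [map_pow, MulEquiv.apply_symm_apply] at h2
    exact h2
  have h1 := h L s0 hL (hXY ▸ hcL) hpex PX hPX n (r.comp e.toMonoidHom) (schE e hr) hpn
    (fxE e hfx) (pb e.toMonoidHom K) hKX hexX
  have hc : IsCharacter (fun x : P => (r x).trace) := ⟨n, r.comp P.subtype, fun _ => rfl⟩
  have h2 := hQDL π hπs (p ^ (b - 1)) (fun x : P => (r x).trace) hc (resL P K)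
  rw [← h2]
  exact h1

theorem fxd [Finite X] [Finite Y] (p b : ℕ) (e : X ≃* Y) (h : Fxd p b X) : Fxd p b Y := by
  intro L s0 hL hcL hpex n r hr hpn
  have hXY : Nat.card X = Nat.card Y := Nat.card_congr e.toEquiv
  exact fxE' e (h L s0 hL (hXY ▸ hcL) hpex n (r.comp e.toMonoidHom) (schE e hr) hpn)

theorem good [Finite X] [Finite Y] (p b : ℕ) (e : X ≃* Y) (h : Good p b X) : Good p b Y := by
  intro W _ _ f hcen hker hidx b' hb'
  have hf1 : ∀ w, (e.symm.toMonoidHom.comp f) w = 1 ↔ f w = 1 := by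
    intro w
    show e.symm (f w) = 1 ↔ f w = 1
    constructor
    · intro h1
      have h2 := congrArg e h1
      rw [MulEquiv.apply_symm_apply, map_one] at h2
      exact h2
    · intro h1
      rw [h1, map_one]
  refine h W (e.symm.toMonoidHom.comp f) (fun y hy => hcen y ((hf1 y).1 hy)) ?_ ?_ b' hb'
  · have h1 : (e.symm.toMonoidHom.comp f).ker = f.ker := by
      ext w
      rw [MonoidHom.mem_ker, MonoidHom.mem_ker]
      exact hf1 w
    rw [h1]
    exact hker
  · have h1 : (e.symm.toMonoidHom.comp f).range = f.range.map e.symm.toMonoidHom :=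
      MonoidHom.range_comp e.symm.toMonoidHom f
    have h2 : (f.range.map e.symm.toMonoidHom).index = f.range.index :=
      Subgroup.index_map_equiv f.range e.symm
    rw [h1, h2]
    exact hidx

end ISOM

theorem specISO (hQDL : SpecQDL) : SpecISO := by
  intro p b X Y _ _ _ _ e
  exact ⟨ISOM.ic hQDL p b e, ISOM.fxd p b e, ISOM.good p b e⟩

end Pool.Agent.Lib.MP_1aae89_al.W3
end

section
/-!
# KTR: constituents and the kernel
-/
set_option autoImplicit false

namespace Pool.Agent.Lib.MP_1aae89_al.W3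

open Pool.Agent.Lib.MP_1aae89_al Pool.Agent.Lib.MP_1aae89_al.BF Finset
open Pool.Agent.Lib.MP1aae89 (Pex)

namespace KTRM

theorem two {X : Type} [Group X] [Finite X] (H0 P : Subgroup X) (χ : X → ℂ) (hχ : IsCharacter χ)
    (hk : ∀ x, ∀ h ∈ H0, χ (x * h) = χ x) (η : Lin P) (hη : ml (fun x : P => χ x) η ≠ 0)
    (x0 : P) (hx0 : (x0 : X) ∈ H0) : η x0 = 1 := by
  classical
  haveI : Fintype P := Fintype.ofFinite P
  have hc : IsCharacter (fun x : P => χ x) := hχ.comp P.subtype
  have h1 := ml_spec hc η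
  set S : ℂ := ∑ x : P, χ x * (((η x)⁻¹ : ℂˣ) : ℂ) with hS
  have hS0 : S ≠ 0 := by
    intro h
    rw [h, mul_zero] at h1
    exact hη (by exact_mod_cast h1)
  have h2 : S = (((η x0)⁻¹ : ℂˣ) : ℂ) * S := by
    have h3 : S = ∑ x : P, χ ((x * x0 : P) : X) * (((η (x * x0))⁻¹ : ℂˣ) : ℂ) :=
      (Equiv.sum_comp (Equiv.mulRight x0) fun x : P => χ x * (((η x)⁻¹ : ℂˣ) : ℂ)).symm
    conv_lhs => rw [h3]
    rw [hS, mul_sum]
    refine sum_congr rfl fun x _ => ?_
    have h4 : χ ((x * x0 : P) : X) = χ x := hk x x0 hx0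
    rw [h4, map_mul, mul_inv, Units.val_mul]
    ring
  have h5 : (((η x0)⁻¹ : ℂˣ) : ℂ) = 1 := by
    have h6 : (1 - (((η x0)⁻¹ : ℂˣ) : ℂ)) * S = 0 := by
      rw [sub_mul, one_mul, ← h2, sub_self]
    rcases mul_eq_zero.1 h6 with h7 | h7
    · exact (sub_eq_zero.1 h7).symm
    · exact absurd h7 hS0
  have h6 : (η x0)⁻¹ = 1 := Units.ext h5
  exact inv_eq_one.1 h6

end KTRM

theorem specKTR : SpecKTR := by
  intro p hp X _ _ H0 P _ hP χ hχ hk
  classical
  haveI : Fact p.Prime := ⟨hp⟩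
  refine ⟨?_, KTRM.two H0 P χ hχ hk⟩
  intro K hK q hdl h hh
  -- there is `η`
  have h1 : ∃ η : Lin P, η ^ q = resL P K ∧ ml (fun x : P => χ x) η ≠ 0 := by
    by_contra hcon
    apply hdl
    unfold dl
    refine sum_eq_zero fun η hη => ?_
    rw [mem_filter] at hη
    by_contra h2
    exact hcon ⟨η, hη.2, h2⟩
  obtain ⟨η, hη1, hη2⟩ := h1
  have hPH : ∀ x : P, (x : X) ∈ H0 → K x = 1 := by
    intro x hx
    have h2 := KTRM.two H0 P χ hχ hk η hη2 x hx
    have h3 : (η ^ q) x = (resL P K) x := by rw [hη1]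
    rw [Lin.pow_apply, h2, one_pow, resL_apply] at h3
    exact h3.symm
  have hX0 : Nat.card X ≠ 0 := Nat.card_pos.ne'
  have hKp : K h ^ p = 1 := by
    have h2 : (K ^ p) h = (1 : Lin X) h := by rw [hK]
    rw [Lin.pow_apply, Lin.one_apply] at h2
    exact h2
  have hcard : h ^ Nat.card X = 1 := pow_card_eq_one'
  by_cases hpX : p ∣ Nat.card X
  · obtain ⟨s0, hs0⟩ := Pool.Agent.Lib.MP1aae89.exists_pex hp hX0
    have h2 : (h ^ s0) ^ ordProj[p] (Nat.card X) = 1 :=
      Pool.Agent.Lib.MP1aae89.pp_pow hs0 hcard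
    -- conjugate into `P`
    have h3 : IsPGroup p (Subgroup.zpowers (h ^ s0)) := by
      rintro ⟨z, hz⟩
      obtain ⟨i, rfl⟩ := Subgroup.mem_zpowers_iff.1 hz
      refine ⟨(Nat.card X).factorization p, Subtype.ext ?_⟩
      show ((h ^ s0) ^ i) ^ p ^ (Nat.card X).factorization p = 1
      rw [← zpow_natCast, ← zpow_mul, mul_comm, zpow_mul, zpow_natCast, h2, one_zpow]
    obtain ⟨Q, hQ⟩ := h3.exists_le_sylow
    let S : Sylow p X := Sylow.ofCard P hP
    obtain ⟨g, hg⟩ := MulAction.exists_smul_eq X Q S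
    have h4 : g * h ^ s0 * g⁻¹ ∈ P := by
      have h5 : g * h ^ s0 * g⁻¹ ∈ (S : Subgroup X) := by
        rw [← hg, Sylow.coe_subgroup_smul]
        rw [Subgroup.mem_pointwise_smul_iff_inv_smul_mem]
        have h6 : (MulAut.conj g)⁻¹ • (g * h ^ s0 * g⁻¹) = h ^ s0 := by
          rw [← map_inv, MulAut.smul_def, MulAut.conj_apply]
          group
        have h7 : h ^ s0 ∈ (Q : Subgroup X) := hQ (Subgroup.mem_zpowers _)
        first
          | exact h6 ▸ h7
          | (rw [h6]; exact h7)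
      exact h5
    have h5 : g * h ^ s0 * g⁻¹ ∈ H0 :=
      Subgroup.Normal.conj_mem inferInstance _ (Subgroup.pow_mem _ hh s0) g
    have h6 : K (g * h ^ s0 * g⁻¹) = 1 := hPH ⟨_, h4⟩ h5
    have h7 : K (h ^ s0) = 1 := by
      rw [map_mul, map_mul, map_inv, mul_comm (K g), mul_assoc, mul_inv_cancel, mul_one] at h6
      exact h6
    have h8 : s0 ≡ 1 [MOD p] := by
      refine hs0.one.of_dvd ?_
      have h9 : (Nat.card X).factorization p ≠ 0 := by
        have := hp.factorization_pos_of_dvd hX0 hpX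
        omega
      exact dvd_pow_self p h9
    have h9 : K h ^ s0 = K h ^ 1 :=
      pow_eq_pow_iff_modEq.2 (h8.of_dvd (orderOf_dvd_of_pow_eq_one hKp))
    rw [map_pow, h9, pow_one] at h7
    exact h7
  · have h2 : K h ^ Nat.card X = 1 := by rw [← map_pow, hcard, map_one]
    have h3 : orderOf (K h) ∣ 1 := by
      have h4 := orderOf_dvd_of_pow_eq_one hKp
      have h5 := orderOf_dvd_of_pow_eq_one h2
      have h6 := Nat.dvd_gcd h4 h5
      have h7 : Nat.gcd p (Nat.card X) = 1 := (hp.coprime_iff_not_dvd).2 hpX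
      rwa [h7] at h6
    have h4 : orderOf (K h) = 1 := Nat.dvd_one.1 h3
    exact orderOf_eq_one_iff.1 h4

end Pool.Agent.Lib.MP_1aae89_al.W3
end

section
/-!
# Module LF2: a lemma of Frobenius type with denominators
-/
set_option autoImplicit false

namespace Pool.Agent.Lib.MP_1aae89_al.W3

open Pool.Agent.Lib.MP_1aae89_al Pool.Agent.Lib.MP_1aae89_al.BF Finset
open Pool.Agent.Lib.MP_1aae89_al.W (GC LD nR)
open Pool.Agent.Lib.MP_1aae89_al.W.LFM (pif fix_iff)

namespace LF2

/-- the sum of an invariant function over the orbits -/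
theorem orb_sum {D : Type} [Group D] [Fintype D] {Ω : Type} [Fintype Ω] [MulAction D Ω]
    (m : Ω → ℂ) (hm : ∀ (g : D) (ω : Ω), m (g • ω) = m ω) (hi : ∀ ω, IsIntegral ℤ (m ω)) :
    ∃ c : ℂ, IsIntegral ℤ c ∧
      ∑ ω : Ω, (Nat.card (MulAction.stabilizer D ω) : ℂ) * m ω = (Fintype.card D : ℂ) * c := by
  classical
  let rep : Ω → Ω := fun ω => Quotient.out (Quotient.mk (MulAction.orbitRel D Ω) ω)
  have hrep : ∀ ω, ∃ g : D, g • rep ω = ω := by
    intro ω
    have h : (MulAction.orbitRel D Ω) (rep ω) ω :=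
      @Quotient.mk_out _ (MulAction.orbitRel D Ω) ω
    obtain ⟨g, hg⟩ := (MulAction.orbitRel_apply.1 h)
    refine ⟨g⁻¹, ?_⟩
    have hg' : g • ω = rep ω := hg
    rw [← hg', inv_smul_smul]
  have hrepg : ∀ (g : D) ω, rep (g • ω) = rep ω := by
    intro g ω
    have h : Quotient.mk (MulAction.orbitRel D Ω) (g • ω) =
        Quotient.mk (MulAction.orbitRel D Ω) ω :=
      Quotient.sound (MulAction.orbitRel_apply.2 ⟨g, rfl⟩)
    show Quotient.out (Quotient.mk (MulAction.orbitRel D Ω) (g • ω)) = _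
    rw [h]
  have hrr : ∀ ω, rep (rep ω) = rep ω := by
    intro ω
    obtain ⟨g, hg⟩ := hrep ω
    have h := hrepg g (rep ω)
    rw [hg] at h
    exact h.symm
  have hmr : ∀ ω, m ω = m (rep ω) := by
    intro ω
    obtain ⟨g, hg⟩ := hrep ω
    conv_lhs => rw [← hg]
    exact hm g _
  have hst : ∀ ω, (Nat.card (MulAction.stabilizer D ω) : ℂ) =
      ∑ g : D, if g • rep ω = ω then (1 : ℂ) else 0 := by
    intro ω
    obtain ⟨g0, hg0⟩ := hrep ω
    rw [Finset.sum_boole, ← Fintype.card_subtype, ← Nat.card_eq_fintype_card]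
    congr 1
    refine Nat.card_congr ⟨fun s => ⟨s.1 * g0, ?_⟩, fun g => ⟨g.1 * g0⁻¹, ?_⟩, ?_, ?_⟩
    · have h : s.1 • ω = ω := s.2
      rw [mul_smul, hg0, h]
    · show (g.1 * g0⁻¹) • ω = ω
      have h1 : g0⁻¹ • ω = rep ω := by rw [inv_smul_eq_iff, hg0]
      rw [mul_smul, h1, g.2]
    · intro s
      exact Subtype.ext (mul_inv_cancel_right _ _)
    · intro g
      exact Subtype.ext (inv_mul_cancel_right _ _)
  refine ⟨∑ r ∈ univ.image rep, m r, IsIntegral.sum _ fun r _ => hi r, ?_⟩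
  have h1 : ∑ ω : Ω, (Nat.card (MulAction.stabilizer D ω) : ℂ) * m ω =
      ∑ g : D, ∑ ω : Ω, if g • rep ω = ω then m (rep ω) else 0 := by
    rw [Finset.sum_comm]
    refine Finset.sum_congr rfl fun ω _ => ?_
    rw [hst ω, Finset.sum_mul]
    refine Finset.sum_congr rfl fun g _ => ?_
    rw [← hmr ω]
    split_ifs
    · rw [one_mul]
    · rw [zero_mul]
  rw [h1]
  have h2 : ∀ g : D, (∑ ω : Ω, if g • rep ω = ω then m (rep ω) else 0) =
      ∑ r ∈ univ.image rep, m r := by
    intro g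
    rw [← Finset.sum_filter]
    refine Finset.sum_bij' (fun ω _ => rep ω) (fun r _ => g • r) ?_ ?_ ?_ ?_ ?_
    · intro ω _
      exact Finset.mem_image_of_mem _ (mem_univ _)
    · intro r hr
      obtain ⟨ω, -, rfl⟩ := Finset.mem_image.1 hr
      refine mem_filter.2 ⟨mem_univ _, ?_⟩
      rw [hrepg, hrr]
    · intro ω hω
      exact (mem_filter.1 hω).2
    · intro r hr
      obtain ⟨ω, -, rfl⟩ := Finset.mem_image.1 hr
      show rep (g • rep ω) = rep ω
      rw [hrepg, hrr]
    · intro ω _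
      rfl
  rw [Finset.sum_congr rfl fun g _ => h2 g, Finset.sum_const, Finset.card_univ, nsmul_eq_mul]

open Classical in
/-- the number of fixed points on the power -/
theorem card_fix {D : Type} [Group D] [Fintype D] (Q : Subgroup D) (i : ℕ) (w : D) :
    (univ.filter fun ω : Fin i → D ⧸ Q => w • ω = ω).card = pif Q w ^ i := by
  unfold pif
  have h : (univ.filter fun ω : Fin i → D ⧸ Q => w • ω = ω) =
      Fintype.piFinset fun _ : Fin i => univ.filter fun c : D ⧸ Q => w • c = c := by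
    ext ω
    simp only [mem_filter, mem_univ, true_and, Fintype.mem_piFinset]
    constructor
    · intro h j
      exact congrFun h j
    · intro h
      funext j
      exact h j
  rw [h, Fintype.card_piFinset, Finset.prod_const, Finset.card_univ, Fintype.card_fin]

end LF2

open LF2

theorem specLF2 : SpecLF2 := by
  classical
  intro l hl D _ _ F hF mm hint havg
  have : Fact l.Prime := ⟨hl⟩
  set a := (Fintype.card D).factorization l with ha
  have hcard : Fintype.card D ≠ 0 := Fintype.card_ne_zero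
  obtain ⟨Q0⟩ : Nonempty (Sylow l D) := inferInstance
  set Q : Subgroup D := (Q0 : Subgroup D) with hQd
  have hQ : Nat.card Q = l ^ a := by
    rw [ha, ← Nat.card_eq_fintype_card]
    exact Sylow.card_eq_multiplicity Q0
  -- the index
  have hidx : Fintype.card D = l ^ a * Q.index := by
    rw [← hQ, Subgroup.card_mul_index, Nat.card_eq_fintype_card]
  have hidx2 : ¬ l ∣ Q.index := by
    intro h
    have h1 : l ^ (a + 1) ∣ Fintype.card D := by
      rw [hidx, pow_succ]
      exact Nat.mul_dvd_mul_left _ h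
    exact Nat.pow_succ_factorization_not_dvd hcard hl h1
  -- values of pi
  have hpi0 : ∀ w, pif Q w ≠ 0 → ∃ x, x⁻¹ * w * x ∈ Q := by
    intro w hw
    unfold pif at hw
    obtain ⟨c, hc⟩ := Finset.card_ne_zero.1 hw
    obtain ⟨x, rfl⟩ := QuotientGroup.mk_surjective c
    exact ⟨x, (fix_iff Q w x).1 (mem_filter.1 hc).2⟩
  have hpiel : ∀ w, pif Q w ≠ 0 → ∃ k : ℕ, w ^ l ^ k = 1 := by
    intro w hw
    obtain ⟨x, hx⟩ := hpi0 w hw
    refine ⟨a, ?_⟩
    have h1 : (⟨_, hx⟩ : Q) ^ Nat.card Q = 1 := pow_card_eq_one'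
    rw [hQ] at h1
    have h2 : (x⁻¹ * w * x) ^ l ^ a = 1 := congrArg Subtype.val h1
    have h3 : (x⁻¹ * w * x) ^ l ^ a = x⁻¹ * w ^ l ^ a * x := by
      have := conj_pow (i := l ^ a) (a := x⁻¹) (b := w)
      rwa [inv_inv] at this
    rw [h3] at h2
    have h4 := congrArg (fun y => x * y * x⁻¹) h2
    simpa [mul_assoc] using h4
  have hpimod : ∀ w, (∃ k : ℕ, w ^ l ^ k = 1) → ¬ l ∣ pif Q w := by
    rintro w ⟨k, hk⟩ hd
    have hpg : IsPGroup l (Subgroup.zpowers w) := by
      rintro ⟨y, hy⟩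
      obtain ⟨i, rfl⟩ := Subgroup.mem_zpowers_iff.1 hy
      refine ⟨k, Subtype.ext ?_⟩
      show (w ^ i) ^ l ^ k = 1
      rw [← zpow_natCast, zpow_comm, zpow_natCast, hk, one_zpow]
    have h1 := hpg.card_modEq_card_fixedPoints (D ⧸ Q)
    have h2 : Nat.card (MulAction.fixedPoints (Subgroup.zpowers w) (D ⧸ Q)) = pif Q w := by
      unfold pif
      rw [← Fintype.card_subtype, ← Nat.card_eq_fintype_card]
      refine Nat.card_congr (Equiv.subtypeEquivRight fun c => ?_)
      constructor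
      · intro h
        exact h ⟨w, Subgroup.mem_zpowers w⟩
      · rintro h ⟨y, hy⟩
        obtain ⟨i, rfl⟩ := Subgroup.mem_zpowers_iff.1 hy
        show w ^ i • c = c
        have h3 : w ∈ MulAction.stabilizer D c := h
        exact (MulAction.stabilizer D c).zpow_mem h3 i
    rw [h2] at h1
    have h3 : Nat.card (D ⧸ Q) = Q.index := rfl
    rw [h3] at h1
    exact hidx2 ((Nat.modEq_zero_iff_dvd).1 (h1.trans ((Nat.modEq_zero_iff_dvd).2 hd)))
  -- Euler
  obtain ⟨k, hk⟩ : ∃ k, (l ^ (a + mm)).totient = k + 1 :=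
    ⟨_, (Nat.succ_pred_eq_of_pos (Nat.totient_pos.2 (pow_pos hl.pos _))).symm⟩
  have heul : ∀ w, (∃ k : ℕ, w ^ l ^ k = 1) →
      ∃ m : ℤ, ((pif Q w : ℂ)) ^ (k + 1) - 1 = (l : ℂ) ^ (a + mm) * m := by
    intro w hw
    have h1 : (pif Q w).Coprime (l ^ (a + mm)) :=
      Nat.Coprime.pow_right _ ((hl.coprime_iff_not_dvd.2 (hpimod w hw)).symm)
    have h2 := Nat.ModEq.pow_totient h1
    rw [hk] at h2
    obtain ⟨m, hm⟩ := (Nat.modEq_iff_dvd.1 h2.symm)
    refine ⟨m, ?_⟩
    have h3 := congrArg (fun z : ℤ => (z : ℂ)) hm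
    push_cast at h3
    exact h3
  choose! m hm using heul
  -- the main sum
  let Ω := Fin (k + 1) → D ⧸ Q
  have hstab : ∀ ω : Ω, IsPGroup l (MulAction.stabilizer D ω) := by
    intro ω
    obtain ⟨x, hx⟩ := QuotientGroup.mk_surjective (ω 0)
    rintro ⟨g, hg⟩
    have h1 : g • ω = ω := hg
    have h2 : g • (ω 0) = ω 0 := congrFun h1 0
    rw [← hx] at h2
    have h3 := (fix_iff Q g x).1 h2
    have h4 : pif Q g ≠ 0 := by
      unfold pif
      exact Finset.card_ne_zero.2 ⟨_, mem_filter.2 ⟨mem_univ _, h2⟩⟩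
    obtain ⟨j, hj⟩ := hpiel g h4
    exact ⟨j, Subtype.ext hj⟩
  obtain ⟨c, hc, hsum⟩ := orb_sum (D := D) (Ω := Ω)
    (fun ω => (Nat.card (MulAction.stabilizer D ω) : ℂ)⁻¹ *
      ∑ w : D, if w ∈ MulAction.stabilizer D ω then F w else 0)
    (by
      intro g ω
      have h1 : Nat.card (MulAction.stabilizer D (g • ω)) =
          Nat.card (MulAction.stabilizer D ω) :=
        Nat.card_congr (MulAction.stabilizerEquivStabilizerOfOrbitRel
          (MulAction.orbitRel_apply.2 ⟨g, rfl⟩)).toEquiv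
      have h2 : (∑ w : D, if w ∈ MulAction.stabilizer D (g • ω) then F w else 0) =
          ∑ w : D, if w ∈ MulAction.stabilizer D ω then F w else 0 := by
        refine Fintype.sum_equiv (MulAut.conj g⁻¹).toEquiv _ _ fun w => ?_
        have h4 : (MulAut.conj g⁻¹).toEquiv w = g⁻¹ * w * g := by
          show g⁻¹ * w * g⁻¹⁻¹ = _
          rw [inv_inv]
        rw [h4]
        have h5 : F (g⁻¹ * w * g) = F w := by
          have := hF g⁻¹ w
          rwa [inv_inv] at this
        have h6 : w ∈ MulAction.stabilizer D (g • ω) ↔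
            g⁻¹ * w * g ∈ MulAction.stabilizer D ω := by
          rw [MulAction.mem_stabilizer_iff, MulAction.mem_stabilizer_iff, mul_smul, mul_smul,
            inv_smul_eq_iff]
        rw [h5]
        by_cases h : w ∈ MulAction.stabilizer D (g • ω)
        · rw [if_pos h, if_pos (h6.1 h)]
        · rw [if_neg h, if_neg fun h' => h (h6.2 h')]
      show (Nat.card (MulAction.stabilizer D (g • ω)) : ℂ)⁻¹ * _ = _
      rw [h1, h2])
    (by
      intro ω
      have h1 := havg (MulAction.stabilizer D ω) (hstab ω)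
      convert h1)
  have hmain : ∑ w, F w * (pif Q w : ℂ) ^ (k + 1) = (Fintype.card D : ℂ) * c := by
    rw [← hsum]
    have h1 : ∀ w : D, F w * (pif Q w : ℂ) ^ (k + 1) =
        ∑ ω : Ω, if w • ω = ω then F w else 0 := by
      intro w
      rw [← Finset.sum_filter, Finset.sum_const, card_fix Q (k + 1) w, nsmul_eq_mul]
      push_cast
      ring
    rw [Finset.sum_congr rfl fun w _ => h1 w, Finset.sum_comm]
    refine Finset.sum_congr rfl fun ω _ => ?_
    have h2 : (Nat.card (MulAction.stabilizer D ω) : ℂ) ≠ 0 := by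
      exact_mod_cast Nat.card_pos.ne'
    rw [mul_inv_cancel_left₀ h2]
    rfl
  refine ⟨1, hl.one_lt.ne' ∘ Nat.dvd_one.1, (Q.index : ℂ) * c -
    ∑ w : D, (if ∃ k : ℕ, w ^ l ^ k = 1 then ((l : ℂ) ^ mm * F w) * m w else 0), ?_, ?_⟩
  · refine IsIntegral.sub (IsIntegral.mul (isIntegral_algebraMap (R := ℤ) (x := (Q.index : ℤ)))
      hc) ?_
    refine IsIntegral.sum _ fun w _ => ?_
    by_cases hw : ∃ k : ℕ, w ^ l ^ k = 1
    · rw [if_pos hw]
      exact (hint w hw).mul (isIntegral_algebraMap (R := ℤ) (x := m w))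
    · rw [if_neg hw]
      exact isIntegral_zero
  · rw [Nat.cast_one, one_mul, mul_sub]
    have h1 : (l : ℂ) ^ a * ((Q.index : ℂ) * c) = ∑ w, F w * (pif Q w : ℂ) ^ (k + 1) := by
      rw [hmain, hidx]
      push_cast
      ring
    rw [h1, Finset.mul_sum, ← Finset.sum_sub_distrib]
    refine Finset.sum_congr rfl fun w _ => ?_
    by_cases hw : ∃ k : ℕ, w ^ l ^ k = 1
    · rw [if_pos hw, if_pos hw]
      have := hm w hw
      rw [pow_add] at this
      linear_combination -(F w) * this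
    · rw [if_neg hw, if_neg hw]
      have h2 : pif Q w = 0 := by
        by_contra h
        exact hw (hpiel w h)
      rw [h2]
      simp

end Pool.Agent.Lib.MP_1aae89_al.W3
end

section
/-!
# Module LIF: lifting a Sylow subgroup to a central `p'`-extension
-/
set_option autoImplicit false

namespace Pool.Agent.Lib.MP_1aae89_al.W3

theorem specLIF : SpecLIF := by
  intro p hp X Y _ _ _ _ f hf hker P hP
  have : Fact p.Prime := ⟨hp⟩
  -- the order of `Y`
  have hcard : Nat.card Y = Nat.card f.ker * Nat.card X := by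
    rw [← Subgroup.card_mul_index f.ker, Subgroup.index_ker, MonoidHom.range_eq_top.2 hf,
      Subgroup.card_top]
  have hkp : ¬ p ∣ Nat.card f.ker := by
    intro h
    have h1 := Nat.Coprime.eq_one_of_dvd hker.symm h
    exact hp.one_lt.ne' h1
  have hfac : (Nat.card Y).factorization p = (Nat.card X).factorization p := by
    rw [hcard, Nat.factorization_mul Nat.card_pos.ne' Nat.card_pos.ne', Finsupp.add_apply,
      Nat.factorization_eq_zero_of_not_dvd hkp, zero_add]
  let R : Subgroup Y := P.comap f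
  have hdvd : p ^ (Nat.card X).factorization p ∣ Nat.card R := by
    rw [← hP]
    let g : R →* P := f.subgroupComap P
    have hg : Function.Surjective g := by
      rintro ⟨x, hx⟩
      obtain ⟨y, rfl⟩ := hf x
      exact ⟨⟨y, hx⟩, rfl⟩
    exact Subgroup.card_dvd_of_surjective g hg
  obtain ⟨K, hK⟩ := Sylow.exists_subgroup_card_pow_prime p hdvd
  let P' : Subgroup Y := K.map R.subtype
  have hP' : Nat.card P' = p ^ (Nat.card X).factorization p := by
    rw [← hK]
    exact Subgroup.card_map_of_injective R.subtype_injective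
  have htriv : ∀ x ∈ P', f x = 1 → x = 1 := by
    intro x hx hfx
    have h1 : orderOf x ∣ p ^ (Nat.card X).factorization p := by
      rw [← hP']
      exact Subgroup.orderOf_dvd_natCard P' hx
    have h2 : orderOf x ∣ Nat.card f.ker :=
      Subgroup.orderOf_dvd_natCard f.ker (MonoidHom.mem_ker.2 hfx)
    have h3 : orderOf x ∣ 1 := by
      have h4 : (p ^ (Nat.card X).factorization p).gcd (Nat.card f.ker) = 1 :=
        Nat.Coprime.pow_left _ hker.symm
      rw [← h4]
      exact Nat.dvd_gcd h1 h2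
    exact orderOf_eq_one_iff.1 (Nat.dvd_one.1 h3)
  refine ⟨P', by rw [hP', hfac], ?_, htriv⟩
  have hle : P'.map f ≤ P := by
    rintro _ ⟨y, hy, rfl⟩
    obtain ⟨z, hz, rfl⟩ := hy
    exact z.2
  refine Subgroup.eq_of_le_of_card_ge hle ?_
  rw [hP, ← hP']
  have hinj : Function.Injective (fun x : P' => (⟨f x, ⟨x, x.2, rfl⟩⟩ : P'.map f)) := by
    intro x y hxy
    have h1 : f x = f y := congrArg Subtype.val hxy
    have h2 : f ((x : Y) * (y : Y)⁻¹) = 1 := by rw [map_mul, map_inv, h1, mul_inv_cancel]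
    have h3 := htriv _ (P'.mul_mem x.2 (P'.inv_mem y.2)) h2
    exact Subtype.ext (mul_inv_eq_one.1 h3)
  exact Nat.card_le_card_of_injective _ hinj

end Pool.Agent.Lib.MP_1aae89_al.W3
end

section
/-!
# Module LS2: local integrality of sums of class functions, with denominators
-/
set_option autoImplicit false

namespace Pool.Agent.Lib.MP_1aae89_al.W3

open Pool.Agent.Lib.MP_1aae89_al Pool.Agent.Lib.MP_1aae89_al.BF Finset
open Pool.Agent.Lib.MP_1aae89_al.W (GC LD nR)
open Pool.Agent.Lib.MP1aae89 (Pex exists_pex pp_pow pc_pow pp_of)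

/-- The sum over the image of a subgroup of a subgroup. -/
theorem LS2.sum_map {C : Type} [Group C] [Fintype C] (D : Subgroup C) [Fintype D] (Q : Subgroup D)
    (G : C → ℂ) [DecidablePred fun w : C => w ∈ Q.map D.subtype] [DecidablePred fun w : D => w ∈ Q] :
    (∑ w : C, if w ∈ Q.map D.subtype then G w else 0) = ∑ w : D, if w ∈ Q then G (w : C) else 0 := by
  classical
  rw [← Finset.sum_filter, ← Finset.sum_filter]
  refine (Finset.sum_bij (fun (w : D) _ => (w : C)) ?_ ?_ ?_ ?_).symm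
  · intro w hw
    exact mem_filter.2 ⟨mem_univ _, ⟨w, (mem_filter.1 hw).2, rfl⟩⟩
  · intro w _ w' _ h
    exact Subtype.ext h
  · intro c hc
    obtain ⟨w, hw, h⟩ := (mem_filter.1 hc).2
    exact ⟨w, mem_filter.2 ⟨mem_univ _, hw⟩, h⟩
  · intro w _
    rfl

theorem specLS2 (hLF2 : SpecLF2) : SpecLS2 := by
  classical
  intro l hl C _ _ F hF m hFi hQ
  have : Fact l.Prime := ⟨hl⟩
  set N := Fintype.card C with hN
  have hN0 : N ≠ 0 := Fintype.card_ne_zero
  obtain ⟨s0, hs⟩ := exists_pex hl hN0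
  have hyN : ∀ y : C, y ^ N = 1 := fun y => pow_card_eq_one
  set tp : C → C := fun y => (y ^ s0)⁻¹ * y with htp
  have htw : ∀ y, tp y * y ^ s0 = y := by
    intro y
    show (y ^ s0)⁻¹ * y * y ^ s0 = y
    rw [mul_assoc, ← pow_succ', pow_succ, inv_mul_cancel_left]
  have htc : ∀ y, y ^ s0 * tp y = tp y * y ^ s0 := by
    intro y
    rw [htw]
    exact mul_inv_cancel_left _ _
  have htconj : ∀ g y, tp (g * y * g⁻¹) = g * tp y * g⁻¹ := by
    intro g y
    show ((g * y * g⁻¹) ^ s0)⁻¹ * (g * y * g⁻¹) = g * ((y ^ s0)⁻¹ * y) * g⁻¹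
    rw [conj_pow]
    group
  set S : C → ℂ := fun t => ∑ y ∈ univ.filter (fun y => tp y = t), F y with hS
  have hSconj : ∀ g t, S (g * t * g⁻¹) = S t := by
    intro g t
    refine Finset.sum_bij' (fun y _ => g⁻¹ * y * g) (fun y _ => g * y * g⁻¹) ?_ ?_ ?_ ?_ ?_
    · intro y hy
      have h1 := (mem_filter.1 hy).2
      refine mem_filter.2 ⟨mem_univ _, ?_⟩
      have h2 := htconj g⁻¹ y
      rw [inv_inv] at h2
      rw [h2, h1]
      group
    · intro y hy
      have h1 := (mem_filter.1 hy).2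
      refine mem_filter.2 ⟨mem_univ _, ?_⟩
      rw [htconj, h1]
    · intro y _; group
    · intro y _; group
    · intro y _
      have h2 := hF g⁻¹ y
      rw [inv_inv] at h2
      exact h2.symm
  -- local
  have hloc : ∀ t : C, LD l ((Nat.card (Subgroup.centralizer ({t} : Set C))).factorization l)
      (S t) := by
    intro t
    by_cases ht : t ^ ordCompl[l] N = 1
    · have hcop : (orderOf t).Coprime l := by
        refine Nat.Coprime.coprime_dvd_left (orderOf_dvd_of_pow_eq_one ht) ?_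
        exact (Nat.coprime_ordCompl hl hN0).symm
      let D := Subgroup.centralizer ({t} : Set C)
      have hD : ∀ w : D, t * (w : C) = (w : C) * t := fun w =>
        (Subgroup.mem_centralizer_iff.1 w.2) t rfl
      have h2 := hLF2 l hl (D := D) (fun w => F (t * (w : C))) (by
          intro g w
          show F (t * ((g : C) * w * (g : C)⁻¹)) = _
          rw [← hF g (t * (w : C))]
          congr 1
          have := hD g
          rw [← mul_assoc, ← mul_assoc, this]
          group) m (fun w _ => hFi _) (by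
          intro Q hQp
          have h3 := hQ t hcop (Q.map D.subtype) (hQp.map _) (by
            rintro w ⟨w', _, rfl⟩
            exact hD w')
          rw [Subgroup.card_map_of_injective D.subtype_injective] at h3
          have h4 := LS2.sum_map D Q fun w => F (t * w)
          convert h3 using 2
          exact h4.symm)
      rw [← Nat.card_eq_fintype_card] at h2
      convert h2 using 1
      rw [← Finset.sum_filter]
      refine Finset.sum_bij (fun y hy => (⟨y ^ s0, ?_⟩ : D)) ?_ ?_ ?_ ?_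
      · rw [Subgroup.mem_centralizer_iff]
        intro h hh
        rw [Set.mem_singleton_iff.1 hh, ← (mem_filter.1 hy).2]
        exact (htc y).symm
      · intro y hy
        refine mem_filter.2 ⟨mem_univ _, N.factorization l, Subtype.ext ?_⟩
        exact pp_pow hs (hyN y)
      · intro y hy y' hy' h
        have h3 : y ^ s0 = y' ^ s0 := congrArg Subtype.val h
        rw [← htw y, ← htw y', (mem_filter.1 hy).2, (mem_filter.1 hy').2, h3]
      · intro w hw
        obtain ⟨k, hk⟩ := (mem_filter.1 hw).2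
        have hk' : (w : C) ^ l ^ k = 1 := congrArg Subtype.val hk
        have h3 : (w : C) ^ ordProj[l] N = 1 := by
          refine orderOf_dvd_iff_pow_eq_one.1 ?_
          obtain ⟨i, -, hi⟩ := (Nat.dvd_prime_pow hl).1 (orderOf_dvd_of_pow_eq_one hk')
          rw [hi]
          refine (hl.pow_dvd_iff_dvd_ordProj hN0).1 ?_
          rw [← hi]
          exact orderOf_dvd_of_pow_eq_one (hyN _)
        have h4 : ((w : C) * t) ^ s0 = w := pp_of hs h3 ht (hD w).symm
        refine ⟨(w : C) * t, mem_filter.2 ⟨mem_univ _, ?_⟩, Subtype.ext h4⟩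
        show (((w : C) * t) ^ s0)⁻¹ * ((w : C) * t) = t
        rw [h4, inv_mul_cancel_left]
      · intro y hy
        show F y = F (t * y ^ s0)
        rw [← (mem_filter.1 hy).2, htw]
    · have h1 : S t = 0 := by
        refine Finset.sum_eq_zero fun y hy => ?_
        exfalso
        apply ht
        rw [← (mem_filter.1 hy).2]
        exact pc_pow hs (hyN y)
      rw [h1]
      exact W.LD.zero hl _
  -- sum over classes
  have h1 : ∑ y, F y = ∑ t, S t := (Finset.sum_fiberwise univ tp F).symm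
  have h2 : ∑ t, S t = ∑ c : ConjClasses C, ∑ t ∈ univ.filter (fun t => ConjClasses.mk t = c), S t :=
    (Finset.sum_fiberwise univ ConjClasses.mk S).symm
  rw [h1, h2]
  refine W.LD.sum hl _ _ fun c _ => ?_
  obtain ⟨t, rfl⟩ := ConjClasses.mk_surjective c
  have h3 : ∑ t' ∈ univ.filter (fun t' => ConjClasses.mk t' = ConjClasses.mk t), S t' =
      ((univ.filter (fun t' => ConjClasses.mk t' = ConjClasses.mk t)).card : ℂ) * S t := by
    rw [Finset.sum_congr rfl (g := fun _ => S t), Finset.sum_const, nsmul_eq_mul]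
    intro t' ht'
    obtain ⟨g, hg⟩ := isConj_iff.1 (ConjClasses.mk_eq_mk_iff_isConj.1 (mem_filter.1 ht').2)
    rw [← hg, hSconj]
  have h4 : (univ.filter (fun t' => ConjClasses.mk t' = ConjClasses.mk t)).card *
      Nat.card (Subgroup.centralizer ({t} : Set C)) = N := by
    have h5 := MulAction.card_orbit_mul_card_stabilizer_eq_card_group (ConjAct C) t
    rw [ConjAct.card] at h5
    rw [hN, ← h5]
    congr 1
    · rw [Fintype.card_subtype]
      congr 1
      ext t'
      simp only [mem_filter, mem_univ, true_and]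
      rw [ConjAct.mem_orbit_conjAct, ConjClasses.mk_eq_mk_iff_isConj]
    · rw [← Nat.card_eq_fintype_card]
      refine Nat.card_congr ⟨fun x => ⟨ConjAct.toConjAct x.1, ?_⟩,
        fun x => ⟨ConjAct.ofConjAct x.1, ?_⟩, fun x => rfl, fun x => rfl⟩
      · rw [MulAction.mem_stabilizer_iff, ConjAct.toConjAct_smul]
        have := Subgroup.mem_centralizer_iff.1 x.2 t rfl
        rw [← this, mul_inv_cancel_right]
      · have := MulAction.mem_stabilizer_iff.1 x.2
        rw [ConjAct.smul_def] at this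
        rw [Subgroup.mem_centralizer_iff]
        rintro h rfl
        exact (mul_inv_eq_iff_eq_mul.1 this).symm
  rw [h3]
  set m := (univ.filter (fun t' => ConjClasses.mk t' = ConjClasses.mk t)).card with hm
  obtain ⟨n, hn, w, hw, h5⟩ := hloc t
  have hm0 : m ≠ 0 := by
    rintro h
    rw [h, zero_mul] at h4
    exact hN0 h4.symm
  have hc0 : Nat.card (Subgroup.centralizer ({t} : Set C)) ≠ 0 := Nat.card_pos.ne'
  refine ⟨n, hn, ((ordCompl[l] m : ℕ) : ℂ) * w,
    (isIntegral_algebraMap (R := ℤ) (x := ((ordCompl[l] m : ℕ) : ℤ))).mul hw, ?_⟩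
  rw [← h4, Nat.factorization_mul hm0 hc0, Finsupp.add_apply, pow_add]
  have h6 : (m : ℂ) = (l : ℂ) ^ (m.factorization l) * ((ordCompl[l] m : ℕ) : ℂ) := by
    conv_lhs => rw [← Nat.ordProj_mul_ordCompl_eq_self m l]
    push_cast
    rfl
  conv_lhs => rw [h6]
  linear_combination (l : ℂ) ^ (m.factorization l) * ((ordCompl[l] m : ℕ) : ℂ) * h5

end Pool.Agent.Lib.MP_1aae89_al.W3
end

section
/-!
# Module LVF: levels and `FX`
-/
set_option autoImplicit false

namespace Pool.Agent.Lib.MP_1aae89_al.W3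

open Pool.Agent.Lib.MP_1aae89_al Pool.Agent.Lib.MP_1aae89_al.BF Finset
open Pool.Agent.Lib.MP1aae89 (Pex exists_aut fixed)

theorem specLVF : SpecLVF := by
  intro p hp L s0 hL hpex X _ _ hX χ hχ
  refine ⟨?_, ?_⟩
  · intro a ha hlev t y
    have hcop : (1 + s0 * p ^ (a + 1 - 1) * t).Coprime L :=
      W.lev_coprime hp hpex (c := a + 1) (by omega) t
    rw [Nat.add_sub_cancel] at hcop
    obtain ⟨σ, hσ⟩ := exists_aut L (Nat.pos_of_ne_zero hL) _ hcop
    obtain ⟨h1, h2, h3⟩ := lev_spec hχ p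
    have hXL : ∀ y : X, y ^ L = 1 := by
      intro y
      obtain ⟨c, hc⟩ := hX
      rw [hc, pow_mul, pow_card_eq_one', one_pow]
    have h4 : σ (χ y) = χ (y ^ (1 + s0 * p ^ a * t)) := by
      obtain ⟨n, r, hr⟩ := hχ
      have h5 : r y ^ L = 1 := by rw [← map_pow, hXL, map_one]
      have h6 := gal_trace hL σ hσ (r y) h5
      rw [← map_pow, ← hr, ← hr] at h6
      exact h6
    rw [← h4]
    have hcd : conductor χ ∣ L := by
      have h7 := cond_dvd hχ
      rw [← Nat.card_eq_fintype_card] at h7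
      exact h7.trans hX
    have h8 : conductor χ ∣ s0 * p ^ a * t := by
      refine dvd_mul_of_dvd_left ?_ t
      conv_lhs => rw [← Nat.ordProj_mul_ordCompl_eq_self (conductor χ) p, mul_comm]
      refine mul_dvd_mul ((Nat.ordCompl_dvd_ordCompl_of_dvd hcd p).trans hpex.zero) ?_
      exact pow_dvd_pow p (by rw [h3]; exact hlev)
    have h9 : 1 + s0 * p ^ a * t ≡ 1 [MOD conductor χ] := by
      have h10 := (Nat.modEq_zero_iff_dvd.2 h8).add_left 1
      exact h10
    exact fixed σ _ L hσ (conductor χ) (Nat.pos_of_ne_zero h1) hcd h9 (h2 y)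
  · intro b hb hlev
    by_contra hcon
    push Not at hcon
    have h1 := W.specLEV W.specLTE p hp L s0 hL (by rw [← Nat.card_eq_fintype_card]; exact hX)
      hpex χ hχ b b 1 hb le_rfl (Or.inr (Or.inr rfl)) hlev (fun y => by rw [mul_one]; exact hcon y)
    rw [Nat.sub_self, zero_add, pow_one] at h1
    exact hp.one_lt.ne' (Nat.dvd_one.1 h1)

end Pool.Agent.Lib.MP_1aae89_al.W3
end

section
/-!
# Module LVL: the levels of `A` and `Z`
-/
set_option autoImplicit false

namespace Pool.Agent.Lib.MP_1aae89_al.W3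

open Pool.Agent.Lib.MP_1aae89_al Pool.Agent.Lib.MP_1aae89_al.BF Finset
open Pool.Agent.Lib.MP1aae89 (Pex)

/-- some translate by an element of the subgroup has a nonzero trace -/
theorem LVL_exists {Y : Type} [Group Y] [Finite Y] (H0 : Subgroup Y) {m : ℕ} (hm : m ≠ 0)
    (A : Y →* Matrix (Fin m) (Fin m) ℂ) (hA : Sch (A.comp H0.subtype)) (y : Y) :
    ∃ h ∈ H0, (A (y * h)).trace ≠ 0 := by
  classical
  have : Fintype H0 := Fintype.ofFinite _
  by_contra hcon
  push Not at hcon
  have h1 := orth hA hm (A y) (A y⁻¹)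
  rw [sum_eq_zero, mul_inv_r, Matrix.trace_one, Fintype.card_fin] at h1
  · have hm' : (m : ℂ) ≠ 0 := by exact_mod_cast hm
    rw [div_mul_cancel₀ _ hm'] at h1
    have h2 : (Fintype.card H0 : ℂ) ≠ 0 := by exact_mod_cast Fintype.card_ne_zero
    exact h2 h1.symm
  · intro g _
    have h3 : A y * (A.comp H0.subtype) g = A (y * (g : Y)) := (map_mul A y g).symm
    rw [h3, hcon (g : Y) g.2, zero_mul]

theorem specLVL (hGLA : SpecGLA) : SpecLVL := by
  intro p hp L s0 hL hpex b hb X Y _ _ _ _ hY H n e m M he hm hM r r' hr' f H0 Z A hTD hFX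
  have hm0 : m ≠ 0 := by
    rintro rfl
    exact hm (dvd_zero p)
  have he' : (e : ℂ) ≠ 0 := by exact_mod_cast he
  have hnorm : H0.Normal := hTD.norm
  have hSch : Sch (A.comp H0.subtype) := by
    intro T hT
    refine hr' T fun h' => ?_
    have h1 : (h' : X) ∈ H0.map f := by
      rw [hTD.map]
      exact h'.2
    obtain ⟨h, hh, hf⟩ := h1
    have hf2 : f h ∈ H := by
      rw [hf]
      exact h'.2
    have h2 := hTD.res h hh hf2
    have h3 : (⟨f h, hf2⟩ : H) = h' := Subtype.ext hf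
    rw [h3] at h2
    rw [← h2]
    exact hT ⟨h, hh⟩
  have hdet : ∀ y, (A y).det ^ ordCompl[p] L = 1 := by
    intro y
    obtain ⟨c, hc⟩ := hM
    rw [hc, pow_mul, hTD.det, one_pow]
  have hAtr : ∀ h ∈ H0, (r (f h)).trace = (e : ℂ) * (A h).trace := by
    intro h hh
    rw [hTD.tr, hTD.z1 h hh, Matrix.trace_one, Fintype.card_fin]
  have hFA : FX p s0 b (fun y => (A y).trace) := by
    intro t y
    refine hGLA p hp L s0 hL hpex hY H0 m A hm hSch hdet b t hb ?_ y
    intro h hh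
    have h1 := hAtr h hh
    have h2 := hAtr _ (H0.pow_mem hh (1 + s0 * p ^ b * t))
    have h3 := hFX t (f h)
    rw [map_pow] at h2
    simp only at h3
    rw [h2, h1] at h3
    exact mul_left_cancel₀ he' h3
  refine ⟨hSch, hFA, ?_⟩
  intro t y
  obtain ⟨h, hh, hne⟩ := LVL_exists H0 hm0 A hSch y
  have hZ1 : Z (y * h) = Z y := by rw [map_mul, hTD.z1 h hh, mul_one]
  have hZ2 : Z ((y * h) ^ (1 + s0 * p ^ b * t)) = Z (y ^ (1 + s0 * p ^ b * t)) := by
    rw [map_pow, map_pow, hZ1]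
  have h1 := hFX t (f (y * h))
  simp only at h1
  rw [← map_pow f, hTD.tr, hTD.tr] at h1
  have h2 := hFA t (y * h)
  simp only at h2
  rw [h2] at h1
  have h3 := mul_right_cancel₀ hne h1
  rw [hZ2, hZ1] at h3
  exact h3

end Pool.Agent.Lib.MP_1aae89_al.W3
end

section
/-!
# NLI: a nonlinear irreducible character of a `p`-group is fixed by a twist of order `p`
-/
set_option autoImplicit false

namespace Pool.Agent.Lib.MP_1aae89_al.W3

open Pool.Agent.Lib.MP_1aae89_al Pool.Agent.Lib.MP_1aae89_al.BF Finset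

namespace NLI

/-- the one-dimensional representation -/
noncomputable def lin {P : Type} [Group P] (η : Lin P) : P →* Matrix (Fin 1) (Fin 1) ℂ where
  toFun g := ((η g : ℂˣ) : ℂ) • (1 : Matrix (Fin 1) (Fin 1) ℂ)
  map_one' := by rw [map_one, Units.val_one, one_smul]
  map_mul' x y := by
    rw [map_mul, Units.val_mul, Matrix.smul_mul, Matrix.mul_smul, smul_smul, Matrix.one_mul]

theorem lin_trace {P : Type} [Group P] (η : Lin P) (g : P) :
    (lin η g).trace = ((η g : ℂˣ) : ℂ) := by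
  show (((η g : ℂˣ) : ℂ) • (1 : Matrix (Fin 1) (Fin 1) ℂ)).trace = _
  rw [Matrix.trace_smul, Matrix.trace_one, Fintype.card_fin, Nat.cast_one, smul_eq_mul, mul_one]

theorem lin_sch {P : Type} [Group P] (η : Lin P) : Sch (lin η) := by
  intro T _
  refine ⟨T 0 0, ?_⟩
  ext i j
  rw [Subsingleton.elim i 0, Subsingleton.elim j 0, Matrix.smul_apply, Matrix.one_apply_eq,
    smul_eq_mul, mul_one]

/-- the twist -/
noncomputable def twr {P : Type} [Group P] {n : ℕ} (ω : Lin P)
    (r : P →* Matrix (Fin n) (Fin n) ℂ) : P →* Matrix (Fin n) (Fin n) ℂ where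
  toFun g := ((ω g : ℂˣ) : ℂ) • r g
  map_one' := by rw [map_one, map_one, Units.val_one, one_smul]
  map_mul' x y := by
    rw [map_mul, map_mul, Units.val_mul, Matrix.smul_mul, Matrix.mul_smul, smul_smul]

theorem twr_trace {P : Type} [Group P] {n : ℕ} (ω : Lin P)
    (r : P →* Matrix (Fin n) (Fin n) ℂ) (g : P) :
    (twr ω r g).trace = ((ω g : ℂˣ) : ℂ) * (r g).trace := by
  show (((ω g : ℂˣ) : ℂ) • r g).trace = _
  rw [Matrix.trace_smul, smul_eq_mul]

theorem twr_sch {P : Type} [Group P] {n : ℕ} (ω : Lin P)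
    {r : P →* Matrix (Fin n) (Fin n) ℂ} (hr : Sch r) : Sch (twr ω r) := by
  intro T hT
  apply hr T
  intro g
  have h1 : T * (((ω g : ℂˣ) : ℂ) • r g) = (((ω g : ℂˣ) : ℂ) • r g) * T := hT g
  rw [Matrix.mul_smul, Matrix.smul_mul] at h1
  have h2 : ((ω g : ℂˣ) : ℂ) ≠ 0 := Units.ne_zero _
  exact smul_right_injective _ h2 h1

/-- no linear constituents -/
theorem ml_zero {P : Type} [Group P] [Fintype P] {n : ℕ} {r : P →* Matrix (Fin n) (Fin n) ℂ}
    (hr : Sch r) (hn : n ≠ 0) (hn1 : n ≠ 1) (η : Lin P) : ml (fun x => (r x).trace) η = 0 := by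
  have h1 := (W.specORT (lin η) r (lin_sch η) hr one_ne_zero hn).2 ⟨1, by
    rw [map_one, map_one, Matrix.trace_one, Matrix.trace_one, Fintype.card_fin, Fintype.card_fin,
      Nat.cast_one]
    exact_mod_cast hn1⟩
  have h2 : ((ml (fun x => (r x).trace) η : ℕ) : ℂ) = 0 := by
    rw [ml_spec ⟨n, r, fun _ => rfl⟩]
    have h3 : ∑ x, (r x).trace * (((η x)⁻¹ : ℂˣ) : ℂ) =
        ∑ x, (r x).trace * (lin η x⁻¹).trace := by
      refine sum_congr rfl fun x _ => ?_
      rw [lin_trace, map_inv]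
    rw [h3, h1, mul_zero]
  exact_mod_cast h2

open Classical in
/-- the linear constituents of `χ χ∨` -/
theorem ml_end {P : Type} [Group P] [Fintype P] {n : ℕ} {r : P →* Matrix (Fin n) (Fin n) ℂ}
    (hr : Sch r) (hn : n ≠ 0) (ω : Lin P) :
    ml (fun x => (r x).trace * (r x⁻¹).trace) ω =
      if ∀ x, ((ω x : ℂˣ) : ℂ) * (r x).trace = (r x).trace then 1 else 0 := by
  have hχ : IsCharacter fun x => (r x).trace := ⟨n, r, fun _ => rfl⟩
  have hc : IsCharacter fun x => (r x).trace * (r x⁻¹).trace :=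
    W.specGCA1.1 _ _ hχ (W.specGCA1.2.1 _ hχ)
  have h0 := W.specORT (twr ω r) r (twr_sch ω hr) hr hn hn
  have h3 : ∑ x, (r x).trace * (r x⁻¹).trace * (((ω x)⁻¹ : ℂˣ) : ℂ) =
      ∑ x, (r x).trace * (twr ω r x⁻¹).trace := by
    refine sum_congr rfl fun x _ => ?_
    rw [twr_trace, map_inv ω x]
    ring
  have hP : (Fintype.card P : ℂ) ≠ 0 := by exact_mod_cast Fintype.card_ne_zero
  split_ifs with h
  · have h1 := h0.1 fun g => by rw [twr_trace, h]
    have h2 : ((ml (fun x => (r x).trace * (r x⁻¹).trace) ω : ℕ) : ℂ) = ((1 : ℕ) : ℂ) := by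
      rw [ml_spec hc, h3, h1, inv_mul_cancel₀ hP, Nat.cast_one]
    exact_mod_cast h2
  · push Not at h
    obtain ⟨g, hg⟩ := h
    have h1 := h0.2 ⟨g, by rw [twr_trace]; exact hg.symm⟩
    have h2 : ((ml (fun x => (r x).trace * (r x⁻¹).trace) ω : ℕ) : ℂ) = ((0 : ℕ) : ℂ) := by
      rw [ml_spec hc, h3, h1, mul_zero, Nat.cast_zero]
    exact_mod_cast h2

/-- the stabilizer of `χ` in the group of linear characters -/
def stb {P : Type} [Group P] (χ : P → ℂ) : Subgroup (Lin P) where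
  carrier := {ω | ∀ x, ((ω x : ℂˣ) : ℂ) * χ x = χ x}
  one_mem' := fun x => by rw [Lin.one_apply, Units.val_one, one_mul]
  mul_mem' := fun {a b} ha hb x => by
    rw [Lin.mul_apply, Units.val_mul, mul_assoc, hb x, ha x]
  inv_mem' := fun {a} ha x => by
    rw [Lin.inv_apply]
    conv_lhs => rw [← ha x]
    rw [← mul_assoc, ← Units.val_mul, inv_mul_cancel, Units.val_one, one_mul]

theorem mem_stb {P : Type} [Group P] (χ : P → ℂ) (ω : Lin P) :
    ω ∈ stb χ ↔ ∀ x, ((ω x : ℂˣ) : ℂ) * χ x = χ x := Iff.rfl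

end NLI

open NLI

open Classical in
theorem specNLI : SpecNLI := by
  intro p hp P _ _ e hP n r hr hn hn1
  have : Fact p.Prime := ⟨hp⟩
  have hχ : IsCharacter fun x => (r x).trace := ⟨n, r, fun _ => rfl⟩
  have hc : IsCharacter fun x => (r x).trace * (r x⁻¹).trace :=
    W.specGCA1.1 _ _ hχ (W.specGCA1.2.1 _ hχ)
  have h1 := deg e P hP _ hχ n (by
    rw [map_one, Matrix.trace_one, Fintype.card_fin])
  rw [sum_congr rfl fun μ _ => (ml_eq (fun x => (r x).trace) μ).symm,
    sum_congr rfl fun μ _ => ml_zero hr hn hn1 μ, sum_const_zero] at h1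
  have hpn : p ∣ n := (Nat.modEq_zero_iff_dvd).1 h1.symm
  have h2 := deg e P hP _ hc (n * n) (by
    rw [inv_one, map_one, Matrix.trace_one, Fintype.card_fin, Nat.cast_mul])
  rw [sum_congr rfl fun μ _ => (ml_eq (fun x => (r x).trace * (r x⁻¹).trace) μ).symm,
    sum_congr rfl fun μ _ => ml_end hr hn μ, ← card_filter] at h2
  have h3 : Nat.card (stb fun x => (r x).trace) =
      #(univ.filter fun ω : Lin P => ∀ x, ((ω x : ℂˣ) : ℂ) * (r x).trace = (r x).trace) := by
    rw [Nat.card_eq_fintype_card, ← Fintype.card_coe]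
    refine Fintype.card_congr (Equiv.subtypeEquivRight fun ω => ?_)
    rw [mem_stb, mem_filter]
    exact ⟨fun h => ⟨mem_univ _, h⟩, fun h => h.2⟩
  rw [← h3] at h2
  have h4 : p ∣ Nat.card (stb fun x => (r x).trace) := by
    rw [← Nat.modEq_zero_iff_dvd]
    exact h2.trans ((Nat.modEq_zero_iff_dvd).2 (hpn.mul_right n))
  obtain ⟨ω, hω⟩ := exists_prime_orderOf_dvd_card' p h4
  refine ⟨ω.1, ?_, ?_, fun x => (mem_stb _ _).1 ω.2 x⟩
  · intro h
    have h5 : ω = 1 := Subtype.ext h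
    rw [h5, orderOf_one] at hω
    exact hp.one_lt.ne hω
  · have h5 := pow_orderOf_eq_one ω
    rw [hω] at h5
    exact congrArg Subtype.val h5

end Pool.Agent.Lib.MP_1aae89_al.W3
end

section
/-!
# QDL: inflation of `dl`
-/
set_option autoImplicit false

namespace Pool.Agent.Lib.MP_1aae89_al.W3

open Pool.Agent.Lib.MP_1aae89_al Pool.Agent.Lib.MP_1aae89_al.BF Finset

namespace QDL

variable {P P' : Type} [Group P] [Fintype P] [Group P'] [Fintype P']

open Classical in
/-- sum over the fibres of a surjective homomorphism -/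
theorem sum_fib (π : P →* P') (hπ : Function.Surjective π) : ∃ c : ℕ, c ≠ 0 ∧
    Fintype.card P = c * Fintype.card P' ∧
    ∀ F : P' → ℂ, ∑ x, F (π x) = (c : ℂ) * ∑ y, F y := by
  have h1 : ∀ y : P', #{g | π g = y} = #{g | π g = (1 : P')} := fun y =>
    MonoidHom.card_fiber_eq_of_mem_range π (hπ y) (hπ 1)
  refine ⟨#{g | π g = (1 : P')}, ?_, ?_, ?_⟩
  · rw [Finset.card_ne_zero]
    exact ⟨1, by simp⟩
  · rw [← card_univ, card_eq_sum_card_fiberwise (f := π) (t := univ) (fun x _ => mem_univ _),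
      sum_congr rfl fun y _ => h1 y, sum_const, card_univ, smul_eq_mul, mul_comm]
  · intro F
    rw [← sum_fiberwise univ π (fun x => F (π x)), mul_sum]
    refine sum_congr rfl fun y _ => ?_
    have h2 : ∀ x ∈ univ.filter (fun x => π x = y), F (π x) = F y := fun x hx => by
      rw [(mem_filter.1 hx).2]
    rw [sum_congr rfl h2, sum_const, h1 y, nsmul_eq_mul]

theorem ml_pb (π : P →* P') (hπ : Function.Surjective π) {χ : P' → ℂ} (hχ : IsCharacter χ)
    (η : Lin P') : ml (fun x => χ (π x)) (pb π η) = ml χ η := by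
  obtain ⟨c, hc, h1, h2⟩ := sum_fib π hπ
  have h3 : ((ml (fun x => χ (π x)) (pb π η) : ℕ) : ℂ) = ((ml χ η : ℕ) : ℂ) := by
    rw [ml_spec (hχ.comp π), ml_spec hχ]
    have h4 := h2 fun y => χ y * (((η y)⁻¹ : ℂˣ) : ℂ)
    have h5 : ∑ x, χ (π x) * ((((pb π η) x)⁻¹ : ℂˣ) : ℂ) =
        ∑ x, χ (π x) * (((η (π x))⁻¹ : ℂˣ) : ℂ) := rfl
    rw [h5, h4, h1]
    have hc' : (c : ℂ) ≠ 0 := by exact_mod_cast hc
    have h8 : (Fintype.card P' : ℂ) ≠ 0 := by exact_mod_cast Fintype.card_ne_zero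
    push_cast
    field_simp
  exact_mod_cast h3

omit [Fintype P'] in
theorem ml_zero (π : P →* P') {χ : P' → ℂ} (hχ : IsCharacter χ) (η : Lin P) {h : P}
    (hh : π h = 1) (hη : η h ≠ 1) : ml (fun x => χ (π x)) η = 0 := by
  have h3 : ((ml (fun x => χ (π x)) η : ℕ) : ℂ) = 0 := by
    rw [ml_spec (hχ.comp π)]
    set S := ∑ x, χ (π x) * (((η x)⁻¹ : ℂˣ) : ℂ) with hS
    have h1 : S = S * (((η h)⁻¹ : ℂˣ) : ℂ) := by
      rw [hS, sum_mul]
      refine Fintype.sum_equiv (Equiv.mulRight h⁻¹) _ _ fun x => ?_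
      rw [Equiv.coe_mulRight, map_mul, map_inv, hh, inv_one, mul_one, map_mul, map_inv]
      rw [mul_inv_rev, inv_inv, Units.val_mul, mul_assoc]
      congr 1
      rw [mul_comm ((η h : ℂˣ) : ℂ), mul_assoc, ← Units.val_mul, mul_inv_cancel, Units.val_one,
        mul_one]
    have h2 : S * (1 - (((η h)⁻¹ : ℂˣ) : ℂ)) = 0 := by
      rw [mul_sub, mul_one, ← h1, sub_self]
    rcases mul_eq_zero.1 h2 with h4 | h4
    · rw [h4, mul_zero]
    · exfalso
      apply hη
      have h6 : (((η h)⁻¹ : ℂˣ) : ℂ) = ((1 : ℂˣ) : ℂ) := by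
        rw [Units.val_one]; exact (sub_eq_zero.1 h4).symm
      exact inv_eq_one.1 (Units.ext h6)
  exact_mod_cast h3

omit [Fintype P] [Fintype P'] in
theorem dl_eq [Finite P] (q : ℕ) (χ : P → ℂ) (k : Lin P) [DecidablePred fun η : Lin P => η ^ q = k] :
    dl q χ k = ∑ η ∈ univ.filter (fun η : Lin P => η ^ q = k), ml χ η := by
  unfold dl
  congr

omit [Fintype P] [Fintype P'] in
theorem pb_inj (π : P →* P') (hπ : Function.Surjective π) {a b : Lin P'}
    (h : pb π a = pb π b) : a = b := by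
  apply Lin.ext
  intro y
  obtain ⟨x, rfl⟩ := hπ y
  rw [← pb_apply, h, pb_apply]

omit [Fintype P] [Fintype P'] in
theorem pb_pow (π : P →* P') (a : Lin P') (q : ℕ) : pb π (a ^ q) = pb π a ^ q := by
  apply Lin.ext
  intro x
  rw [pb_apply, Lin.pow_apply, Lin.pow_apply, pb_apply]

omit [Fintype P] [Fintype P'] in
theorem exists_pb (π : P →* P') (hπ : Function.Surjective π) (η : Lin P)
    (h : ∀ x, π x = 1 → η x = 1) : ∃ η' : Lin P', pb π η' = η := by
  let η0 : P →* ℂˣ := η
  have hker : π.ker ≤ η0.ker := fun x hx => h x hx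
  let νb : P' →* ℂˣ := MonoidHom.liftOfSurjective π hπ ⟨η0, hker⟩
  have hνb : ∀ r : P, νb (π r) = η r := fun r =>
    MonoidHom.liftOfRightInverse_comp_apply π _ (Function.rightInverse_surjInv hπ) ⟨η0, hker⟩ r
  exact ⟨νb, Lin.ext hνb⟩

end QDL

open Classical in
theorem specQDL : SpecQDL := by
  intro P P' _ _ _ _ π hπ q χ hχ k
  let _ : Fintype P := Fintype.ofFinite P
  let _ : Fintype P' := Fintype.ofFinite P'
  rw [QDL.dl_eq, QDL.dl_eq]
  have h1 : ∑ η ∈ univ.filter (fun η : Lin P' => η ^ q = k), ml χ η =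
      ∑ η ∈ (univ.filter (fun η : Lin P' => η ^ q = k)).image (pb π),
        ml (fun x => χ (π x)) η := by
    rw [sum_image fun a _ b _ h => QDL.pb_inj π hπ h]
    exact sum_congr rfl fun η _ => (QDL.ml_pb π hπ hχ η).symm
  rw [h1]
  symm
  refine sum_subset ?_ ?_
  · intro η hη
    obtain ⟨a, ha, rfl⟩ := mem_image.1 hη
    rw [mem_filter] at ha ⊢
    exact ⟨mem_univ _, by rw [← QDL.pb_pow, ha.2]⟩
  · intro η hη hη'
    by_contra hne
    apply hη'
    have h2 : ∀ x, π x = 1 → η x = 1 := by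
      intro x hx
      by_contra h3
      exact hne (QDL.ml_zero π hχ η hx h3)
    obtain ⟨a, rfl⟩ := QDL.exists_pb π hπ η h2
    rw [mem_filter] at hη
    refine mem_image.2 ⟨a, ?_, rfl⟩
    rw [mem_filter]
    exact ⟨mem_univ _, QDL.pb_inj π hπ (by rw [QDL.pb_pow, hη.2])⟩

end Pool.Agent.Lib.MP_1aae89_al.W3
end

section
/-!
# MUL: linear constituents of a product, modulo `p`
-/
set_option autoImplicit false

namespace Pool.Agent.Lib.MP_1aae89_al.W3

open Pool.Agent.Lib.MP_1aae89_al Pool.Agent.Lib.MP_1aae89_al.BF Finset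

namespace MUL

theorem add_char {P : Type} [Group P] {χ θ : P → ℂ} (hχ : IsCharacter χ) (hθ : IsCharacter θ) :
    ∀ [Fintype P] (η : Lin P), (∃ k : ℕ, (Fintype.card P : ℂ)⁻¹ *
      ∑ x, (χ x + θ x) * (((η x)⁻¹ : ℂˣ) : ℂ) = k) ∧
      ml (fun x => χ x + θ x) η = ml χ η + ml θ η := by
  intro _ η
  have h1 : (Fintype.card P : ℂ)⁻¹ * ∑ x, (χ x + θ x) * (((η x)⁻¹ : ℂˣ) : ℂ) =
      ((ml χ η + ml θ η : ℕ) : ℂ) := by
    rw [Nat.cast_add, ml_spec hχ, ml_spec hθ, ← mul_add, ← sum_add_distrib]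
    congr 1
    exact sum_congr rfl fun x _ => by ring
  refine ⟨⟨_, h1⟩, ?_⟩
  rw [ml_eq]
  unfold mlt
  rw [dif_pos ⟨_, h1⟩]
  have h2 := (⟨_, h1⟩ : ∃ k : ℕ, (Fintype.card P : ℂ)⁻¹ *
    ∑ x, (χ x + θ x) * (((η x)⁻¹ : ℂˣ) : ℂ) = k).choose_spec
  exact_mod_cast (h1.symm.trans h2).symm

theorem dl_add {P : Type} [Group P] [Fintype P] {χ θ : P → ℂ} (hχ : IsCharacter χ)
    (hθ : IsCharacter θ) (q : ℕ) (k : Lin P) :
    dl q (fun x => χ x + θ x) k = dl q χ k + dl q θ k := by
  unfold dl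
  rw [← sum_add_distrib]
  exact sum_congr rfl fun η _ => (add_char hχ hθ η).2

open Classical in
theorem ml_lin {P : Type} [Group P] [Fintype P] (η₀ η : Lin P) :
    ml (fun x => ((η₀ x : ℂˣ) : ℂ)) η = if η = η₀ then 1 else 0 := by
  have hχ : IsCharacter fun x => ((η₀ x : ℂˣ) : ℂ) :=
    ⟨1, NLI.lin η₀, fun g => (NLI.lin_trace η₀ g).symm⟩
  have h0 := W.specORT (NLI.lin η) (NLI.lin η₀) (NLI.lin_sch η) (NLI.lin_sch η₀) one_ne_zero
    one_ne_zero
  have h3 : ∑ x, ((η₀ x : ℂˣ) : ℂ) * (((η x)⁻¹ : ℂˣ) : ℂ) =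
      ∑ x, (NLI.lin η₀ x).trace * (NLI.lin η x⁻¹).trace := by
    refine sum_congr rfl fun x _ => ?_
    rw [NLI.lin_trace, NLI.lin_trace, map_inv]
  have hP : (Fintype.card P : ℂ) ≠ 0 := by exact_mod_cast Fintype.card_ne_zero
  split_ifs with h
  · have h1 := h0.1 fun g => by rw [h]
    have h2 : ((ml (fun x => ((η₀ x : ℂˣ) : ℂ)) η : ℕ) : ℂ) = ((1 : ℕ) : ℂ) := by
      rw [ml_spec hχ, h3, h1, inv_mul_cancel₀ hP, Nat.cast_one]
    exact_mod_cast h2
  · have h5 : ∃ g, (NLI.lin η₀ g).trace ≠ (NLI.lin η g).trace := by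
      by_contra hall
      push Not at hall
      apply h
      apply Lin.ext
      intro x
      have h6 := hall x
      rw [NLI.lin_trace, NLI.lin_trace] at h6
      exact (Units.ext h6).symm
    have h1 := h0.2 h5
    have h2 : ((ml (fun x => ((η₀ x : ℂˣ) : ℂ)) η : ℕ) : ℂ) = ((0 : ℕ) : ℂ) := by
      rw [ml_spec hχ, h3, h1, mul_zero, Nat.cast_zero]
    exact_mod_cast h2

/-- the irreducible case of degree at least two -/
theorem case_two {p : ℕ} (hp : p.Prime) {P : Type} [Group P] [Fintype P] {e : ℕ}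
    (hP : Nat.card P = p ^ e) {n : ℕ} (r : P →* Matrix (Fin n) (Fin n) ℂ) (hr : Sch r)
    (hn : n ≠ 0) (hn1 : n ≠ 1) (a : P → ℂ) (q : ℕ) (hq : p ∣ q) (k : Lin P) :
    p ∣ dl q (fun x => (r x).trace * a x) k := by
  classical
  have : Fact p.Prime := ⟨hp⟩
  obtain ⟨ω, hω1, hωp, hω⟩ := specNLI p hp e hP n r hr hn hn1
  rw [QDL.dl_eq]
  refine dvd_sum _ (fun l => l * ω) ?_ ?_ _ ?_ ?_
  · intro l hl
    rw [mem_filter] at hl ⊢
    obtain ⟨t, rfl⟩ := hq
    refine ⟨mem_univ _, ?_⟩
    rw [mul_pow, hl.2, pow_mul, hωp, one_pow, mul_one]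
  · intro l _
    have h1 : ∀ j, (fun l => l * ω)^[j] l = l * ω ^ j := by
      intro j
      induction j with
      | zero => simp
      | succ j ih => rw [Function.iterate_succ_apply', ih, pow_succ, mul_assoc]
    rw [h1, hωp, mul_one]
  · intro l _
    rw [ml_eq, ml_eq]
    apply mlt_congr
    refine sum_congr rfl fun x _ => ?_
    have h1 : (((ω x)⁻¹ : ℂˣ) : ℂ) * (r x).trace = (r x).trace := by
      conv_lhs => rw [← hω x]
      rw [← mul_assoc, ← Units.val_mul, inv_mul_cancel, Units.val_one, one_mul]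
    rw [Lin.mul_apply, mul_inv, Units.val_mul]
    calc (r x).trace * a x * ((((l x)⁻¹ : ℂˣ) : ℂ) * (((ω x)⁻¹ : ℂˣ) : ℂ)) =
        ((((ω x)⁻¹ : ℂˣ) : ℂ) * (r x).trace) * a x * (((l x)⁻¹ : ℂˣ) : ℂ) := by ring
      _ = _ := by rw [h1]
  · intro l _ h
    exact hω1 (mul_eq_left.1 h)

/-- the case of degree one -/
theorem case_one (hTWM : SpecTWM) {P : Type} [Group P] [Fintype P] (η₀ : Lin P) (a : P → ℂ)
    (q : ℕ) (k : Lin P) : dl q (fun x => ((η₀ x : ℂˣ) : ℂ) * a x) k =
      ∑ η : Lin P, ml (fun x => ((η₀ x : ℂˣ) : ℂ)) η * dl q a (k * (η ^ q)⁻¹) := by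
  classical
  rw [sum_congr rfl fun η _ => by rw [ml_lin η₀ η]]
  simp only [ite_mul, one_mul, zero_mul]
  rw [sum_ite_eq' univ η₀, if_pos (mem_univ _)]
  have h1 := hTWM q a (k * (η₀ ^ q)⁻¹) η₀
  rw [inv_mul_cancel_right] at h1
  rw [← h1]
  congr 1
  funext x
  exact mul_comm _ _

theorem main (hTWM : SpecTWM) {p : ℕ} (hp : p.Prime) {P : Type} [Group P] [Fintype P] {e : ℕ}
    (hP : Nat.card P = p ^ e) {a : P → ℂ} (ha : IsCharacter a) (q : ℕ) (hq : p ∣ q)
    (k : Lin P) (n : ℕ) : ∀ r : P →* Matrix (Fin n) (Fin n) ℂ,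
    dl q (fun x => (r x).trace * a x) k ≡
      ∑ η : Lin P, ml (fun x => (r x).trace) η * dl q a (k * (η ^ q)⁻¹) [MOD p] := by
  classical
  induction n using Nat.strong_induction_on with
  | _ n ih =>
    intro r
    by_cases hn : n = 0
    · subst hn
      have h1 : ∀ x, (r x).trace = 0 := fun x => by
        rw [Matrix.trace]
        exact Finset.sum_eq_zero fun i _ => i.elim0
      have h2 : ∀ η : Lin P, ml (fun _ : P => (0 : ℂ)) η = 0 := by
        intro η
        have hc : IsCharacter fun _ : P => (0 : ℂ) := ⟨0, r, fun x => (h1 x).symm⟩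
        have h3 : ((ml (fun _ : P => (0 : ℂ)) η : ℕ) : ℂ) = 0 := by
          rw [ml_spec hc]
          simp
        exact_mod_cast h3
      have h4 : (fun x => (r x).trace * a x) = fun _ => (0 : ℂ) := by
        funext x
        rw [h1, zero_mul]
      have h5 : (fun x => (r x).trace) = fun _ => (0 : ℂ) := funext h1
      rw [h4, h5]
      have h6 : dl q (fun _ : P => (0 : ℂ)) k = 0 := by
        unfold dl
        exact sum_eq_zero fun η _ => h2 η
      rw [h6, sum_eq_zero fun η _ => by rw [h2, zero_mul]]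
    · by_cases hr : Sch r
      · by_cases hn1 : n = 1
        · subst hn1
          obtain ⟨η₀, hη₀⟩ : ∃ η₀ : Lin P, ∀ x, ((η₀ x : ℂˣ) : ℂ) = (r x).det :=
            ⟨dt r, fun x => dt_apply r x⟩
          have h1 : ∀ x, (r x).trace = ((η₀ x : ℂˣ) : ℂ) := fun x => by
            rw [hη₀, Matrix.det_fin_one, Matrix.trace_fin_one]
          have h4 : (fun x => (r x).trace * a x) = fun x => ((η₀ x : ℂˣ) : ℂ) * a x := by
            funext x
            rw [h1]
          have h5 : (fun x => (r x).trace) = fun x => ((η₀ x : ℂˣ) : ℂ) := funext h1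
          rw [h4, h5, case_one hTWM]
        · rw [sum_eq_zero fun η _ => by rw [NLI.ml_zero hr hn hn1, zero_mul]]
          exact (Nat.modEq_zero_iff_dvd).2 (case_two hp hP r hr hn hn1 a q hq k)
      · obtain ⟨F, hF, hF0, hF1, hFc⟩ := exists_idem hn hr
        obtain ⟨u, J, J', h1, h2⟩ := idem_factor F hF
        have hG : (1 - F) * (1 - F) = 1 - F := by
          rw [Matrix.mul_sub, Matrix.sub_mul, Matrix.sub_mul, Matrix.one_mul, Matrix.mul_one,
            Matrix.one_mul, hF, sub_self, sub_zero]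
        obtain ⟨v, B, B', h3, h4⟩ := idem_factor (1 - F) hG
        have hu0 : u ≠ 0 := by
          rintro rfl
          apply hF0
          rw [← h1]
          ext i j
          rw [Matrix.mul_apply]
          simp
        have hv0 : v ≠ 0 := by
          rintro rfl
          apply hF1
          have h5 : 1 - F = 0 := by
            rw [← h3]
            ext i j
            rw [Matrix.mul_apply]
            simp
          exact (sub_eq_zero.1 h5).symm
        have huv : u + v = n := by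
          have h5 : ((u + v : ℕ) : ℂ) = (n : ℂ) := by
            have h6 := trace_fac h2
            have h7 := trace_fac h4
            rw [h1] at h6
            rw [h3, Matrix.trace_sub, Matrix.trace_one, Fintype.card_fin] at h7
            push_cast
            rw [← h6, ← h7]
            ring
          exact_mod_cast h5
        have hc1 : ∀ g, J * J' * r g = r g * (J * J') := fun g => by rw [h1]; exact hFc g
        have hc2 : ∀ g, B * B' * r g = r g * (B * B') := fun g => by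
          rw [h3, Matrix.sub_mul, Matrix.mul_sub, Matrix.one_mul, Matrix.mul_one, hFc]
        set s := compr r J J' h2 hc1 with hs
        set t := compr r B B' h4 hc2 with ht
        have htr : ∀ x, (r x).trace = (s x).trace + (t x).trace := by
          intro x
          rw [hs, ht, compr_apply, compr_apply]
          have e1 : (J' * r x * J).trace = (F * r x).trace := by
            rw [Matrix.trace_mul_comm, ← Matrix.mul_assoc, h1]
          have e2 : (B' * r x * B).trace = ((1 - F) * r x).trace := by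
            rw [Matrix.trace_mul_comm, ← Matrix.mul_assoc, h3]
          rw [e1, e2, Matrix.sub_mul, Matrix.one_mul, Matrix.trace_sub]
          ring
        have hsc : IsCharacter fun x => (s x).trace := ⟨_, s, fun _ => rfl⟩
        have htc : IsCharacter fun x => (t x).trace := ⟨_, t, fun _ => rfl⟩
        have h5 : (fun x => (r x).trace) = fun x => (s x).trace + (t x).trace := funext htr
        have h6 : (fun x => (r x).trace * a x) =
            fun x => (s x).trace * a x + (t x).trace * a x := by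
          funext x
          rw [htr, add_mul]
        rw [h5, h6, dl_add (W.specGCA1.1 _ _ hsc ha) (W.specGCA1.1 _ _ htc ha)]
        have h7 : ∑ η : Lin P, ml (fun x => (s x).trace + (t x).trace) η *
            dl q a (k * (η ^ q)⁻¹) =
            ∑ η : Lin P, ml (fun x => (s x).trace) η * dl q a (k * (η ^ q)⁻¹) +
            ∑ η : Lin P, ml (fun x => (t x).trace) η * dl q a (k * (η ^ q)⁻¹) := by
          rw [← sum_add_distrib]
          refine sum_congr rfl fun η _ => ?_
          rw [(add_char hsc htc η).2, add_mul]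
        rw [h7]
        exact (ih u (by omega) s).add (ih v (by omega) t)

end MUL

theorem specMUL (hTWM : SpecTWM) : SpecMUL := by
  intro p hp P _ _ e hP ζ a hζ ha q hq k
  obtain ⟨n, r, hr⟩ := hζ
  have h1 : ζ = fun x => (r x).trace := funext hr
  rw [h1]
  exact MUL.main hTWM hp hP ha q hq k n r

end Pool.Agent.Lib.MP_1aae89_al.W3
end

section
/-!
# Module NR2: the norm of `avK`
-/
set_option autoImplicit false

namespace Pool.Agent.Lib.MP_1aae89_al.W3

open Pool.Agent.Lib.MP_1aae89_al Pool.Agent.Lib.MP_1aae89_al.BF Finset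
open Pool.Agent.Lib.MP_1aae89_al.W (GC LD nR)
open Pool.Agent.Lib.MP_1aae89_al.W.NRM (trace_eq_of_ne galR galR_trace)
open Pool.Agent.Lib.MP1aae89 (Pex)
open scoped ComplexConjugate

namespace NR2

/-- the twist of a representation by a linear character -/
noncomputable def tw {G : Type} [Group G] {n : ℕ} (lam : Lin G)
    (r : G →* Matrix (Fin n) (Fin n) ℂ) : G →* Matrix (Fin n) (Fin n) ℂ where
  toFun g := ((lam g : ℂˣ) : ℂ) • r g
  map_one' := by rw [map_one, map_one, Units.val_one, one_smul]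
  map_mul' x y := by
    rw [map_mul, map_mul, Units.val_mul, Matrix.smul_mul, Matrix.mul_smul, smul_smul]

theorem tw_trace {G : Type} [Group G] {n : ℕ} (lam : Lin G)
    (r : G →* Matrix (Fin n) (Fin n) ℂ) (g : G) :
    (tw lam r g).trace = ((lam g : ℂˣ) : ℂ) * (r g).trace := by
  show (((lam g : ℂˣ) : ℂ) • r g).trace = _
  rw [Matrix.trace_smul, smul_eq_mul]

end NR2

open NR2

theorem specNR2 (hPRM : SpecPRM) (hCJ2 : SpecCJ2) : SpecNR2 := by
  intro p L s0 b X _ _ P n r K hr hn hy hne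
  classical
  obtain ⟨hp, hb, hL, hcard, hpex, hsyl, hcomm, hchar, hfx, hkp, hkq⟩ := hy
  have hy : Hy p L s0 b P (fun y => (r y).trace) K :=
    ⟨hp, hb, hL, hcard, hpex, hsyl, hcomm, hchar, hfx, hkp, hkq⟩
  obtain ⟨hcopL, -, -, -, hA, -⟩ := hPRM p hp L s0 hL hpex
  set χ : X → ℂ := fun y => (r y).trace with hχ
  set e := s0 * p ^ (b - 1) with he
  have hL0 : 0 < L := Nat.pos_of_ne_zero hL
  have hp0 : (p : ℂ) ≠ 0 := by exact_mod_cast hp.pos.ne'
  have hpe : p ∣ e := (dvd_pow_self p (by omega)).mul_left _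
  have hyL : ∀ y : X, y ^ L = 1 := fun y => by
    obtain ⟨k, hk⟩ := hcard
    rw [hk, Nat.card_eq_fintype_card, pow_mul, pow_card_eq_one, one_pow]
  have hmodL : ∀ (y : X) (a b : ℕ), a ≡ b [MOD L] → y ^ a = y ^ b := fun y a b hab =>
    pow_eq_pow_iff_modEq.mpr (hab.of_dvd (orderOf_dvd_of_pow_eq_one (hyL y)))
  have hcop : ∀ i, (1 + e * i).Coprime L := fun i => hcopL (b - 1) i (by omega)
  have hcopp : ∀ i, (1 + e * i).Coprime p := by
    intro i
    have h1 : p ∣ e * i := hpe.mul_right i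
    obtain ⟨k, hk⟩ := h1
    rw [hk, Nat.coprime_comm, Nat.coprime_add_mul_left_right]
    exact Nat.coprime_one_right p
  -- values of `K`
  have hKp : ∀ y, K y ^ p = 1 := by
    intro y
    rw [← Lin.pow_apply, hkp, Lin.one_apply]
  have hKe : ∀ y i, K (y ^ (1 + e * i)) = K y := by
    intro y i
    obtain ⟨k, hk⟩ := hpe.mul_right i
    rw [map_pow, pow_add, pow_one, hk, pow_mul, hKp, one_pow, mul_one]
  -- invariance
  have hst : ∀ (A t' : ℕ) (y : X), A.Coprime p → χ (y ^ (A + s0 * p ^ b * t')) = χ (y ^ A) := by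
    intro A t' y hAp
    obtain ⟨t, ht⟩ := hA A b t' hAp
    rw [hmodL y _ _ ht, pow_mul]
    exact hfx t (y ^ A)
  have he2 : ∀ i j, ∃ t', (1 + e * i) * (1 + e * j) = (1 + e * (i + j)) + s0 * p ^ b * t' := by
    intro i j
    refine ⟨s0 * p ^ (b - 2) * (i * j), ?_⟩
    have h1 : p ^ (b - 1) * p ^ (b - 1) = p ^ b * p ^ (b - 2) := by
      rw [← pow_add, ← pow_add]
      congr 1
      omega
    rw [he]
    calc (1 + s0 * p ^ (b - 1) * i) * (1 + s0 * p ^ (b - 1) * j)
        = (1 + s0 * p ^ (b - 1) * (i + j)) + s0 * s0 * (p ^ (b - 1) * p ^ (b - 1)) * (i * j) := by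
          ring
      _ = _ := by rw [h1]; ring
  have hmul : ∀ (i j : ℕ) (y : X), χ ((y ^ (1 + e * i)) ^ (1 + e * j)) = χ (y ^ (1 + e * (i + j))) := by
    intro i j y
    obtain ⟨t', ht'⟩ := he2 i j
    rw [← pow_mul, ht', hst _ _ _ (hcopp _)]
  -- the key: no relation
  have hkey : ∀ i < p, ∀ j < p, i ≠ j →
      ¬ ∀ y, χ (y ^ (1 + e * i)) = (K y : ℂ) ^ i * ((K y : ℂ) ^ j)⁻¹ * χ (y ^ (1 + e * j)) := by
    intro i hi j hj hij H
    set d := i + (p - j) with hd
    have hKu : ∀ y, (K y : ℂ) ≠ 0 := fun y => (K y).ne_zero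
    have hKpc : ∀ y, (K y : ℂ) ^ p = 1 := by
      intro y
      have := hKp y
      rw [← Units.val_pow_eq_pow_val, this, Units.val_one]
    have h1 : ∀ y, χ (y ^ (1 + e * d)) = (K y : ℂ) ^ d * χ y := by
      intro y
      have h2 := H (y ^ (1 + e * (p - j)))
      rw [hmul, hmul, hKe] at h2
      have h3 : p - j + j = p := by omega
      have h4 : χ (y ^ (1 + e * p)) = χ y := by
        have h5 := hfx 1 y
        rw [mul_one] at h5
        have h6 : e * p = s0 * p ^ b := by
          rw [he, mul_assoc, ← pow_succ]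
          congr 2
          omega
        rw [h6]
        exact h5
      rw [h3, h4, add_comm (p - j) i] at h2
      rw [hd, h2, pow_add]
      congr 2
      refine inv_eq_of_mul_eq_one_right ?_
      rw [← pow_add, show j + (p - j) = p by omega, hKpc]
    have h2 : ∀ (m : ℕ) (y : X), χ (y ^ (1 + e * (d * m))) = (K y : ℂ) ^ (d * m) * χ y := by
      intro m
      induction m with
      | zero =>
        intro y
        rw [mul_zero, mul_zero, add_zero, pow_one, pow_zero, one_mul]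
      | succ m ih =>
        intro y
        have h3 := hmul d (d * m) y
        rw [ih, hKe, h1] at h3
        rw [mul_add, mul_one, add_comm (d * m) d, ← h3, pow_add]
        ring
    have hdp : d.Coprime p := by
      rw [Nat.coprime_comm, hp.coprime_iff_not_dvd]
      intro hdv
      obtain ⟨k, hk⟩ := hdv
      have h3 : k = 1 := by
        have h4 : 0 < k := by
          rcases Nat.eq_zero_or_pos k with h | h
          · rw [h, mul_zero] at hk
            omega
          · exact h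
        have h5 : k < 2 := by
          by_contra h
          push Not at h
          have := Nat.mul_le_mul_left p h
          omega
        omega
      rw [h3, mul_one] at hk
      omega
    obtain ⟨m, -, hm⟩ := Nat.exists_mul_mod_eq_one_of_coprime hdp hp.one_lt
    have h3 : d * m = 1 + p * (d * m / p) := by
      have := Nat.div_add_mod (d * m) p
      omega
    obtain ⟨y, hy1⟩ := hne
    apply hy1
    have h4 := h2 m y
    have h5 : 1 + e * (d * m) = (1 + e) + s0 * p ^ b * (d * m / p) := by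
      have h6 : e * p = s0 * p ^ b := by
        rw [he, mul_assoc, ← pow_succ]
        congr 2
        omega
      conv_lhs => rw [h3]
      rw [← h6]
      ring
    rw [h5, hst _ _ _ (by simpa using hcopp 1)] at h4
    have h7 : (K y : ℂ) ^ (d * m) = K y := by
      rw [h3, pow_add, pow_one, pow_mul, hKpc, one_pow, mul_one]
    rw [h7] at h4
    exact h4
  -- values of the conjugates
  have hgal : ∀ (k : ℕ) (σ : ℂ →+* ℂ), (∀ ξ : ℂ, ξ ^ L = 1 → σ ξ = ξ ^ k) → ∀ y : X,
      σ (χ y) = χ (y ^ k) := by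
    intro k σ hσ y
    have h1 : (r y) ^ L = 1 := by rw [← map_pow, hyL, map_one]
    rw [hχ]
    simp only
    rw [gal_trace hL σ hσ (r y) h1, map_pow]
  -- the scalar products
  let ψ : ℕ → X → ℂ := fun i y => (((K y)⁻¹ : ℂˣ) : ℂ) ^ i * χ (y ^ (1 + e * i))
  let I : ℕ → ℕ → ℂ := fun i j => ∑ y : X, ψ i y * ψ j y⁻¹
  have hI : ∀ i ∈ range p, ∀ j ∈ range p,
      (I i j).re ≤ if i = j then (Fintype.card X : ℝ) else 0 := by
    intro i hi j hj
    rw [mem_range] at hi hj
    obtain ⟨m, hm⟩ : ∃ m : ℕ, (1 + e * j) * m ≡ 1 [MOD L] := by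
      have := Nat.exists_mul_mod_eq_one_of_coprime (hcop j)
      rcases Nat.lt_or_ge 1 L with h | h
      · obtain ⟨m, -, hm⟩ := this h
        refine ⟨m, ?_⟩
        rw [Nat.ModEq, hm, Nat.mod_eq_of_lt h]
      · have h1 : L = 1 := by omega
        exact ⟨0, by rw [h1]; exact Nat.modEq_one⟩
    have hmc : m.Coprime L := by
      have h1 : ((1 + e * j) * m).Coprime L := by
        rw [Nat.Coprime, hm.gcd_eq, Nat.gcd_one_left]
      exact Nat.Coprime.coprime_mul_left h1
    have hmj : ∀ w : X, (w ^ m) ^ (1 + e * j) = w := by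
      intro w
      rw [← pow_mul, mul_comm m, hmodL w _ _ hm, pow_one]
    have hKm : ∀ w : X, K (w ^ m) = K w := by
      intro w
      rw [← hKe (w ^ m) j, hmj]
    -- substitution `y = w ^ m`
    have hbij : Function.Bijective fun w : X => w ^ m := by
      refine (Finite.injective_iff_bijective).1 fun x y hxy => ?_
      have h1 : (x ^ m) ^ (1 + e * j) = (y ^ m) ^ (1 + e * j) := by
        have := congrArg (· ^ (1 + e * j)) hxy
        exact this
      rwa [hmj, hmj] at h1
    obtain ⟨σ, hσ⟩ := Pool.Agent.Lib.MP1aae89.exists_aut L hL0 (m * (1 + e * i))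
      (Nat.Coprime.mul_left hmc (hcop i))
    set s := tw (K ^ j * (K ^ i)⁻¹) (galR r σ) with hs
    have hstr : ∀ w, (s w).trace = (K w : ℂ) ^ j * ((K w : ℂ) ^ i)⁻¹ * χ (w ^ (m * (1 + e * i))) := by
      intro w
      rw [hs, tw_trace, galR_trace, Lin.mul_apply, Lin.inv_apply, Lin.pow_apply, Lin.pow_apply]
      have h1 := hgal _ σ hσ w
      rw [← h1]
      push_cast
      rfl
    have hI1 : I i j = ∑ w : X, (s w).trace * (r w⁻¹).trace := by
      show ∑ y : X, ψ i y * ψ j y⁻¹ = _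
      rw [← Function.Bijective.sum_comp hbij fun y => ψ i y * ψ j y⁻¹]
      refine sum_congr rfl fun w _ => ?_
      rw [hstr]
      have h1 : ψ i (w ^ m) = ((K w : ℂ) ^ i)⁻¹ * χ (w ^ (m * (1 + e * i))) := by
        show (((K (w ^ m))⁻¹ : ℂˣ) : ℂ) ^ i * χ ((w ^ m) ^ (1 + e * i)) = _
        rw [hKm, ← pow_mul, Units.val_inv_eq_inv_val, inv_pow]
      have h2 : ψ j (w ^ m)⁻¹ = (K w : ℂ) ^ j * χ w⁻¹ := by
        show (((K (w ^ m)⁻¹)⁻¹ : ℂˣ) : ℂ) ^ j * χ (((w ^ m)⁻¹) ^ (1 + e * j)) = _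
        rw [map_inv, inv_inv, hKm, inv_pow, hmj]
      rw [h1, h2]
      ring
    by_cases h0 : I i j = 0
    · rw [h0, Complex.zero_re]
      split_ifs
      · exact Nat.cast_nonneg _
      · exact le_rfl
    · rw [hI1] at h0
      have htr := trace_eq_of_ne hr hn h0
      have hij : i = j := by
        by_contra hij
        refine hkey i hi j hj hij fun y => ?_
        have h1 := htr (y ^ (1 + e * j))
        rw [hstr, hKe] at h1
        have h2 : (y ^ (1 + e * j)) ^ (m * (1 + e * i)) = y ^ (1 + e * i) := by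
          rw [← pow_mul, ← mul_assoc, pow_mul, hmodL y _ _ hm, pow_one]
        rw [h2] at h1
        have hKu : (K y : ℂ) ≠ 0 := (K y).ne_zero
        have h3 : χ (y ^ (1 + e * j)) =
            (K y : ℂ) ^ j * ((K y : ℂ) ^ i)⁻¹ * χ (y ^ (1 + e * i)) := h1.symm
        rw [h3]
        field_simp
      rw [if_pos hij, hI1]
      have h1 : ∑ w : X, (s w).trace * (r w⁻¹).trace = (Fintype.card X : ℂ) := by
        have h2 := orth hr hn 1 1
        have hn' : (n : ℂ) ≠ 0 := by exact_mod_cast hn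
        rw [Matrix.one_mul, Matrix.trace_one, Fintype.card_fin, div_mul_cancel₀ _ hn'] at h2
        rw [← h2]
        refine sum_congr rfl fun w _ => ?_
        rw [htr w, Matrix.one_mul, Matrix.mul_one]
      rw [h1, Complex.natCast_re]
  -- the sum
  have hsum : ((∑ y, ‖avK p s0 b χ K y‖ ^ 2 : ℝ) : ℂ) =
      (p : ℂ)⁻¹ ^ 2 * ∑ i ∈ range p, ∑ j ∈ range p, I i j := by
    push_cast
    have h1 : ∀ y ∈ univ, ((‖avK p s0 b χ K y‖ : ℝ) : ℂ) ^ 2 = (p : ℂ)⁻¹ ^ 2 *
        ∑ i ∈ range p, ∑ j ∈ range p, ψ i y * ψ j y⁻¹ := by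
      intro y _
      rw [← Complex.mul_conj', ← hCJ2 p L s0 b P χ K hy y]
      show ((p : ℂ)⁻¹ * ∑ i ∈ range p, ψ i y) * ((p : ℂ)⁻¹ * ∑ j ∈ range p, ψ j y⁻¹) = _
      rw [← sum_mul_sum]
      ring
    rw [sum_congr rfl h1, ← mul_sum, sum_comm]
    congr 1
    refine sum_congr rfl fun t _ => ?_
    rw [sum_comm]
  have hre : ∑ y, ‖avK p s0 b χ K y‖ ^ 2 =
      (p : ℝ)⁻¹ ^ 2 * ∑ i ∈ range p, ∑ j ∈ range p, (I i j).re := by
    have h1 := congrArg Complex.re hsum
    rw [Complex.ofReal_re] at h1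
    rw [h1]
    have h2 : ((p : ℂ)⁻¹ ^ 2) = (((p : ℝ)⁻¹ ^ 2 : ℝ) : ℂ) := by push_cast; rfl
    rw [h2, Complex.re_ofReal_mul, Complex.re_sum]
    congr 1
    refine sum_congr rfl fun t _ => ?_
    rw [Complex.re_sum]
  show ∑ y, ‖avK p s0 b χ K y‖ ^ 2 ≤ _
  rw [hre]
  have h1 : ∑ i ∈ range p, ∑ j ∈ range p, (I i j).re ≤ (p : ℝ) * (Fintype.card X : ℝ) := by
    calc ∑ i ∈ range p, ∑ j ∈ range p, (I i j).re
        ≤ ∑ i ∈ range p, ∑ j ∈ range p, (if i = j then (Fintype.card X : ℝ) else 0) :=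
          sum_le_sum fun t ht => sum_le_sum fun s hs => hI t ht s hs
      _ = ∑ i ∈ range p, (Fintype.card X : ℝ) := by
          refine sum_congr rfl fun t ht => ?_
          rw [sum_ite_eq, if_pos ht]
      _ = _ := by rw [sum_const, card_range, nsmul_eq_mul]
  have hpr : (0 : ℝ) < p := by exact_mod_cast hp.pos
  calc (p : ℝ)⁻¹ ^ 2 * ∑ i ∈ range p, ∑ j ∈ range p, (I i j).re
      ≤ (p : ℝ)⁻¹ ^ 2 * ((p : ℝ) * (Fintype.card X : ℝ)) :=
        mul_le_mul_of_nonneg_left h1 (by positivity)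
    _ = (Fintype.card X : ℝ) / p := by
        field_simp

end Pool.Agent.Lib.MP_1aae89_al.W3
end

section
/-!
# Module NV2: nonvanishing
-/
set_option autoImplicit false

namespace Pool.Agent.Lib.MP_1aae89_al.W3

open Pool.Agent.Lib.MP_1aae89_al Pool.Agent.Lib.MP_1aae89_al.BF Finset
open Pool.Agent.Lib.MP_1aae89_al.W (GC LD nR)
open Pool.Agent.Lib.MP1aae89 (Pex)

namespace NV2

/-- the average of a multiplicative matrix function -/
theorem avg_idem {C : Type} [CommGroup C] [Fintype C] {n : ℕ}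
    (f : C → Matrix (Fin n) (Fin n) ℂ) (hf : ∀ x y, f (x * y) = f x * f y) :
    ((Fintype.card C : ℂ)⁻¹ • ∑ x, f x) * ((Fintype.card C : ℂ)⁻¹ • ∑ x, f x) =
      (Fintype.card C : ℂ)⁻¹ • ∑ x, f x := by
  set E : Matrix (Fin n) (Fin n) ℂ := (Fintype.card C : ℂ)⁻¹ • ∑ x, f x with hE
  have hc : (Fintype.card C : ℂ) ≠ 0 := by exact_mod_cast Fintype.card_ne_zero
  have h1 : ∀ y, f y * E = E := by
    intro y
    rw [hE, Matrix.mul_smul, Matrix.mul_sum]
    congr 1
    refine Fintype.sum_equiv (Equiv.mulLeft y) _ _ fun x => ?_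
    rw [Equiv.coe_mulLeft, hf]
  conv_lhs => rw [hE, Matrix.smul_mul, Matrix.sum_mul, Finset.sum_congr rfl fun x _ => h1 x]
  rw [Finset.sum_const, Finset.card_univ, ← Nat.cast_smul_eq_nsmul ℂ, smul_smul,
    inv_mul_cancel₀ hc, one_smul]

/-- the character `D` of a commutative group -/
theorem D_char {C : Type} [CommGroup C] [Fintype C] (χ : C → ℂ) (hχ : IsCharacter χ) (q : ℕ)
    (k : Lin C) :
    IsCharacter fun u : C => (Fintype.card C : ℂ)⁻¹ *
      ∑ x : C, χ (u * x ^ q) * (((k x)⁻¹ : ℂˣ) : ℂ) := by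
  obtain ⟨n, ρ, hρ⟩ := hχ
  have hmul : ∀ x y : C, ((((k (x * y))⁻¹ : ℂˣ)) : ℂ) • ρ ((x * y) ^ q) =
      ((((k x)⁻¹ : ℂˣ) : ℂ) • ρ (x ^ q)) * ((((k y)⁻¹ : ℂˣ) : ℂ) • ρ (y ^ q)) := by
    intro x y
    rw [Matrix.smul_mul, Matrix.mul_smul, smul_smul, ← map_mul ρ, mul_pow, ← Units.val_mul,
      ← mul_inv, ← map_mul]
  have hE := avg_idem (fun x => ((((k x)⁻¹ : ℂˣ)) : ℂ) • ρ (x ^ q)) hmul
  set E : Matrix (Fin n) (Fin n) ℂ :=
    (Fintype.card C : ℂ)⁻¹ • ∑ x, (((k x)⁻¹ : ℂˣ) : ℂ) • ρ (x ^ q) with hEd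
  have hc : ∀ g : C, E * ρ g = ρ g * E := by
    intro g
    rw [hEd, Matrix.smul_mul, Matrix.mul_smul, Matrix.sum_mul, Matrix.mul_sum]
    congr 1
    refine Finset.sum_congr rfl fun x _ => ?_
    rw [Matrix.smul_mul, Matrix.mul_smul, ← map_mul, ← map_mul, mul_comm g]
  have h := W.idem_char ρ E hE hc
  have h2 : (fun u : C => (Fintype.card C : ℂ)⁻¹ *
      ∑ x : C, χ (u * x ^ q) * (((k x)⁻¹ : ℂˣ) : ℂ)) = fun g => (E * ρ g).trace := by
    funext u
    rw [hEd, Matrix.smul_mul, Matrix.trace_smul, Matrix.sum_mul, Matrix.trace_sum, smul_eq_mul]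
    congr 1
    refine Finset.sum_congr rfl fun x _ => ?_
    rw [Matrix.smul_mul, Matrix.trace_smul, smul_eq_mul, ← map_mul, ← hρ, mul_comm (x ^ q),
      mul_comm]
  rw [h2]
  exact h

/-- the core, for a commutative group `C` -/
theorem core (hDLM : SpecDLM) {p : ℕ} (hp : p.Prime) {C : Type} [CommGroup C] [Fintype C] {e : ℕ}
    (hC : Nat.card C = p ^ e) (χ : C → ℂ) (hχ : IsCharacter χ) (q : ℕ) (k : Lin C)
    (hd : ¬ p ∣ dl q χ k) (u : C) :
    ∑ x : C, χ (u * x ^ q) * (((k x)⁻¹ : ℂˣ) : ℂ) ≠ 0 := by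
  intro h0
  apply hd
  have hD := D_char χ hχ q k
  have hu : u ^ p ^ e = 1 := by rw [← hC]; exact pow_card_eq_one'
  refine W.specNVZ p hp _ hD u e hu ?_ (dl q χ k) ?_
  · show (Fintype.card C : ℂ)⁻¹ * ∑ x : C, χ (u * x ^ q) * (((k x)⁻¹ : ℂˣ) : ℂ) = 0
    rw [h0, mul_zero]
  · show (Fintype.card C : ℂ)⁻¹ * ∑ x : C, χ (1 * x ^ q) * (((k x)⁻¹ : ℂˣ) : ℂ) = _
    simp only [one_mul]
    exact (hDLM q χ hχ k).symm

end NV2

theorem specNV2 (hPRM : SpecPRM) (hDLM : SpecDLM) : SpecNV2 := by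
  classical
  intro p L s0 b X _ _ P χ K h hd u hu
  by_contra hcon
  have hcon' : ∀ x ∈ P, avK p s0 b χ K (u * x ^ p ^ (b - 1)) = 0 := by
    intro x hx
    by_contra h1
    exact hcon ⟨x, hx, h1⟩
  obtain ⟨-, hself, -, -, -, -⟩ := hPRM p h.pp L s0 h.hL h.pex
  have hp := h.pp
  let _ : CommGroup P := { (inferInstance : Group P) with
    mul_comm := fun x y => Subtype.ext (h.comm x x.2 y y.2) }
  let _ : Fintype P := Fintype.ofFinite P
  have hC : Nat.card P = p ^ ((Nat.card X).factorization p) := h.syl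
  have hpow : ∀ x : X, x ^ L = 1 := by
    intro x
    obtain ⟨c, hc⟩ := h.card
    rw [hc, pow_mul, pow_card_eq_one', one_pow]
  have hppow : ∀ x : P, (x : X) ^ p ^ ((Nat.card X).factorization p) = 1 := by
    intro x
    have h1 : x ^ p ^ ((Nat.card X).factorization p) = 1 := by
      rw [← hC]
      exact pow_card_eq_one'
    have h2 := congrArg (fun y : P => (y : X)) h1
    simpa using h2
  set q := p ^ (b - 1) with hq
  -- the core
  have hcore := NV2.core hDLM hp hC (fun x : P => χ x) (h.char.comp P.subtype) q (resL P K)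
    hd ⟨u, hu⟩
  apply hcore
  have hpq : p ∣ q := dvd_pow_self p (by have := h.hb; omega)
  have hKp : ∀ z : X, (K z) ^ p = 1 := by
    intro z
    have h1 : (K ^ p) z = 1 := by rw [h.kp]; rfl
    exact h1
  have hKq : ∀ z : X, (K z) ^ q = 1 := by
    intro z
    obtain ⟨c, hc⟩ := hpq
    rw [hc, pow_mul, hKp, one_pow]
  -- the sum of one conjugate
  have hone : ∀ i : ℕ, ∑ x : P, ((((K (u * (x : X) ^ q))⁻¹ : ℂˣ)) : ℂ) ^ i *
      χ ((u * (x : X) ^ q) ^ (1 + s0 * q * i)) * (((K (x : X))⁻¹ : ℂˣ) : ℂ) =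
      ∑ x : P, χ (u * (x : X) ^ q) * (((K (x : X))⁻¹ : ℂˣ) : ℂ) := by
    intro i
    have hcop : (Nat.card P).Coprime (1 + q * i) := by
      rw [hC]
      apply Nat.Coprime.pow_left
      rw [hp.coprime_iff_not_dvd]
      intro hd'
      have h1 : p ∣ q * i := hpq.mul_right i
      have h2 := (Nat.dvd_add_left h1).1 hd'
      exact hp.one_lt.not_ge (Nat.le_of_dvd one_pos h2)
    let uP : P := ⟨u, hu⟩
    refine Fintype.sum_equiv ((powCoprime hcop).trans (Equiv.mulLeft (uP ^ i))) _ _ fun x => ?_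
    have hx' : (((powCoprime hcop).trans (Equiv.mulLeft (uP ^ i))) x : X) =
        u ^ i * (x : X) ^ (1 + q * i) := by
      rw [Equiv.trans_apply, Equiv.coe_mulLeft, powCoprime_apply]
      rfl
    rw [hx']
    have hcomm : ∀ m n : ℕ, Commute (u ^ m) ((x : X) ^ n) := fun m n =>
      (show Commute u (x : X) from h.comm u hu x x.2).pow_pow m n
    have hz : u * (x : X) ^ q ∈ P := P.mul_mem hu (P.pow_mem x.2 q)
    have hzs : (u * (x : X) ^ q) ^ s0 = u * (x : X) ^ q :=
      hself _ _ (hpow _) (hppow ⟨_, hz⟩)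
    have h1 : (u * (x : X) ^ q) ^ (1 + s0 * q * i) = u * (u ^ i * (x : X) ^ (1 + q * i)) ^ q := by
      rw [pow_add, pow_one, mul_assoc s0, pow_mul, hzs]
      have h2 : Commute u ((x : X) ^ q) := by
        have := hcomm 1 q
        rwa [pow_one] at this
      rw [h2.mul_pow, (hcomm i (1 + q * i)).mul_pow, ← pow_mul, ← pow_mul, ← pow_mul]
      have h3 : Commute ((x : X) ^ q) (u ^ (q * i)) := (hcomm (q * i) q).symm
      rw [mul_assoc, ← mul_assoc ((x : X) ^ q), h3.eq, mul_assoc, ← pow_add, mul_comm q i]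
      congr 3
      ring
    rw [h1]
    have hKz : K (u * (x : X) ^ q) = K u := by
      rw [map_mul, map_pow, hKq, mul_one]
    have hKx : K (u ^ i * (x : X) ^ (1 + q * i)) = K u ^ i * K (x : X) := by
      rw [map_mul, map_pow, map_pow, pow_add, pow_one, pow_mul, hKq, one_pow, mul_one]
    rw [hKz, hKx, mul_inv, ← inv_pow, Units.val_mul, Units.val_pow_eq_pow_val]
    ring
  -- the sum of the averages
  have hsum : ∑ x : P, avK p s0 b χ K (u * (x : X) ^ q) * (((K (x : X))⁻¹ : ℂˣ) : ℂ) =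
      ∑ x : P, χ (u * (x : X) ^ q) * (((K (x : X))⁻¹ : ℂˣ) : ℂ) := by
    have h1 : ∀ x : P, avK p s0 b χ K (u * (x : X) ^ q) * (((K (x : X))⁻¹ : ℂˣ) : ℂ) =
        (p : ℂ)⁻¹ * ∑ i ∈ range p, ((((K (u * (x : X) ^ q))⁻¹ : ℂˣ)) : ℂ) ^ i *
          χ ((u * (x : X) ^ q) ^ (1 + s0 * q * i)) * (((K (x : X))⁻¹ : ℂˣ) : ℂ) := by
      intro x
      unfold avK
      rw [mul_assoc, Finset.sum_mul]
    rw [Finset.sum_congr rfl fun x _ => h1 x, ← Finset.mul_sum, Finset.sum_comm,
      Finset.sum_congr rfl fun i _ => hone i, Finset.sum_const, Finset.card_range, nsmul_eq_mul,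
      ← mul_assoc, inv_mul_cancel₀ (by exact_mod_cast hp.ne_zero), one_mul]
  show ∑ x : P, χ (u * (x : X) ^ q) * (((K (x : X))⁻¹ : ℂˣ) : ℂ) = 0
  rw [← hsum]
  refine Finset.sum_eq_zero fun x _ => ?_
  rw [hcon' x x.2, zero_mul]

end Pool.Agent.Lib.MP_1aae89_al.W3
end

section
/-!
# Module PWL: characters fixed by one power map
-/
set_option autoImplicit false

namespace Pool.Agent.Lib.MP_1aae89_al.W3

open Pool.Agent.Lib.MP_1aae89_al Pool.Agent.Lib.MP_1aae89_al.BF Finset
open Pool.Agent.Lib.MP1aae89 (Pex)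

theorem specPWL (hPRM : SpecPRM) : SpecPWL := by
  intro p hp L s0 hL hs b hb X _ χ hXL hfx h1
  obtain ⟨-, -, -, -, h5, -⟩ := hPRM p hp L s0 hL hs
  intro t
  induction t with
  | zero => intro y; rw [mul_zero, add_zero, pow_one]
  | succ t ih =>
    intro y
    set q := p ^ (b - 1) with hq
    have hco : (1 + s0 * q * (t + 1)).Coprime p := by
      rw [Nat.coprime_comm, Nat.Prime.coprime_iff_not_dvd hp]
      intro h
      rw [Nat.dvd_add_left] at h
      · exact hp.one_lt.ne' (Nat.dvd_one.mp h)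
      · refine Dvd.dvd.mul_right (Dvd.dvd.mul_left ?_ _) _
        exact dvd_pow_self p (by omega)
    obtain ⟨t'', ht''⟩ := h5 (1 + s0 * q * (t + 1)) b (s0 * p ^ (b - 2) * t) hco
    have hqq : q * q = p ^ b * p ^ (b - 2) := by
      rw [hq, ← pow_add, ← pow_add]
      congr 1
      omega
    have e1 : (1 + s0 * q * t) * (1 + s0 * q) =
        1 + s0 * q * (t + 1) + s0 * p ^ b * (s0 * p ^ (b - 2) * t) := by
      have : s0 * p ^ b * (s0 * p ^ (b - 2) * t) = s0 * s0 * t * (p ^ b * p ^ (b - 2)) := by ring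
      rw [this, ← hqq]
      ring
    have e2 : y ^ ((1 + s0 * q * t) * (1 + s0 * q)) =
        (y ^ (1 + s0 * q * (t + 1))) ^ (1 + s0 * p ^ b * t'') := by
      rw [e1, ← pow_mul]
      exact pow_eq_pow_iff_modEq.mpr (ht''.of_dvd (orderOf_dvd_of_pow_eq_one (hXL y)))
    have e3 : χ (y ^ ((1 + s0 * q * t) * (1 + s0 * q))) = χ y := by
      rw [pow_mul, h1, ih]
    rw [e2, hfx] at e3
    exact e3

end Pool.Agent.Lib.MP_1aae89_al.W3
end

section
/-!
# Module Q1C: Q1 from the inductive statement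
-/
set_option autoImplicit false

namespace Pool.Agent.Lib.MP_1aae89_al.W3

open Pool.Agent.Lib.MP_1aae89_al Pool.Agent.Lib.MP_1aae89_al.BF Finset
open Pool.Agent.Lib.MP1aae89 (Pex exists_pex)

/-- the degree of the induced function -/
theorem Q1C_one {G : Type} [Group G] [Fintype G] (M : Subgroup G) (ψ : M → ℂ) :
    ind M ψ 1 = (M.index : ℂ) * ψ 1 := by
  classical
  unfold ind
  have h1 : ∀ x : G, (if h : x⁻¹ * 1 * x ∈ M then ψ ⟨x⁻¹ * 1 * x, h⟩ else 0) = ψ 1 := by
    intro x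
    have h2 : x⁻¹ * 1 * x = 1 := by group
    have h3 : x⁻¹ * 1 * x ∈ M := by rw [h2]; exact M.one_mem
    rw [dif_pos h3]
    congr 1
    exact Subtype.ext h2
  rw [sum_congr rfl fun x _ => h1 x, sum_const, card_univ, nsmul_eq_mul]
  have h4 : (Fintype.card G : ℂ) = (Nat.card M : ℂ) * (M.index : ℂ) := by
    rw [← Nat.card_eq_fintype_card, ← Subgroup.card_mul_index M]
    push_cast
    rfl
  have h5 : (Nat.card M : ℂ) ≠ 0 := by exact_mod_cast Nat.card_pos.ne'
  rw [h4]
  field_simp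

theorem specQ1C (hIDC : SpecIDC) (hLVF : SpecLVF) (hSCK : SpecSCK) (hSU0 : SpecSU0)
    (hPRM : SpecPRM) : SpecQ1C := by
  intro p hp G _ _ M hM n r hr hn b hb hlev hIC P hP
  classical
  have : Fintype M := Fintype.ofFinite M
  have : Fintype P := Fintype.ofFinite P
  set ψ : M → ℂ := fun y => (r y).trace with hψ
  have hψc : IsCharacter ψ := isCharacter_trace r
  obtain ⟨h1, h2⟩ := W.specLRS p hp M P ψ hψc
  rw [hlev] at h2
  suffices h3 : b ≤ lev p (fun x : P => ind M ψ (x : G)) from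
    ⟨le_antisymm (h1.trans h2) h3, le_antisymm h2 (h3.trans h1)⟩
  by_contra hcon
  have hlow : lev p (fun x : P => ind M ψ (x : G)) ≤ b - 1 := by omega
  have hL : Nat.card G ≠ 0 := Nat.card_pos.ne'
  obtain ⟨s0, hpex⟩ := exists_pex hp hL
  have hML : Nat.card M ∣ Nat.card G := Subgroup.card_subgroup_dvd_card M
  have hPL : Nat.card P ∣ Nat.card G := Subgroup.card_subgroup_dvd_card P
  have hF : IsCharacter (ind M ψ) := hIDC M ψ hψc
  have hFP : IsCharacter (fun x : P => ind M ψ (x : G)) := hF.comp P.subtype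
  have hfx := (hLVF p hp _ s0 hL hpex hPL _ hFP).1 (b - 1) (by omega) hlow
  have hPpow : ∀ x : P, (x : G) ^ p ^ (Nat.card G).factorization p = 1 := by
    intro x
    have h1 : x ^ Nat.card P = 1 := pow_card_eq_one'
    rw [hP] at h1
    have h2 := congrArg (Subtype.val) h1
    rw [Subgroup.coe_pow] at h2
    exact h2
  have hPs0 : ∀ x : P, (x : G) ^ s0 = x := fun x =>
    (hPRM p hp _ s0 hL hpex).2.1 (x : G) _ pow_card_eq_one' (hPpow x)
  have h4 : ∀ (t : ℕ) (x : P), ind M ψ ((x ^ (1 + p ^ (b - 1) * t) : P) : G) =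
      ind M ψ (x : G) := by
    intro t x
    have h5 := hfx t x
    simp only [Subgroup.coe_pow] at h5
    rw [pow_add, mul_assoc, pow_mul, hPs0 x, ← pow_add] at h5
    rw [Subgroup.coe_pow]
    exact h5
  have h6 : dl (p ^ (b - 1)) (fun x : P => ind M ψ (x : G)) 1 ≡ M.index * n [MOD p] :=
    hSU0 p hp _ hP _ hFP b hb h4 (M.index * n) (by
      change ind M ψ ((1 : P) : G) = _
      rw [Subgroup.coe_one, Q1C_one, hψ]
      simp only [map_one, Matrix.trace_one, Fintype.card_fin]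
      push_cast
      rfl)
  have h7 : ¬ p ∣ dl (p ^ (b - 1)) (fun x : P => ind M ψ (x : G)) (resL P (1 : Lin G)) := by
    intro h8
    have h9 : p ∣ M.index * n := (h6.dvd_iff dvd_rfl).1 h8
    rcases hp.dvd_mul.1 h9 with h | h
    · exact hM h
    · exact hn h
  obtain ⟨x, hx, hx2⟩ := hSCK p hp M P _ hP ψ hψc 1 (p ^ (b - 1))
    (dvd_pow_self p (by omega)) h7
  have hlv := hLVF p hp _ s0 hL hpex hML ψ hψc
  refine hx2 (hIC (Nat.card G) s0 hL hML hpex (cjP M P x) (INR_card M P hP hM x hx) n r hr hn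
    (hlv.1 b (by omega) hlev.le) (resL M 1) ?_ ?_)
  · refine Lin.ext fun y => ?_
    rw [Lin.pow_apply, resL_apply, Lin.one_apply, Lin.one_apply, one_pow]
  · obtain ⟨y, hy⟩ := hlv.2 b hb hlev
    refine ⟨y, ?_⟩
    rw [resL_apply, Lin.one_apply, Units.val_one, one_mul]
    exact hy

end Pool.Agent.Lib.MP_1aae89_al.W3
end

section
/-!
# Module REC of Theorem W3 (MP_1aae89_al): the reduction theorem
-/
set_option autoImplicit false

namespace Pool.Agent.Lib.MP_1aae89_al.W3

open Pool.Agent.Lib.MP_1aae89_al Pool.Agent.Lib.MP_1aae89_al.BF Finset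
open Pool.Agent.Lib.MP_1aae89_al.W (GC LD nR)
open Pool.Agent.Lib.MP1aae89 (Pex)

/-- REC. -/
theorem specREC (hRE1 : SpecRE1) (hRHT : SpecRHT) (hTWS : SpecTWS) : SpecREC := by
  intro p b hp hb
  have main : ∀ (N : ℕ) {X : Type} [Group X] [Finite X] (H : Subgroup X), Nat.card X = N →
      RH p b H → ∀ b' : ℕ, b ≤ b' → IC p b' X := by
    intro N
    induction N using Nat.strong_induction_on with
    | _ N ih =>
      intro X _ _ H hN hRH b' hb'
      refine hTWS p b' hp (hb.trans hb') (hRE1 p b hp hb H hRH ?_ b' hb')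
      intro T hT hHT hidx b'' hb''
      refine ih (Nat.card T) ?_ (H.subgroupOf T) rfl (hRHT p b hp H T hRH hHT hidx) b'' hb''
      rw [← hN]
      have h1 : Nat.card T ≤ Nat.card X := Subgroup.card_le_card_group T
      rcases h1.lt_or_eq with h | h
      · exact h
      · exact absurd (Subgroup.eq_top_of_card_eq T h) hT
  intro X _ _ H hRH b' hb'
  exact main (Nat.card X) H rfl hRH b' hb'

end Pool.Agent.Lib.MP_1aae89_al.W3
end

section
/-!
# RHT: the hypotheses of the reduction theorem are inherited by subgroups of `p'`-index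
-/
set_option autoImplicit false

namespace Pool.Agent.Lib.MP_1aae89_al.W3

open Pool.Agent.Lib.MP_1aae89_al Pool.Agent.Lib.MP_1aae89_al.BF Finset

namespace RHTM

section

variable {X : Type} [Group X] (H T : Subgroup X) [H.Normal]

/-- the map `T/H_T → X/H` -/
def io : (T ⧸ H.subgroupOf T) →* (X ⧸ H) :=
  QuotientGroup.map (H.subgroupOf T) H T.subtype fun _ h => h

theorem io_inj : Function.Injective (io H T) := by
  rw [injective_iff_map_eq_one]
  intro a
  induction a using QuotientGroup.induction_on with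
  | H t =>
    intro h
    rw [QuotientGroup.eq_one_iff]
    have h1 : ((t : X) : X ⧸ H) = 1 := h
    rw [QuotientGroup.eq_one_iff] at h1
    exact h1

theorem io_index (hHT : H ≤ T) : (io H T).range.index = T.index := by
  have h1 : (io H T).range.comap (QuotientGroup.mk' H) = T := by
    ext x
    constructor
    · rintro ⟨a, ha⟩
      induction a using QuotientGroup.induction_on with
      | H t =>
        have h2 : ((t : X) : X ⧸ H) = (x : X ⧸ H) := ha
        rw [QuotientGroup.eq] at h2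
        have h3 := T.mul_mem t.2 (hHT h2)
        rwa [mul_inv_cancel_left] at h3
    · intro hx
      exact ⟨((⟨x, hx⟩ : T) : T ⧸ H.subgroupOf T), rfl⟩
  conv_rhs => rw [← h1]
  exact (Subgroup.index_comap_of_surjective _ (QuotientGroup.mk'_surjective H)).symm

end

end RHTM

open RHTM in
theorem specRHT (hISO : SpecISO) : SpecRHT := by
  intro p b hp X _ _ H T h hHT hpT
  have hN := h.norm
  refine ⟨inferInstance, ?_, ?_⟩
  · rcases h.low with h1 | h1
    · left
      exact (hISO p b (Subgroup.subgroupOfEquivOfLe hHT).symm).2.1 h1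
    · right
      intro P hP b' hb'
      have hcard : Nat.card (P.map T.subtype) = Nat.card P :=
        Subgroup.card_map_of_injective T.subtype_injective
      have hX : Nat.card X = Nat.card T * T.index := (T.card_mul_index).symm
      have hfac : (Nat.card X).factorization p = (Nat.card T).factorization p := by
        have h0 : T.index ≠ 0 := Subgroup.index_ne_zero_of_finite
        rw [hX, Nat.factorization_mul Nat.card_pos.ne' h0, Finsupp.add_apply,
          Nat.factorization_eq_zero_of_not_dvd hpT, add_zero]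
      have h2 := h1 (P.map T.subtype) (by rw [hcard, hP, hfac]) b' hb'
      have h3 : (H.subgroupOf T ⊔ P).map T.subtype = H ⊔ P.map T.subtype := by
        rw [Subgroup.map_sup, Subgroup.map_subgroupOf_eq_of_le hHT]
      have e : ↥(H.subgroupOf T ⊔ P) ≃* ↥(H ⊔ P.map T.subtype) :=
        ((H.subgroupOf T ⊔ P).equivMapOfInjective T.subtype T.subtype_injective).trans
          (MulEquiv.subgroupCongr h3)
      exact (hISO p b' e.symm).1 h2
  · intro _ Y _ _ f hf1 hf2 hf3 b' hb'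
    have h1 : ∀ y, (io H T).comp f y = 1 ↔ f y = 1 := fun y =>
      ⟨fun h2 => io_inj H T (by rw [map_one]; exact h2), fun h2 => by
        rw [MonoidHom.comp_apply, h2, map_one]⟩
    have hker : ((io H T).comp f).ker = f.ker := by
      ext y
      exact h1 y
    refine h.good Y ((io H T).comp f) (fun y hy => hf1 y ((h1 y).1 hy)) (by rw [hker]; exact hf2) ?_
      b' hb'
    rw [MonoidHom.range_comp, Subgroup.index_map_of_injective _ (io_inj H T), io_index H T hHT]
    intro h2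
    rcases (Nat.Prime.dvd_mul hp).1 h2 with h3 | h3
    · exact hf3 h3
    · exact hpT h3

end Pool.Agent.Lib.MP_1aae89_al.W3
end

section
/-!
# Module SCK: Mackey's formula modulo `p`
-/
set_option autoImplicit false

namespace Pool.Agent.Lib.MP_1aae89_al.W3

open Pool.Agent.Lib.MP_1aae89_al Pool.Agent.Lib.MP_1aae89_al.BF Finset
open Pool.Agent.Lib.MP_1aae89_al.W (GC LD nR)
open Pool.Agent.Lib.MP1aae89 (Pex)

theorem specSCK (hQDL : SpecQDL) : SpecSCK := by
  classical
  intro p hp X _ _ T P e hP θ hθ K q hpq hnd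
  have : Fact p.Prime := ⟨hp⟩
  set Λ : Finset (Lin P) := univ.filter (fun η : Lin P => η ^ q = resL P K) with hΛ
  have hdl : ∀ χ : P → ℂ, dl q χ (resL P K) = ∑ η ∈ Λ, mlt χ η := by
    intro χ
    unfold dl
    refine sum_congr (by ext; simp [hΛ]) fun η _ => ml_eq χ η
  set F : X → ℕ := fun g => ∑ μ ∈ Λ, Tg P T θ g μ with hF
  have hm : ∀ μ : Lin P, Nat.card P * Nat.card T * mlt (fun x : P => ind T θ (x : X)) μ =
      ∑ g : X, Nat.card (Pg P T g) * Tg P T θ g μ := by
    intro μ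
    have h0 : ((Nat.card P * Nat.card T * mlt (fun x : P => ind T θ (x : X)) μ : ℕ) : ℂ) =
        ((∑ g : X, Nat.card (Pg P T g) * Tg P T θ g μ : ℕ) : ℂ) := by
      have h1 := sum_ind P T hθ μ
      have h3 := ind_nat P T hθ μ
      have h2 : ((mlt (fun x : P => ind T θ (x : X)) μ : ℕ) : ℂ) =
          (Fintype.card P : ℂ)⁻¹ * ∑ x : P, ind T θ x * (((μ x)⁻¹ : ℂˣ) : ℂ) := by
        unfold mlt
        rw [dif_pos h3]
        exact h3.choose_spec.symm
      push_cast
      rw [← h1, h2, Nat.card_eq_fintype_card (α := P)]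
      have h5 : (Fintype.card P : ℂ) ≠ 0 := by exact_mod_cast Fintype.card_ne_zero
      field_simp
    exact_mod_cast h0
  have hsum : Nat.card P * Nat.card T * dl q (fun x : P => ind T θ (x : X)) (resL P K) =
      ∑ g : X, Nat.card (Pg P T g) * F g := by
    rw [hdl, mul_sum, sum_congr rfl fun μ _ => hm μ, sum_comm]
    refine sum_congr rfl fun g _ => ?_
    rw [hF, mul_sum]
  have hex : ∃ g, ¬ p ∣ F g := by
    by_contra hcon
    push Not at hcon
    let _ := dcAct P T
    have h2 := orb (Γ := P × T) (X := X) (fun g => ((F g / p : ℕ) : ℤ)) fun γ g => by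
      have h1 : F (γ • g) = F g := sum_congr rfl fun μ _ => Tg_inv P T hθ γ.1 γ.2 g μ
      rw [h1]
    rw [Nat.card_prod] at h2
    simp only [card_stab] at h2
    have h3 : (Nat.card P * Nat.card T) ∣ ∑ g : X, Nat.card (Pg P T g) * (F g / p) := by
      exact_mod_cast h2
    obtain ⟨c, hc⟩ := h3
    apply hnd
    refine ⟨c, Nat.eq_of_mul_eq_mul_left (Nat.mul_pos (Nat.card_pos (α := P))
      (Nat.card_pos (α := T))) ?_⟩
    rw [hsum]
    have h4 : ∀ g : X, Nat.card (Pg P T g) * F g = p * (Nat.card (Pg P T g) * (F g / p)) := by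
      intro g
      rw [mul_left_comm, Nat.mul_div_cancel' (hcon g)]
    rw [sum_congr rfl fun g _ => h4 g, ← mul_sum, hc]
    ring
  obtain ⟨g, hg⟩ := hex
  have htop : Pg P T g = ⊤ := by
    by_contra hne
    obtain ⟨ε, h1, h2, h3⟩ := exists_eps hP (Pg P T g) hne
    apply hg
    refine dvd_sum Λ (fun μ => μ * ε) ?_ ?_ (fun μ => Tg P T θ g μ) ?_ ?_
    · intro μ hμ
      rw [hΛ, mem_filter] at hμ ⊢
      obtain ⟨m, hm⟩ := hpq
      refine ⟨mem_univ _, ?_⟩
      rw [mul_pow, hμ.2, hm, pow_mul, h2, one_pow, mul_one]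
    · intro μ _
      have h4 : ∀ k, (fun μ => μ * ε)^[k] μ = μ * ε ^ k := by
        intro k
        induction k with
        | zero => simp
        | succ k ih => rw [Function.iterate_succ_apply', ih, pow_succ, mul_assoc]
      rw [h4, h2, mul_one]
    · intro μ _
      refine Tg_congr P T θ ?_ rfl
      rw [sg_eq, sg_eq]
      refine sum_congr rfl fun x _ => ?_
      rw [resL_apply, resL_apply, Lin.mul_apply, h3 x x.2, mul_one]
    · intro μ _ h
      exact h1 (mul_eq_left.1 h)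
  have hmem : ∀ y ∈ P, g⁻¹ * y * g ∈ T := by
    intro y hy
    have h1 : (⟨y, hy⟩ : P) ∈ Pg P T g := by rw [htop]; exact Subgroup.mem_top _
    exact (mem_Pg P T).1 h1
  refine ⟨g, hmem, ?_⟩
  let c : P →* T := MonoidHom.mk' (fun y => ⟨g⁻¹ * y * g, hmem y y.2⟩) (fun x y => by
    apply Subtype.ext
    show g⁻¹ * ((x : X) * y) * g = (g⁻¹ * x * g) * (g⁻¹ * y * g)
    group)
  have hcχ : IsCharacter fun y : P => θ (c y) := hθ.comp c
  have hW : ∀ z : T, z ∈ cjP T P g ↔ g * z * g⁻¹ ∈ P := fun z => Iff.rfl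
  let π : cjP T P g →* P := MonoidHom.mk' (fun z => ⟨g * (z : T) * g⁻¹, (hW _).1 z.2⟩) (fun x y => by
    apply Subtype.ext
    show g * (((x : T) : X) * (y : T)) * g⁻¹ = (g * (x : T) * g⁻¹) * (g * (y : T) * g⁻¹)
    group)
  have hπ : Function.Surjective π := by
    intro y
    have h1 : g * ((c y : T) : X) * g⁻¹ = y := by
      show g * (g⁻¹ * y * g) * g⁻¹ = y
      group
    refine ⟨⟨c y, (hW _).2 ?_⟩, Subtype.ext h1⟩
    rw [h1]
    exact y.2
  have h1 := hQDL π hπ q (fun y : P => θ (c y)) hcχ (resL P K)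
  have h2 : (fun x : cjP T P g => θ (c (π x))) = fun z : cjP T P g => θ z := by
    funext z
    congr 1
    apply Subtype.ext
    show g⁻¹ * (g * (z : T) * g⁻¹) * g = (z : T)
    group
  have h3 : pb π (resL P K) = resL (cjP T P g) (resL T K) := by
    apply Lin.ext
    intro z
    show K (g * (z : T) * g⁻¹) = K (z : T)
    rw [map_mul, map_mul, map_inv, mul_comm, inv_mul_cancel_left]
  have h4 : dl q (fun y => θ (c y)) (resL P K) = F g := by
    rw [hdl]
    refine sum_congr rfl fun μ _ => ?_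
    have h5 := mlt_spec hcχ μ
    have h6 := Tg_spec P T hθ g μ
    have h7 : sg P T θ g μ = ∑ x : P, θ (c x) * (((μ x)⁻¹ : ℂˣ) : ℂ) := by
      unfold sg
      refine sum_congr (by ext; simp) fun x _ => ?_
      rw [dif_pos (hmem x x.2)]
      rfl
    have h8 : Nat.card (Pg P T g) = Fintype.card P := by
      rw [htop, Subgroup.card_top, Nat.card_eq_fintype_card]
    rw [h7, h8] at h6
    rw [h6, inv_mul_cancel_left₀ (by exact_mod_cast Fintype.card_ne_zero)] at h5
    exact_mod_cast h5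
  rw [h3, h4] at h1
  have h5 : dl q (fun z : cjP T P g => θ z) (resL (cjP T P g) (resL T K)) = F g := by
    rw [← h1]
    congr 1
    exact h2.symm
  rw [h5]
  exact hg

end Pool.Agent.Lib.MP_1aae89_al.W3
end

section
/-!
# Module SU0: the number of linear constituents with trivial power
-/
set_option autoImplicit false

namespace Pool.Agent.Lib.MP_1aae89_al.W3

open Pool.Agent.Lib.MP_1aae89_al Pool.Agent.Lib.MP_1aae89_al.BF Finset

theorem SU0_sum {P : Type} [Group P] [Fintype P] (q : ℕ) (a : P → ℂ) :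
    ∑ k : Lin P, dl q a k = ∑ μ : Lin P, mlt a μ := by
  classical
  rw [← Finset.sum_fiberwise univ (fun η : Lin P => η ^ q) (fun μ => mlt a μ)]
  refine sum_congr rfl fun k _ => ?_
  unfold dl
  refine sum_congr ?_ fun η _ => ml_eq a η
  ext η
  simp

theorem specSU0 (hSUG : SpecSUG) : SpecSU0 := by
  intro p hp P _ _ e hP a ha b hb hfx n hn
  classical
  have : Fact p.Prime := ⟨hp⟩
  have h1 := deg (p := p) e P hP a ha n hn
  rw [← SU0_sum (p ^ (b - 1)) a, ← Finset.add_sum_erase univ _ (mem_univ (1 : Lin P))] at h1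
  have h3 : ∀ k ∈ univ.erase (1 : Lin P), p ∣ dl (p ^ (b - 1)) a k := by
    intro k hk
    refine hSUG p hp e hP a b (b - 1) hb (by omega) hfx k ?_
    rw [show b - 1 + 1 - b = 0 by omega, pow_zero, pow_one]
    exact Finset.ne_of_mem_erase hk
  have h4 : p ∣ ∑ k ∈ univ.erase (1 : Lin P), dl (p ^ (b - 1)) a k := Finset.dvd_sum h3
  refine Nat.ModEq.trans ?_ h1
  have h5 : dl (p ^ (b - 1)) a 1 + 0 ≡ dl (p ^ (b - 1)) a 1 +
      ∑ k ∈ univ.erase (1 : Lin P), dl (p ^ (b - 1)) a k [MOD p] :=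
    Nat.ModEq.add_left _ ((Nat.modEq_zero_iff_dvd.2 h4).symm)
  rwa [add_zero] at h5

end Pool.Agent.Lib.MP_1aae89_al.W3
end

section
/-!
# Module SUG of Theorem W3 (MP_1aae89_al): Galois invariance
-/
set_option autoImplicit false

namespace Pool.Agent.Lib.MP_1aae89_al.W3

open Pool.Agent.Lib.MP_1aae89_al Pool.Agent.Lib.MP_1aae89_al.BF Finset

/-- SUG. -/
theorem specSUG : SpecSUG := by
  intro p hp P _ _ e hP a b c hb hbc ha k hk
  classical
  have : Fact p.Prime := ⟨hp⟩
  have hpe : k ^ p ^ e = 1 := by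
    apply Lin.ext
    intro x
    rw [Lin.pow_apply, ← map_pow, ← hP, pow_card_eq_one', map_one, Lin.one_apply]
  obtain ⟨f, -, hf⟩ := (Nat.dvd_prime_pow hp).1 (orderOf_dvd_of_pow_eq_one hpe)
  have hfc : c + 1 - b < f := by
    by_contra h
    push Not at h
    apply hk
    apply orderOf_dvd_iff_pow_eq_one.1
    rw [hf]
    exact pow_dvd_pow p h
  set ω : Lin P := k ^ p ^ (f - 1) with hω
  have hω1 : ω ≠ 1 := by
    intro h
    have h1 := orderOf_dvd_of_pow_eq_one h
    rw [hf] at h1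
    have h2 := (Nat.pow_dvd_pow_iff_le_right hp.one_lt).1 h1
    omega
  have hωp : ω ^ p = 1 := by
    rw [hω, ← pow_mul, ← pow_succ, Nat.sub_add_cancel (by omega), ← hf, pow_orderOf_eq_one]
  have hpq : p ∣ p ^ (b - 1) := dvd_pow_self p (by omega)
  have hωq : ω ^ p ^ (b - 1) = 1 := by
    obtain ⟨m, hm⟩ := hpq
    rw [hm, pow_mul, hωp, one_pow]
  set t := p ^ (b + f - 2 - c) with ht
  have hlt : ∀ l : Lin P, l ^ p ^ (b - 1) = k → l * ω = l ^ (1 + p ^ c * t) := by
    intro l hl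
    have h1 : p ^ c * t = p ^ (b - 1) * p ^ (f - 1) := by
      rw [ht, ← pow_add, ← pow_add]
      congr 1
      omega
    rw [pow_add, pow_one, h1, pow_mul, hl]
  have hcop : (Nat.card P).Coprime (1 + p ^ c * t) := by
    rw [hP]
    apply Nat.Coprime.pow_left
    rw [hp.coprime_iff_not_dvd]
    intro h
    have h1 : p ∣ p ^ c * t := (dvd_pow_self p (by omega)).mul_right t
    exact hp.one_lt.ne' (Nat.dvd_one.1 ((Nat.dvd_add_left h1).1 h))
  have hit : ∀ (i : ℕ) (l : Lin P), (fun l : Lin P => l * ω)^[i] l = l * ω ^ i := by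
    intro i l
    induction i with
    | zero => simp
    | succ i ih => rw [Function.iterate_succ_apply', ih, mul_assoc, ← pow_succ]
  unfold dl
  refine dvd_sum (p := p) _ (fun l : Lin P => l * ω) ?_ ?_ (fun l => ml a l) ?_ ?_
  · intro l hl
    simp only [mem_filter, mem_univ, true_and] at hl ⊢
    rw [mul_pow, hl, hωq, mul_one]
  · intro l _
    rw [hit, hωp, mul_one]
  · intro l hl
    simp only [mem_filter, mem_univ, true_and] at hl
    show ml a (l * ω) = ml a l
    rw [hlt l hl, ml_eq, ml_eq]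
    exact mlt_pow hcop (ha t) l
  · intro l _ h
    exact hω1 (mul_eq_left.1 h)

end Pool.Agent.Lib.MP_1aae89_al.W3
end

section
/-!
# Module TWM: twisting
-/
set_option autoImplicit false

namespace Pool.Agent.Lib.MP_1aae89_al.W3

open Pool.Agent.Lib.MP_1aae89_al Pool.Agent.Lib.MP_1aae89_al.BF Finset
open Pool.Agent.Lib.MP1aae89 (Pex)

theorem TWM_ml {P : Type} [Group P] [Finite P] (χ : P → ℂ) (η β : Lin P) :
    ml (fun x => χ x * ((β x : ℂˣ) : ℂ)) (η * β) = ml χ η := by
  have : Fintype P := Fintype.ofFinite P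
  rw [ml_eq, ml_eq]
  apply mlt_congr
  refine Finset.sum_congr rfl fun x _ => ?_
  have h1 : (((η * β) x : ℂˣ)) = η x * β x := rfl
  have h2 : ((β x : ℂˣ) : ℂ) ≠ 0 := Units.ne_zero _
  have h3 : ((η x : ℂˣ) : ℂ) ≠ 0 := Units.ne_zero _
  rw [h1, Units.val_inv_eq_inv_val, Units.val_inv_eq_inv_val, Units.val_mul]
  field_simp

theorem specTWM : SpecTWM := by
  classical
  intro P _ _ q χ k β
  unfold dl
  refine (Finset.sum_bij (fun (η : Lin P) _ => η * β) ?_ ?_ ?_ ?_).symm
  · intro η hη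
    have h1 : η ^ q = k := (mem_filter.1 hη).2
    refine mem_filter.2 ⟨mem_univ _, ?_⟩
    rw [mul_pow, h1]
  · intro η _ η' _ h
    exact mul_right_cancel h
  · intro η hη
    have h1 : η ^ q = k * β ^ q := (mem_filter.1 hη).2
    refine ⟨η * β⁻¹, mem_filter.2 ⟨mem_univ _, ?_⟩, ?_⟩
    · rw [mul_pow, h1, inv_pow, mul_inv_cancel_right]
    · rw [inv_mul_cancel_right]
  · intro η _
    exact (TWM_ml χ η β).symm

end Pool.Agent.Lib.MP_1aae89_al.W3
end

section
/-!
# Module TWS of Theorem W3 (MP_1aae89_al): normalisation of the determinant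
-/
set_option autoImplicit false

namespace Pool.Agent.Lib.MP_1aae89_al.W3

open Pool.Agent.Lib.MP_1aae89_al Pool.Agent.Lib.MP_1aae89_al.BF Finset
open Pool.Agent.Lib.MP1aae89 (Pex)

namespace TWS

theorem cop {p : ℕ} (hp : p.Prime) {L s0 : ℕ} (_hL : L ≠ 0) (h : Pex p L s0) {b : ℕ} (hb : 1 ≤ b)
    (t : ℕ) : (1 + s0 * p ^ b * t).Coprime L := by
  by_contra hcon
  obtain ⟨l, hl, h1, h2⟩ := Nat.Prime.not_coprime_iff_dvd.1 hcon
  have h3 : l ∣ s0 * p ^ b := by
    by_cases hlp : l = p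
    · rw [hlp]
      exact (dvd_pow_self p (by omega)).mul_left _
    · rw [← Nat.ordProj_mul_ordCompl_eq_self L p] at h2
      rcases (Nat.Prime.dvd_mul hl).1 h2 with h | h'
      · exact absurd ((Nat.prime_dvd_prime_iff_eq hl hp).1 (hl.dvd_of_dvd_pow h)) hlp
      · exact (h'.trans h.zero).mul_right _
  have h4 : l ∣ 1 := (Nat.dvd_add_left (h3.mul_right t)).1 h1
  exact hl.one_lt.ne' (Nat.dvd_one.1 h4)

/-- the determinant of a representation whose character is fixed by `σ` is fixed -/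
theorem det_fix {X : Type} [Group X] [Fintype X] {L κ n : ℕ} (hL : L ≠ 0)
    (hyL : ∀ y : X, y ^ L = 1) (hκ : κ.Coprime L) {r : X →* Matrix (Fin n) (Fin n) ℂ} (hr : Sch r)
    (hn : n ≠ 0) (h : ∀ y, (r (y ^ κ)).trace = (r y).trace) (y : X) :
    (r y).det ^ κ = (r y).det := by
  obtain ⟨σ, hσ⟩ := Pool.Agent.Lib.MP1aae89.exists_aut L (Nat.pos_of_ne_zero hL) κ hκ
  have hrL : ∀ g, r g ^ L = 1 := fun g => by rw [← map_pow, hyL, map_one]
  have hs : ∀ g, (W.NRM.galR r σ g).trace = (r g).trace := by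
    intro g
    rw [W.NRM.galR_trace, gal_trace hL σ hσ (r g) (hrL g), ← map_pow]
    exact h g
  obtain ⟨B, B', h1, h2, h3⟩ := equiv_of_trace hr hn hs
  have h4 := congrArg Matrix.det (h3 y)
  rw [Matrix.det_mul, Matrix.det_mul, mul_comm B.det] at h4
  have h5 : B.det ≠ 0 := by
    intro h6
    have h7 := congrArg Matrix.det h1
    rw [Matrix.det_mul, h6, mul_zero, Matrix.det_one] at h7
    exact zero_ne_one h7
  have h6 : (W.NRM.galR r σ y).det = (r y).det := mul_right_cancel₀ h5 h4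
  have h7 : (W.NRM.galR r σ y).det = σ (r y).det := by
    show ((r y).map σ).det = _
    exact (RingHom.map_det σ (r y)).symm
  have h8 : (r y).det ^ L = 1 := by rw [← Matrix.det_pow, hrL, Matrix.det_one]
  rw [← hσ _ h8, ← h7, h6]

end TWS

/-- TWS. -/
theorem specTWS (hTWM : SpecTWM) : SpecTWS := by
  intro p b hp hb X _ _ hd L s0 hL hcard hpex P hP n r hr hpn hfx K hK hne
  classical
  have : Fintype X := Fintype.ofFinite X
  have hn : n ≠ 0 := by rintro rfl; exact hpn (dvd_zero _)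
  have hyL : ∀ y : X, y ^ L = 1 := fun y => by
    obtain ⟨k, hk⟩ := hcard
    rw [hk, pow_mul, pow_card_eq_one', one_pow]
  obtain ⟨t, ht⟩ := exists_inv hp hL hpn
  let δ : Lin X := dt r
  have hδ : ∀ y, ((δ y : ℂˣ) : ℂ) = (r y).det := fun y => rfl
  have hδL : ∀ y, δ y ^ L = 1 := fun y => by rw [← map_pow, hyL, map_one]
  -- (a)
  have hδκ : ∀ y, δ y ^ (s0 * p ^ b) = 1 := by
    intro y
    have h1 := TWS.det_fix hL hyL (TWS.cop hp hL hpex (by omega : 1 ≤ b) 1) hr hn (hfx 1) y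
    have h2 : δ y ^ (1 + s0 * p ^ b * 1) = δ y := by
      apply Units.ext
      rw [Units.val_pow_eq_pow_val, hδ]
      exact h1
    rw [mul_one, pow_add, pow_one] at h2
    exact mul_eq_left.1 h2
  have hδM : ∀ y, δ y ^ (ordCompl[p] L * p ^ b) = 1 := by
    intro y
    have h1 : ordCompl[p] L * s0 ≡ ordCompl[p] L * 1 [MOD ordCompl[p] L * ordProj[p] L] :=
      hpex.one.mul_left' _
    rw [mul_comm (ordCompl[p] L) (ordProj[p] L), Nat.ordProj_mul_ordCompl_eq_self, mul_one] at h1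
    have h2 : δ y ^ (ordCompl[p] L * s0 * p ^ b) = δ y ^ (ordCompl[p] L * p ^ b) :=
      pow_eq_pow_iff_modEq.mpr ((h1.mul_right _).of_dvd (orderOf_dvd_of_pow_eq_one (hδL y)))
    rw [← h2, mul_assoc, mul_comm, pow_mul, hδκ, one_pow]
  set m0 := ordCompl[p] L * t with hm0
  let γ : Lin X := δ ^ m0
  have hγ : ∀ y, γ y = δ y ^ m0 := fun y => Lin.pow_apply δ m0 y
  have hγb : ∀ y, γ y ^ p ^ b = 1 := by
    intro y
    rw [hγ, ← pow_mul, hm0]
    have h1 : ordCompl[p] L * t * p ^ b = ordCompl[p] L * p ^ b * t := by ring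
    rw [h1, pow_mul, hδM, one_pow]
  have hγs : ∀ y, γ y ^ s0 = γ y := by
    intro y
    have h1 : γ y ^ ordProj[p] L = 1 := by
      rw [hγ, ← pow_mul, hm0]
      have h2 : ordCompl[p] L * t * ordProj[p] L = L * t := by
        conv_rhs => rw [← Nat.ordProj_mul_ordCompl_eq_self L p]
        ring
      rw [h2, pow_mul, hδL, one_pow]
    have h2 : γ y ^ s0 = γ y ^ 1 :=
      pow_eq_pow_iff_modEq.mpr (hpex.one.of_dvd (orderOf_dvd_of_pow_eq_one h1))
    rw [h2, pow_one]
  -- the twisted representation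
  set r' := tw r γ with hr'
  have hr'a : ∀ y, r' y = (((γ y)⁻¹ : ℂˣ) : ℂ) • r y := fun y => rfl
  have htr : ∀ y, (r' y).trace = (r y).trace * (((γ y)⁻¹ : ℂˣ) : ℂ) := by
    intro y
    rw [hr'a, Matrix.trace_smul, smul_eq_mul, mul_comm]
  have hdet : ∀ y, (r' y).det ^ ordCompl[p] L = 1 := by
    intro y
    have h2 := congrArg Units.val (unit_pow (hδL y) ht)
    have h3 : (r' y).det = ((((δ y ^ (ordCompl[p] L * t)) ^ n)⁻¹ * δ y : ℂˣ) : ℂ) := by
      rw [hr'a, Matrix.det_smul, Fintype.card_fin, Units.val_mul, hδ, hγ,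
        ← Units.val_pow_eq_pow_val, inv_pow]
    rw [h3, ← Units.val_pow_eq_pow_val]
    exact h2
  have hγpow : ∀ (y : X) (j : ℕ), γ (y ^ (1 + s0 * j)) = γ y * γ y ^ j := by
    intro y j
    rw [map_pow, pow_add, pow_one, pow_mul, hγs]
  have hfx' : FX p s0 b (fun y => (r' y).trace) := by
    intro u y
    show (r' (y ^ (1 + s0 * p ^ b * u))).trace = (r' y).trace
    have h1 : γ (y ^ (1 + s0 * p ^ b * u)) = γ y := by
      rw [mul_assoc, hγpow, pow_mul, hγb, one_pow, mul_one]
    rw [htr, htr, h1]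
    congr 1
    exact hfx u y
  set q := p ^ (b - 1) with hq
  have hqp : q * p = p ^ b := by
    rw [hq, ← pow_succ, Nat.sub_add_cancel (by omega)]
  let K' : Lin X := K * (γ⁻¹) ^ q
  have hK'a : ∀ y, K' y = K y * (γ y)⁻¹ ^ q := by
    intro y
    show (K * (γ⁻¹) ^ q) y = _
    rw [Lin.mul_apply, Lin.pow_apply, Lin.inv_apply]
  have hK' : K' ^ p = 1 := by
    apply Lin.ext
    intro y
    rw [Lin.pow_apply, hK'a, mul_pow, ← Lin.pow_apply, hK, ← pow_mul, hqp, inv_pow, hγb, inv_one,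
      mul_one]
  have hne' : ∃ y, (r' (y ^ (1 + s0 * p ^ (b - 1)))).trace ≠ (K' y : ℂ) * (r' y).trace := by
    obtain ⟨y, hy⟩ := hne
    refine ⟨y, fun h => hy ?_⟩
    rw [htr, htr, hγpow, ← hq, hK'a] at h
    have h1 : (((γ y * γ y ^ q)⁻¹ : ℂˣ) : ℂ) ≠ 0 := Units.ne_zero _
    apply mul_right_cancel₀ h1
    rw [h]
    rw [mul_inv, inv_pow, Units.val_mul, Units.val_mul]
    ring
  have h1 := hd L s0 hL hcard hpex P hP n r' (tw_sch hr γ) hpn hdet hfx' K' hK' hne'
  have h2 := hTWM (P := P) (p ^ (b - 1)) (fun x : P => (r x).trace) (resL P K) (resL P γ⁻¹)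
  rw [← h2]
  have h3 : (fun x : P => (r' x).trace) =
      fun x : P => (r x).trace * (((resL P γ⁻¹) x : ℂˣ) : ℂ) := by
    funext x
    rw [htr]
    rfl
  have h4 : resL P K' = resL P K * (resL P γ⁻¹) ^ p ^ (b - 1) := by
    apply Lin.ext
    intro x
    rw [Lin.mul_apply, Lin.pow_apply, resL_apply, resL_apply, resL_apply, hK'a, Lin.inv_apply]
  rw [h3, h4] at h1
  exact h1

end Pool.Agent.Lib.MP_1aae89_al.W3
end

section
/-!
# RKC: a rank one idempotent commuting with a representation defines a linear character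
-/
set_option autoImplicit false

namespace Pool.Agent.Lib.MP_1aae89_al.W5

open Pool.Agent.Lib.MP_1aae89_al Pool.Agent.Lib.MP_1aae89_al.BF Matrix Finset

theorem specRKC : SpecRKC := by
  intro P _ n r e he htr hcom
  obtain ⟨k, J, J', h1, h2⟩ := idem_factor e he
  rw [← h1, trace_fac h2] at htr
  have hk : k = 1 := by exact_mod_cast htr
  subst hk
  have hc : ∀ g, J * J' * r g = r g * (J * J') := fun g => by rw [h1, hcom]
  refine ⟨(Matrix.detMonoidHom.comp (compr r J J' h2 hc)).toHomUnits, fun x => ?_⟩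
  have h3 : compr r J J' h2 hc x = (compr r J J' h2 hc x).det • (1 : Matrix (Fin 1) (Fin 1) ℂ) := by
    ext i j
    rw [Subsingleton.elim i 0, Subsingleton.elim j 0, Matrix.det_fin_one, Matrix.smul_apply,
      Matrix.one_apply_eq, smul_eq_mul, mul_one]
  have h4 : r x * e = (compr r J J' h2 hc x).det • e := by
    rw [← h1, ← Matrix.mul_assoc, compr_left r J J' h2 hc]
    conv_lhs => rw [h3]
    rw [Matrix.mul_smul, Matrix.mul_one, Matrix.smul_mul]
  exact h4

end Pool.Agent.Lib.MP_1aae89_al.W5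
end

section
/-!
# Module Q1D: the level of the induced character
-/
set_option autoImplicit false

namespace Pool.Agent.Lib.MP_1aae89_al.W6

open Pool.Agent.Lib.MP_1aae89_al Pool.Agent.Lib.MP_1aae89_al.BF Pool.Agent.Lib.MP_1aae89_al.W3 Finset
open Pool.Agent.Lib.MP1aae89 (Pex exists_pex)

theorem specQ1D (hIDC : SpecIDC) (hLVF : SpecLVF) (hSCK : SpecSCK) (hSU0 : SpecSU0)
    (hPRM : SpecPRM) : SpecQ1D := by
  intro p hp G _ _ M hM ψ hψc n hψ1 hn b hb hdl P hP
  classical
  have : Fintype M := Fintype.ofFinite M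
  have : Fintype P := Fintype.ofFinite P
  by_contra hcon
  have hlow : lev p (fun x : P => ind M ψ (x : G)) ≤ b - 1 := by omega
  have hL : Nat.card G ≠ 0 := Nat.card_pos.ne'
  obtain ⟨s0, hpex⟩ := exists_pex hp hL
  have hPL : Nat.card P ∣ Nat.card G := Subgroup.card_subgroup_dvd_card P
  have hF : IsCharacter (ind M ψ) := hIDC M ψ hψc
  have hFP : IsCharacter (fun x : P => ind M ψ (x : G)) := hF.comp P.subtype
  have hfx := (hLVF p hp _ s0 hL hpex hPL _ hFP).1 (b - 1) (by omega) hlow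
  have hPpow : ∀ x : P, (x : G) ^ p ^ (Nat.card G).factorization p = 1 := by
    intro x
    have h1 : x ^ Nat.card P = 1 := pow_card_eq_one'
    rw [hP] at h1
    have h2 := congrArg (Subtype.val) h1
    rw [Subgroup.coe_pow] at h2
    exact h2
  have hPs0 : ∀ x : P, (x : G) ^ s0 = x := fun x =>
    (hPRM p hp _ s0 hL hpex).2.1 (x : G) _ pow_card_eq_one' (hPpow x)
  have h4 : ∀ (t : ℕ) (x : P), ind M ψ ((x ^ (1 + p ^ (b - 1) * t) : P) : G) =
      ind M ψ (x : G) := by
    intro t x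
    have h5 := hfx t x
    simp only [Subgroup.coe_pow] at h5
    rw [pow_add, mul_assoc, pow_mul, hPs0 x, ← pow_add] at h5
    rw [Subgroup.coe_pow]
    exact h5
  have h6 : dl (p ^ (b - 1)) (fun x : P => ind M ψ (x : G)) 1 ≡ M.index * n [MOD p] :=
    hSU0 p hp _ hP _ hFP b hb h4 (M.index * n) (by
      change ind M ψ ((1 : P) : G) = _
      rw [Subgroup.coe_one, Q1C_one, hψ1]
      push_cast
      rfl)
  have h7 : ¬ p ∣ dl (p ^ (b - 1)) (fun x : P => ind M ψ (x : G)) (resL P (1 : Lin G)) := by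
    intro h8
    have h9 : p ∣ M.index * n := (h6.dvd_iff dvd_rfl).1 h8
    rcases hp.dvd_mul.1 h9 with h | h
    · exact hM h
    · exact hn h
  obtain ⟨x, hx, hx2⟩ := hSCK p hp M P _ hP ψ hψc 1 (p ^ (b - 1))
    (dvd_pow_self p (by omega)) h7
  have h1 : resL M (1 : Lin G) = 1 := by
    refine Lin.ext fun y => ?_
    rw [resL_apply, Lin.one_apply, Lin.one_apply]
  rw [h1] at hx2
  exact hx2 (hdl (cjP M P x) (INR_card M P hP hM x hx))

end Pool.Agent.Lib.MP_1aae89_al.W6
end
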