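import Pool.Agent.Lib.MP_1aae89_al.W5.Stat

/-!
# Definitions for the statements on fusion classes (MP_1aae89_al, Q1)
-/

set_option autoImplicit false

namespace Pool.Agent.Lib.MP_1aae89_al

/-- `u`, `v ∈ P` are conjugate in `F`, or congruent modulo the Frattini subgroup of `P` -/
def Fus {F : Type} [Group F] (P : Subgroup F) (u v : P) : Prop :=
  (∃ g : F, g * u * g⁻¹ = v) ∨ u⁻¹ * v ∈ frattini P

/-- `F` has a Sylow `p`-subgroup `P` such that the number of the classes of the equivalence relation on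
`P` generated by `Fus` is greater than `|P : Φ(P)| / p` -/
def ManyClasses (p : ℕ) (F : Type) [Group F] : Prop :=
  ∃ P : Sylow p F, (frattini P).index < p * Nat.card (Quot (Fus (P : Subgroup F)))

/-- `F` has a subnormal series whose factors satisfy `SmallFactor` -/
def SmallSeries (p b : ℕ) (F : Type) [Group F] : Prop :=
  ∃ (l : ℕ) (R : ℕ → Subgroup F), R 0 = ⊥ ∧ R l = ⊤ ∧ ∀ i < l, R i ≤ R (i + 1) ∧
    ∃ _h : ((R i).subgroupOf (R (i + 1))).Normal,
      SmallFactor p b (↥(R (i + 1)) ⧸ (R i).subgroupOf (R (i + 1)))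

end Pool.Agent.Lib.MP_1aae89_al
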