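import Pool.Agent.Lib.MP_1aae89_al.W4.SpecA
import Pool.Agent.Lib.MP_1aae89_al.W6.Q1D
import Pool.Agent.Lib.MP_1aae89_al.HC.Top
import Pool.Agent.Lib.MP_1aae89_al.W.SCA
import Pool.Agent.Lib.MP_1aae89_al.W5.SPN
import Pool.Agent.Lib.MP_1aae89_al.W3.SpecA
import Pool.Agent.Lib.MP_1aae89_al.W4.SpecB
import Pool.Agent.Lib.MP_1aae89_al.W5.SpecC
import Pool.Agent.Lib.MP_1aae89_al.W5.SpecB
import Pool.Agent.Lib.MP_1aae89_al.W6.Stat
import Pool.Agent.Lib.MP_1aae89_al.BF.PStep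

section
/-!
# Module AMF: the coefficients of `amg`
-/
set_option autoImplicit false

namespace Pool.Agent.Lib.MP_1aae89_al.W4

open Pool.Agent.Lib.MP_1aae89_al Pool.Agent.Lib.MP_1aae89_al.BF Pool.Agent.Lib.MP_1aae89_al.W3 Finset
open Pool.Agent.Lib.MP_1aae89_al.W (GC LD nR)
open Pool.Agent.Lib.MP1aae89 (Pex exists_aut)

namespace AMF

theorem sum_shift (g : ℕ → ℂ) (p : ℕ) (hg : ∀ m, g (m + p) = g m) (i : ℕ) :
    ∑ j ∈ range p, g (i + j) = ∑ j ∈ range p, g j := by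
  induction i with
  | zero => exact sum_congr rfl fun j _ => by rw [zero_add]
  | succ i ih =>
    rw [← ih]
    have h1 := sum_range_succ (fun j => g (i + j)) p
    have h2 := sum_range_succ' (fun j => g (i + j)) p
    rw [h1, add_zero, hg i] at h2
    have h3 := add_right_cancel h2
    rw [h3]
    exact sum_congr rfl fun j _ => by congr 1; ring

/-- `φ(w^(A + p^b j)) = φ(w^A)` for `A` prime to `p` -/
theorem twist {p b : ℕ} {B : Type} [Group B] [Finite B] {m : ℕ} (hB : Nat.card B = p ^ m)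
    (φ : B → ℂ) (hφ : ∀ (t : ℕ) (w : B), φ (w ^ (1 + p ^ b * t)) = φ w) (A : ℕ)
    (hA : A.Coprime p) (j : ℕ) (w : B) : φ (w ^ (A + p ^ b * j)) = φ (w ^ A) := by
  have hc : A.Coprime (Nat.card B) := by rw [hB]; exact Nat.Coprime.pow_right m hA
  have h1 : A ^ Nat.totient (Nat.card B) ≡ 1 [MOD Nat.card B] := Nat.ModEq.pow_totient hc
  have h2 : w ^ (A + p ^ b * j) =
      (w ^ A) ^ (1 + p ^ b * (A ^ (Nat.totient (Nat.card B) - 1) * j)) := by
    rw [← pow_mul]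
    refine (pow_eq_pow_iff_modEq).2 (Nat.ModEq.of_dvd (orderOf_dvd_natCard w) ?_)
    have h3 : A * (1 + p ^ b * (A ^ (Nat.totient (Nat.card B) - 1) * j)) =
        A + A ^ Nat.totient (Nat.card B) * (p ^ b * j) := by
      have : A ^ Nat.totient (Nat.card B) = A * A ^ (Nat.totient (Nat.card B) - 1) := by
        rw [← pow_succ', Nat.sub_add_cancel (Nat.totient_pos.2 Nat.card_pos)]
      rw [this]
      ring
    rw [h3]
    have h4 := (h1.mul_right (p ^ b * j)).add_left A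
    rw [one_mul] at h4
    exact h4.symm
  rw [h2, hφ]

/-- Galois conjugates of characters are characters -/
theorem char_pow {B : Type} [Group B] [Finite B] {j : ℕ} (hj : j.Coprime (Nat.card B)) {χ : B → ℂ}
    (h : IsCharacter χ) : IsCharacter fun w => χ (w ^ j) := by
  have hN : Nat.card B ≠ 0 := Nat.card_pos.ne'
  obtain ⟨σ, hσ⟩ := exists_aut (Nat.card B) Nat.card_pos j hj
  have h1 : ∀ w : B, σ (χ w) = χ (w ^ j) := fun w =>
    W.aga_gal h hN pow_card_eq_one' σ (hσ _ (zeta_prim hN).pow_eq_one)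
  obtain ⟨n, ρ, hρ⟩ := h
  refine ⟨n, (σ.mapMatrix : Matrix (Fin n) (Fin n) ℂ →+* Matrix (Fin n) (Fin n) ℂ).toMonoidHom.comp
    ρ, fun w => ?_⟩
  show χ (w ^ j) = _
  rw [← h1 w, hρ w]
  show σ (∑ i, ρ w i i) = ∑ i, σ (ρ w i i)
  exact map_sum σ _ _

theorem gc_pow {B : Type} [Group B] [Finite B] {j : ℕ} (hj : j.Coprime (Nat.card B)) (φ : B → ℂ)
    (h : GC φ) : GC fun w => φ (w ^ j) := by
  unfold GC at h
  induction h using Submodule.span_induction with
  | mem x hx => exact Submodule.subset_span (char_pow hj hx)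
  | zero => exact Submodule.zero_mem _
  | add x y _ _ hx hy => exact Submodule.add_mem _ hx hy
  | smul a x _ hx => exact Submodule.smul_mem _ a hx

theorem main (hG2 : W.SpecGCA2) {p b : ℕ} (hp : p.Prime) (hb : 2 ≤ b) {B : Type} [Group B]
    [Fintype B] {m : ℕ} (hB : Nat.card B = p ^ m) (φ : B → ℂ) (hG : GC φ)
    (hφ : ∀ (t : ℕ) (w : B), φ (w ^ (1 + p ^ b * t)) = φ w) (k : Lin B) (hk : k ^ p = 1)
    (n : Lin B → ℂ)
    (hn : ∀ μ, n μ = (Fintype.card B : ℂ)⁻¹ * ∑ w, amg p b φ k w * (((μ w)⁻¹ : ℂˣ) : ℂ)) :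
    (∀ μ, IsIntegral ℤ (n μ)) ∧
    (∀ (μ : Lin B) (i : ℕ), n (μ ^ (1 + p ^ (b - 1) * i) * (k ^ i)⁻¹) = n μ) ∧
    (∀ μ : Lin B, μ ^ p ^ (b - 1) = k → ∃ c : ℂ, IsIntegral ℤ c ∧ n μ = p * c) := by
  obtain ⟨gadd, gmul, gsmul, gcon, gsum, gcomp, gint, gavg⟩ := hG2
  have hkp : ∀ w, k w ^ p = 1 := fun w => by rw [← Lin.pow_apply, hk, Lin.one_apply]
  have hkq : ∀ w, k w ^ p ^ (b - 1) = 1 := fun w => by
    rw [show b - 1 = (b - 2) + 1 by omega, pow_succ', pow_mul, hkp, one_pow]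
  have hcop : ∀ i, (1 + p ^ (b - 1) * i).Coprime p := by
    intro i
    rw [Nat.coprime_comm, Nat.Prime.coprime_iff_not_dvd hp]
    intro h
    rw [Nat.dvd_add_left] at h
    · exact hp.one_lt.ne' (Nat.dvd_one.mp h)
    · exact Dvd.dvd.mul_right (dvd_pow_self p (by omega)) _
  have hcopB : ∀ i, (Nat.card B).Coprime (1 + p ^ (b - 1) * i) := fun i => by
    rw [hB]; exact (Nat.Coprime.pow_right m (hcop i)).symm
  have hbb : p ^ (b - 1) * p ^ (b - 1) = p ^ b * p ^ (b - 2) := by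
    rw [← pow_add, ← pow_add]; congr 1; omega
  have hpb : p ^ (b - 1) * p = p ^ b := by
    rw [← pow_succ]; congr 1; omega
  -- periodicity
  have hper : ∀ (w : B) (j : ℕ), (((k w)⁻¹ : ℂˣ) : ℂ) ^ (j + p) *
      φ (w ^ (1 + p ^ (b - 1) * (j + p))) =
      (((k w)⁻¹ : ℂˣ) : ℂ) ^ j * φ (w ^ (1 + p ^ (b - 1) * j)) := by
    intro w j
    have h1 : (((k w)⁻¹ : ℂˣ) : ℂ) ^ p = 1 := by
      rw [← Units.val_pow_eq_pow_val, inv_pow, hkp, inv_one, Units.val_one]
    have h2 : 1 + p ^ (b - 1) * (j + p) = (1 + p ^ (b - 1) * j) + p ^ b * 1 := by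
      rw [← hpb]; ring
    rw [pow_add, h1, mul_one, h2, twist hB φ hφ _ (hcop j)]
  have hk1 : ∀ (w : B) (i : ℕ), k (w ^ (1 + p ^ (b - 1) * i)) = k w := by
    intro w i
    rw [map_pow, pow_add, pow_one, pow_mul, hkq, one_pow, mul_one]
  have ham : ∀ (w : B) (i : ℕ), (((k w)⁻¹ : ℂˣ) : ℂ) ^ i *
      amg p b φ k (w ^ (1 + p ^ (b - 1) * i)) = amg p b φ k w := by
    intro w i
    unfold amg
    have hs := sum_shift (fun j => (((k w)⁻¹ : ℂˣ) : ℂ) ^ j * φ (w ^ (1 + p ^ (b - 1) * j))) p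
      (hper w) i
    rw [hk1, mul_sum, ← hs]
    refine sum_congr rfl fun j _ => ?_
    show _ = (((k w)⁻¹ : ℂˣ) : ℂ) ^ (i + j) * φ (w ^ (1 + p ^ (b - 1) * (i + j)))
    rw [← mul_assoc, ← pow_add, ← pow_mul]
    have h2 : (1 + p ^ (b - 1) * i) * (1 + p ^ (b - 1) * j) =
        (1 + p ^ (b - 1) * (i + j)) + p ^ b * (p ^ (b - 2) * (i * j)) := by
      have : p ^ (b - 1) * i * (p ^ (b - 1) * j) = p ^ b * p ^ (b - 2) * (i * j) := by
        rw [← hbb]; ring
      calc (1 + p ^ (b - 1) * i) * (1 + p ^ (b - 1) * j)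
          = 1 + p ^ (b - 1) * (i + j) + p ^ (b - 1) * i * (p ^ (b - 1) * j) := by ring
        _ = _ := by rw [this]; ring
    rw [h2, twist hB φ hφ _ (hcop _)]
  have hchar : ∀ (μ : Lin B), GC fun w => ((μ w : ℂˣ) : ℂ) := fun μ => by
    refine Submodule.subset_span ?_
    exact isCharacter_linear μ
  have hGam : GC (amg p b φ k) := by
    unfold amg
    refine gsum (range p) (fun i w => (((k w)⁻¹ : ℂˣ) : ℂ) ^ i *
      φ (w ^ (1 + p ^ (b - 1) * i))) fun i _ => ?_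
    refine gmul _ _ ?_ (gc_pow (hcopB i).symm φ hG)
    have h1 : (fun w => (((k w)⁻¹ : ℂˣ) : ℂ) ^ i) = fun w => ((((k⁻¹) ^ i) w : ℂˣ) : ℂ) := by
      funext w
      rw [Lin.pow_apply, Lin.inv_apply, Units.val_pow_eq_pow_val]
    rw [h1]
    exact hchar _
  have hreidx : ∀ (F : B → ℂ) (i : ℕ), ∑ w, F (w ^ (1 + p ^ (b - 1) * i)) = ∑ w, F w := by
    intro F i
    refine Fintype.sum_equiv (powCoprime (hcopB i)) _ _ fun x => ?_
    rw [powCoprime_apply]
  refine ⟨?_, ?_, ?_⟩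
  · intro μ
    rw [hn μ]
    refine gavg _ (gmul _ _ hGam ?_)
    exact hchar μ⁻¹
  · intro μ i
    rw [hn, hn]
    congr 1
    rw [← hreidx (fun y => amg p b φ k y * (((μ y)⁻¹ : ℂˣ) : ℂ)) i]
    refine sum_congr rfl fun w _ => ?_
    rw [← ham w i, Lin.mul_apply, Lin.pow_apply, Lin.inv_apply, Lin.pow_apply, map_pow]
    have h1 : (((μ w ^ (1 + p ^ (b - 1) * i) * (k w ^ i)⁻¹)⁻¹ : ℂˣ) : ℂ) =
        ((k w : ℂˣ) : ℂ) ^ i * (((μ w ^ (1 + p ^ (b - 1) * i))⁻¹ : ℂˣ) : ℂ) := by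
      rw [mul_inv, inv_inv, Units.val_mul, Units.val_pow_eq_pow_val, mul_comm]
    have h2 : (((k w)⁻¹ : ℂˣ) : ℂ) ^ i * ((k w : ℂˣ) : ℂ) ^ i = 1 := by
      rw [← mul_pow, ← Units.val_mul, inv_mul_cancel, Units.val_one, one_pow]
    rw [h1]
    calc (((k w)⁻¹ : ℂˣ) : ℂ) ^ i * amg p b φ k (w ^ (1 + p ^ (b - 1) * i)) *
          (((k w : ℂˣ) : ℂ) ^ i * (((μ w ^ (1 + p ^ (b - 1) * i))⁻¹ : ℂˣ) : ℂ))
        = ((((k w)⁻¹ : ℂˣ) : ℂ) ^ i * ((k w : ℂˣ) : ℂ) ^ i) *
          (amg p b φ k (w ^ (1 + p ^ (b - 1) * i)) *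
            (((μ w ^ (1 + p ^ (b - 1) * i))⁻¹ : ℂˣ) : ℂ)) := by ring
      _ = _ := by rw [h2, one_mul]
  · intro μ hμ
    refine ⟨(Fintype.card B : ℂ)⁻¹ * ∑ y, φ y * (((μ y)⁻¹ : ℂˣ) : ℂ), ?_, ?_⟩
    · exact gavg _ (gmul _ _ hG (hchar μ⁻¹))
    · rw [hn μ]
      have h1 : ∑ y, amg p b φ k y * (((μ y)⁻¹ : ℂˣ) : ℂ) =
          ∑ i ∈ range p, ∑ y, φ (y ^ (1 + p ^ (b - 1) * i)) *
            (((μ (y ^ (1 + p ^ (b - 1) * i)))⁻¹ : ℂˣ) : ℂ) := by
        rw [sum_comm]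
        refine sum_congr rfl fun y _ => ?_
        unfold amg
        rw [sum_mul]
        refine sum_congr rfl fun i _ => ?_
        have h2 : μ y ^ p ^ (b - 1) = k y := by rw [← Lin.pow_apply, hμ]
        have h3 : μ (y ^ (1 + p ^ (b - 1) * i)) = μ y * k y ^ i := by
          rw [map_pow, pow_add, pow_one, pow_mul, h2]
        rw [h3, mul_inv, Units.val_mul, ← inv_pow, Units.val_pow_eq_pow_val]
        ring
      rw [h1, sum_congr rfl fun i _ => hreidx (fun y => φ y * (((μ y)⁻¹ : ℂˣ) : ℂ)) i, sum_const,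
        card_range, nsmul_eq_mul]
      ring

end AMF

theorem specAMF : SpecAMF := by
  intro p b hp hb P _ _ e hP φ hG hφ k hk n hn
  exact AMF.main (W.specGCA2 W.specGCA1) hp hb hP φ hG hφ k hk n hn

end Pool.Agent.Lib.MP_1aae89_al.W4
end

section
/-!
# CF3: the second factor `p`, for `Q = P`
-/
set_option autoImplicit false

namespace Pool.Agent.Lib.MP_1aae89_al.W4

open Pool.Agent.Lib.MP_1aae89_al Pool.Agent.Lib.MP_1aae89_al.BF Pool.Agent.Lib.MP_1aae89_al.W3 Finset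
open Pool.Agent.Lib.MP_1aae89_al.W (GC LD nR)
open Pool.Agent.Lib.MP1aae89 (Pex exists_aut)

namespace CF3

/-! ### values of linear characters -/

theorem val_pow {B : Type} [Group B] [Fintype B] (ν : Lin B) (x : B) :
    ((ν x : ℂˣ) : ℂ) ^ Fintype.card B = 1 := by
  rw [← Units.val_pow_eq_pow_val, ← map_pow, pow_card_eq_one, map_one, Units.val_one]

theorem val_conj {B : Type} [Group B] [Fintype B] (ν : Lin B) (x : B) :
    (starRingEnd ℂ) ((ν x : ℂˣ) : ℂ) = (((ν x)⁻¹ : ℂˣ) : ℂ) := by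
  rw [Units.val_inv_eq_inv_val]
  exact (Complex.inv_eq_conj
    (Complex.norm_eq_one_of_pow_eq_one (val_pow ν x) Fintype.card_ne_zero)).symm

theorem val_int {B : Type} [Group B] [Fintype B] (ν : Lin B) (x : B) :
    IsIntegral ℤ ((ν x : ℂˣ) : ℂ) :=
  IsIntegral.of_pow Fintype.card_pos (by rw [val_pow]; exact isIntegral_one)

theorem inv_int {B : Type} [Group B] [Fintype B] (ν : Lin B) (x : B) :
    IsIntegral ℤ (((ν x)⁻¹ : ℂˣ) : ℂ) := val_int ν⁻¹ x

theorem conj_int {z : ℂ} (h : IsIntegral ℤ z) : IsIntegral ℤ ((starRingEnd ℂ) z) :=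
  h.map (starRingEnd ℂ).toIntAlgHom

theorem gc_lin {P : Type} [Group P] (μ : Lin P) : GC fun w => ((μ w : ℂˣ) : ℂ) :=
  Submodule.subset_span (isCharacter_linear μ)

/-! ### closure properties -/

/-- the Galois conjugates of a character -/
theorem char_pow {P : Type} [Group P] [Fintype P] {χ : P → ℂ} (hχ : IsCharacter χ) {j : ℕ}
    (hj : j.Coprime (Fintype.card P)) : IsCharacter fun x => χ (x ^ j) := by
  obtain ⟨σ, hσ⟩ := exists_aut (Fintype.card P) Fintype.card_pos j hj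
  obtain ⟨n, r, hr⟩ := id hχ
  refine ⟨n, (RingHom.mapMatrix σ : Matrix (Fin n) (Fin n) ℂ →+* _).toMonoidHom.comp r,
    fun g => ?_⟩
  have h1 := W.are_gal hχ (N := Fintype.card P) Fintype.card_ne_zero (x := g) pow_card_eq_one σ
    (k := j) (hσ _ (zeta_prim Fintype.card_ne_zero).pow_eq_one)
  show χ (g ^ j) = _
  rw [← h1, hr]
  show σ ((r g).trace) = ((r g).map σ).trace
  rw [Matrix.trace, Matrix.trace, map_sum]
  rfl

theorem gc_pow {P : Type} [Group P] [Fintype P] {F : P → ℂ} (hF : GC F) {j : ℕ}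
    (hj : j.Coprime (Fintype.card P)) : GC fun x => F (x ^ j) := by
  obtain ⟨gadd, gmul, gsmul, gcon, gsum, gcomp, gint, gavg⟩ := W.specGCA2 W.specGCA1
  induction hF using Submodule.span_induction with
  | mem χ hχ => exact Submodule.subset_span (char_pow hχ hj)
  | zero => exact gcon 0 isIntegral_zero
  | add F F' _ _ h1 h2 => exact gadd _ _ h1 h2
  | smul a F _ h1 => exact gsmul _ (a : ℂ) a.2 h1

theorem gc_conj {P : Type} [Group P] [Fintype P] {F : P → ℂ} (hF : GC F) :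
    GC fun x => (starRingEnd ℂ) (F x) := by
  obtain ⟨gadd, gmul, gsmul, gcon, gsum, gcomp, gint, gavg⟩ := W.specGCA2 W.specGCA1
  induction hF using Submodule.span_induction with
  | mem χ hχ =>
    have h1 : (fun x => (starRingEnd ℂ) (χ x)) = fun x => χ x⁻¹ := by
      funext x
      exact (W.are_conj hχ x).symm
    rw [h1]
    exact Submodule.subset_span (W.specGCA1.2.1 χ hχ)
  | zero =>
    have h1 : (fun x : P => (starRingEnd ℂ) ((0 : P → ℂ) x)) = fun _ => 0 := by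
      funext x
      exact map_zero _
    rw [h1]
    exact gcon 0 isIntegral_zero
  | add F F' _ _ h1 h2 =>
    have h3 : (fun x => (starRingEnd ℂ) ((F + F') x)) =
        fun x => (starRingEnd ℂ) (F x) + (starRingEnd ℂ) (F' x) := by
      funext x
      exact map_add _ _ _
    rw [h3]
    exact gadd _ _ h1 h2
  | smul a F _ h1 =>
    have h3 : (fun x => (starRingEnd ℂ) ((a • F) x)) =
        fun x => (starRingEnd ℂ) (a : ℂ) * (starRingEnd ℂ) (F x) := by
      funext x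
      exact map_mul _ _ _
    rw [h3]
    exact gsmul _ _ (conj_int a.2) h1

theorem gc_amg {p b : ℕ} (hp : p.Prime) (hb : 2 ≤ b) {P : Type} [Group P] [Fintype P] {e : ℕ}
    (hP : Nat.card P = p ^ e) {φ : P → ℂ} (hφ : GC φ) (k : Lin P) : GC (amg p b φ k) := by
  obtain ⟨gadd, gmul, gsmul, gcon, gsum, gcomp, gint, gavg⟩ := W.specGCA2 W.specGCA1
  unfold amg
  refine gsum (range p) (fun i w => (((k w)⁻¹ : ℂˣ) : ℂ) ^ i *
    φ (w ^ (1 + p ^ (b - 1) * i))) fun i _ => ?_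
  refine gmul _ _ ?_ (gc_pow hφ ?_)
  · have h1 : (fun w => (((k w)⁻¹ : ℂˣ) : ℂ) ^ i) = fun w => ((((k⁻¹) ^ i) w : ℂˣ) : ℂ) := by
      funext w
      rw [Lin.pow_apply, Lin.inv_apply, Units.val_pow_eq_pow_val]
    rw [h1]
    exact gc_lin _
  · rw [← Nat.card_eq_fintype_card, hP]
    apply Nat.Coprime.pow_right
    rw [Nat.coprime_comm, Nat.Prime.coprime_iff_not_dvd hp]
    intro h
    rw [Nat.dvd_add_left] at h
    · exact hp.one_lt.ne' (Nat.dvd_one.mp h)
    · exact Dvd.dvd.mul_right (dvd_pow_self p (by omega)) _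

/-! ### the divisibility lemma -/

theorem mem_AF {p : ℕ} {P : Type} [Group P] [Finite P] {α : Lin P} :
    α ∈ AF p P ↔ α ^ p = 1 := by
  classical
  unfold AF
  rw [mem_filter]
  exact ⟨fun h => h.2, fun h => ⟨mem_univ _, h⟩⟩

theorem key {p : ℕ} (hp : p.Prime) {P : Type} [Group P] [Fintype P] (u : P) (T : Lin P → ℂ)
    (hT : ∀ α ∈ AF p P, IsIntegral ℤ (T α)) (ω : Lin P) (hω : ω ^ p = 1) (hω1 : ω ≠ 1)
    (hinv : ∀ α ∈ AF p P, T (ω * α) = T α) :
    ∃ c : ℂ, IsIntegral ℤ c ∧ ∑ α ∈ AF p P, (((α u)⁻¹ : ℂˣ) : ℂ) * T α = p * c := by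
  have hmem : ∀ α ∈ AF p P, ω * α ∈ AF p P := by
    intro α hα
    rw [mem_AF] at hα ⊢
    rw [mul_pow, hω, hα, one_mul]
  by_cases h : ω u = 1
  · refine specPSM p hp (AF p P) (fun α => ω * α) 1 hmem ?_ ?_
      (fun α => (((α u)⁻¹ : ℂˣ) : ℂ) * T α) ?_ ?_
    · intro α _
      have h1 : (fun α => ω * α)^[p ^ 1] = fun α => ω ^ p ^ 1 * α := mul_left_iterate ω (p ^ 1)
      rw [h1, pow_one, hω]
      exact one_mul α
    · intro α _ h1
      exact hω1 (mul_eq_right.1 h1)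
    · intro α hα
      show ((((ω * α) u)⁻¹ : ℂˣ) : ℂ) * T (ω * α) = _
      rw [hinv α hα, Lin.mul_apply, h, one_mul]
    · intro α hα
      exact (inv_int α u).mul (hT α hα)
  · refine ⟨0, isIntegral_zero, ?_⟩
    rw [mul_zero]
    have h1 : ∑ α ∈ AF p P, (((α u)⁻¹ : ℂˣ) : ℂ) * T α =
        ∑ α ∈ AF p P, ((((ω * α) u)⁻¹ : ℂˣ) : ℂ) * T (ω * α) := by
      symm
      refine sum_nbij' (fun α => ω * α) (fun α => ω⁻¹ * α) hmem ?_ ?_ ?_ ?_
      · intro α hα
        rw [mem_AF] at hα ⊢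
        rw [mul_pow, inv_pow, hω, hα, inv_one, one_mul]
      · intro α _
        exact inv_mul_cancel_left ω α
      · intro α _
        exact mul_inv_cancel_left ω α
      · intro α _
        rfl
    have h2 : ∑ α ∈ AF p P, ((((ω * α) u)⁻¹ : ℂˣ) : ℂ) * T (ω * α) =
        (((ω u)⁻¹ : ℂˣ) : ℂ) * ∑ α ∈ AF p P, (((α u)⁻¹ : ℂˣ) : ℂ) * T α := by
      rw [mul_sum]
      refine sum_congr rfl fun α hα => ?_
      rw [hinv α hα, Lin.mul_apply, mul_inv, Units.val_mul]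
      ring
    rw [h2] at h1
    set S := ∑ α ∈ AF p P, (((α u)⁻¹ : ℂˣ) : ℂ) * T α with hS
    have h3 : (1 - (((ω u)⁻¹ : ℂˣ) : ℂ)) * S = 0 := by
      rw [sub_mul, one_mul, ← h1, sub_self]
    rcases mul_eq_zero.1 h3 with h4 | h4
    · exfalso
      apply h
      have h5 : (((ω u)⁻¹ : ℂˣ) : ℂ) = ((1 : ℂˣ) : ℂ) := by
        rw [Units.val_one]
        exact (sub_eq_zero.1 h4).symm
      exact inv_eq_one.1 (Units.ext h5)
    · exact h4

/-! ### the main induction -/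

section

variable {p b : ℕ} {P : Type} [Group P] [Fintype P]

/-- the sum -/
noncomputable def FF (p b : ℕ) (φ : P → ℂ) (k : Lin P) (u : P) (μ : P → ℂ) : ℂ :=
  ∑ α ∈ AF p P, (((α u)⁻¹ : ℂˣ) : ℂ) *
    ((Fintype.card P : ℂ)⁻¹ * ∑ w, ((α w : ℂˣ) : ℂ) * μ w * (starRingEnd ℂ) (amg p b φ k w))

theorem FF_add (φ : P → ℂ) (k : Lin P) (u : P) (μ ν : P → ℂ) :
    FF p b φ k u (fun w => μ w + ν w) = FF p b φ k u μ + FF p b φ k u ν := by
  unfold FF
  rw [← sum_add_distrib]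
  refine sum_congr rfl fun α _ => ?_
  rw [← mul_add, ← mul_add, ← sum_add_distrib]
  congr 2
  refine sum_congr rfl fun w _ => ?_
  ring

theorem FF_smul (φ : P → ℂ) (k : Lin P) (u : P) (μ : P → ℂ) (a : ℂ) :
    FF p b φ k u (fun w => a * μ w) = a * FF p b φ k u μ := by
  unfold FF
  rw [mul_sum]
  refine sum_congr rfl fun α _ => ?_
  have h1 : ∑ w, ((α w : ℂˣ) : ℂ) * (a * μ w) * (starRingEnd ℂ) (amg p b φ k w) =
      a * ∑ w, ((α w : ℂˣ) : ℂ) * μ w * (starRingEnd ℂ) (amg p b φ k w) := by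
    rw [mul_sum]
    refine sum_congr rfl fun w _ => ?_
    ring
  rw [h1]
  ring

theorem FF_zero (φ : P → ℂ) (k : Lin P) (u : P) : FF p b φ k u (fun _ => 0) = 0 := by
  have h := FF_smul (p := p) (b := b) φ k u (fun _ => 0) 0
  simpa using h

theorem case_lin (hAMF : SpecAMF) (hp : p.Prime) (hb : 2 ≤ b) {e : ℕ} (hP : Nat.card P = p ^ e)
    {φ : P → ℂ} (hφ : GC φ) (hφi : ∀ (t : ℕ) (w : P), φ (w ^ (1 + p ^ b * t)) = φ w) {k : Lin P}
    (hk : k ^ p = 1) (u : P) (η : Lin P) :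
    ∃ c : ℂ, IsIntegral ℤ c ∧ FF p b φ k u (fun w => ((η w : ℂˣ) : ℂ)) = p * c := by
  obtain ⟨n, hn⟩ : ∃ n : Lin P → ℂ, ∀ μ, n μ = (Fintype.card P : ℂ)⁻¹ *
      ∑ w, amg p b φ k w * (((μ w)⁻¹ : ℂˣ) : ℂ) := ⟨_, fun _ => rfl⟩
  obtain ⟨h1, h2, h3⟩ := hAMF p b hp hb e hP φ hφ hφi k hk n hn
  have hT : ∀ α : Lin P, (Fintype.card P : ℂ)⁻¹ * ∑ w, ((α w : ℂˣ) : ℂ) * ((η w : ℂˣ) : ℂ) *
      (starRingEnd ℂ) (amg p b φ k w) = (starRingEnd ℂ) (n (α * η)) := by
    intro α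
    rw [hn, map_mul, map_inv₀, map_natCast, map_sum]
    congr 1
    refine sum_congr rfl fun w _ => ?_
    rw [map_mul, Units.val_inv_eq_inv_val, map_inv₀, val_conj, Units.val_inv_eq_inv_val, inv_inv,
      Lin.mul_apply, Units.val_mul]
    ring
  have hFF : FF p b φ k u (fun w => ((η w : ℂˣ) : ℂ)) =
      ∑ α ∈ AF p P, (((α u)⁻¹ : ℂˣ) : ℂ) * (starRingEnd ℂ) (n (α * η)) := by
    unfold FF
    exact sum_congr rfl fun α _ => by rw [hT]
  rw [hFF]
  have hαq : ∀ α ∈ AF p P, α ^ p ^ (b - 1) = 1 := by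
    intro α hα
    rw [mem_AF] at hα
    rw [show b - 1 = (b - 2) + 1 by omega, pow_succ', pow_mul, hα, one_pow]
  by_cases hη : η ^ p ^ (b - 1) = k
  · have h4 : ∀ α ∈ AF p P, ∃ c : ℂ, IsIntegral ℤ c ∧ n (α * η) = p * c := by
      intro α hα
      refine h3 (α * η) ?_
      rw [mul_pow, hαq α hα, hη, one_mul]
    choose! c hc1 hc2 using h4
    refine ⟨∑ α ∈ AF p P, (((α u)⁻¹ : ℂˣ) : ℂ) * (starRingEnd ℂ) (c α), ?_, ?_⟩
    · exact IsIntegral.sum _ fun α hα => (inv_int α u).mul (conj_int (hc1 α hα))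
    · rw [mul_sum]
      refine sum_congr rfl fun α hα => ?_
      rw [hc2 α hα, map_mul, map_natCast]
      ring
  · -- the other case
    set a : Lin P := η ^ p ^ (b - 1) * k⁻¹ with ha
    have ha1 : a ≠ 1 := fun h => hη (by
      rw [ha] at h
      exact mul_inv_eq_one.1 h)
    have hap : a ^ p ^ e = 1 := by
      apply Lin.ext
      intro x
      rw [Lin.pow_apply, ← map_pow, ← hP, pow_card_eq_one', map_one, Lin.one_apply]
    obtain ⟨m, hm, hom⟩ := (Nat.dvd_prime_pow hp).1 (orderOf_dvd_of_pow_eq_one hap)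
    have hm0 : m ≠ 0 := by
      rintro rfl
      rw [pow_zero, orderOf_eq_one_iff] at hom
      exact ha1 hom
    have hω : (a ^ p ^ (m - 1)) ^ p = 1 := by
      rw [← pow_mul, ← pow_succ, Nat.sub_add_cancel (Nat.one_le_iff_ne_zero.2 hm0), ← hom,
        pow_orderOf_eq_one]
    have hω1 : a ^ p ^ (m - 1) ≠ 1 := by
      intro h
      have h5 := orderOf_dvd_of_pow_eq_one h
      rw [hom] at h5
      have h6 := (Nat.pow_dvd_pow_iff_le_right hp.one_lt).1 h5
      omega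
    refine key hp u (fun α => (starRingEnd ℂ) (n (α * η))) (fun α _ => conj_int (h1 _))
      (a ^ p ^ (m - 1)) hω hω1 ?_
    intro α hα
    show (starRingEnd ℂ) (n (a ^ p ^ (m - 1) * α * η)) = (starRingEnd ℂ) (n (α * η))
    congr 1
    have h5 := h2 (α * η) (p ^ (m - 1))
    rw [← h5]
    congr 1
    have h6 : (α * η) ^ p ^ (b - 1) = η ^ p ^ (b - 1) := by
      rw [mul_pow, hαq α hα, one_mul]
    rw [pow_add, pow_one, pow_mul, h6, ha, mul_pow, inv_pow]
    simp only [mul_assoc, mul_comm]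

theorem case_rep (hAMF : SpecAMF) (hp : p.Prime) (hb : 2 ≤ b) {e : ℕ} (hP : Nat.card P = p ^ e)
    {φ : P → ℂ} (hφ : GC φ) (hφi : ∀ (t : ℕ) (w : P), φ (w ^ (1 + p ^ b * t)) = φ w) {k : Lin P}
    (hk : k ^ p = 1) (u : P) (n : ℕ) : ∀ r : P →* Matrix (Fin n) (Fin n) ℂ,
    ∃ c : ℂ, IsIntegral ℤ c ∧ FF p b φ k u (fun w => (r w).trace) = p * c := by
  obtain ⟨gadd, gmul, gsmul, gcon, gsum, gcomp, gint, gavg⟩ := W.specGCA2 W.specGCA1
  induction n using Nat.strong_induction_on with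
  | _ n ih =>
    intro r
    by_cases hn : n = 0
    · subst hn
      have h1 : (fun w => (r w).trace) = fun _ => (0 : ℂ) := by
        funext x
        rw [Matrix.trace]
        exact Finset.sum_eq_zero fun i _ => i.elim0
      rw [h1, FF_zero]
      exact ⟨0, isIntegral_zero, (mul_zero _).symm⟩
    · by_cases hr : Sch r
      · by_cases hn1 : n = 1
        · subst hn1
          obtain ⟨η₀, hη₀⟩ : ∃ η₀ : Lin P, ∀ x, ((η₀ x : ℂˣ) : ℂ) = (r x).det :=
            ⟨dt r, fun x => dt_apply r x⟩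
          have h5 : (fun x => (r x).trace) = fun x => ((η₀ x : ℂˣ) : ℂ) := by
            funext x
            rw [hη₀, Matrix.det_fin_one, Matrix.trace_fin_one]
          rw [h5]
          exact case_lin hAMF hp hb hP hφ hφi hk u η₀
        · obtain ⟨ω, hω1, hωp, hω⟩ := specNLI p hp e hP n r hr hn hn1
          unfold FF
          refine key hp u (fun α => (Fintype.card P : ℂ)⁻¹ * ∑ w, ((α w : ℂˣ) : ℂ) *
            (r w).trace * (starRingEnd ℂ) (amg p b φ k w)) ?_ ω hωp hω1 ?_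
          · intro α _
            refine gavg _ (gmul _ _ (gmul _ _ (gc_lin α) ?_) (gc_conj (gc_amg hp hb hP hφ k)))
            exact Submodule.subset_span ⟨n, r, fun _ => rfl⟩
          · intro α _
            show (Fintype.card P : ℂ)⁻¹ * _ = (Fintype.card P : ℂ)⁻¹ * _
            congr 1
            refine sum_congr rfl fun w _ => ?_
            conv_rhs => rw [← hω w]
            rw [Lin.mul_apply, Units.val_mul]
            ring
      · obtain ⟨F, hF, hF0, hF1, hFc⟩ := exists_idem hn hr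
        obtain ⟨s, J, J', h1, h2⟩ := idem_factor F hF
        have hG : (1 - F) * (1 - F) = 1 - F := by
          rw [Matrix.mul_sub, Matrix.sub_mul, Matrix.sub_mul, Matrix.one_mul, Matrix.mul_one,
            Matrix.one_mul, hF, sub_self, sub_zero]
        obtain ⟨v, B, B', h3, h4⟩ := idem_factor (1 - F) hG
        have hu0 : s ≠ 0 := by
          rintro rfl
          apply hF0
          rw [← h1]
          ext i j
          rw [Matrix.mul_apply]
          simp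
        have hv0 : v ≠ 0 := by
          rintro rfl
          apply hF1
          have h5 : 1 - F = 0 := by
            rw [← h3]
            ext i j
            rw [Matrix.mul_apply]
            simp
          exact (sub_eq_zero.1 h5).symm
        have huv : s + v = n := by
          have h5 : ((s + v : ℕ) : ℂ) = (n : ℂ) := by
            have h6 := trace_fac h2
            have h7 := trace_fac h4
            rw [h1] at h6
            rw [h3, Matrix.trace_sub, Matrix.trace_one, Fintype.card_fin] at h7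
            push_cast
            rw [← h6, ← h7]
            ring
          exact_mod_cast h5
        have hc1 : ∀ g, J * J' * r g = r g * (J * J') := fun g => by rw [h1]; exact hFc g
        have hc2 : ∀ g, B * B' * r g = r g * (B * B') := fun g => by
          rw [h3, Matrix.sub_mul, Matrix.mul_sub, Matrix.one_mul, Matrix.mul_one, hFc]
        set s' := compr r J J' h2 hc1 with hs
        set t' := compr r B B' h4 hc2 with ht
        have htr : (fun x => (r x).trace) = fun x => (s' x).trace + (t' x).trace := by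
          funext x
          rw [hs, ht, compr_apply, compr_apply]
          have e1 : (J' * r x * J).trace = (F * r x).trace := by
            rw [Matrix.trace_mul_comm, ← Matrix.mul_assoc, h1]
          have e2 : (B' * r x * B).trace = ((1 - F) * r x).trace := by
            rw [Matrix.trace_mul_comm, ← Matrix.mul_assoc, h3]
          rw [e1, e2, Matrix.sub_mul, Matrix.one_mul, Matrix.trace_sub]
          ring
        rw [htr, FF_add]
        obtain ⟨c1, hc1, hc1'⟩ := ih s (by omega) s'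
        obtain ⟨c2, hc2, hc2'⟩ := ih v (by omega) t'
        exact ⟨c1 + c2, hc1.add hc2, by rw [hc1', hc2', mul_add]⟩

end

end CF3

open CF3 in
theorem specCF3 (hAMF : SpecAMF) : SpecCF3 := by
  intro p b hp hb P _ _ e hP φ hφ hφi k hk u μ hμ
  show ∃ c : ℂ, IsIntegral ℤ c ∧ FF p b φ k u μ = p * c
  induction hμ using Submodule.span_induction with
  | mem χ hχ =>
    obtain ⟨n, r, hr⟩ := hχ
    have h1 : χ = fun w => (r w).trace := funext hr
    rw [h1]
    exact case_rep hAMF hp hb hP hφ hφi hk u n r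
  | zero =>
    exact ⟨0, isIntegral_zero, by rw [mul_zero]; exact FF_zero φ k u⟩
  | add F F' _ _ h1 h2 =>
    obtain ⟨c1, hc1, hc1'⟩ := h1
    obtain ⟨c2, hc2, hc2'⟩ := h2
    refine ⟨c1 + c2, hc1.add hc2, ?_⟩
    have h3 := FF_add (p := p) (b := b) φ k u F F'
    rw [hc1', hc2', ← mul_add] at h3
    exact h3
  | smul a F _ h1 =>
    obtain ⟨c1, hc1, hc1'⟩ := h1
    refine ⟨(a : ℂ) * c1, a.2.mul hc1, ?_⟩
    have h3 := FF_smul (p := p) (b := b) φ k u F (a : ℂ)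
    rw [hc1'] at h3
    exact h3.trans (by ring)

end Pool.Agent.Lib.MP_1aae89_al.W4
end

section
/-!
# CF1: the first factor `p`
-/
set_option autoImplicit false

namespace Pool.Agent.Lib.MP_1aae89_al.W4

open Pool.Agent.Lib.MP_1aae89_al Pool.Agent.Lib.MP_1aae89_al.BF Pool.Agent.Lib.MP_1aae89_al.W3 Finset
open Pool.Agent.Lib.MP_1aae89_al.W (GC LD nR)

namespace CF1

/-- `φ(w^(A + p^b j)) = φ(w^A)` for `A` prime to `p` -/
theorem twist {p b : ℕ} {B : Type} [Group B] [Finite B] {m : ℕ} (hB : Nat.card B = p ^ m)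
    (φ : B → ℂ) (hφ : ∀ (t : ℕ) (w : B), φ (w ^ (1 + p ^ b * t)) = φ w) (A : ℕ)
    (hA : A.Coprime p) (j : ℕ) (w : B) : φ (w ^ (A + p ^ b * j)) = φ (w ^ A) := by
  have hc : A.Coprime (Nat.card B) := by rw [hB]; exact Nat.Coprime.pow_right m hA
  have h1 : A ^ Nat.totient (Nat.card B) ≡ 1 [MOD Nat.card B] := Nat.ModEq.pow_totient hc
  have h2 : w ^ (A + p ^ b * j) =
      (w ^ A) ^ (1 + p ^ b * (A ^ (Nat.totient (Nat.card B) - 1) * j)) := by
    rw [← pow_mul]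
    refine (pow_eq_pow_iff_modEq).2 (Nat.ModEq.of_dvd (orderOf_dvd_natCard w) ?_)
    have h3 : A * (1 + p ^ b * (A ^ (Nat.totient (Nat.card B) - 1) * j)) =
        A + A ^ Nat.totient (Nat.card B) * (p ^ b * j) := by
      have : A ^ Nat.totient (Nat.card B) = A * A ^ (Nat.totient (Nat.card B) - 1) := by
        rw [← pow_succ', Nat.sub_add_cancel (Nat.totient_pos.2 Nat.card_pos)]
      rw [this]
      ring
    rw [h3]
    have h4 := (h1.mul_right (p ^ b * j)).add_left A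
    rw [one_mul] at h4
    exact h4.symm
  rw [h2, hφ]

theorem cop {p b : ℕ} (hp : p.Prime) (hb : 2 ≤ b) (i : ℕ) :
    (1 + p ^ (b - 1) * i).Coprime p := by
  rw [Nat.coprime_comm, Nat.Prime.coprime_iff_not_dvd hp]
  intro h
  rw [Nat.dvd_add_left] at h
  · exact hp.one_lt.ne' (Nat.dvd_one.mp h)
  · exact Dvd.dvd.mul_right (dvd_pow_self p (by omega)) _

/-- the values of a character of order dividing `p` do not change -/
theorem lin_pow {p b : ℕ} (hb : 2 ≤ b) {B : Type} [Group B] {k : Lin B}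
    (hk : k ^ p = 1) (w : B) (i : ℕ) : k (w ^ (1 + p ^ (b - 1) * i)) = k w := by
  have hkp : k w ^ p = 1 := by rw [← Lin.pow_apply, hk, Lin.one_apply]
  have hkq : k w ^ p ^ (b - 1) = 1 := by
    rw [show b - 1 = (b - 2) + 1 by omega, pow_succ', pow_mul, hkp, one_pow]
  rw [map_pow, pow_add, pow_one, pow_mul, hkq, one_pow, mul_one]

/-- `amg(w^(1 + q i)) = k(w)^i amg(w)` -/
theorem amg_pow {p b : ℕ} (hp : p.Prime) (hb : 2 ≤ b) {B : Type} [Group B] [Finite B] {m : ℕ}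
    (hB : Nat.card B = p ^ m) (φ : B → ℂ)
    (hφ : ∀ (t : ℕ) (w : B), φ (w ^ (1 + p ^ b * t)) = φ w) (k : Lin B) (hk : k ^ p = 1) (w : B)
    (i : ℕ) : amg p b φ k (w ^ (1 + p ^ (b - 1) * i)) = ((k w : ℂˣ) : ℂ) ^ i * amg p b φ k w := by
  have hcop := cop (b := b) hp hb
  have hkp : ∀ w, k w ^ p = 1 := fun w => by rw [← Lin.pow_apply, hk, Lin.one_apply]
  have hbb : p ^ (b - 1) * p ^ (b - 1) = p ^ b * p ^ (b - 2) := by
    rw [← pow_add, ← pow_add]; congr 1; omega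
  have hpb : p ^ (b - 1) * p = p ^ b := by
    rw [← pow_succ]; congr 1; omega
  have hper : ∀ (w : B) (j : ℕ), (((k w)⁻¹ : ℂˣ) : ℂ) ^ (j + p) *
      φ (w ^ (1 + p ^ (b - 1) * (j + p))) =
      (((k w)⁻¹ : ℂˣ) : ℂ) ^ j * φ (w ^ (1 + p ^ (b - 1) * j)) := by
    intro w j
    have h1 : (((k w)⁻¹ : ℂˣ) : ℂ) ^ p = 1 := by
      rw [← Units.val_pow_eq_pow_val, inv_pow, hkp, inv_one, Units.val_one]
    have h2 : 1 + p ^ (b - 1) * (j + p) = (1 + p ^ (b - 1) * j) + p ^ b * 1 := by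
      rw [← hpb]; ring
    rw [pow_add, h1, mul_one, h2, twist hB φ hφ _ (hcop j)]
  have ham : (((k w)⁻¹ : ℂˣ) : ℂ) ^ i *
      amg p b φ k (w ^ (1 + p ^ (b - 1) * i)) = amg p b φ k w := by
    unfold amg
    have hs := AM1.sum_shift
      (fun j => (((k w)⁻¹ : ℂˣ) : ℂ) ^ j * φ (w ^ (1 + p ^ (b - 1) * j))) p (hper w) i
    rw [lin_pow hb hk, mul_sum, ← hs]
    refine sum_congr rfl fun j _ => ?_
    show _ = (((k w)⁻¹ : ℂˣ) : ℂ) ^ (i + j) * φ (w ^ (1 + p ^ (b - 1) * (i + j)))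
    rw [← mul_assoc, ← pow_add, ← pow_mul]
    have h2 : (1 + p ^ (b - 1) * i) * (1 + p ^ (b - 1) * j) =
        (1 + p ^ (b - 1) * (i + j)) + p ^ b * (p ^ (b - 2) * (i * j)) := by
      have : p ^ (b - 1) * i * (p ^ (b - 1) * j) = p ^ b * p ^ (b - 2) * (i * j) := by
        rw [← hbb]; ring
      calc (1 + p ^ (b - 1) * i) * (1 + p ^ (b - 1) * j)
          = 1 + p ^ (b - 1) * (i + j) + p ^ (b - 1) * i * (p ^ (b - 1) * j) := by ring
        _ = _ := by rw [this]; ring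
    rw [h2, twist hB φ hφ _ (hcop _)]
  rw [← ham, ← mul_assoc, ← mul_pow, ← Units.val_mul, mul_inv_cancel, Units.val_one, one_pow,
    one_mul]

end CF1

open CF1 in
theorem specCF1 : SpecCF1 := by
  intro p b hp hb Q _ _ e hQ φ hG hφ k hk α hα T hT
  obtain ⟨gadd, gmul, gsmul, gcon, gsum, gcomp, gint, gavg⟩ := W.specGCA2 W.specGCA1
  have hcopB : ∀ i, (Nat.card Q).Coprime (1 + p ^ (b - 1) * i) := fun i => by
    rw [hQ]; exact (Nat.Coprime.pow_right e (cop hp hb i)).symm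
  refine ⟨?_, ?_⟩
  · rw [hT]
    exact gavg _ (gmul _ _ (gmul _ _ (CF3.gc_lin α) hG) (CF3.gc_conj (CF3.gc_amg hp hb hQ hG k)))
  · set F : Q → ℂ := fun w => ((α w : ℂˣ) : ℂ) * φ w * (starRingEnd ℂ) (amg p b φ k w) with hF
    have hreidx : ∀ i : ℕ, ∑ w, F (w ^ (1 + p ^ (b - 1) * i)) = ∑ w, F w := by
      intro i
      refine Fintype.sum_equiv (powCoprime (hcopB i)) _ _ fun x => ?_
      rw [powCoprime_apply]
    have hFw : ∀ (i : ℕ) (w : Q), F (w ^ (1 + p ^ (b - 1) * i)) =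
        ((α w : ℂˣ) : ℂ) * ((((k w)⁻¹ : ℂˣ) : ℂ) ^ i * φ (w ^ (1 + p ^ (b - 1) * i))) *
          (starRingEnd ℂ) (amg p b φ k w) := by
      intro i w
      show ((α (w ^ (1 + p ^ (b - 1) * i)) : ℂˣ) : ℂ) * φ (w ^ (1 + p ^ (b - 1) * i)) *
        (starRingEnd ℂ) (amg p b φ k (w ^ (1 + p ^ (b - 1) * i))) = _
      rw [lin_pow hb hα, amg_pow hp hb hQ φ hφ k hk, map_mul, map_pow, CF3.val_conj]
      ring
    have hsum : ∑ w, ((α w : ℂˣ) : ℂ) *
        (amg p b φ k w * (starRingEnd ℂ) (amg p b φ k w)) = p * ∑ w, F w := by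
      have h1 : ∀ w : Q, ((α w : ℂˣ) : ℂ) *
          (amg p b φ k w * (starRingEnd ℂ) (amg p b φ k w)) =
          ∑ i ∈ range p, F (w ^ (1 + p ^ (b - 1) * i)) := by
        intro w
        rw [sum_congr rfl fun i _ => hFw i w, ← sum_mul, ← mul_sum]
        have h2 : ∑ i ∈ range p, (((k w)⁻¹ : ℂˣ) : ℂ) ^ i * φ (w ^ (1 + p ^ (b - 1) * i)) =
            amg p b φ k w := rfl
        rw [h2]
        ring
      rw [sum_congr rfl fun w _ => h1 w, sum_comm, sum_congr rfl fun i _ => hreidx i, sum_const,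
        card_range, nsmul_eq_mul]
    rw [hsum, hT]
    ring

end Pool.Agent.Lib.MP_1aae89_al.W4
end

section
/-!
# W4, module CF2: the core of the integrality, for a proper subgroup
-/
set_option autoImplicit false

namespace Pool.Agent.Lib.MP_1aae89_al.W4

open Pool.Agent.Lib.MP_1aae89_al Pool.Agent.Lib.MP_1aae89_al.BF Pool.Agent.Lib.MP_1aae89_al.W3 Finset
open Pool.Agent.Lib.MP_1aae89_al.W (GC LD nR)
open Pool.Agent.Lib.MP1aae89 (Pex)

namespace CF2

theorem mem_AF {p : ℕ} {P : Type} [Group P] [Finite P] {α : Lin P} :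
    α ∈ AF p P ↔ α ^ p = 1 := by
  classical
  unfold AF
  rw [mem_filter]
  exact ⟨fun h => h.2, fun h => ⟨mem_univ _, h⟩⟩

theorem root_int {P : Type} [Group P] {p : ℕ} (hp : p ≠ 0) {α : Lin P} (h : α ^ p = 1) (x : P) :
    IsIntegral ℤ ((α x : ℂˣ) : ℂ) := by
  have h1 : α x ^ p = 1 := by rw [← Lin.pow_apply, h, Lin.one_apply]
  have h2 : (((α x : ℂˣ) : ℂ)) ^ p = 1 := by
    rw [← Units.val_pow_eq_pow_val, h1, Units.val_one]
  exact IsIntegral.of_pow (Nat.pos_of_ne_zero hp) (by rw [h2]; exact isIntegral_one)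

/-- the sum over `AF` of a function invariant under a nontrivial `ε`, twisted by `u` -/
theorem sum_div (hPSM : SpecPSM) {P : Type} [Group P] [Finite P] {p : ℕ} (hp : p.Prime)
    {ε : Lin P} (h1 : ε ≠ 1) (h2 : ε ^ p = 1) (T : Lin P → ℂ) (hT : ∀ α ∈ AF p P, IsIntegral ℤ (T α))
    (hinv : ∀ α ∈ AF p P, T (ε * α) = T α) (u : P) :
    ∃ c : ℂ, IsIntegral ℤ c ∧ ∑ α ∈ AF p P, (((α u)⁻¹ : ℂˣ) : ℂ) * T α = p * c := by
  classical
  have hmem : ∀ α ∈ AF p P, ε * α ∈ AF p P := by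
    intro α hα
    rw [mem_AF] at hα ⊢
    rw [mul_pow, h2, hα, one_mul]
  by_cases hu : ε u = 1
  · refine hPSM p hp (AF p P) (fun α => ε * α) 1 hmem ?_ ?_
      (fun α => (((α u)⁻¹ : ℂˣ) : ℂ) * T α) ?_ ?_
    · intro α _
      have h3 : ∀ n : ℕ, (fun α : Lin P => ε * α)^[n] α = ε ^ n * α := by
        intro n
        induction n with
        | zero => simp
        | succ n ih =>
          rw [Function.iterate_succ_apply', ih, pow_succ', mul_assoc]
      rw [h3, pow_one, h2, one_mul]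
    · intro α _ h
      exact h1 (mul_eq_right.1 h)
    · intro α hα
      show (((ε * α) u)⁻¹ : ℂˣ).val * T (ε * α) = _
      rw [hinv α hα, Lin.mul_apply, hu, one_mul]
    · intro α hα
      refine IsIntegral.mul ?_ (hT α hα)
      have h4 : ((α u)⁻¹ : ℂˣ) = (α⁻¹) u := (Lin.inv_apply α u).symm
      rw [h4]
      refine root_int hp.ne_zero ?_ u
      rw [inv_pow, mem_AF.1 hα, inv_one]
  · refine ⟨0, isIntegral_zero, ?_⟩
    rw [mul_zero]
    have h3 : ∑ α ∈ AF p P, (((α u)⁻¹ : ℂˣ) : ℂ) * T α =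
        ∑ α ∈ AF p P, ((((ε * α) u)⁻¹ : ℂˣ) : ℂ) * T (ε * α) := by
      refine (sum_bij (fun α _ => ε * α) hmem ?_ ?_ ?_).symm
      · intro a _ b _ h
        exact mul_left_cancel h
      · intro β hβ
        refine ⟨ε⁻¹ * β, ?_, by rw [mul_inv_cancel_left]⟩
        rw [mem_AF] at hβ ⊢
        rw [mul_pow, inv_pow, h2, hβ, inv_one, one_mul]
      · intro a _
        rfl
    have h4 : ∑ α ∈ AF p P, ((((ε * α) u)⁻¹ : ℂˣ) : ℂ) * T (ε * α) =
        (((ε u)⁻¹ : ℂˣ) : ℂ) * ∑ α ∈ AF p P, (((α u)⁻¹ : ℂˣ) : ℂ) * T α := by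
      rw [mul_sum]
      refine sum_congr rfl fun α hα => ?_
      rw [hinv α hα, Lin.mul_apply, mul_inv, Units.val_mul, mul_assoc]
    have h5 := h3.trans h4
    set S := ∑ α ∈ AF p P, (((α u)⁻¹ : ℂˣ) : ℂ) * T α
    have h6 : (1 - (((ε u)⁻¹ : ℂˣ) : ℂ)) * S = 0 := by rw [sub_mul, one_mul, ← h5, sub_self]
    rcases mul_eq_zero.1 h6 with h7 | h7
    · exfalso
      apply hu
      have h8 : (((ε u)⁻¹ : ℂˣ) : ℂ) = ((1 : ℂˣ) : ℂ) := by
        rw [Units.val_one]
        exact (sub_eq_zero.1 h7).symm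
      have h9 := Units.ext h8
      exact inv_eq_one.1 h9
    · exact h7

/-- the expansion of the indicator -/
theorem expand (hDUF : SpecDUF) (p : ℕ) {P : Type} [Group P] [Finite P] (u w : P) :
    ∑ α ∈ AF p P, (((α u)⁻¹ : ℂˣ) : ℂ) * ((α w : ℂˣ) : ℂ) =
      open Classical in if (∀ α ∈ AF p P, α w = α u) then ((AF p P).card : ℂ) else 0 := by
  classical
  have h1 := hDUF p (u⁻¹ * w)
  have h2 : ∑ α ∈ AF p P, (((α u)⁻¹ : ℂˣ) : ℂ) * ((α w : ℂˣ) : ℂ) =
      ∑ α ∈ AF p P, ((α (u⁻¹ * w) : ℂˣ) : ℂ) := by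
    refine sum_congr rfl fun α _ => ?_
    rw [map_mul, map_inv, Units.val_mul]
  rw [h2, h1]
  have h3 : (∀ α ∈ AF p P, α (u⁻¹ * w) = 1) ↔ (∀ α ∈ AF p P, α w = α u) := by
    refine forall_congr' fun α => forall_congr' fun _ => ?_
    rw [map_mul, map_inv, inv_mul_eq_one]
    exact eq_comm
  by_cases h4 : ∀ α ∈ AF p P, α w = α u
  · rw [if_pos h4, if_pos (h3.2 h4)]
  · rw [if_neg h4, if_neg fun h => h4 (h3.1 h)]

end CF2

open CF2 in
theorem specCF2 (hDUF : SpecDUF) (hCF1 : SpecCF1) (hPSM : SpecPSM) : SpecCF2 := by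
  classical
  intro p b hp hb P _ _ e hP Q _ hQ φ hφ hinv k hk u
  haveI : Fact p.Prime := ⟨hp⟩
  obtain ⟨ε, h1, h2, h3⟩ := exists_eps hP Q hQ
  have hp0 : (p : ℂ) ≠ 0 := Nat.cast_ne_zero.2 hp.ne_zero
  -- order of `Q`
  obtain ⟨e', hQe⟩ : ∃ e' : ℕ, Nat.card Q = p ^ e' := by
    have h4 : Nat.card Q ∣ p ^ e := hP ▸ Subgroup.card_subgroup_dvd_card Q
    obtain ⟨e', _, h5⟩ := (Nat.dvd_prime_pow hp).1 h4
    exact ⟨e', h5⟩
  have hkQ : (resL Q k) ^ p = 1 := by
    apply Lin.ext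
    intro x
    rw [Lin.pow_apply, resL_apply, ← Lin.pow_apply, hk]
    rfl
  set T : Lin P → ℂ := fun α => (Fintype.card Q : ℂ)⁻¹ * ∑ w : Q,
    ((resL Q α w : ℂˣ) : ℂ) * φ w * (starRingEnd ℂ) (amg p b φ (resL Q k) w) with hTdef
  have hres : ∀ α : Lin P, α ^ p = 1 → (resL Q α) ^ p = 1 := by
    intro α hα
    apply Lin.ext
    intro x
    rw [Lin.pow_apply, resL_apply, ← Lin.pow_apply, hα]
    rfl
  have hC : ∀ α ∈ AF p P, IsIntegral ℤ (T α) ∧ (Fintype.card Q : ℂ)⁻¹ * ∑ w : Q,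
      ((resL Q α w : ℂˣ) : ℂ) * (amg p b φ (resL Q k) w *
        (starRingEnd ℂ) (amg p b φ (resL Q k) w)) = p * T α := by
    intro α hα
    exact hCF1 p b hp hb e' hQe φ hφ hinv (resL Q k) hkQ (resL Q α) (hres α (mem_AF.1 hα)) (T α) rfl
  obtain ⟨c, hc, hcs⟩ := sum_div hPSM hp h1 h2 T (fun α hα => (hC α hα).1) (by
    intro α _
    show (Fintype.card Q : ℂ)⁻¹ * _ = (Fintype.card Q : ℂ)⁻¹ * _
    congr 1
    refine sum_congr rfl fun w _ => ?_
    rw [resL_apply, resL_apply, Lin.mul_apply, h3 _ w.2, one_mul]) u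
  have key : (((AF p P).card : ℂ) * ((Fintype.card Q : ℂ)⁻¹ * ∑ w : Q,
    if (∀ α ∈ AF p P, α (w : P) = α u) then
      ((p : ℂ)⁻¹ * amg p b φ (resL Q k) w) * (starRingEnd ℂ) ((p : ℂ)⁻¹ * amg p b φ (resL Q k) w)
        else 0)) = c := by
    have e1 : (((AF p P).card : ℂ) * ((Fintype.card Q : ℂ)⁻¹ * ∑ w : Q,
        if (∀ α ∈ AF p P, α (w : P) = α u) then
          ((p : ℂ)⁻¹ * amg p b φ (resL Q k) w) *
            (starRingEnd ℂ) ((p : ℂ)⁻¹ * amg p b φ (resL Q k) w) else 0)) =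
        (p : ℂ)⁻¹ * (p : ℂ)⁻¹ * ∑ α ∈ AF p P, (((α u)⁻¹ : ℂˣ) : ℂ) *
          ((Fintype.card Q : ℂ)⁻¹ * ∑ w : Q, ((resL Q α w : ℂˣ) : ℂ) *
            (amg p b φ (resL Q k) w * (starRingEnd ℂ) (amg p b φ (resL Q k) w))) := by
      have e2 : ∀ w : Q, ((AF p P).card : ℂ) * (if (∀ α ∈ AF p P, α (w : P) = α u) then
          ((p : ℂ)⁻¹ * amg p b φ (resL Q k) w) *
            (starRingEnd ℂ) ((p : ℂ)⁻¹ * amg p b φ (resL Q k) w) else 0) =
          (p : ℂ)⁻¹ * (p : ℂ)⁻¹ * ∑ α ∈ AF p P, (((α u)⁻¹ : ℂˣ) : ℂ) *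
            (((resL Q α w : ℂˣ) : ℂ) * (amg p b φ (resL Q k) w *
              (starRingEnd ℂ) (amg p b φ (resL Q k) w))) := by
        intro w
        have e3 := expand hDUF p u (w : P)
        have e4 : ∑ α ∈ AF p P, (((α u)⁻¹ : ℂˣ) : ℂ) * (((resL Q α w : ℂˣ) : ℂ) *
            (amg p b φ (resL Q k) w * (starRingEnd ℂ) (amg p b φ (resL Q k) w))) =
            (∑ α ∈ AF p P, (((α u)⁻¹ : ℂˣ) : ℂ) * ((α (w : P) : ℂˣ) : ℂ)) *
              (amg p b φ (resL Q k) w * (starRingEnd ℂ) (amg p b φ (resL Q k) w)) := by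
          rw [sum_mul]
          refine sum_congr rfl fun α _ => ?_
          rw [resL_apply, mul_assoc]
        rw [e4, e3]
        split_ifs with h
        · rw [map_mul, map_inv₀, Complex.conj_natCast]
          ring
        · ring
      rw [mul_left_comm, mul_sum]
      rw [sum_congr rfl fun w _ => e2 w, ← mul_sum, mul_left_comm]
      congr 1
      rw [sum_comm, mul_sum]
      refine sum_congr rfl fun α _ => ?_
      rw [← mul_sum]
      ring
    rw [e1, sum_congr rfl fun α hα => by rw [(hC α hα).2]]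
    have e5 : ∑ α ∈ AF p P, (((α u)⁻¹ : ℂˣ) : ℂ) * ((p : ℂ) * T α) =
        p * ∑ α ∈ AF p P, (((α u)⁻¹ : ℂˣ) : ℂ) * T α := by
      rw [mul_sum]
      refine sum_congr rfl fun α _ => ?_
      ring
    rw [e5, hcs]
    field_simp
  rw [key]
  exact hc

end Pool.Agent.Lib.MP_1aae89_al.W4
end

section
/-!
# DUF: orthogonality for the characters of order dividing `p`
-/
set_option autoImplicit false

namespace Pool.Agent.Lib.MP_1aae89_al.W4

open Pool.Agent.Lib.MP_1aae89_al Pool.Agent.Lib.MP_1aae89_al.BF Pool.Agent.Lib.MP_1aae89_al.W3 Finset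

theorem specDUF : SpecDUF := by
  intro p P _ _ x
  classical
  by_cases h : ∀ α ∈ AF p P, α x = 1
  · rw [if_pos h, Finset.sum_congr rfl (g := fun _ => (1 : ℂ))]
    · simp
    · intro α hα
      rw [h α hα, Units.val_one]
  · rw [if_neg h]
    push Not at h
    obtain ⟨β, hβ, hβx⟩ := h
    have hmem : ∀ α : Lin P, α ∈ AF p P ↔ α ^ p = 1 := fun α => by simp [AF]
    have hβp : β ^ p = 1 := (hmem β).1 hβ
    have h1 : ∑ α ∈ AF p P, ((α x : ℂˣ) : ℂ) = ∑ α ∈ AF p P, (((β * α) x : ℂˣ) : ℂ) := by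
      symm
      refine Finset.sum_bij (fun α _ => β * α) ?_ ?_ ?_ ?_
      · intro α hα
        rw [hmem] at hα ⊢
        rw [mul_pow, hβp, hα, one_mul]
      · intro α _ α' _ e
        exact mul_left_cancel e
      · intro α hα
        refine ⟨β⁻¹ * α, ?_, ?_⟩
        · rw [hmem] at hα ⊢
          rw [mul_pow, inv_pow, hβp, hα, inv_one, one_mul]
        · rw [mul_inv_cancel_left]
      · intro α _
        rfl
    have h2 : ∑ α ∈ AF p P, (((β * α) x : ℂˣ) : ℂ) =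
        ((β x : ℂˣ) : ℂ) * ∑ α ∈ AF p P, ((α x : ℂˣ) : ℂ) := by
      rw [Finset.mul_sum]
      refine Finset.sum_congr rfl fun α _ => ?_
      exact Units.val_mul (β x) (α x)
    rw [h2] at h1
    by_contra h3
    have h4 : ((β x : ℂˣ) : ℂ) = 1 := by
      have h5 : (((β x : ℂˣ) : ℂ) - 1) * ∑ α ∈ AF p P, ((α x : ℂˣ) : ℂ) = 0 := by
        rw [sub_mul, one_mul, ← h1, sub_self]
      rcases mul_eq_zero.1 h5 with h6 | h6
      · exact sub_eq_zero.1 h6
      · exact absurd h6 h3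
    exact hβx (Units.val_eq_one.1 h4)

end Pool.Agent.Lib.MP_1aae89_al.W4
end

section
/-!
# FEG: the relation `RelF` is given by `Γ = {h ∈ N_F(Q) : [h, P] ≤ Q}`, `Q = P ∩ F`
-/
set_option autoImplicit false

namespace Pool.Agent.Lib.MP_1aae89_al.W4

open Pool.Agent.Lib.MP_1aae89_al Pool.Agent.Lib.MP_1aae89_al.BF Pool.Agent.Lib.MP_1aae89_al.W3 Finset

namespace FEG

variable {p : ℕ} {X : Type} [Group X]

theorem fq_refl {P : Subgroup X} {u : X} (hu : u ∈ P) : Fq p P u u := ⟨hu, hu, fun _ _ => rfl⟩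

theorem fq_symm {P : Subgroup X} {u v : X} (h : Fq p P u v) : Fq p P v u := by
  obtain ⟨hu, hv, h⟩ := h
  exact ⟨hv, hu, fun α hα => (h α hα).symm⟩

theorem fq_trans {P : Subgroup X} {u v w : X} (h : Fq p P u v) (h' : Fq p P v w) :
    Fq p P u w := by
  obtain ⟨hu, hv, h⟩ := h
  obtain ⟨_, hw, h'⟩ := h'
  exact ⟨hu, hw, fun α hα => (h α hα).trans (h' α hα)⟩

/-- conjugation by elements of `P` does not change the class -/
theorem fq_conj {P : Subgroup X} {y z : X} (hy : y ∈ P) (hz : z ∈ P) :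
    Fq p P (y * z * y⁻¹) z := by
  refine ⟨P.mul_mem (P.mul_mem hy hz) (P.inv_mem hy), hz, fun α _ => ?_⟩
  have h1 : (⟨y * z * y⁻¹, P.mul_mem (P.mul_mem hy hz) (P.inv_mem hy)⟩ : P)
      = ⟨y, hy⟩ * ⟨z, hz⟩ * (⟨y, hy⟩ : P)⁻¹ := rfl
  have h2 : α (⟨y, hy⟩ * ⟨z, hz⟩ * (⟨y, hy⟩ : P)⁻¹) = α ⟨y, hy⟩ * α ⟨z, hz⟩ * (α ⟨y, hy⟩)⁻¹ := by
    have e1 := map_mul (α : P →* ℂˣ) (⟨y, hy⟩ * ⟨z, hz⟩) (⟨y, hy⟩ : P)⁻¹
    have e2 := map_mul (α : P →* ℂˣ) ⟨y, hy⟩ ⟨z, hz⟩
    have e3 := map_inv (α : P →* ℂˣ) ⟨y, hy⟩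
    exact e1.trans (by rw [e2, e3])
  rw [h1, h2, mul_comm (α ⟨y, hy⟩), mul_inv_cancel_right]

/-- conjugation by an element which normalizes `P`, as a homomorphism `P → P` -/
def cjh {P : Subgroup X} (h : X) (hn : ∀ y ∈ P, h * y * h⁻¹ ∈ P) : P →* P where
  toFun y := ⟨h * y * h⁻¹, hn y y.2⟩
  map_one' := by ext; simp
  map_mul' a b := by ext; simp

theorem fq_norm {P : Subgroup X} {h u v : X} (hn : ∀ y ∈ P, h * y * h⁻¹ ∈ P) (huv : Fq p P u v) :
    Fq p P (h * u * h⁻¹) (h * v * h⁻¹) := by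
  obtain ⟨hu, hv, huv⟩ := huv
  refine ⟨hn u hu, hn v hv, fun α hα => ?_⟩
  let β : Lin P := (MonoidHom.comp (α : P →* ℂˣ) (cjh h hn) : P →* ℂˣ)
  have hβ : β ^ p = 1 := by
    refine MonoidHom.ext (f := (β ^ p : P →* ℂˣ)) fun x => ?_
    have h1 : (α ^ p) (cjh h hn x) = (1 : Lin P) (cjh h hn x) := by rw [hα]
    exact h1
  exact huv β hβ

/-- an element of a finite group which conjugates `P` into `P` normalizes `P` -/
theorem norm_inv [Finite X] {P : Subgroup X} {h : X} (hn : ∀ y ∈ P, h * y * h⁻¹ ∈ P) :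
    ∀ y ∈ P, h⁻¹ * y * h ∈ P := by
  have hinj : Function.Injective (cjh h hn) := by
    intro a b hab
    have h1 : h * (a : X) * h⁻¹ = h * b * h⁻¹ := congrArg Subtype.val hab
    exact Subtype.ext (mul_left_cancel (mul_right_cancel h1))
  have hsurj := Finite.surjective_of_injective hinj
  intro y hy
  obtain ⟨z, hz⟩ := hsurj ⟨y, hy⟩
  have h1 : h * (z : X) * h⁻¹ = y := congrArg Subtype.val hz
  have h2 : h⁻¹ * y * h = z := by rw [← h1]; group
  rw [h2]
  exact z.2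

/-- the elements which define the fusion -/
def Gm (P F : Subgroup X) (h : X) : Prop :=
  h ∈ F ∧ (∀ x ∈ P ⊓ F, h * x * h⁻¹ ∈ P ⊓ F) ∧ ∀ y ∈ P, h * y * h⁻¹ * y⁻¹ ∈ P ⊓ F

theorem gm_norm {P F : Subgroup X} {h : X} (hh : Gm P F h) : ∀ y ∈ P, h * y * h⁻¹ ∈ P := by
  intro y hy
  have h1 := P.mul_mem (hh.2.2 y hy).1 hy
  rwa [inv_mul_cancel_right] at h1

theorem gm_one (P F : Subgroup X) : Gm P F 1 := by
  refine ⟨F.one_mem, fun x hx => by simpa using hx, fun y _ => ?_⟩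
  have h1 : (1 : X) * y * 1⁻¹ * y⁻¹ = 1 := by group
  rw [h1]
  exact (P ⊓ F).one_mem

theorem gm_mul {P F : Subgroup X} {h k : X} (hh : Gm P F h) (hk : Gm P F k) :
    Gm P F (h * k) := by
  refine ⟨F.mul_mem hh.1 hk.1, fun x hx => ?_, fun y hy => ?_⟩
  · have h1 := hh.2.1 _ (hk.2.1 x hx)
    have h2 : h * k * x * (h * k)⁻¹ = h * (k * x * k⁻¹) * h⁻¹ := by group
    rw [h2]
    exact h1
  · have h1 := hh.2.1 _ (hk.2.2 y hy)
    have h2 := hh.2.2 y hy
    have h3 : h * k * y * (h * k)⁻¹ * y⁻¹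
        = (h * (k * y * k⁻¹ * y⁻¹) * h⁻¹) * (h * y * h⁻¹ * y⁻¹) := by group
    rw [h3]
    exact (P ⊓ F).mul_mem h1 h2

end FEG

open FEG in
theorem specFEG (hFUA : SpecFUA) (hWTP : SpecWTP) (hCNQ : SpecCNQ) : SpecFEG := by
  intro p hp X _ _ P F hF hP hFP hcomm hlt
  have hN : ∀ y ∈ P, ∀ z ∈ P ⊓ F, y * z * y⁻¹ ∈ P ⊓ F := fun y hy z hz =>
    ⟨P.mul_mem (P.mul_mem hy hz.1) (P.inv_mem hy), hF.conj_mem z hz.2 y⟩
  -- elementary fusion
  have key : ∀ u v : X, FE p P u v → ∃ h, Gm P F h ∧ Fq p P (h * u * h⁻¹) v := by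
    rintro u v ⟨x, g, hux, hgv⟩
    have hx : x ∈ P := hux.2.1
    have hg : g * x * g⁻¹ ∈ P := hgv.1
    obtain ⟨n, hn, hnx⟩ := hFUA p hp P F hP hFP hcomm x hx g hg
    have hnm : n ∈ P ⊔ F := by rw [sup_comm, hFP]; exact Subgroup.mem_top n
    obtain ⟨y, hy, h₀, hh₀, hyh⟩ := Subgroup.mem_sup_of_normal_right.1 hnm
    have e0 : h₀ = y⁻¹ * n := by rw [← hyh]; group
    have hh₀Q : ∀ z ∈ P ⊓ F, h₀ * z * h₀⁻¹ ∈ P ⊓ F := by
      intro z hz
      have h1 := hN y⁻¹ (P.inv_mem hy) _ (hn z hz)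
      have h2 : h₀ * z * h₀⁻¹ = y⁻¹ * (n * z * n⁻¹) * y⁻¹⁻¹ := by rw [e0]; group
      rw [h2]
      exact h1
    have e1 : h₀ * x * h₀⁻¹ = y⁻¹ * (g * x * g⁻¹) * y⁻¹⁻¹ := by rw [← hnx, e0]; group
    have hq1 : Fq p P (h₀ * x * h₀⁻¹) (g * x * g⁻¹) := by
      rw [e1]
      exact fq_conj (P.inv_mem hy) hg
    obtain ⟨c, hc, hcQ, hcP⟩ := hWTP p hp P F hP hcomm hlt h₀ hh₀ hh₀Q
    have hGm : Gm P F (h₀ * c) := by
      refine ⟨F.mul_mem hh₀ hc, fun z hz => ?_, hcP⟩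
      have h2 : h₀ * c * z * (h₀ * c)⁻¹ = h₀ * (c * z * c⁻¹) * h₀⁻¹ := by group
      rw [h2, hcQ z hz]
      exact hh₀Q z hz
    have hnorm := gm_norm hGm
    have hcx : c⁻¹ * x * c⁻¹⁻¹ ∈ P := by
      have h1 := norm_inv hnorm _ hq1.1
      have h2 : (h₀ * c)⁻¹ * (h₀ * x * h₀⁻¹) * (h₀ * c) = c⁻¹ * x * c⁻¹⁻¹ := by group
      rwa [h2] at h1
    have hcQ' : ∀ z ∈ P ⊓ F, c⁻¹ * z * c⁻¹⁻¹ = z := by
      intro z hz
      have h1 := hcQ z hz
      calc c⁻¹ * z * c⁻¹⁻¹ = c⁻¹ * (c * z * c⁻¹) * c := by rw [h1, inv_inv]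
        _ = z := by group
    obtain ⟨z, hz, hzx⟩ := (hCNQ p hp P F hP hcomm c⁻¹ (F.inv_mem hc) hcQ').1 x hx hcx
    have hq2 : Fq p P (c⁻¹ * x * c⁻¹⁻¹) u := by
      rw [hzx]
      exact fq_trans (fq_conj hz.1 hx) (fq_symm hux)
    have hq3 := fq_norm hnorm hq2
    have e2 : h₀ * c * (c⁻¹ * x * c⁻¹⁻¹) * (h₀ * c)⁻¹ = h₀ * x * h₀⁻¹ := by group
    rw [e2] at hq3
    exact ⟨h₀ * c, hGm, fq_trans (fq_symm hq3) (fq_trans hq1 hgv)⟩
  intro u hu v huv
  have key2 : ∃ h, Gm P F h ∧ Fq p P (h * u * h⁻¹) v := by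
    induction huv with
    | refl =>
      refine ⟨1, gm_one P F, ?_⟩
      have h1 : (1 : X) * u * 1⁻¹ = u := by group
      rw [h1]
      exact fq_refl hu
    | tail _ h2 ih =>
      obtain ⟨h, hh, hq⟩ := ih
      obtain ⟨k, hk, hq'⟩ := key _ _ h2
      refine ⟨k * h, gm_mul hk hh, ?_⟩
      have h3 := fq_norm (gm_norm hk) hq
      have h4 : k * h * u * (k * h)⁻¹ = k * (h * u * h⁻¹) * k⁻¹ := by group
      rw [h4]
      exact fq_trans h3 hq'
  obtain ⟨h, ⟨h1, h2, h3⟩, h4⟩ := key2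
  exact ⟨h, h1, h2, h3, h4⟩

end Pool.Agent.Lib.MP_1aae89_al.W4
end

section
/-!
# Module FRL: facts on `Fq`, `RelF`
-/
set_option autoImplicit false

namespace Pool.Agent.Lib.MP_1aae89_al.W4

open Pool.Agent.Lib.MP_1aae89_al Pool.Agent.Lib.MP_1aae89_al.BF Pool.Agent.Lib.MP_1aae89_al.W3
open Pool.Agent.Lib.MP1aae89 (Pex)

namespace FRL

variable {X : Type} [Group X] {p : ℕ} {P : Subgroup X}

theorem rfl' {u : X} (hu : u ∈ P) : Fq p P u u := ⟨hu, hu, fun _ _ => rfl⟩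

theorem symm {u v : X} (h : Fq p P u v) : Fq p P v u := by
  obtain ⟨hu, hv, h⟩ := h
  exact ⟨hv, hu, fun α hα => (h α hα).symm⟩

theorem trans {u v z : X} (h : Fq p P u v) (h' : Fq p P v z) : Fq p P u z := by
  obtain ⟨hu, hv, h⟩ := h
  obtain ⟨hv', hz, h'⟩ := h'
  exact ⟨hu, hz, fun α hα => (h α hα).trans (h' α hα)⟩

theorem pow {u v : X} (k : ℕ) (h : Fq p P u v) : Fq p P (u ^ k) (v ^ k) := by
  obtain ⟨hu, hv, h⟩ := h
  refine ⟨P.pow_mem hu k, P.pow_mem hv k, fun α hα => ?_⟩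
  have e1 : (⟨u ^ k, P.pow_mem hu k⟩ : P) = (⟨u, hu⟩ : P) ^ k := rfl
  have e2 : (⟨v ^ k, P.pow_mem hv k⟩ : P) = (⟨v, hv⟩ : P) ^ k := rfl
  rw [e1, e2, map_pow, map_pow, h α hα]

theorem fe_symm {u v : X} (h : FE p P u v) : FE p P v u := by
  obtain ⟨x, g, h1, h2⟩ := h
  refine ⟨g * x * g⁻¹, g⁻¹, symm h2, ?_⟩
  have e : g⁻¹ * (g * x * g⁻¹) * g⁻¹⁻¹ = x := by group
  rw [e]
  exact symm h1

theorem fe_pow {u v : X} (k : ℕ) (h : FE p P u v) : FE p P (u ^ k) (v ^ k) := by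
  obtain ⟨x, g, h1, h2⟩ := h
  refine ⟨x ^ k, g, pow k h1, ?_⟩
  rw [← conj_pow]
  exact pow k h2

theorem fe_mem {u v : X} (h : FE p P u v) : v ∈ P := by
  obtain ⟨x, g, -, hx, hv, -⟩ := h
  exact hv

theorem rel_of_fq {u v : X} (h : Fq p P u v) : RelF p P u v := by
  refine Relation.ReflTransGen.single ⟨u, 1, ?_, ?_⟩
  · obtain ⟨hu, -, -⟩ := h
    exact rfl' hu
  · rw [one_mul, inv_one, mul_one]
    exact h

theorem rel_conj {u g : X} (hu : u ∈ P) (hg : g * u * g⁻¹ ∈ P) : RelF p P u (g * u * g⁻¹) :=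
  Relation.ReflTransGen.single ⟨u, g, rfl' hu, rfl' hg⟩

theorem rel_symm {u v : X} (h : RelF p P u v) : RelF p P v u := by
  induction h with
  | refl => exact Relation.ReflTransGen.refl
  | tail _ h2 ih => exact (Relation.ReflTransGen.single (fe_symm h2)).trans ih

theorem rel_pow {u v : X} (k : ℕ) (h : RelF p P u v) : RelF p P (u ^ k) (v ^ k) := by
  induction h with
  | refl => exact Relation.ReflTransGen.refl
  | tail _ h2 ih => exact ih.tail (fe_pow k h2)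

theorem rel_mem {u v : X} (hu : u ∈ P) (h : RelF p P u v) : v ∈ P := by
  induction h with
  | refl => exact hu
  | tail _ h2 _ => exact fe_mem h2

end FRL

theorem specFRL : SpecFRL := by
  intro p X _ P
  exact ⟨fun u hu => FRL.rfl' hu, fun u v h => FRL.symm h, fun u v z h h' => FRL.trans h h',
    fun u v k h => FRL.pow k h, fun u v h => FRL.rel_of_fq h,
    fun u g hu hg => FRL.rel_conj hu hg, fun u v h => FRL.rel_symm h,
    fun u v k h => FRL.rel_pow k h, fun u v hu h => FRL.rel_mem hu h⟩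

end Pool.Agent.Lib.MP_1aae89_al.W4
end

section
/-!
# CFC: the criterion `CrtF` if the automizer of `P ∩ F` in `F` has order less than `p`
-/
set_option autoImplicit false

namespace Pool.Agent.Lib.MP_1aae89_al.W4

open Pool.Agent.Lib.MP_1aae89_al Pool.Agent.Lib.MP_1aae89_al.BF Pool.Agent.Lib.MP_1aae89_al.W3 Finset
open Pool.Agent.Lib.MP_1aae89_al.W (GC LD nR)
open Pool.Agent.Lib.MP1aae89 (Pex)

namespace CFC

/-- the Frattini subgroup, as a set -/
def Ph (p : ℕ) (P : Type) [Group P] : Set P := {x | ∀ α : Lin P, α ^ p = 1 → α x = 1}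

theorem card_Ph (p : ℕ) {P : Type} [Group P] [Finite P] :
    Nat.card {α : Lin P // α ^ p = 1} * Nat.card (Ph p P) = Nat.card P := by
  classical
  have : Fintype P := Fintype.ofFinite P
  have hmem : ∀ α : Lin P, α ∈ AF p P ↔ α ^ p = 1 := fun α => by simp [AF]
  have h1 : Nat.card {α : Lin P // α ^ p = 1} = (AF p P).card := by
    rw [Nat.card_eq_fintype_card, Fintype.card_subtype]
    congr 1
    ext α
    rw [hmem, Finset.mem_filter]
    exact ⟨fun h => h.2, fun h => ⟨Finset.mem_univ _, h⟩⟩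
  have h2 : ∑ x : P, ∑ α ∈ AF p P, ((α x : ℂˣ) : ℂ) =
      (Nat.card (Ph p P) : ℂ) * ((AF p P).card : ℂ) := by
    have h5 : ∀ x : P, ∑ α ∈ AF p P, ((α x : ℂˣ) : ℂ) =
        if x ∈ Ph p P then ((AF p P).card : ℂ) else 0 := by
      intro x
      rw [specDUF]
      by_cases hx : x ∈ Ph p P
      · rw [if_pos hx, if_pos fun α hα => hx α ((hmem α).1 hα)]
      · rw [if_neg hx, if_neg fun h => hx fun α hα => h α ((hmem α).2 hα)]
    rw [Finset.sum_congr rfl fun x _ => h5 x, ← Finset.sum_filter, Finset.sum_const,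
      nsmul_eq_mul]
    congr 2
    rw [Nat.card_eq_fintype_card, Fintype.card_subtype]
  have h3 : ∑ x : P, ∑ α ∈ AF p P, ((α x : ℂˣ) : ℂ) = (Nat.card P : ℂ) := by
    rw [Finset.sum_comm, Finset.sum_eq_single (1 : Lin P)]
    · rw [Finset.sum_congr rfl (g := fun _ => (1 : ℂ)) fun x _ => ?_]
      · simp
      · rw [Lin.one_apply, Units.val_one]
    · intro α _ hα
      have h4 : (Units.coeHom ℂ).comp (α : P →* ℂˣ) ≠ 1 := by
        intro h
        apply hα
        apply Lin.ext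
        intro x
        apply Units.ext
        exact DFunLike.congr_fun h x
      exact sum_hom_units_eq_zero ((Units.coeHom ℂ).comp (α : P →* ℂˣ)) h4
    · intro h
      exact absurd ((hmem 1).2 (one_pow _)) h
  rw [h1, mul_comm]
  have h4 := h2.symm.trans h3
  exact_mod_cast h4

variable {X : Type} [Group X]

/-- representatives of the classes of `RelF` -/
theorem exists_reps [Finite X] (p : ℕ) (P : Subgroup X) :
    ∃ A : Finset X, (∀ u ∈ A, u ∈ P) ∧ (∀ u ∈ A, ∀ v ∈ A, RelF p P u v → u = v) ∧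
      ∀ u ∈ P, ∃ a ∈ A, RelF p P a u := by
  classical
  let S : Setoid P :=
    { r := fun u v => RelF p P u v
      iseqv := ⟨fun u => Relation.ReflTransGen.refl, fun {u v} h => FRL.rel_symm h,
        fun {u v z} h h' => h.trans h'⟩ }
  have : Fintype P := Fintype.ofFinite P
  refine ⟨Finset.univ.image fun u : P => ((Quotient.out (Quotient.mk S u) : P) : X), ?_, ?_, ?_⟩
  · intro u hu
    obtain ⟨v, -, rfl⟩ := Finset.mem_image.1 hu
    exact Subtype.property _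
  · intro u hu v hv h
    obtain ⟨u', -, rfl⟩ := Finset.mem_image.1 hu
    obtain ⟨v', -, rfl⟩ := Finset.mem_image.1 hv
    have h4 : Quotient.mk S (Quotient.out (Quotient.mk S u')) =
        Quotient.mk S (Quotient.out (Quotient.mk S v')) := Quotient.sound h
    rw [Quotient.out_eq, Quotient.out_eq] at h4
    rw [h4]
  · intro u hu
    refine ⟨_, Finset.mem_image.2 ⟨⟨u, hu⟩, Finset.mem_univ _, rfl⟩, ?_⟩
    exact Quotient.exact (Quotient.out_eq (Quotient.mk S ⟨u, hu⟩))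

end CFC

open Pool.Agent.Lib.MP_1aae89_al.W4.CFC FEG in
theorem specCFC (hFEG : SpecFEG) (hCNQ : SpecCNQ) : SpecCFC := by
  classical
  intro p hp X _ _ P F hF hP htop hab hlt
  obtain ⟨A, hA, hA2, hrep⟩ := exists_reps p P
  refine ⟨A, hA, hA2, ?_⟩
  set Q : Subgroup X := P ⊓ F with hQ
  have hSg : Nat.card (W3.CRC.Sg Q F) < p :=
    lt_of_mul_lt_mul_right (lt_of_le_of_lt (W3.CRC.card_Sg Q F) hlt) (Nat.zero_le _)
  -- a chosen element of `Γ` for each conjugation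
  have hex : ∀ f : W3.CRC.Sg Q F, ∃ h : X, Gm P F h ∧
      ((∃ h', Gm P F h' ∧ f.1 = W3.CRC.cj Q h') → f.1 = W3.CRC.cj Q h) := by
    intro f
    by_cases h1 : ∃ h', Gm P F h' ∧ f.1 = W3.CRC.cj Q h'
    · obtain ⟨h', h2, h3⟩ := h1
      exact ⟨h', h2, fun _ => h3⟩
    · exact ⟨1, gm_one P F, fun h2 => absurd h2 h1⟩
  choose H hH1 hH2 using hex
  have key : ∀ u : P, ∃ (a : A) (f : W3.CRC.Sg Q F), Fq p P (H f * a.1 * (H f)⁻¹) u := by
    intro u
    obtain ⟨a, ha, hau⟩ := hrep u u.2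
    obtain ⟨h, hhF, hhQ, hhP, hfq⟩ := hFEG p hp P F hP htop hab hlt a (hA a ha) u hau
    have hG : Gm P F h := ⟨hhF, hhQ, hhP⟩
    let f : W3.CRC.Sg Q F := ⟨W3.CRC.cj Q h, h, hhF, hhQ, rfl⟩
    refine ⟨⟨a, ha⟩, f, ?_⟩
    have h1 : W3.CRC.cj Q h = W3.CRC.cj Q (H f) := hH2 f ⟨h, hG, rfl⟩
    have h2 : ∀ x ∈ Q, h * x * h⁻¹ = H f * x * (H f)⁻¹ := fun x hx => congrFun h1 ⟨x, hx⟩
    have hn := gm_norm (hH1 f)
    have hn' := norm_inv hn
    have hnh := gm_norm hG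
    obtain ⟨-, h4⟩ := hCNQ p hp P F hP hab ((H f)⁻¹ * h) (F.mul_mem (F.inv_mem (hH1 f).1) hhF)
      (fun x hx => by
        calc (H f)⁻¹ * h * x * ((H f)⁻¹ * h)⁻¹ = (H f)⁻¹ * (h * x * h⁻¹) * H f := by group
          _ = x := by rw [h2 x hx]; group)
    obtain ⟨z, hz, h5⟩ := h4 (fun y hy => by
      have h6 := hn' _ (hnh y hy)
      have h7 : (H f)⁻¹ * h * y * ((H f)⁻¹ * h)⁻¹ = (H f)⁻¹ * (h * y * h⁻¹) * H f := by group
      rw [h7]
      exact h6)
    have h6 := h5 a (hA a ha)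
    have h7 : h * a * h⁻¹ = H f * (z * a * z⁻¹) * (H f)⁻¹ := by
      rw [← h6]
      group
    have h8 : Fq p P (H f * (z * a * z⁻¹) * (H f)⁻¹) (H f * a * (H f)⁻¹) :=
      fq_norm hn (fq_conj hz.1 (hA a ha))
    rw [← h7] at h8
    exact fq_trans (fq_symm h8) hfq
  choose a f hfq using key
  have hnum : Nat.card P ≤ Nat.card (A × W3.CRC.Sg Q F × Ph p P) := by
    refine Nat.card_le_card_of_injective (fun u => (a u, f u,
      ⟨(⟨_, (hfq u).1⟩ : P)⁻¹ * u, fun α hα => ?_⟩)) ?_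
    · have h1 := (hfq u).2.2 α hα
      rw [map_mul, map_inv, h1]
      exact inv_mul_cancel _
    · intro u v huv
      have h1 : a u = a v := congrArg Prod.fst huv
      have h2 : f u = f v := congrArg (fun q => q.2.1) huv
      have h3 : (⟨_, (hfq u).1⟩ : P)⁻¹ * u = (⟨_, (hfq v).1⟩ : P)⁻¹ * v :=
        congrArg (fun q => (q.2.2 : P)) huv
      have h4 : (⟨_, (hfq u).1⟩ : P) = ⟨_, (hfq v).1⟩ := by
        apply Subtype.ext
        show H (f u) * (a u).1 * (H (f u))⁻¹ = H (f v) * (a v).1 * (H (f v))⁻¹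
        rw [h1, h2]
      rw [h4] at h3
      exact mul_left_cancel h3
  rw [Nat.card_prod, Nat.card_prod, ← card_Ph p (P := P), Nat.card_eq_fintype_card (α := A),
    Fintype.card_coe, ← mul_assoc] at hnum
  have hPh : 0 < Nat.card (Ph p P) := by
    have : Nonempty (Ph p P) := ⟨⟨1, fun α _ => map_one α⟩⟩
    exact Nat.card_pos
  have h1 : nF p P ≤ A.card * Nat.card (W3.CRC.Sg Q F) := le_of_mul_le_mul_right hnum hPh
  have hA0 : 0 < A.card := by
    obtain ⟨a, ha, -⟩ := hrep 1 P.one_mem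
    exact Finset.card_pos.2 ⟨a, ha⟩
  exact lt_of_le_of_lt h1 (mul_lt_mul_of_pos_left hSg hA0)

end Pool.Agent.Lib.MP_1aae89_al.W4
end

section
/-!
# CHG: the chain, for good factors
-/
set_option autoImplicit false

namespace Pool.Agent.Lib.MP_1aae89_al.W4

open Pool.Agent.Lib.MP_1aae89_al Pool.Agent.Lib.MP_1aae89_al.BF Pool.Agent.Lib.MP_1aae89_al.W3 Finset

theorem specCHG (hBAS : SpecBAS) (hSTG : SpecSTG) (hISO : SpecISO) : SpecCHG := by
  intro p b hp hb M _ _ P hP m K hle hnorm hPn hm h0 hst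
  have key : ∀ i ≤ m, ∀ b' : ℕ, b ≤ b' → IC p b' ↥(K i ⊔ P) := by
    intro i
    induction i with
    | zero =>
      intro _
      exact hBAS p b hp hb P hP (K 0) (hPn 0 (Nat.zero_le m)) h0
    | succ i ih =>
      intro hi
      exact hSTG p b hp hb P hP (K i) (K (i + 1)) (hle i (by omega)) (hnorm i (by omega))
        (hPn i (by omega)) (hPn (i + 1) hi) (hst i (by omega)) (ih (by omega))
  have h1 := key m le_rfl b le_rfl
  have h2 : (K m ⊔ P : Subgroup M) = ⊤ := by rw [hm]; exact top_sup_eq P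
  have e : ↥(K m ⊔ P : Subgroup M) ≃* M :=
    (MulEquiv.subgroupCongr h2).trans Subgroup.topEquiv
  exact (hISO p b e).1 h1

end Pool.Agent.Lib.MP_1aae89_al.W4
end

section
/-!
# Module CJF: complex conjugation
-/
set_option autoImplicit false

namespace Pool.Agent.Lib.MP_1aae89_al.W4

open Pool.Agent.Lib.MP_1aae89_al Pool.Agent.Lib.MP_1aae89_al.BF Pool.Agent.Lib.MP_1aae89_al.W3 Finset
open Pool.Agent.Lib.MP1aae89 (Pex)

theorem specCJF : SpecCJF := by
  intro p L s0 b X _ _ P χ K h y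
  have hp := h.pp
  have : Fintype X := Fintype.ofFinite X
  have hK : ∀ z : X, ((K z : ℂˣ) : ℂ) ^ p = 1 := by
    intro z
    have h1 : (K ^ p) z = 1 := by rw [h.kp]; rfl
    have h2 : (K z) ^ p = 1 := h1
    rw [← Units.val_pow_eq_pow_val, h2, Units.val_one]
  have hconj : (starRingEnd ℂ) ((K y : ℂˣ) : ℂ) = ((K y⁻¹ : ℂˣ) : ℂ) := by
    rw [← Complex.inv_eq_conj (Complex.norm_eq_one_of_pow_eq_one (hK y) hp.ne_zero), map_inv,
      Units.val_inv_eq_inv_val]
  unfold avK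
  rw [map_mul, map_inv₀, map_natCast, map_sum]
  congr 1
  refine Finset.sum_congr rfl fun i _ => ?_
  rw [map_mul, map_pow, ← W.are_conj h.char, ← inv_pow]
  congr 2
  rw [Units.val_inv_eq_inv_val, Units.val_inv_eq_inv_val, map_inv₀, hconj]

end Pool.Agent.Lib.MP_1aae89_al.W4
end

section
/-!
# CJG: the criterion for a conjugate subgroup
-/
set_option autoImplicit false

namespace Pool.Agent.Lib.MP_1aae89_al.W4

open Pool.Agent.Lib.MP_1aae89_al Pool.Agent.Lib.MP_1aae89_al.BF Pool.Agent.Lib.MP_1aae89_al.W3 Finset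

theorem specCJG (hCRF : SpecCRF) : SpecCJG := by
  intro p X _ _ P P' g hP hC
  have h0 : P'.map (MulAut.conj g⁻¹).toMonoidHom = P := by
    ext x
    constructor
    · rintro ⟨y, hy, rfl⟩
      have h1 := (hP y).1 hy
      simpa using h1
    · intro hx
      refine ⟨g * x * g⁻¹, (hP _).2 ?_, ?_⟩
      · have : g⁻¹ * (g * x * g⁻¹) * g = x := by group
        rw [this]; exact hx
      · simp [mul_assoc]
  refine hCRF p (MulAut.conj g⁻¹).toMonoidHom P' ?_ (by rw [h0]; exact hC)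
  intro x _ hx
  have h1 : (MulAut.conj g⁻¹) x = 1 := hx
  exact (map_eq_one_iff _ (MulAut.conj g⁻¹).injective).1 h1

end Pool.Agent.Lib.MP_1aae89_al.W4
end

section
/-!
# W4, module CNQ: elements of `C_F(Q)` do not fuse
-/
set_option autoImplicit false

namespace Pool.Agent.Lib.MP_1aae89_al.W4

open Pool.Agent.Lib.MP_1aae89_al Pool.Agent.Lib.MP_1aae89_al.BF Pool.Agent.Lib.MP_1aae89_al.W3 Finset
open Pool.Agent.Lib.MP_1aae89_al.W (GC LD nR)
open Pool.Agent.Lib.MP1aae89 (Pex)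

namespace CNQ

theorem card_mul {X : Type} [Group X] [Finite X] (P F : Subgroup X) [F.Normal] :
    Nat.card ↥(F ⊔ P) * Nat.card ↥(P ⊓ F) = Nat.card F * Nat.card P := by
  have h1 : F.relIndex (F ⊔ P) = F.relIndex P := Subgroup.relIndex_sup_left P F
  have h2 : Nat.card F * F.relIndex (F ⊔ P) = Nat.card ↥(F ⊔ P) := by
    have := Subgroup.relIndex_mul_relIndex (⊥ : Subgroup X) F (F ⊔ P) bot_le le_sup_left
    rwa [Subgroup.relIndex_bot_left, Subgroup.relIndex_bot_left] at this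
  have h3 : Nat.card ↥(P ⊓ F) * F.relIndex P = Nat.card P := by
    have := Subgroup.relIndex_mul_relIndex (⊥ : Subgroup X) (P ⊓ F) P bot_le inf_le_left
    rw [Subgroup.relIndex_bot_left, Subgroup.relIndex_bot_left, Subgroup.inf_relIndex_left] at this
    exact this
  rw [← h2, h1, ← h3]
  ring

theorem card_inf {p : ℕ} (hp : p.Prime) {X : Type} [Group X] [Finite X] (P F : Subgroup X)
    [F.Normal] (hP : Nat.card P = p ^ (Nat.card X).factorization p) :
    Nat.card ↥(P ⊓ F) = p ^ (Nat.card F).factorization p := by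
  have h1 : Nat.card ↥(P ⊓ F) ∣ p ^ (Nat.card X).factorization p :=
    hP ▸ Subgroup.card_dvd_of_le inf_le_left
  obtain ⟨j, _, hj⟩ := (Nat.dvd_prime_pow hp).1 h1
  have h2 : Nat.card ↥(P ⊓ F) ∣ Nat.card F := Subgroup.card_dvd_of_le inf_le_right
  have hF0 : Nat.card F ≠ 0 := Nat.card_pos.ne'
  have hX0 : Nat.card X ≠ 0 := Nat.card_pos.ne'
  have hS0 : Nat.card ↥(F ⊔ P) ≠ 0 := Nat.card_pos.ne'
  have hI0 : Nat.card ↥(P ⊓ F) ≠ 0 := Nat.card_pos.ne'
  have hP0 : Nat.card P ≠ 0 := Nat.card_pos.ne'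
  have h3 : j ≤ (Nat.card F).factorization p := by
    rw [hj] at h2
    exact (hp.pow_dvd_iff_le_factorization hF0).1 h2
  have h4 : (Nat.card ↥(F ⊔ P)).factorization p ≤ (Nat.card X).factorization p :=
    (Nat.factorization_le_iff_dvd hS0 hX0).2 (Subgroup.card_subgroup_dvd_card _) p
  have h5 := congrArg (fun n => n.factorization p) (card_mul P F)
  simp only [Nat.factorization_mul hS0 hI0, Nat.factorization_mul hF0 hP0, Finsupp.add_apply] at h5
  rw [hj, hP, Nat.Prime.factorization_pow hp, Nat.Prime.factorization_pow hp,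
    Finsupp.single_eq_same, Finsupp.single_eq_same] at h5
  have h6 : j = (Nat.card F).factorization p := by omega
  rw [hj, h6]

theorem one_of_orders {p : ℕ} (hp : p.Prime) {X : Type} [Group X] {w : X} {k : ℕ}
    (h1 : orderOf w ∣ p ^ k) (h2 : ¬ p ∣ orderOf w) : w = 1 := by
  obtain ⟨j, _, hj⟩ := (Nat.dvd_prime_pow hp).1 h1
  rcases Nat.eq_zero_or_pos j with h0 | h0
  · rw [h0, pow_zero] at hj
    exact orderOf_eq_one_iff.1 hj
  · exact absurd (hj ▸ dvd_pow_self p h0.ne') h2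

end CNQ

open CNQ in
theorem specCNQ : SpecCNQ := by
  classical
  intro p hp X _ _ P F _ hP hab c hcF hc
  haveI : Fact p.Prime := ⟨hp⟩
  -- the centralizer
  set Q : Subgroup X := P ⊓ F with hQ
  set C : Subgroup X := F ⊓ Subgroup.centralizer (Q : Set X) with hC
  have hmemC : ∀ x : X, x ∈ C ↔ x ∈ F ∧ ∀ q ∈ Q, q * x = x * q := by
    intro x
    rw [hC, Subgroup.mem_inf, Subgroup.mem_centralizer_iff]
    rfl
  have hQC : Q ≤ C := by
    intro x hx
    rw [hmemC]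
    exact ⟨(Subgroup.mem_inf.1 hx).2, fun q hq => hab q hq x hx⟩
  have hcC : c ∈ C := by
    rw [hmemC]
    refine ⟨hcF, fun q hq => ?_⟩
    have h := hc q hq
    calc q * c = (c * q * c⁻¹) * c := by rw [h]
      _ = c * q := by group
  have hF0 : Nat.card F ≠ 0 := Nat.card_pos.ne'
  have hC0 : Nat.card C ≠ 0 := Nat.card_pos.ne'
  have hQcard : Nat.card Q = p ^ (Nat.card C).factorization p := by
    have h1 := card_inf hp P F hP
    have h2 : (Nat.card C).factorization p ≤ (Nat.card F).factorization p :=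
      (Nat.factorization_le_iff_dvd hC0 hF0).2 (Subgroup.card_dvd_of_le inf_le_left) p
    have h3 : (Nat.card F).factorization p ≤ (Nat.card C).factorization p := by
      refine (hp.pow_dvd_iff_le_factorization hC0).1 ?_
      rw [← h1]
      exact Subgroup.card_dvd_of_le hQC
    rw [h1, le_antisymm h3 h2]
  have hQs : Nat.card (Q.subgroupOf C) = p ^ (Nat.card C).factorization p := by
    rw [← hQcard]
    exact Nat.card_congr (Subgroup.subgroupOfEquivOfLe hQC).toEquiv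
  let S : Sylow p C := Sylow.ofCard (Q.subgroupOf C) hQs
  have hS : (S : Subgroup C) = Q.subgroupOf C := rfl
  have hSmem : ∀ d : C, d ∈ S ↔ (d : X) ∈ Q := fun d => Iff.rfl
  have hcent : Subgroup.normalizer S ≤ Subgroup.centralizer (S : Set C) := by
    intro d _
    rw [Subgroup.mem_centralizer_iff]
    intro q hq
    apply Subtype.ext
    exact ((hmemC (d : X)).1 d.2).2 (q : X) ((hSmem q).1 hq)
  set f := MonoidHom.transferSylow S hcent with hf
  have hcomp := MonoidHom.ker_transferSylow_isComplement' S hcent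
  have hnd := MonoidHom.not_dvd_card_ker_transferSylow S hcent
  -- elements of order prime to `p` are in the kernel
  have hker : ∀ d : C, ¬ p ∣ orderOf d → d ∈ f.ker := by
    intro d hd
    rw [MonoidHom.mem_ker]
    have h1 : orderOf (f d) ∣ p ^ (Nat.card C).factorization p := by
      rw [← hQs]
      exact orderOf_dvd_natCard (f d)
    refine one_of_orders hp h1 fun h => hd (h.trans (orderOf_map_dvd f d))
  have hord : ∀ d : C, d ∈ f.ker → ¬ p ∣ orderOf d := by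
    intro d hd h
    apply hnd
    have h1 : orderOf (⟨d, hd⟩ : f.ker) ∣ Nat.card f.ker := orderOf_dvd_natCard _
    rw [Subgroup.orderOf_mk] at h1
    exact h.trans h1
  -- decomposition of `c`
  obtain ⟨⟨u, z⟩, huz, -⟩ := hcomp.existsUnique (⟨c, hcC⟩ : C)
  have huz' : ((u : C) : X) * ((z : C) : X) = c := by
    have := congrArg (Subtype.val) huz
    simpa using this
  set u' : X := ((u : C) : X) with hu'
  set z' : X := ((z : C) : X) with hz'
  have hzQ : z' ∈ Q := (hSmem (z : C)).1 z.2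
  have hzP : z' ∈ P := (Subgroup.mem_inf.1 hzQ).1
  have hcomm : z' * u' = u' * z' := ((hmemC u').1 (u : C).2).2 z' hzQ
  have key : ∀ x ∈ P, c * x * c⁻¹ ∈ P → c * x * c⁻¹ = z' * x * z'⁻¹ := by
    intro x hx hcx
    -- `u' x u'⁻¹ ∈ P`
    have h1 : u' * x * u'⁻¹ ∈ P := by
      have h2 : u' * x * u'⁻¹ = z'⁻¹ * (c * x * c⁻¹) * z' := by
        have h3 : z'⁻¹ * c = u' := by rw [← huz', ← hcomm]; group
        calc u' * x * u'⁻¹ = (z'⁻¹ * c) * x * (z'⁻¹ * c)⁻¹ := by rw [h3]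
          _ = z'⁻¹ * (c * x * c⁻¹) * z' := by group
      rw [h2]
      exact P.mul_mem (P.mul_mem (P.inv_mem hzP) hcx) hzP
    -- `x u'⁻¹ x⁻¹ ∈ C`
    have h4 : x * u'⁻¹ * x⁻¹ ∈ C := by
      have h5 : u'⁻¹ ∈ C := C.inv_mem (u : C).2
      rw [hmemC] at h5 ⊢
      refine ⟨‹F.Normal›.conj_mem _ h5.1 x, fun q hq => ?_⟩
      have h6 : x⁻¹ * q * x ∈ Q := by
        obtain ⟨hq1, hq2⟩ := Subgroup.mem_inf.1 hq
        refine Subgroup.mem_inf.2 ⟨P.mul_mem (P.mul_mem (P.inv_mem hx) hq1) hx, ?_⟩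
        have := ‹F.Normal›.conj_mem _ hq2 x⁻¹
        rwa [inv_inv] at this
      have h7 := h5.2 _ h6
      calc q * (x * u'⁻¹ * x⁻¹) = x * ((x⁻¹ * q * x) * u'⁻¹) * x⁻¹ := by group
        _ = x * (u'⁻¹ * (x⁻¹ * q * x)) * x⁻¹ := by rw [h7]
        _ = (x * u'⁻¹ * x⁻¹) * q := by group
    have h8 : (⟨x * u'⁻¹ * x⁻¹, h4⟩ : C) ∈ f.ker := by
      apply hker
      have h9 : orderOf (⟨x * u'⁻¹ * x⁻¹, h4⟩ : C) = orderOf (u : C) := by
        rw [Subgroup.orderOf_mk]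
        have h10 : orderOf (x * u'⁻¹ * x⁻¹) = orderOf (u'⁻¹) := by
          have := orderOf_injective (MulAut.conj x).toMonoidHom (MulAut.conj x).injective u'⁻¹
          simpa using this
        rw [h10, orderOf_inv, hu', Subgroup.orderOf_coe]
      rw [h9]
      exact hord _ u.2
    have h11 : (u : C) * ⟨x * u'⁻¹ * x⁻¹, h4⟩ ∈ f.ker := f.ker.mul_mem u.2 h8
    have h12 := hord _ h11
    have h13 : (((u : C) * ⟨x * u'⁻¹ * x⁻¹, h4⟩ : C) : X) = (u' * x * u'⁻¹) * x⁻¹ := by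
      show u' * (x * u'⁻¹ * x⁻¹) = _
      group
    have h14 : ¬ p ∣ orderOf ((u' * x * u'⁻¹) * x⁻¹) := by
      rw [← h13, Subgroup.orderOf_coe]
      exact h12
    have h15 : (u' * x * u'⁻¹) * x⁻¹ ∈ P := P.mul_mem h1 (P.inv_mem hx)
    have h16 : orderOf ((u' * x * u'⁻¹) * x⁻¹) ∣ p ^ (Nat.card X).factorization p := by
      rw [← hP]
      have := orderOf_dvd_natCard (⟨(u' * x * u'⁻¹) * x⁻¹, h15⟩ : P)
      rwa [Subgroup.orderOf_mk] at this
    have h17 : u' * x * u'⁻¹ = x := mul_inv_eq_one.1 (one_of_orders hp h16 h14)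
    calc c * x * c⁻¹ = (z' * u') * x * (z' * u')⁻¹ := by rw [hcomm, huz']
      _ = z' * (u' * x * u'⁻¹) * z'⁻¹ := by group
      _ = z' * x * z'⁻¹ := by rw [h17]
  exact ⟨fun x hx hcx => ⟨z', hzQ, key x hx hcx⟩, fun h => ⟨z', hzQ, fun y hy => key y hy (h y hy)⟩⟩

end Pool.Agent.Lib.MP_1aae89_al.W4
end

section
/-!
# COF: the core of the integrality
-/
set_option autoImplicit false

namespace Pool.Agent.Lib.MP_1aae89_al.W4

open Pool.Agent.Lib.MP_1aae89_al Pool.Agent.Lib.MP_1aae89_al.BF Pool.Agent.Lib.MP_1aae89_al.W3 Finset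
open Pool.Agent.Lib.MP_1aae89_al.W (GC LD nR)

namespace COFM

theorem mem_AF {p : ℕ} {P : Type} [Group P] [Finite P] {α : Lin P} :
    α ∈ AF p P ↔ α ^ p = 1 := by
  classical
  unfold AF
  rw [mem_filter]
  exact ⟨fun h => h.2, fun h => ⟨mem_univ _, h⟩⟩

open Classical in
/-- the case `Q = P` -/
theorem core (hDUF : SpecDUF) (hCF1 : SpecCF1) (hCF3 : SpecCF3) {p b : ℕ} (hp : p.Prime)
    (hb : 2 ≤ b) {P : Type} [Group P] [Fintype P] (e : ℕ) (hP : Nat.card P = p ^ e) (φ : P → ℂ)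
    (hφ : GC φ) (hφi : ∀ (t : ℕ) (w : P), φ (w ^ (1 + p ^ b * t)) = φ w) (k : Lin P)
    (hk : k ^ p = 1) (u : P) :
    IsIntegral ℤ (((AF p P).card : ℂ) * ((Fintype.card P : ℂ)⁻¹ * ∑ w : P,
      if (∀ α ∈ AF p P, α w = α u) then
        ((p : ℂ)⁻¹ * amg p b φ k w) * (starRingEnd ℂ) ((p : ℂ)⁻¹ * amg p b φ k w) else 0)) := by
  obtain ⟨c, hc, hsum⟩ := hCF3 p b hp hb e hP φ hφ hφi k hk u φ hφ
  have hp0 : (p : ℂ) ≠ 0 := Nat.cast_ne_zero.2 hp.ne_zero
  have hS : ∀ α ∈ AF p P, (Fintype.card P : ℂ)⁻¹ * ∑ w, ((α w : ℂˣ) : ℂ) *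
      (amg p b φ k w * (starRingEnd ℂ) (amg p b φ k w)) = p * ((Fintype.card P : ℂ)⁻¹ *
        ∑ w, ((α w : ℂˣ) : ℂ) * φ w * (starRingEnd ℂ) (amg p b φ k w)) := by
    intro α hα
    exact (hCF1 p b hp hb e hP φ hφ hφi k hk α (mem_AF.1 hα) _ rfl).2
  have hpt : ∀ w : P, ((AF p P).card : ℂ) * (if (∀ α ∈ AF p P, α w = α u) then
      ((p : ℂ)⁻¹ * amg p b φ k w) * (starRingEnd ℂ) ((p : ℂ)⁻¹ * amg p b φ k w) else 0) =
      (p : ℂ)⁻¹ * (p : ℂ)⁻¹ * ∑ α ∈ AF p P, (((α u)⁻¹ : ℂˣ) : ℂ) * (((α w : ℂˣ) : ℂ) *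
        (amg p b φ k w * (starRingEnd ℂ) (amg p b φ k w))) := by
    intro w
    have h1 := hDUF p (u⁻¹ * w)
    have h2 : ∑ α ∈ AF p P, (((α u)⁻¹ : ℂˣ) : ℂ) * (((α w : ℂˣ) : ℂ) *
        (amg p b φ k w * (starRingEnd ℂ) (amg p b φ k w))) =
        (∑ α ∈ AF p P, ((α (u⁻¹ * w) : ℂˣ) : ℂ)) *
          (amg p b φ k w * (starRingEnd ℂ) (amg p b φ k w)) := by
      rw [sum_mul]
      refine sum_congr rfl fun α _ => ?_
      rw [map_mul, map_inv, Units.val_mul]
      ring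
    rw [h2, h1]
    have h3 : (∀ α ∈ AF p P, α w = α u) ↔ (∀ α ∈ AF p P, α (u⁻¹ * w) = 1) := by
      refine forall₂_congr fun α _ => ?_
      rw [map_mul, map_inv, inv_mul_eq_one]
      exact eq_comm
    by_cases h4 : ∀ α ∈ AF p P, α w = α u
    · rw [if_pos h4, if_pos (h3.1 h4), map_mul, map_inv₀, map_natCast]
      ring
    · rw [if_neg h4, if_neg (fun h => h4 (h3.2 h)), mul_zero, zero_mul, mul_zero]
  have hfin : ((AF p P).card : ℂ) * ((Fintype.card P : ℂ)⁻¹ * ∑ w : P,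
      if (∀ α ∈ AF p P, α w = α u) then
        ((p : ℂ)⁻¹ * amg p b φ k w) * (starRingEnd ℂ) ((p : ℂ)⁻¹ * amg p b φ k w) else 0) = c := by
    rw [mul_left_comm, mul_sum, sum_congr rfl (fun w _ => hpt w), ← mul_sum, sum_comm]
    have h5 : ∀ α ∈ AF p P, ∑ w, (((α u)⁻¹ : ℂˣ) : ℂ) * (((α w : ℂˣ) : ℂ) *
        (amg p b φ k w * (starRingEnd ℂ) (amg p b φ k w))) = (Fintype.card P : ℂ) *
        (p * ((((α u)⁻¹ : ℂˣ) : ℂ) * ((Fintype.card P : ℂ)⁻¹ *
        ∑ w, ((α w : ℂˣ) : ℂ) * φ w * (starRingEnd ℂ) (amg p b φ k w)))) := by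
      intro α hα
      have h6 : (Fintype.card P : ℂ) ≠ 0 := Nat.cast_ne_zero.2 Fintype.card_ne_zero
      rw [← mul_sum, mul_left_comm (p : ℂ), ← hS α hα, mul_left_comm (Fintype.card P : ℂ),
        mul_inv_cancel_left₀ h6]
    rw [sum_congr rfl h5, ← mul_sum, ← mul_sum, hsum]
    have h6 : (Fintype.card P : ℂ) ≠ 0 := Nat.cast_ne_zero.2 Fintype.card_ne_zero
    field_simp
  rw [hfin]
  exact hc

end COFM

open COFM in
theorem specCOF (hDUF : SpecDUF) (hCF1 : SpecCF1) (hCF2 : SpecCF2) (hCF3 : SpecCF3) :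
    SpecCOF := by
  classical
  intro p b hp hb P _ _ e hP Q _ φ hφ hφi k hk u
  by_cases hQ : Q ≠ ⊤
  · exact hCF2 p b hp hb e hP Q hQ φ hφ hφi k hk u
  have hQ' : Q = ⊤ := not_not.1 hQ
  subst hQ'
  obtain ⟨gadd, gmul, gsmul, gcon, gsum, gcomp, gint, gavg⟩ := W.specGCA2 W.specGCA1
  have hGC : GC fun x : P => φ ⟨x, Subgroup.mem_top x⟩ :=
    gcomp (Subgroup.topEquiv.symm : P ≃* (⊤ : Subgroup P)).toMonoidHom φ hφ
  have hinv : ∀ (t : ℕ) (w : P), (fun x : P => φ ⟨x, Subgroup.mem_top x⟩) (w ^ (1 + p ^ b * t)) =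
      (fun x : P => φ ⟨x, Subgroup.mem_top x⟩) w :=
    fun t w => hφi t ⟨w, Subgroup.mem_top w⟩
  have h1 := core hDUF hCF1 hCF3 hp hb e hP (fun x : P => φ ⟨x, Subgroup.mem_top x⟩) hGC hinv k hk u
  have hcard : Fintype.card (⊤ : Subgroup P) = Fintype.card P :=
    Fintype.card_congr Subgroup.topEquiv.toEquiv
  have hsum : (∑ w : (⊤ : Subgroup P), if (∀ α ∈ AF p P, α (w : P) = α u) then
      ((p : ℂ)⁻¹ * amg p b φ (resL ⊤ k) w) * (starRingEnd ℂ) ((p : ℂ)⁻¹ * amg p b φ (resL ⊤ k) w)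
        else 0) = ∑ w : P, if (∀ α ∈ AF p P, α w = α u) then
        ((p : ℂ)⁻¹ * amg p b (fun x : P => φ ⟨x, Subgroup.mem_top x⟩) k w) *
          (starRingEnd ℂ) ((p : ℂ)⁻¹ * amg p b (fun x : P => φ ⟨x, Subgroup.mem_top x⟩) k w)
            else 0 :=
    Fintype.sum_equiv Subgroup.topEquiv.toEquiv _ _ fun w => rfl
  rw [hcard, hsum]
  exact h1

end Pool.Agent.Lib.MP_1aae89_al.W4
end

section
/-!
# Module CRF: lifting the criterion `CrtF` along a homomorphism which is injective on `P`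
-/
set_option autoImplicit false

namespace Pool.Agent.Lib.MP_1aae89_al.W4

open Pool.Agent.Lib.MP_1aae89_al Pool.Agent.Lib.MP_1aae89_al.BF Pool.Agent.Lib.MP_1aae89_al.W3 Finset

namespace CRF

variable {X Y : Type} [Group X] [Group Y]

/-- the isomorphism of `P` onto `f(P)` -/
noncomputable def iso (f : Y →* X) (P : Subgroup Y) (hinj : ∀ x ∈ P, f x = 1 → x = 1) :
    P ≃* P.map f :=
  MulEquiv.ofBijective (f.subgroupMap P) ⟨by
    rw [injective_iff_map_eq_one]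
    rintro ⟨x, hx⟩ h
    have h1 : f x = 1 := congrArg Subtype.val h
    exact Subtype.ext (hinj x hx h1), f.subgroupMap_surjective P⟩

theorem iso_apply (f : Y →* X) (P : Subgroup Y) (hinj : ∀ x ∈ P, f x = 1 → x = 1) (x : P) :
    ((iso f P hinj x : P.map f) : X) = f x := rfl

theorem nF_map (p : ℕ) (f : Y →* X) (P : Subgroup Y) (hinj : ∀ x ∈ P, f x = 1 → x = 1) :
    nF p (P.map f) = nF p P := by
  unfold nF
  refine Nat.card_congr
    { toFun := fun α => ⟨α.1.comp (iso f P hinj).toMonoidHom, ?_⟩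
      invFun := fun β => ⟨β.1.comp (iso f P hinj).symm.toMonoidHom, ?_⟩
      left_inv := ?_
      right_inv := ?_ }
  · refine MonoidHom.ext fun x => ?_
    exact DFunLike.congr_fun α.2 (iso f P hinj x)
  · refine MonoidHom.ext fun x => ?_
    exact DFunLike.congr_fun β.2 ((iso f P hinj).symm x)
  · rintro ⟨α, hα⟩
    refine Subtype.ext (MonoidHom.ext fun x => ?_)
    simp
  · rintro ⟨β, hβ⟩
    refine Subtype.ext (MonoidHom.ext fun x => ?_)
    simp

theorem fq_map (p : ℕ) (f : Y →* X) (P : Subgroup Y) {u v : Y} (h : Fq p P u v) :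
    Fq p (P.map f) (f u) (f v) := by
  obtain ⟨hu, hv, h⟩ := h
  refine ⟨Subgroup.mem_map_of_mem f hu, Subgroup.mem_map_of_mem f hv, fun α hα => ?_⟩
  have h1 := h (α.comp (f.subgroupMap P)) (MonoidHom.ext fun x =>
    DFunLike.congr_fun hα (f.subgroupMap P x))
  exact h1

theorem fe_map (p : ℕ) (f : Y →* X) (P : Subgroup Y) {u v : Y} (h : FE p P u v) :
    FE p (P.map f) (f u) (f v) := by
  obtain ⟨x, g, h1, h2⟩ := h
  refine ⟨f x, f g, fq_map p f P h1, ?_⟩
  have h3 := fq_map p f P h2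
  rw [map_mul, map_mul, map_inv] at h3
  exact h3

theorem rel_map (p : ℕ) (f : Y →* X) (P : Subgroup Y) {u v : Y} (h : RelF p P u v) :
    RelF p (P.map f) (f u) (f v) :=
  Relation.ReflTransGen.lift f (fun _ _ hab => fe_map p f P hab) _ _ h

end CRF

/-- CRF. -/
theorem specCRF : SpecCRF := by
  classical
  intro p X Y _ _ _ _ f P hinj hC
  obtain ⟨A, hA, hR, hN⟩ := hC
  have hch : ∀ u : A, ∃ v ∈ P, f v = u.1 := fun u => hA u.1 u.2
  choose g hgP hg using hch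
  have gi : Function.Injective g := by
    intro u v h
    apply Subtype.ext
    rw [← hg u, ← hg v, h]
  refine ⟨univ.image g, ?_, ?_, ?_⟩
  · intro u hu
    obtain ⟨a, _, rfl⟩ := Finset.mem_image.1 hu
    exact hgP a
  · intro u hu v hv huv
    obtain ⟨a, _, rfl⟩ := Finset.mem_image.1 hu
    obtain ⟨a', _, rfl⟩ := Finset.mem_image.1 hv
    have h1 := CRF.rel_map p f P huv
    rw [hg, hg] at h1
    have h2 := hR a.1 a.2 a'.1 a'.2 h1
    rw [Subtype.ext h2]
  · rw [Finset.card_image_of_injective _ gi, Finset.card_univ, Fintype.card_coe,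
      ← CRF.nF_map p f P hinj]
    exact hN

end Pool.Agent.Lib.MP_1aae89_al.W4
end

section
/-!
# Module CX3: the core of the integrality inside the group
-/
set_option autoImplicit false

namespace Pool.Agent.Lib.MP_1aae89_al.W4

open Pool.Agent.Lib.MP_1aae89_al Pool.Agent.Lib.MP_1aae89_al.BF Pool.Agent.Lib.MP_1aae89_al.W3 Finset
open Pool.Agent.Lib.MP1aae89 (Pex)

/-- the order of `AF` -/
theorem CX3.nF_eq {p : ℕ} {X : Type} [Group X] [Finite X] (P : Subgroup X) :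
    nF p P = (AF p P).card := by
  unfold nF
  refine Nat.subtype_card _ fun α => ?_
  unfold AF
  simp

theorem CX3.fq_iff {p : ℕ} {X : Type} [Group X] [Finite X] (P : Subgroup X) (w u : P) :
    (∀ α ∈ AF p P, α w = α u) ↔ Fq p P w u := by
  unfold AF Fq
  constructor
  · intro h
    exact ⟨w.2, u.2, fun α hα => h α (by simpa using hα)⟩
  · rintro ⟨hw, hu, h⟩ α hα
    exact h α (by simpa using hα)

theorem specCX3 (hCOF : SpecCOF) (hCJF : SpecCJF) : SpecCX3 := by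
  classical
  intro p L s0 b X _ _ P χ K hy u hu t ht Q hQP hcm
  have hp := hy.pp
  have hb := hy.hb
  have hord : ∀ y : X, orderOf y ∣ L := fun y => (orderOf_dvd_natCard y).trans hy.card
  have : Fintype P := Fintype.ofFinite P
  have hPp : IsPGroup p P := IsPGroup.of_card hy.syl
  set Q' : Subgroup P := Q.subgroupOf P with hQ'
  have : Fintype Q' := Fintype.ofFinite Q'
  have hts : t ^ s0 = 1 := W.pow_s0_one hp hy.hL hy.pex (hord t) ht
  have hws : ∀ w ∈ P, w ^ s0 = w := by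
    intro w hw
    obtain ⟨k, hk⟩ := hPp ⟨w, hw⟩
    exact W.pow_s0_self hp hy.hL hy.pex (hord w) (k := k) (congrArg Subtype.val hk)
  have hpow : ∀ w ∈ P, t * w = w * t → ∀ j : ℕ, (t * w) ^ (1 + s0 * j) = t * w ^ (1 + j) := by
    intro w hw hc j
    have h1 : Commute t w := hc
    rw [pow_add, pow_one, pow_mul, h1.mul_pow, hts, one_mul, hws w hw, pow_add, pow_one]
    group
  set φ : Q' → ℂ := fun w => χ (t * ((w : P) : X)) with hφ
  -- `φ` is in `GC`
  have hGC : W.GC φ := by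
    have hGCA1 : W.SpecGCA1 := W.specGCA1
    have hGCA2 : W.SpecGCA2 := W.specGCA2 hGCA1
    have hTWG : W.SpecTWG := W.specTWG hGCA2
    obtain ⟨-, -, -, -, -, hcomp, -, -⟩ := hGCA2
    have h1 : W.GC fun w : Q => χ (t * w) := hTWG χ hy.char Q t hcm
    have h2 := hcomp (Subgroup.subgroupOfEquivOfLe hQP).toMonoidHom _ h1
    exact h2
  have hfx : ∀ (t' : ℕ) (w : Q'), φ (w ^ (1 + p ^ b * t')) = φ w := by
    intro t' w
    have hwQ : ((w : P) : X) ∈ Q := w.2
    have h1 := hpow _ (hQP hwQ) (hcm _ hwQ) (p ^ b * t')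
    have h2 := hy.fx t' (t * ((w : P) : X))
    rw [mul_assoc s0] at h2
    rw [h1] at h2
    rw [hφ]
    exact h2
  have hk1 : (resL P K) ^ p = 1 := by
    refine MonoidHom.ext fun x => ?_
    have h1 : (K ^ p) (x : X) = (1 : Lin X) (x : X) := by rw [hy.kp]
    exact h1
  have hmain := hCOF p b hp hb (P := P) _ hy.syl Q' φ hGC hfx (resL P K) hk1 ⟨u, hu⟩
  have hKt : K t = 1 := CX1.lin_one hy.kp ht
  have hav : ∀ w : Q', (p : ℂ)⁻¹ * amg p b φ (resL Q' (resL P K)) w =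
      avK p s0 b χ K (t * ((w : P) : X)) := by
    intro w
    have hwQ : ((w : P) : X) ∈ Q := w.2
    unfold amg avK
    congr 1
    refine sum_congr rfl fun i _ => ?_
    have h1 := hpow _ (hQP hwQ) (hcm _ hwQ) (p ^ (b - 1) * i)
    rw [mul_assoc s0, h1, map_mul, hKt, one_mul]
    rfl
  have hcj : ∀ y, avK p s0 b χ K y⁻¹ = (starRingEnd ℂ) (avK p s0 b χ K y) :=
    hCJF p L s0 b P χ K hy
  have hsum : (∑ w : X, if w ∈ Q ∧ Fq p P w u then
      avK p s0 b χ K (t * w) * avK p s0 b χ K (t * w)⁻¹ else 0) =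
      ∑ w : Q', if (∀ α ∈ AF p P, α (w : P) = α (⟨u, hu⟩ : P)) then
        ((p : ℂ)⁻¹ * amg p b φ (resL Q' (resL P K)) w) *
          (starRingEnd ℂ) ((p : ℂ)⁻¹ * amg p b φ (resL Q' (resL P K)) w) else 0 := by
    symm
    have h1 : ∀ w : Q', (if (∀ α ∈ AF p P, α (w : P) = α (⟨u, hu⟩ : P)) then
        ((p : ℂ)⁻¹ * amg p b φ (resL Q' (resL P K)) w) *
          (starRingEnd ℂ) ((p : ℂ)⁻¹ * amg p b φ (resL Q' (resL P K)) w) else 0) =
        (fun z : X => if z ∈ Q ∧ Fq p P z u then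
          avK p s0 b χ K (t * z) * avK p s0 b χ K (t * z)⁻¹ else 0) ((w : P) : X) := by
      intro w
      have hwQ : ((w : P) : X) ∈ Q := w.2
      have h2 : (∀ α ∈ AF p P, α (w : P) = α (⟨u, hu⟩ : P)) ↔
          (((w : P) : X) ∈ Q ∧ Fq p P ((w : P) : X) u) := by
        rw [CX3.fq_iff]
        exact ⟨fun h => ⟨hwQ, h⟩, fun h => h.2⟩
      show _ = (if _ then _ else _)
      rw [hcj, ← hav]
      exact if_congr h2 rfl rfl
    rw [sum_congr rfl fun w _ => h1 w]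
    have h3 : ∀ F : X → ℂ, (∀ z, z ∉ Q → F z = 0) → ∑ w : Q', F ((w : P) : X) = ∑ z : X, F z := by
      intro F hF
      have hinj : Function.Injective (fun w : Q' => ((w : P) : X)) := fun a b h =>
        Subtype.ext (Subtype.ext h)
      have h4 : ∑ w : Q', F ((w : P) : X) =
          ∑ z ∈ (univ : Finset Q').image (fun w : Q' => ((w : P) : X)), F z := by
        rw [sum_image fun a _ b _ h => hinj h]
      rw [h4]
      refine sum_subset (subset_univ _) fun z _ hz => hF z fun hzQ => hz ?_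
      exact mem_image.2 ⟨⟨⟨z, hQP hzQ⟩, hzQ⟩, mem_univ _, rfl⟩
    refine (h3 (fun z : X => if z ∈ Q ∧ Fq p P z u then
        avK p s0 b χ K (t * z) * avK p s0 b χ K (t * z)⁻¹ else 0) fun z hz => ?_)
    exact if_neg fun h => hz h.1
  have hcard : (Nat.card Q : ℂ) = (Fintype.card Q' : ℂ) := by
    rw [← Nat.card_eq_fintype_card]
    exact_mod_cast (Nat.card_congr (Subgroup.subgroupOfEquivOfLe hQP).toEquiv).symm
  rw [CX3.nF_eq, hcard]
  have hfin : IsIntegral ℤ (((AF p P).card : ℂ) * ((Fintype.card Q' : ℂ)⁻¹ *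
      ∑ w : X, if w ∈ Q ∧ Fq p P w u then
        avK p s0 b χ K (t * w) * avK p s0 b χ K (t * w)⁻¹ else 0)) := by
    rw [hsum]
    convert hmain using 6
  convert hfin using 6

end Pool.Agent.Lib.MP_1aae89_al.W4
end

section
/-!
# Module CX4: integrality for the sections and `p`-subgroups commuting with `t`
-/
set_option autoImplicit false

namespace Pool.Agent.Lib.MP_1aae89_al.W4

open Pool.Agent.Lib.MP_1aae89_al Pool.Agent.Lib.MP_1aae89_al.BF Pool.Agent.Lib.MP_1aae89_al.W3 Finset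
open Pool.Agent.Lib.MP1aae89 (Pex)

/-- the case of a subgroup of `P` -/
theorem CX4.main (hCX3 : SpecCX3) (hSEF : SpecSEF) (hFRL : SpecFRL) (p L s0 b : ℕ) {X : Type}
    [Group X] [Fintype X] (P : Subgroup X) (χ : X → ℂ)
    (K : Lin X) (hy : Hz p L s0 b P χ K) (u : X) (hu : u ∈ P) (t : X) (ht : (orderOf t).Coprime p)
    (Q : Subgroup X) (hQP : Q ≤ P) (hcm : ∀ w ∈ Q, t * w = w * t) :
    IsIntegral ℤ ((Nat.card Q : ℂ)⁻¹ * ∑ w : X, open Classical in if w ∈ Q then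
    (if SecF p s0 P u (t * w) then
      (nF p P : ℂ) * (avK p s0 b χ K (t * w) * avK p s0 b χ K (t * w)⁻¹) else 0) else 0) := by
  classical
  obtain ⟨-, -, -, -, hsec5, -⟩ := hSEF p hy.pp L s0 hy.hL hy.pex P hy.card hy.syl
  obtain ⟨erf, eqv, etr, -, hfr, -, hsy, -, -⟩ := hFRL p P
  set s : Finset X := univ.filter fun w => w ∈ Q ∧ RelF p P w u with hs
  set κ : X → Set X := fun w => {z | Fq p P w z} with hκ
  set F : X → ℂ := fun w => avK p s0 b χ K (t * w) * avK p s0 b χ K (t * w)⁻¹ with hF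
  have h1 : (∑ w : X, if w ∈ Q then (if SecF p s0 P u (t * w) then
      (nF p P : ℂ) * F w else 0) else 0) = (nF p P : ℂ) * ∑ w ∈ s, F w := by
    rw [mul_sum, hs, sum_filter]
    refine sum_congr rfl fun w _ => ?_
    by_cases h2 : w ∈ Q
    · rw [if_pos h2]
      have h3 := hsec5 u hu t ht w (hQP h2) (hcm w h2)
      exact if_congr (h3.trans (by simp [h2])) rfl rfl
    · rw [if_neg h2, if_neg fun h => h2 h.1]
  have h2 : ∑ w ∈ s, F w = ∑ j ∈ s.image κ, ∑ w ∈ s.filter (fun w => κ w = j), F w :=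
    (sum_fiberwise_of_maps_to (fun w hw => mem_image_of_mem κ hw) F).symm
  have h3 : IsIntegral ℤ (∑ j ∈ s.image κ, ((nF p P : ℂ) * ((Nat.card Q : ℂ)⁻¹ *
      ∑ w ∈ s.filter (fun w => κ w = j), F w))) := by
    refine IsIntegral.sum _ fun j hj => ?_
    obtain ⟨z, hz, rfl⟩ := mem_image.1 hj
    have hz' := (mem_filter.1 hz).2
    have hzP : z ∈ P := hQP hz'.1
    have h4 := hCX3 p L s0 b P χ K hy z hzP t ht Q hQP hcm
    have h5 : ∑ w ∈ s.filter (fun w => κ w = κ z), F w =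
        ∑ w : X, if w ∈ Q ∧ Fq p P w z then F w else 0 := by
      rw [← sum_filter]
      refine sum_congr ?_ fun _ _ => rfl
      ext w
      simp only [hs, mem_filter, mem_univ, true_and]
      constructor
      · rintro ⟨⟨h6, h7⟩, h8⟩
        refine ⟨h6, ?_⟩
        have h9 : z ∈ κ z := erf z hzP
        rw [← h8] at h9
        exact h9
      · rintro ⟨h6, h7⟩
        refine ⟨⟨h6, ?_⟩, ?_⟩
        · exact Relation.ReflTransGen.trans (hfr w z h7) hz'.2
        · ext y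
          exact ⟨fun h => etr z w y (eqv w z h7) h, fun h => etr w z y h7 h⟩
    rw [h5]
    convert h4 using 6
  have h4 : (Nat.card Q : ℂ)⁻¹ * ∑ w : X, (if w ∈ Q then (if SecF p s0 P u (t * w) then
      (nF p P : ℂ) * F w else 0) else 0) = ∑ j ∈ s.image κ, ((nF p P : ℂ) * ((Nat.card Q : ℂ)⁻¹ *
      ∑ w ∈ s.filter (fun w => κ w = j), F w)) := by
    rw [h1, h2, ← mul_sum, ← mul_sum]
    ring
  rw [← h4] at h3
  convert h3 using 6

open scoped Pointwise in
theorem specCX4 (hCX3 : SpecCX3) (hSEF : SpecSEF) (hFRL : SpecFRL) : SpecCX4 := by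
  classical
  intro p L s0 b X _ _ P χ K hy u hu t ht Q hQ hcm
  have hfact : Fact p.Prime := ⟨hy.pp⟩
  obtain ⟨S, hS⟩ := hQ.exists_le_sylow
  obtain ⟨g, hg⟩ := MulAction.exists_smul_eq X S (Sylow.ofCard P hy.syl)
  have hgP : ∀ w ∈ Q, g * w * g⁻¹ ∈ P := by
    intro w hw
    have h6 : MulAut.conj g • w ∈ MulAut.conj g • (S : Subgroup X) :=
      Subgroup.smul_mem_pointwise_smul _ _ _ (hS hw)
    have h7 : (MulAut.conj g • (S : Subgroup X)) = P := congrArg (fun R : Sylow p X =>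
      (R : Subgroup X)) hg
    rw [h7] at h6
    exact h6
  set Q' : Subgroup X := Q.map (MulAut.conj g).toMonoidHom with hQ'
  have hmem : ∀ w : X, g * w * g⁻¹ ∈ Q' ↔ w ∈ Q := by
    intro w
    constructor
    · rintro ⟨v, hv, h⟩
      have h1 : g * v * g⁻¹ = g * w * g⁻¹ := h
      have h2 : v = w := by simpa using h1
      exact h2 ▸ hv
    · intro h
      exact ⟨w, h, rfl⟩
  have hle : Q' ≤ P := by
    rintro _ ⟨v, hv, rfl⟩
    exact hgP v hv
  have hcard : Nat.card Q' = Nat.card Q :=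
    (Nat.card_congr (Subgroup.equivMapOfInjective Q _ (MulAut.conj g).injective).toEquiv).symm
  have ht' : (orderOf (g * t * g⁻¹)).Coprime p := by
    have h1 : orderOf (MulAut.conj g t) = orderOf t :=
      orderOf_injective (MulAut.conj g).toMonoidHom (MulAut.conj g).injective t
    have h2 : g * t * g⁻¹ = MulAut.conj g t := rfl
    rw [h2, h1]
    exact ht
  have hcm' : ∀ w ∈ Q', g * t * g⁻¹ * w = w * (g * t * g⁻¹) := by
    rintro _ ⟨v, hv, rfl⟩
    have h1 := hcm v hv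
    show g * t * g⁻¹ * (g * v * g⁻¹) = g * v * g⁻¹ * (g * t * g⁻¹)
    calc g * t * g⁻¹ * (g * v * g⁻¹) = g * (t * v) * g⁻¹ := by group
      _ = g * (v * t) * g⁻¹ := by rw [h1]
      _ = _ := by group
  have h1 := CX4.main hCX3 hSEF hFRL p L s0 b P χ K hy u hu (g * t * g⁻¹) ht' Q' hle hcm'
  obtain ⟨hsec1, -⟩ := hSEF p hy.pp L s0 hy.hL hy.pex P hy.card hy.syl
  have h2 : (∑ w : X, if w ∈ Q' then (if SecF p s0 P u (g * t * g⁻¹ * w) then
      (nF p P : ℂ) * (avK p s0 b χ K (g * t * g⁻¹ * w) * avK p s0 b χ K (g * t * g⁻¹ * w)⁻¹)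
      else 0) else 0) = ∑ w : X, if w ∈ Q then (if SecF p s0 P u (t * w) then
      (nF p P : ℂ) * (avK p s0 b χ K (t * w) * avK p s0 b χ K (t * w)⁻¹) else 0) else 0 := by
    symm
    refine Fintype.sum_equiv (MulAut.conj g).toEquiv _ _ fun w => ?_
    show _ = if g * w * g⁻¹ ∈ Q' then (if SecF p s0 P u (g * t * g⁻¹ * (g * w * g⁻¹)) then
      (nF p P : ℂ) * (avK p s0 b χ K (g * t * g⁻¹ * (g * w * g⁻¹)) *
        avK p s0 b χ K (g * t * g⁻¹ * (g * w * g⁻¹))⁻¹) else 0) else 0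
    have h3 : g * t * g⁻¹ * (g * w * g⁻¹) = g * (t * w) * g⁻¹ := by group
    have h4 : (g * (t * w) * g⁻¹)⁻¹ = g * (t * w)⁻¹ * g⁻¹ := by group
    rw [h3, h4, CX2.avK_conj hy.char, CX2.avK_conj hy.char]
    refine if_congr (hmem w).symm (if_congr (hsec1 u g (t * w)).symm rfl rfl) rfl
  have h5 : IsIntegral ℤ ((Nat.card Q : ℂ)⁻¹ * ∑ w : X, if w ∈ Q then
      (if SecF p s0 P u (t * w) then
        (nF p P : ℂ) * (avK p s0 b χ K (t * w) * avK p s0 b χ K (t * w)⁻¹) else 0) else 0) := by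
    rw [← h2, ← hcard]
    convert h1 using 6
  convert h5 using 6

end Pool.Agent.Lib.MP_1aae89_al.W4
end

section
/-!
# CYN: the automizer of a cyclic Sylow subgroup has order less than `p`
-/
set_option autoImplicit false

namespace Pool.Agent.Lib.MP_1aae89_al.W4

open Pool.Agent.Lib.MP_1aae89_al Pool.Agent.Lib.MP_1aae89_al.BF Pool.Agent.Lib.MP_1aae89_al.W3 Finset

namespace CYN

theorem key {X : Type} [Group X] [Finite X] (A B : Subgroup X) (h : A ≤ B) :
    Nat.card A * A.relIndex B = Nat.card B := by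
  rw [← Nat.card_congr (Subgroup.subgroupOfEquivOfLe h).toEquiv]
  exact Subgroup.card_mul_index _

/-- `P ∩ F` is a Sylow `p`-subgroup of the normal subgroup `F` -/
theorem syl {p : ℕ} (hp : p.Prime) {X : Type} [Group X] [Finite X] (P F : Subgroup X) [F.Normal]
    (hP : Nat.card P = p ^ (Nat.card X).factorization p) :
    Nat.card ↥(P ⊓ F) = p ^ (Nat.card F).factorization p := by
  have h1 := key F (F ⊔ P) le_sup_left
  rw [Subgroup.relIndex_sup_left] at h1
  have h2 := key (F ⊓ P) P inf_le_right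
  rw [Subgroup.inf_relIndex_right] at h2
  have h3 : Nat.card ↥(F ⊔ P) * Nat.card ↥(F ⊓ P) = Nat.card F * Nat.card P := by
    rw [← h1, ← h2]
    ring
  have n1 : Nat.card ↥(F ⊔ P) ≠ 0 := Nat.card_pos.ne'
  have n2 : Nat.card ↥(F ⊓ P) ≠ 0 := Nat.card_pos.ne'
  have n3 : Nat.card F ≠ 0 := Nat.card_pos.ne'
  have n4 : Nat.card P ≠ 0 := Nat.card_pos.ne'
  have n5 : Nat.card X ≠ 0 := Nat.card_pos.ne'
  have h4 : (Nat.card ↥(F ⊔ P)).factorization p + (Nat.card ↥(F ⊓ P)).factorization p =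
      (Nat.card F).factorization p + (Nat.card P).factorization p := by
    rw [← Finsupp.add_apply, ← Finsupp.add_apply, ← Nat.factorization_mul n1 n2,
      ← Nat.factorization_mul n3 n4, h3]
  have h5 : (Nat.card P).factorization p = (Nat.card X).factorization p := by
    rw [hP, hp.factorization_pow, Finsupp.single_eq_same]
  have h6 : (Nat.card ↥(F ⊔ P)).factorization p = (Nat.card X).factorization p := by
    refine le_antisymm ?_ ?_
    · exact (Nat.factorization_le_iff_dvd n1 n5).2 (Subgroup.card_subgroup_dvd_card _) p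
    · rw [← h5]
      exact (Nat.factorization_le_iff_dvd n4 n1).2 (Subgroup.card_dvd_of_le le_sup_right) p
  have h7 : (Nat.card ↥(F ⊓ P)).factorization p = (Nat.card F).factorization p := by omega
  have h8 : Nat.card ↥(F ⊓ P) ∣ p ^ (Nat.card X).factorization p := by
    rw [← hP]
    exact Subgroup.card_dvd_of_le inf_le_right
  obtain ⟨m, -, hm⟩ := (Nat.dvd_prime_pow hp).1 h8
  rw [inf_comm, hm, ← h7, hm, hp.factorization_pow, Finsupp.single_eq_same]

end CYN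

theorem specCYN : SpecCYN := by
  intro p hp X _ _ P F hF hP hcyc
  classical
  have : Fintype F := Fintype.ofFinite _
  obtain ⟨x₀, hx₀, hgen⟩ := hcyc
  have hQ : Nat.card ((P ⊓ F).subgroupOf F) = p ^ (Fintype.card F).factorization p := by
    rw [Nat.card_congr (Subgroup.subgroupOfEquivOfLe (inf_le_right : P ⊓ F ≤ F)).toEquiv,
      CYN.syl hp P F hP, Nat.card_eq_fintype_card]
  have hcomm : ∀ x ∈ P ⊓ F, ∀ y ∈ P ⊓ F, x * y = y * x := by
    intro x hx y hy
    obtain ⟨i, rfl⟩ := hgen x hx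
    obtain ⟨j, rfl⟩ := hgen y hy
    exact Commute.pow_pow (Commute.refl x₀) i j
  have h1 := W.cyc_lt hp ((P ⊓ F).subgroupOf F) hQ 1
    (fun x hx y hy => ⟨by simp, by
      rw [pow_one]
      exact Subtype.ext (hcomm _ hx _ hy)⟩)
    ⟨⟨x₀, hx₀.2⟩, fun x hx => by
      rw [pow_one]
      obtain ⟨j, hj⟩ := hgen (x : X) hx
      exact Subgroup.mem_zpowers_iff.2 ⟨j, by
        rw [zpow_natCast]
        exact Subtype.ext hj.symm⟩⟩
  have hfin : ∀ g : F, (∀ x ∈ P ⊓ F, (g : X) * x * (g : X)⁻¹ ∈ P ⊓ F) ↔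
      g ∈ Subgroup.normalizer (((P ⊓ F).subgroupOf F : Subgroup F) : Set F) := by
    intro g
    constructor
    · intro h
      rw [Subgroup.mem_normalizer_iff]
      have h2 : ((P ⊓ F).subgroupOf F).map (MulAut.conj g).toMonoidHom = (P ⊓ F).subgroupOf F := by
        refine Subgroup.eq_of_le_of_card_ge ?_ ?_
        · rintro _ ⟨x, hx, rfl⟩
          exact h x hx
        · rw [Subgroup.card_map_of_injective (MulAut.conj g).injective]
      intro x
      constructor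
      · intro hx
        exact h x hx
      · intro hx
        rw [← h2] at hx
        obtain ⟨y, hy, hyx⟩ := hx
        have h3 : y = x := by
          have h4 : g * y * g⁻¹ = g * x * g⁻¹ := hyx
          exact mul_left_cancel (mul_right_cancel h4)
        rw [← h3]
        exact hy
    · intro h x hx
      rw [Subgroup.mem_normalizer_iff] at h
      exact (h ⟨x, hx.2⟩).1 hx
  have e1 : Nat.card {g : X // g ∈ F ∧ ∀ x ∈ P ⊓ F, g * x * g⁻¹ ∈ P ⊓ F} =
      Nat.card (Subgroup.normalizer (((P ⊓ F).subgroupOf F : Subgroup F) : Set F)) := by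
    refine Nat.card_congr
      { toFun := fun g => ⟨⟨g.1, g.2.1⟩, (hfin ⟨g.1, g.2.1⟩).1 g.2.2⟩
        invFun := fun g => ⟨(g.1 : X), g.1.2, (hfin g.1).2 g.2⟩
        left_inv := fun g => rfl
        right_inv := fun g => rfl }
  have hC : ∀ g : F, g ∈ W.NC ((P ⊓ F).subgroupOf F) 1 ↔
      ∀ x ∈ P ⊓ F, (g : X) * x * (g : X)⁻¹ = x := by
    intro g
    constructor
    · intro h x hx
      have h2 := (Subgroup.mem_centralizer_iff.1 h.2) ⟨x, hx.2⟩ ⟨⟨x, hx.2⟩, hx, pow_one _⟩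
      have h3 : x * (g : X) = (g : X) * x := congrArg Subtype.val h2
      rw [← h3, mul_inv_cancel_right]
    · intro h
      refine ⟨(hfin g).1 fun x hx => ?_, ?_⟩
      · rw [h x hx]
        exact hx
      · refine Subgroup.mem_centralizer_iff.2 ?_
        rintro z ⟨x, hx, hz⟩
        rw [pow_one] at hz
        subst hz
        have h2 := h (x : X) hx
        refine Subtype.ext ?_
        change (x : X) * (g : X) = (g : X) * (x : X)
        conv_lhs => rw [← h2]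
        group
  have e2 : Nat.card {g : X // g ∈ F ∧ ∀ x ∈ P ⊓ F, g * x * g⁻¹ = x} =
      Nat.card (W.NC ((P ⊓ F).subgroupOf F) 1) := by
    refine Nat.card_congr
      { toFun := fun g => ⟨⟨g.1, g.2.1⟩, (hC ⟨g.1, g.2.1⟩).2 g.2.2⟩
        invFun := fun g => ⟨(g.1 : X), g.1.2, (hC g.1).1 g.2⟩
        left_inv := fun g => rfl
        right_inv := fun g => rfl }
  rw [e1, e2]
  exact h1

end Pool.Agent.Lib.MP_1aae89_al.W4
end

section
/-!
# WTP: each `h ∈ N_F(Q)` is in `Γ C_F(Q)`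
-/
set_option autoImplicit false

namespace Pool.Agent.Lib.MP_1aae89_al.W4

open Pool.Agent.Lib.MP_1aae89_al Pool.Agent.Lib.MP_1aae89_al.BF Pool.Agent.Lib.MP_1aae89_al.W3 Finset
open Pool.Agent.Lib.MP_1aae89_al.W (GC LD nR)
open Pool.Agent.Lib.MP1aae89 (Pex)

namespace WTP

open Pool.Agent.Lib.MP_1aae89_al.W3.CRC (cj Sg card_Sg)
open scoped Pointwise

variable {X : Type} [Group X]

/-- Sylow subgroups of `X` contained in `S` are conjugate in `S` -/
theorem syl_conj [Finite X] {p : ℕ} (hp : p.Prime) {S P P' : Subgroup X} (hP : IsPGroup p P)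
    (hP' : IsPGroup p P') (hi : ¬ p ∣ P.index) (hi' : ¬ p ∣ P'.index) (hS : P ≤ S)
    (hS' : P' ≤ S) : ∃ g ∈ S, ∀ x ∈ P, g * x * g⁻¹ ∈ P' := by
  have : Fact p.Prime := ⟨hp⟩
  have h1 : ¬ p ∣ (P.subgroupOf S).index := fun h =>
    hi (h.trans (Subgroup.relIndex_dvd_index_of_le hS))
  have h2 : ¬ p ∣ (P'.subgroupOf S).index := fun h =>
    hi' (h.trans (Subgroup.relIndex_dvd_index_of_le hS'))
  let R : Sylow p S := (hP.comap_subtype (K := S)).toSylow h1
  let R' : Sylow p S := (hP'.comap_subtype (K := S)).toSylow h2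
  have hR : (R : Subgroup S) = P.subgroupOf S := IsPGroup.toSylow_coe _ _
  have hR' : (R' : Subgroup S) = P'.subgroupOf S := IsPGroup.toSylow_coe _ _
  obtain ⟨g, hg⟩ := MulAction.exists_smul_eq S R R'
  refine ⟨g.1, g.2, fun x hx => ?_⟩
  have h3 : (⟨x, hS hx⟩ : S) ∈ (R : Subgroup S) := by
    rw [hR]
    exact hx
  have h4 : MulAut.conj g • (⟨x, hS hx⟩ : S) ∈ ((g • R : Sylow p S) : Subgroup S) := by
    rw [Sylow.coe_subgroup_smul]
    exact Subgroup.smul_mem_pointwise_smul _ _ _ h3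
  rw [hg, hR', MulAut.smul_def, MulAut.conj_apply] at h4
  exact h4

/-- `P` acts trivially on the conjugations of `Q` by elements of `F` if there are less than `p` -/
theorem triv [Finite X] {p : ℕ} (hp : p.Prime) {P Q F : Subgroup X} (hF : F.Normal)
    (hPp : IsPGroup p P) (hPQ : ∀ y ∈ P, ∀ x ∈ Q, y * x * y⁻¹ ∈ Q)
    (hlt : Nat.card (Sg Q F) < p) {h : X} (hhF : h ∈ F) (hh : ∀ x ∈ Q, h * x * h⁻¹ ∈ Q) {y : X}
    (hy : y ∈ P) : ∀ x ∈ Q, (y * h * y⁻¹) * x * (y * h * y⁻¹)⁻¹ = h * x * h⁻¹ := by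
  have : Fact p.Prime := ⟨hp⟩
  have hPQ' : ∀ y ∈ P, ∀ x ∈ Q, y⁻¹ * x * y ∈ Q := by
    intro y hy x hx
    have := hPQ y⁻¹ (P.inv_mem hy) x hx
    rwa [inv_inv] at this
  letI act : MulAction P (Sg Q F) :=
    { smul := fun y f => ⟨fun x => y.1 * f.1 ⟨y.1⁻¹ * x.1 * y.1, hPQ' y.1 y.2 x.1 x.2⟩ * y.1⁻¹, by
        obtain ⟨f, g, hg, hg2, rfl⟩ := f
        refine ⟨y.1 * g * y.1⁻¹, hF.conj_mem g hg y.1, fun x hx => ?_, ?_⟩
        · have h1 := hPQ y.1 y.2 _ (hg2 _ (hPQ' y.1 y.2 x hx))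
          have h2 : y.1 * (g * (y.1⁻¹ * x * y.1) * g⁻¹) * y.1⁻¹ =
              y.1 * g * y.1⁻¹ * x * (y.1 * g * y.1⁻¹)⁻¹ := by group
          rwa [h2] at h1
        · funext x
          show y.1 * (g * (y.1⁻¹ * x.1 * y.1) * g⁻¹) * y.1⁻¹ =
            y.1 * g * y.1⁻¹ * x.1 * (y.1 * g * y.1⁻¹)⁻¹
          group⟩
      one_smul := by
        rintro ⟨f, g, hg, hg2, rfl⟩
        apply Subtype.ext
        funext x
        show (1 : X) * (g * ((1 : X)⁻¹ * x.1 * 1) * g⁻¹) * (1 : X)⁻¹ = g * x.1 * g⁻¹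
        group
      mul_smul := by
        rintro y z ⟨f, g, hg, hg2, rfl⟩
        apply Subtype.ext
        funext x
        show (y.1 * z.1) * (g * ((y.1 * z.1)⁻¹ * x.1 * (y.1 * z.1)) * g⁻¹) * (y.1 * z.1)⁻¹ =
          y.1 * (z.1 * (g * (z.1⁻¹ * (y.1⁻¹ * x.1 * y.1) * z.1) * g⁻¹) * z.1⁻¹) * y.1⁻¹
        group }
  let a : Sg Q F := ⟨W3.CRC.cj Q h, h, hhF, hh, rfl⟩
  obtain ⟨n, hn⟩ := hPp.card_orbit a
  have h1 : Nat.card (MulAction.orbit P a) ≤ Nat.card (Sg Q F) :=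
    Nat.card_le_card_of_injective Subtype.val Subtype.val_injective
  have hn0 : n = 0 := by
    by_contra hne
    have h2 : p ^ 1 ≤ p ^ n := Nat.pow_le_pow_right hp.pos (by omega)
    rw [pow_one] at h2
    omega
  rw [hn0, pow_zero] at hn
  have h2 := (Nat.card_eq_one_iff_unique.1 hn).1
  have h3 : (⟨y, hy⟩ : P) • a = a := by
    have h4 : (⟨(⟨y, hy⟩ : P) • a, MulAction.mem_orbit a _⟩ : MulAction.orbit P a) =
        ⟨a, MulAction.mem_orbit_self a⟩ := h2.elim _ _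
    exact congrArg Subtype.val h4
  intro x hx
  have h5 : ((⟨y, hy⟩ : P) • a).1 ⟨x, hx⟩ = a.1 ⟨x, hx⟩ := by rw [h3]
  have h6 : y * (h * (y⁻¹ * x * y) * h⁻¹) * y⁻¹ = h * x * h⁻¹ := h5
  rw [← h6]
  group

end WTP

open WTP W3.CRC in
theorem specWTP : SpecWTP := by
  intro p hp X _ _ P F hF hP hab hlt h hhF hh
  have : Fact p.Prime := ⟨hp⟩
  set Q : Subgroup X := P ⊓ F with hQ
  let Sy : Sylow p X := Sylow.ofCard P hP
  have hSy : (Sy : Subgroup X) = P := Sylow.coe_ofCard P hP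
  have hPp : IsPGroup p P := by
    rw [← hSy]
    exact Sy.isPGroup'
  have hPi : ¬ p ∣ P.index := by
    rw [← hSy]
    exact Sy.not_dvd_index
  have hPQ : ∀ y ∈ P, ∀ x ∈ Q, y * x * y⁻¹ ∈ Q := fun y hy x hx =>
    ⟨P.mul_mem (P.mul_mem hy hx.1) (P.inv_mem hy), hF.conj_mem x hx.2 y⟩
  have hlt' : Nat.card (Sg Q F) < p :=
    lt_of_mul_lt_mul_right (lt_of_le_of_lt (card_Sg Q F) hlt) (Nat.zero_le _)
  have hh' : ∀ x ∈ Q, h⁻¹ * x * h ∈ Q := REL.inv_mem Q hh
  -- the centralizer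
  let C : Subgroup X := F ⊓ Subgroup.centralizer (Q : Set X)
  have hC : ∀ c, c ∈ C ↔ c ∈ F ∧ ∀ x ∈ Q, c * x * c⁻¹ = x := by
    intro c
    show c ∈ F ∧ c ∈ Subgroup.centralizer (Q : Set X) ↔ _
    rw [Subgroup.mem_centralizer_iff]
    refine and_congr_right fun _ => forall₂_congr fun x _ => ?_
    rw [mul_inv_eq_iff_eq_mul]
    exact eq_comm
  have hPC : P ≤ Subgroup.normalizer (C : Set X) := by
    intro y hy
    rw [Subgroup.mem_normalizer_iff]
    have h1 : ∀ y ∈ P, ∀ c ∈ C, y * c * y⁻¹ ∈ C := by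
      intro y hy c hc
      rw [hC] at hc ⊢
      refine ⟨hF.conj_mem c hc.1 y, fun x hx => ?_⟩
      have h2 := hPQ y⁻¹ (P.inv_mem hy) x hx
      rw [inv_inv] at h2
      have h3 := hc.2 _ h2
      calc y * c * y⁻¹ * x * (y * c * y⁻¹)⁻¹ = y * (c * (y⁻¹ * x * y) * c⁻¹) * y⁻¹ := by group
        _ = x := by rw [h3]; group
    intro c
    refine ⟨fun hc => h1 y hy c hc, fun hc => ?_⟩
    have h2 := h1 y⁻¹ (P.inv_mem hy) _ hc
    rwa [show y⁻¹ * (y * c * y⁻¹) * y⁻¹⁻¹ = c by group] at h2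
  have hmem : ∀ g ∈ P ⊔ C, ∃ y ∈ P, ∃ c ∈ C, g = y * c := by
    intro g hg
    have h1 : g ∈ ((P ⊔ C : Subgroup X) : Set X) := hg
    rw [Subgroup.coe_mul_of_left_le_normalizer_right P C hPC] at h1
    obtain ⟨y, hy, c, hc, e⟩ := h1
    exact ⟨y, hy, c, hc, e.symm⟩
  -- `h P h⁻¹`
  let P' : Subgroup X := P.map (MulAut.conj h).toMonoidHom
  have hP'p : IsPGroup p P' := hPp.map _
  have hP'i : ¬ p ∣ P'.index := by
    have h1 : P'.index = P.index := Subgroup.index_map_equiv P (MulAut.conj h)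
    rw [h1]
    exact hPi
  have hP'S : P' ≤ P ⊔ C := by
    rintro _ ⟨y, hy, rfl⟩
    show h * y * h⁻¹ ∈ P ⊔ C
    have h1 : y⁻¹ * h * y * h⁻¹ ∈ C := by
      rw [hC]
      refine ⟨?_, fun x hx => ?_⟩
      · have h2 := hF.conj_mem h hhF y⁻¹
        rw [inv_inv] at h2
        exact F.mul_mem h2 (F.inv_mem hhF)
      · have h2 := triv hp hF hPp hPQ hlt' hhF hh (P.inv_mem hy) (h⁻¹ * x * h) (hh' x hx)
        rw [inv_inv] at h2
        calc y⁻¹ * h * y * h⁻¹ * x * (y⁻¹ * h * y * h⁻¹)⁻¹ =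
            y⁻¹ * h * y * (h⁻¹ * x * h) * (y⁻¹ * h * y)⁻¹ := by group
          _ = x := by rw [h2]; group
    have h2 : h * y * h⁻¹ = y * (y⁻¹ * h * y * h⁻¹) := by group
    rw [h2]
    exact Subgroup.mul_mem _ (Subgroup.mem_sup_left hy) (Subgroup.mem_sup_right h1)
  obtain ⟨k, hk, hkP⟩ := syl_conj hp hP'p hPp hP'i hPi hP'S (le_sup_left : P ≤ P ⊔ C)
  obtain ⟨y₀, hy₀, c₀, hc₀, rfl⟩ := hmem k hk
  have hn : ∀ y ∈ P, c₀ * h * y * (c₀ * h)⁻¹ ∈ P := by
    intro y hy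
    have h1 := hkP (h * y * h⁻¹) ⟨y, hy, rfl⟩
    have h2 := P.mul_mem (P.mul_mem (P.inv_mem hy₀) h1) hy₀
    have h3 : y₀⁻¹ * (y₀ * c₀ * (h * y * h⁻¹) * (y₀ * c₀)⁻¹) * y₀ = c₀ * h * y * (c₀ * h)⁻¹ := by
      group
    rwa [h3] at h2
  have hc : h⁻¹ * c₀ * h ∈ C := by
    rw [hC] at hc₀ ⊢
    refine ⟨?_, fun x hx => ?_⟩
    · exact F.mul_mem (F.mul_mem (F.inv_mem hhF) hc₀.1) hhF
    · have h1 := hc₀.2 _ (hh x hx)
      calc h⁻¹ * c₀ * h * x * (h⁻¹ * c₀ * h)⁻¹ = h⁻¹ * (c₀ * (h * x * h⁻¹) * c₀⁻¹) * h := by group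
        _ = x := by rw [h1]; group
  have hc' := (hC _).1 hc
  refine ⟨h⁻¹ * c₀ * h, hc'.1, hc'.2, fun y hy => ?_⟩
  have h1 : h * (h⁻¹ * c₀ * h) = c₀ * h := by group
  rw [h1]
  have h2 : c₀ * h ∈ F := F.mul_mem ((hC c₀).1 hc₀).1 hhF
  refine ⟨P.mul_mem (hn y hy) (P.inv_mem hy), ?_⟩
  have h3 : c₀ * h * y * (c₀ * h)⁻¹ * y⁻¹ = (c₀ * h) * (y * (c₀ * h)⁻¹ * y⁻¹) := by group
  rw [h3]
  exact F.mul_mem h2 (hF.conj_mem _ (F.inv_mem h2) y)

end Pool.Agent.Lib.MP_1aae89_al.W4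
end

section
/-!
# CCN: normal subgroups of the groups in the class `CC`
-/
set_option autoImplicit false

namespace Pool.Agent.Lib.MP_1aae89_al.W5

open scoped Pointwise

namespace CCN

/-- two Sylow subgroups are conjugate -/
theorem conj {p : ℕ} (hp : p.Prime) {Z : Type} [Group Z] [Finite Z] {P Q : Subgroup Z}
    (hP : Nat.card P = p ^ (Nat.card Z).factorization p)
    (hQ : Nat.card Q = p ^ (Nat.card Z).factorization p) :
    ∃ g : Z, ∀ x, x ∈ Q ↔ g⁻¹ * x * g ∈ P := by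
  have : Fact p.Prime := ⟨hp⟩
  obtain ⟨g, hg⟩ := MulAction.exists_smul_eq Z (Sylow.ofCard P hP) (Sylow.ofCard Q hQ)
  refine ⟨g, fun x => ?_⟩
  have h1 : (x ∈ (Sylow.ofCard Q hQ : Sylow p Z)) ↔ x ∈ Q := Iff.rfl
  rw [← h1, ← hg]
  have h2 : x ∈ (g • Sylow.ofCard P hP : Sylow p Z) ↔
      x ∈ (MulAut.conj g • (Sylow.ofCard P hP : Sylow p Z).toSubgroup) := Iff.rfl
  rw [h2, Subgroup.mem_pointwise_smul_iff_inv_smul_mem]
  have h3 : (MulAut.conj g)⁻¹ • x = g⁻¹ * x * g := by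
    rw [← map_inv, MulAut.smul_def, MulAut.conj_apply, inv_inv]
  rw [h3]
  exact Iff.rfl

/-- a Sylow subgroup of the group is one of every subgroup containing it -/
theorem card_of_le {p : ℕ} (hp : p.Prime) {X : Type} [Group X] [Finite X] {Q D : Subgroup X}
    (hQ : Nat.card Q = p ^ (Nat.card X).factorization p) (h : Q ≤ D) :
    Nat.card Q = p ^ (Nat.card D).factorization p := by
  have hD0 : Nat.card D ≠ 0 := Nat.card_pos.ne'
  have hX0 : Nat.card X ≠ 0 := Nat.card_pos.ne'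
  have h1 : (Nat.card D).factorization p ≤ (Nat.card X).factorization p :=
    (Nat.factorization_le_iff_dvd hD0 hX0).2 (Subgroup.card_subgroup_dvd_card _) p
  have h2 : (Nat.card X).factorization p ≤ (Nat.card D).factorization p := by
    refine (hp.pow_dvd_iff_le_factorization hD0).1 ?_
    rw [← hQ]
    exact Subgroup.card_dvd_of_le h
  rw [hQ, le_antisymm h1 h2]

/-- conjugation by `g` maps a finite subgroup onto itself if it maps it into itself -/
theorem back {X : Type} [Group X] [Finite X] (Q : Subgroup X) (g : X)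
    (h : ∀ x ∈ Q, g * x * g⁻¹ ∈ Q) : ∀ x ∈ Q, g⁻¹ * x * g ∈ Q := by
  intro x hx
  let f : Q → Q := fun y => ⟨g * y * g⁻¹, h y y.2⟩
  have hf : Function.Injective f := by
    intro y z hyz
    have h1 : g * (y : X) * g⁻¹ = g * z * g⁻¹ := congrArg Subtype.val hyz
    exact Subtype.ext (mul_left_cancel (mul_right_cancel h1))
  obtain ⟨y, hy⟩ := (Finite.injective_iff_surjective.1 hf) ⟨x, hx⟩
  have h1 : g * (y : X) * g⁻¹ = x := congrArg Subtype.val hy
  have h2 : g⁻¹ * x * g = y := by rw [← h1]; group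
  rw [h2]
  exact y.2

/-- the Frattini argument: an element normalizing `Q ⊓ N` acts on it as an element normalizing `Q` -/
theorem fratt {p : ℕ} (hp : p.Prime) {X : Type} [Group X] [Finite X] (Q N : Subgroup X)
    (hQ : Nat.card Q = p ^ (Nat.card X).factorization p)
    (hab : ∀ x ∈ Q, ∀ y ∈ Q, x * y = y * x) (g : X)
    (hg : ∀ x ∈ Q ⊓ N, g * x * g⁻¹ ∈ Q ⊓ N) :
    ∃ s : X, (∀ x ∈ Q, s * x * s⁻¹ ∈ Q) ∧ ∀ x ∈ Q ⊓ N, s * x * s⁻¹ = g * x * g⁻¹ := by
  set D : Subgroup X := Subgroup.centralizer ((Q ⊓ N : Subgroup X) : Set X) with hD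
  have hmem : ∀ d : X, d ∈ D ↔ ∀ x ∈ Q ⊓ N, x * d = d * x := by
    intro d
    rw [hD, Subgroup.mem_centralizer_iff]
    rfl
  have hQD : Q ≤ D := by
    intro d hd
    rw [hmem]
    exact fun x hx => hab x (Subgroup.mem_inf.1 hx).1 d hd
  have hback := back (Q ⊓ N) g hg
  -- `g Q g⁻¹ ≤ D`
  set Q' : Subgroup X := Q.map (MulAut.conj g).toMonoidHom with hQ'
  have hQ'mem : ∀ x : X, x ∈ Q' ↔ g⁻¹ * x * g ∈ Q := by
    intro x
    rw [hQ', Subgroup.mem_map]
    constructor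
    · rintro ⟨y, hy, rfl⟩
      have : g⁻¹ * ((MulAut.conj g).toMonoidHom y) * g = y := by
        simp [MulAut.conj_apply, mul_assoc]
      rw [this]
      exact hy
    · intro h
      refine ⟨_, h, ?_⟩
      simp [MulAut.conj_apply, mul_assoc]
  have hQ'D : Q' ≤ D := by
    intro d hd
    rw [hmem]
    intro x hx
    have h1 := hab _ (Subgroup.mem_inf.1 (hback x hx)).1 _ ((hQ'mem d).1 hd)
    have h2 : (g⁻¹ * x * g) * (g⁻¹ * d * g) = g⁻¹ * (x * d) * g := by group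
    have h3 : (g⁻¹ * d * g) * (g⁻¹ * x * g) = g⁻¹ * (d * x) * g := by group
    rw [h2, h3] at h1
    exact mul_left_cancel (mul_right_cancel h1)
  have hc : Nat.card Q' = Nat.card Q := by
    exact (Nat.card_congr (Q.equivMapOfInjective _ (MulAut.conj g).injective).toEquiv).symm
  have h1 : Nat.card (Q.subgroupOf D) = p ^ (Nat.card D).factorization p := by
    rw [← card_of_le hp hQ hQD]
    exact Nat.card_congr (Subgroup.subgroupOfEquivOfLe hQD).toEquiv
  have h2 : Nat.card (Q'.subgroupOf D) = p ^ (Nat.card D).factorization p := by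
    rw [← card_of_le hp (hc.trans hQ) hQ'D]
    exact Nat.card_congr (Subgroup.subgroupOfEquivOfLe hQ'D).toEquiv
  obtain ⟨c, hc'⟩ := conj hp h1 h2
  have hcD := (hmem (c : X)).1 c.2
  refine ⟨(c : X)⁻¹ * g, fun x hx => ?_, fun x hx => ?_⟩
  · have h3 : g * x * g⁻¹ ∈ Q' := by
      rw [hQ'mem]
      have : g⁻¹ * (g * x * g⁻¹) * g = x := by group
      rw [this]
      exact hx
    have h4 := (hc' ⟨g * x * g⁻¹, hQ'D h3⟩).1 h3
    rw [Subgroup.mem_subgroupOf] at h4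
    have h5 : (((c⁻¹ * (⟨g * x * g⁻¹, hQ'D h3⟩ : D) * c : D)) : X) =
        (c : X)⁻¹ * g * x * ((c : X)⁻¹ * g)⁻¹ := by
      simp [mul_assoc]
    rw [h5] at h4
    exact h4
  · have h3 := hcD _ (hg x hx)
    calc (c : X)⁻¹ * g * x * ((c : X)⁻¹ * g)⁻¹ = (c : X)⁻¹ * ((g * x * g⁻¹) * c) := by group
      _ = (c : X)⁻¹ * (c * (g * x * g⁻¹)) := by rw [h3]
      _ = g * x * g⁻¹ := by group

/-- the counting argument -/
theorem count {X : Type} [Group X] [Finite X] (Q N : Subgroup X)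
    (hfr : ∀ g ∈ N, (∀ x ∈ Q ⊓ N, g * x * g⁻¹ ∈ Q ⊓ N) →
      ∃ s : X, (∀ x ∈ Q, s * x * s⁻¹ ∈ Q) ∧ ∀ x ∈ Q ⊓ N, s * x * s⁻¹ = g * x * g⁻¹) :
    Nat.card {g : N // ∀ x ∈ Q.subgroupOf N, g * x * g⁻¹ ∈ Q.subgroupOf N} *
        Nat.card {g : X // ∀ x ∈ Q, g * x * g⁻¹ = x} ≤
      Nat.card {g : X // ∀ x ∈ Q, g * x * g⁻¹ ∈ Q} *
        Nat.card {g : N // ∀ x ∈ Q.subgroupOf N, g * x * g⁻¹ = x} := by
  classical
  rw [← Nat.card_prod, ← Nat.card_prod]
  -- the action on `Q ⊓ N`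
  let act : X → (↥(Q ⊓ N) → X) := fun g x => g * (x : X) * g⁻¹
  let S1 := {g : N // ∀ x ∈ Q.subgroupOf N, g * x * g⁻¹ ∈ Q.subgroupOf N}
  -- choices
  have hS : ∀ g : S1, ∀ x ∈ Q ⊓ N, ((g : N) : X) * x * ((g : N) : X)⁻¹ ∈ Q ⊓ N := by
    intro g x hx
    obtain ⟨hx1, hx2⟩ := Subgroup.mem_inf.1 hx
    have := g.2 ⟨x, hx2⟩ hx1
    exact Subgroup.mem_inf.2 ⟨this, N.mul_mem (N.mul_mem (g : N).2 hx2) (N.inv_mem (g : N).2)⟩
  have hs : ∀ g : S1, ∃ s : X, (∀ x ∈ Q, s * x * s⁻¹ ∈ Q) ∧ act s = act ((g : N) : X) := by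
    intro g
    obtain ⟨s, h1, h2⟩ := hfr ((g : N) : X) (g : N).2 (hS g)
    exact ⟨s, h1, funext fun x => h2 x x.2⟩
  -- representatives of the actions
  have hrep : ∀ a : (↥(Q ⊓ N) → X), ∃ (r : S1) (s : X), (∃ g : S1, act ((g : N) : X) = a) →
      act ((r : N) : X) = a ∧ (∀ x ∈ Q, s * x * s⁻¹ ∈ Q) ∧ act s = a := by
    intro a
    by_cases h : ∃ g : S1, act ((g : N) : X) = a
    · obtain ⟨g, hg⟩ := h
      obtain ⟨s, h1, h2⟩ := hs g
      exact ⟨g, s, fun _ => ⟨hg, h1, h2.trans hg⟩⟩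
    · exact ⟨⟨1, fun x hx => by simpa using hx⟩, 1, fun h' => absurd h' h⟩
  choose r s hrs using hrep
  have hR : ∀ g : S1, act ((r (act ((g : N) : X)) : N) : X) = act ((g : N) : X) := fun g =>
    (hrs _ ⟨g, rfl⟩).1
  have hSn : ∀ g : S1, ∀ x ∈ Q, s (act ((g : N) : X)) * x * (s (act ((g : N) : X)))⁻¹ ∈ Q :=
    fun g => (hrs _ ⟨g, rfl⟩).2.1
  have hSa : ∀ g : S1, act (s (act ((g : N) : X))) = act ((g : N) : X) := fun g =>
    (hrs _ ⟨g, rfl⟩).2.2
  let F : S1 × {g : X // ∀ x ∈ Q, g * x * g⁻¹ = x} →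
      {g : X // ∀ x ∈ Q, g * x * g⁻¹ ∈ Q} ×
        {g : N // ∀ x ∈ Q.subgroupOf N, g * x * g⁻¹ = x} := fun q =>
    (⟨s (act ((q.1 : N) : X)) * q.2, fun x hx => by
        have h1 := q.2.2 x hx
        have h2 : s (act ((q.1 : N) : X)) * (q.2 : X) * x * (s (act ((q.1 : N) : X)) * (q.2 : X))⁻¹ =
            s (act ((q.1 : N) : X)) * ((q.2 : X) * x * (q.2 : X)⁻¹) *
              (s (act ((q.1 : N) : X)))⁻¹ := by group
        rw [h2, h1]
        exact hSn q.1 x hx⟩,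
      ⟨(r (act ((q.1 : N) : X)) : N)⁻¹ * q.1, fun x hx => by
        have h1 := congrFun (hR q.1) ⟨(x : X), Subgroup.mem_inf.2 ⟨hx, x.2⟩⟩
        apply Subtype.ext
        have h2 : (((r (act ((q.1 : N) : X)) : N)⁻¹ * (q.1 : N) * x *
            ((r (act ((q.1 : N) : X)) : N)⁻¹ * (q.1 : N))⁻¹ : N) : X) =
            ((r (act ((q.1 : N) : X)) : N) : X)⁻¹ *
              (((q.1 : N) : X) * (x : X) * ((q.1 : N) : X)⁻¹) *
              ((r (act ((q.1 : N) : X)) : N) : X) := by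
          simp only [Subgroup.coe_mul, InvMemClass.coe_inv, mul_inv_rev, inv_inv]
          group
        rw [h2]
        have h3 : ((r (act ((q.1 : N) : X)) : N) : X) * (x : X) *
            ((r (act ((q.1 : N) : X)) : N) : X)⁻¹ = ((q.1 : N) : X) * (x : X) *
              ((q.1 : N) : X)⁻¹ := h1
        rw [← h3]
        group⟩)
  have hF : Function.Injective F := by
    rintro ⟨g, c⟩ ⟨g', c'⟩ h
    have e1 : s (act ((g : N) : X)) * (c : X) = s (act ((g' : N) : X)) * (c' : X) :=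
      congrArg Subtype.val (congrArg Prod.fst h)
    have e2 : (r (act ((g : N) : X)) : N)⁻¹ * (g : N) =
        (r (act ((g' : N) : X)) : N)⁻¹ * (g' : N) :=
      congrArg Subtype.val (congrArg Prod.snd h)
    -- the actions agree
    have hact : ∀ (g : S1) (c : {g : X // ∀ x ∈ Q, g * x * g⁻¹ = x}),
        act (s (act ((g : N) : X)) * (c : X)) = act ((g : N) : X) := by
      intro g c
      refine Eq.trans (funext fun x => ?_) (hSa g)
      have h1 := c.2 x (Subgroup.mem_inf.1 x.2).1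
      change s (act ((g : N) : X)) * (c : X) * (x : X) * (s (act ((g : N) : X)) * (c : X))⁻¹ =
        s (act ((g : N) : X)) * (x : X) * (s (act ((g : N) : X)))⁻¹
      have h2 : s (act ((g : N) : X)) * (c : X) * (x : X) *
          (s (act ((g : N) : X)) * (c : X))⁻¹ =
          s (act ((g : N) : X)) * ((c : X) * x * (c : X)⁻¹) *
            (s (act ((g : N) : X)))⁻¹ := by group
      rw [h2, h1]
    have h3 : act ((g : N) : X) = act ((g' : N) : X) := by
      rw [← hact g c, e1, hact g' c']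
    rw [h3] at e1 e2
    have h4 : c = c' := Subtype.ext (mul_left_cancel e1)
    have h5 : g = g' := Subtype.ext (mul_left_cancel e2)
    rw [h4, h5]
  exact Nat.card_le_card_of_injective F hF

end CCN

theorem specCCN : SpecCCN := by
  intro p b hp X _ _ N _ h
  rcases h with ⟨e, he⟩ | h | ⟨Q, hQ, hab, hlt⟩
  · left
    have h1 : Nat.card N ∣ p ^ e := he ▸ Subgroup.card_subgroup_dvd_card N
    obtain ⟨j, _, hj⟩ := (Nat.dvd_prime_pow hp).1 h1
    exact ⟨j, hj⟩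
  · right; left
    intro x hx
    have h1 : (x : X) ^ p ^ b = 1 := by
      rw [← Subgroup.coe_pow, hx, Subgroup.coe_one]
    apply Subtype.ext
    rw [Subgroup.coe_pow, Subgroup.coe_one]
    exact h x h1
  · right; right
    refine ⟨Q.subgroupOf N, ?_, ?_, ?_⟩
    · have h1 := W4.CNQ.card_inf hp Q N hQ
      rw [← h1, ← Subgroup.inf_subgroupOf_right]
      exact Nat.card_congr (Subgroup.subgroupOfEquivOfLe inf_le_right).toEquiv
    · intro x hx y hy
      exact Subtype.ext (hab x hx y hy)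
    · have h1 := CCN.count Q N fun g _ hg => CCN.fratt hp Q N hQ hab g hg
      set a := Nat.card {g : N // ∀ x ∈ Q.subgroupOf N, g * x * g⁻¹ ∈ Q.subgroupOf N}
      set c := Nat.card {g : X // ∀ x ∈ Q, g * x * g⁻¹ = x}
      set d := Nat.card {g : X // ∀ x ∈ Q, g * x * g⁻¹ ∈ Q}
      set e := Nat.card {g : N // ∀ x ∈ Q.subgroupOf N, g * x * g⁻¹ = x}
      have hepos : 0 < e := by
        have : Nonempty {g : N // ∀ x ∈ Q.subgroupOf N, g * x * g⁻¹ = x} :=
          ⟨⟨1, fun x _ => by simp⟩⟩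
        exact Nat.card_pos
      have hcpos : 0 < c := by
        have : Nonempty {g : X // ∀ x ∈ Q, g * x * g⁻¹ = x} := ⟨⟨1, fun x _ => by simp⟩⟩
        exact Nat.card_pos
      have h2 : a * c < (p * e) * c := by
        calc a * c ≤ d * e := h1
          _ < (p * c) * e := Nat.mul_lt_mul_of_pos_right hlt hepos
          _ = (p * e) * c := by ring
      exact lt_of_mul_lt_mul_right h2 (Nat.zero_le c)

end Pool.Agent.Lib.MP_1aae89_al.W5
end

section
/-!
# CCQ: factor groups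
-/
set_option autoImplicit false

namespace Pool.Agent.Lib.MP_1aae89_al.W5

open Pool.Agent.Lib.MP_1aae89_al Pool.Agent.Lib.MP_1aae89_al.BF Pool.Agent.Lib.MP_1aae89_al.W3
  Pool.Agent.Lib.MP_1aae89_al.W4 Finset
open Pool.Agent.Lib.MP1aae89 (Pex)

namespace CCQ

variable {X : Type} [Group X]

/-- the order of the image of a subgroup -/
theorem card_map [Finite X] (N H : Subgroup X) [N.Normal] :
    Nat.card (H.map (QuotientGroup.mk' N)) * Nat.card ↥(H ⊓ N) = Nat.card H := by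
  set g : H →* X ⧸ N := (QuotientGroup.mk' N).comp H.subtype with hg
  have h1 := g.ker.card_mul_index
  rw [Subgroup.index_ker] at h1
  have h2 : g.range = H.map (QuotientGroup.mk' N) := by
    rw [hg, MonoidHom.range_comp, Subgroup.range_subtype]
  have h3 : g.ker = N.subgroupOf H := by
    ext x
    rw [MonoidHom.mem_ker, Subgroup.mem_subgroupOf]
    exact QuotientGroup.eq_one_iff (x : X)
  have h4 : Nat.card ↥(H ⊓ N) = Nat.card (N.subgroupOf H) := by
    have h5 : (N.subgroupOf H).map H.subtype = N ⊓ H := Subgroup.subgroupOf_map_subtype N H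
    rw [inf_comm, ← h5]
    exact Subgroup.card_map_of_injective H.subtype_injective
  rw [h2, h3] at h1
  rw [h4, mul_comm]
  exact h1

/-- the stabilizer of a subgroup under conjugation, as a subgroup -/
def nm [Finite X] (Q : Subgroup X) : Subgroup X where
  carrier := {g | ∀ x ∈ Q, g * x * g⁻¹ ∈ Q}
  mul_mem' := by
    intro a b ha hb x hx
    have := ha _ (hb x hx)
    rwa [show a * (b * x * b⁻¹) * a⁻¹ = a * b * x * (a * b)⁻¹ by group] at this
  one_mem' := by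
    intro x hx
    simpa using hx
  inv_mem' := by
    intro a ha x hx
    have h1 : ∀ k : ℕ, ∀ x ∈ Q, a ^ k * x * (a ^ k)⁻¹ ∈ Q := by
      intro k
      induction k with
      | zero => intro x hx; simpa using hx
      | succ k ih =>
        intro x hx
        have := ha _ (ih x hx)
        rwa [show a * (a ^ k * x * (a ^ k)⁻¹) * a⁻¹ = a ^ (k + 1) * x * (a ^ (k + 1))⁻¹ by
          rw [pow_succ']; group] at this
    have h2 : a⁻¹ = a ^ (Nat.card X - 1) := by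
      rw [inv_eq_iff_mul_eq_one, ← pow_succ', Nat.sub_add_cancel Nat.card_pos]
      exact pow_card_eq_one'
    rw [h2]
    exact h1 _ x hx

/-- the centralizer -/
def cn (Q : Subgroup X) : Subgroup X where
  carrier := {g | ∀ x ∈ Q, g * x * g⁻¹ = x}
  mul_mem' := by
    intro a b ha hb x hx
    have h1 : a * b * x * (a * b)⁻¹ = a * (b * x * b⁻¹) * a⁻¹ := by group
    rw [h1, hb x hx, ha x hx]
  one_mem' := by
    intro x _
    simp
  inv_mem' := by
    intro a ha x hx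
    have h1 : x = a * x * a⁻¹ := (ha x hx).symm
    have h2 : a⁻¹ * x * a⁻¹⁻¹ = a⁻¹ * (a * x * a⁻¹) * a⁻¹⁻¹ := by rw [← h1]
    rw [h2]
    group

/-- the second case -/
theorem two {p : ℕ} (hp : p.Prime) (b : ℕ) [Finite X] (N : Subgroup X) [N.Normal]
    (h : ∀ x : X, x ^ p ^ b = 1 → x ^ p ^ (b - 1) = 1) :
    ∀ x : X ⧸ N, x ^ p ^ b = 1 → x ^ p ^ (b - 1) = 1 := by
  rcases Nat.eq_zero_or_pos b with hb | hb
  · subst hb
    intro x hx
    exact hx
  intro z hz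
  obtain ⟨x, rfl⟩ := QuotientGroup.mk_surjective z
  have hX0 : Nat.card X ≠ 0 := Nat.card_pos.ne'
  obtain ⟨s0, hs0⟩ := Pool.Agent.Lib.MP1aae89.exists_pex hp hX0
  have hcard : x ^ Nat.card X = 1 := pow_card_eq_one'
  have h2 : (x ^ s0) ^ ordProj[p] (Nat.card X) = 1 :=
    Pool.Agent.Lib.MP1aae89.pp_pow hs0 hcard
  have h3 : ∀ J : ℕ, (x ^ s0) ^ p ^ J = 1 → (x ^ s0) ^ p ^ (b - 1) = 1 := by
    intro J
    induction J with
    | zero =>
      intro hJ
      rw [pow_zero, pow_one] at hJ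
      rw [hJ, one_pow]
    | succ J ih =>
      intro hJ
      by_cases hJb : J + 1 ≤ b - 1
      · have : b - 1 = (J + 1) + (b - 1 - (J + 1)) := by omega
        rw [this, pow_add, pow_mul, hJ, one_pow]
      · apply ih
        have e1 : J + 1 = (J + 1 - b) + b := by omega
        have e2 : J = (J + 1 - b) + (b - 1) := by omega
        rw [e1, pow_add, pow_mul] at hJ
        have h4 := h _ hJ
        rw [← pow_mul, ← pow_add, ← e2] at h4
        exact h4
  have h4 := h3 _ h2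
  -- `x^s0` and `x` have the same image
  have h5 : (x : X ⧸ N) ^ s0 = (x : X ⧸ N) := by
    have h6 : orderOf (x : X ⧸ N) ∣ p ^ b := orderOf_dvd_of_pow_eq_one hz
    have h7 : orderOf (x : X ⧸ N) ∣ Nat.card X := by
      apply orderOf_dvd_of_pow_eq_one
      rw [← QuotientGroup.mk_pow, hcard, QuotientGroup.mk_one]
    obtain ⟨j, _, hj⟩ := (Nat.dvd_prime_pow hp).1 h6
    have h8 : orderOf (x : X ⧸ N) ∣ ordProj[p] (Nat.card X) := by
      rw [hj] at h7 ⊢
      apply pow_dvd_pow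
      exact (hp.pow_dvd_iff_le_factorization hX0).1 h7
    have h9 : (x : X ⧸ N) ^ s0 = (x : X ⧸ N) ^ 1 :=
      pow_eq_pow_iff_modEq.2 (hs0.one.of_dvd h8)
    rw [h9, pow_one]
  have h6 : ((x ^ s0 : X) : X ⧸ N) ^ p ^ (b - 1) = 1 := by
    rw [← QuotientGroup.mk_pow, h4, QuotientGroup.mk_one]
  rw [QuotientGroup.mk_pow, h5] at h6
  exact h6

/-- the image of a Sylow subgroup -/
theorem card_syl {p : ℕ} (hp : p.Prime) [Finite X] (N Q : Subgroup X) [N.Normal]
    (hQ : Nat.card Q = p ^ (Nat.card X).factorization p) :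
    Nat.card (Q.map (QuotientGroup.mk' N)) = p ^ (Nat.card (X ⧸ N)).factorization p := by
  have h1 := card_map N Q
  rw [CNQ.card_inf hp Q N hQ, hQ] at h1
  have h2 : Nat.card X = Nat.card (X ⧸ N) * Nat.card N := Subgroup.card_eq_card_quotient_mul_card_subgroup N
  have h3 : Nat.card (X ⧸ N) ≠ 0 := Nat.card_pos.ne'
  have h4 : Nat.card N ≠ 0 := Nat.card_pos.ne'
  rw [h2, Nat.factorization_mul h3 h4, Finsupp.add_apply, pow_add] at h1
  exact Nat.eq_of_mul_eq_mul_right (pow_pos hp.pos _) h1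

/-- the normalizer of `Q` maps onto the normalizer of its image -/
theorem nm_map {p : ℕ} (hp : p.Prime) [Finite X] (N Q : Subgroup X) [N.Normal]
    (hQ : Nat.card Q = p ^ (Nat.card X).factorization p) :
    nm (Q.map (QuotientGroup.mk' N)) ≤ (nm Q).map (QuotientGroup.mk' N) := by
  have := Fact.mk hp
  intro g' hg'
  obtain ⟨g, rfl⟩ := QuotientGroup.mk'_surjective N g'
  set π := QuotientGroup.mk' N with hπ
  set S : Subgroup X := (Q.map π).comap π with hS
  have hQS : Q ≤ S := Subgroup.le_comap_map π Q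
  let R : Subgroup X := Q.map (MulAut.conj g).toMonoidHom
  have hRS : R ≤ S := by
    rintro _ ⟨x, hx, rfl⟩
    show π (g * x * g⁻¹) ∈ Q.map π
    rw [map_mul, map_mul, map_inv]
    exact hg' _ (Subgroup.mem_map_of_mem π hx)
  have hRc : Nat.card R = Nat.card Q :=
    Subgroup.card_map_of_injective (MulAut.conj g).injective
  have hQi : ¬ p ∣ Q.index := by
    intro hd
    have h1 : Nat.card Q * Q.index = Nat.card X := Q.card_mul_index
    have h3 : Q.index ≠ 0 := Q.index_ne_zero_of_finite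
    have h4 : (Nat.card X).factorization p = (Nat.card X).factorization p +
        Q.index.factorization p := by
      conv_lhs => rw [← h1, hQ, Nat.factorization_mul (pow_ne_zero _ hp.ne_zero) h3,
        Finsupp.add_apply, hp.factorization_pow, Finsupp.single_eq_same]
    have h5 := hp.factorization_pos_of_dvd h3 hd
    omega
  have hRi : ¬ p ∣ R.index := by
    have h1 : Nat.card Q * Q.index = Nat.card X := Q.card_mul_index
    have h2 : Nat.card R * R.index = Nat.card X := R.card_mul_index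
    rw [hRc, ← h1] at h2
    have h3 : R.index = Q.index := Nat.eq_of_mul_eq_mul_left Nat.card_pos h2
    rw [h3]
    exact hQi
  have hQp : IsPGroup p Q := IsPGroup.of_card hQ
  have hRp : IsPGroup p R := IsPGroup.of_card (hRc.trans hQ)
  obtain ⟨c, hc, hcc⟩ := WTP.syl_conj hp hRp hQp hRi hQi hRS hQS
  -- `c = q n`
  obtain ⟨q, hq, hqc⟩ : ∃ q ∈ Q, π q = π c := hc
  have hn : q⁻¹ * c ∈ N := by
    rw [← QuotientGroup.eq_one_iff]
    show π (q⁻¹ * c) = 1
    rw [map_mul, map_inv, hqc, inv_mul_cancel]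
  refine ⟨q⁻¹ * c * g, ?_, ?_⟩
  · intro x hx
    have h1 := hcc (g * x * g⁻¹) ⟨x, hx, rfl⟩
    have h2 := Q.mul_mem (Q.mul_mem (Q.inv_mem hq) h1) hq
    rwa [show q⁻¹ * (c * (g * x * g⁻¹) * c⁻¹) * q = q⁻¹ * c * g * x * (q⁻¹ * c * g)⁻¹ by
      group] at h2
  · rw [map_mul]
    have : π (q⁻¹ * c) = 1 := (QuotientGroup.eq_one_iff _).2 hn
    rw [this, one_mul]

end CCQ

theorem specCCQ : SpecCCQ := by
  intro p b hp X _ _ N _ h
  rcases h with ⟨e, he⟩ | h | ⟨Q, hQ, hab, hlt⟩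
  · left
    have h1 : Nat.card (X ⧸ N) ∣ p ^ e := by
      rw [← he]
      exact Subgroup.card_quotient_dvd_card N
    obtain ⟨k, _, hk⟩ := (Nat.dvd_prime_pow hp).1 h1
    exact ⟨k, hk⟩
  · right; left
    exact CCQ.two hp b N h
  · right; right
    set π := QuotientGroup.mk' N with hπ
    refine ⟨Q.map π, CCQ.card_syl hp N Q hQ, ?_, ?_⟩
    · rintro _ ⟨x, hx, rfl⟩ _ ⟨y, hy, rfl⟩
      rw [← map_mul, ← map_mul, hab x hx y hy]
    · have e1 : Nat.card {g : X // ∀ x ∈ Q, g * x * g⁻¹ ∈ Q} = Nat.card (CCQ.nm Q) := rfl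
      have e2 : Nat.card {g : X // ∀ x ∈ Q, g * x * g⁻¹ = x} = Nat.card (CCQ.cn Q) := rfl
      have e3 : Nat.card {g : X ⧸ N // ∀ x ∈ Q.map π, g * x * g⁻¹ ∈ Q.map π} =
          Nat.card (CCQ.nm (Q.map π)) := rfl
      have e4 : Nat.card {g : X ⧸ N // ∀ x ∈ Q.map π, g * x * g⁻¹ = x} =
          Nat.card (CCQ.cn (Q.map π)) := rfl
      rw [e1, e2] at hlt
      rw [e3, e4]
      have h1 : Nat.card (CCQ.nm (Q.map π)) ≤ Nat.card ((CCQ.nm Q).map π) :=
        Subgroup.card_le_of_le (CCQ.nm_map hp N Q hQ)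
      have h2 : Nat.card ((CCQ.cn Q).map π) ≤ Nat.card (CCQ.cn (Q.map π)) := by
        apply Subgroup.card_le_of_le
        rintro _ ⟨g, hg, rfl⟩
        rintro _ ⟨x, hx, rfl⟩
        rw [← map_mul, ← map_inv, ← map_mul, hg x hx]
      have h3 := CCQ.card_map N (CCQ.nm Q)
      have h4 := CCQ.card_map N (CCQ.cn Q)
      have h5 : Nat.card ↥(CCQ.cn Q ⊓ N) ≤ Nat.card ↥(CCQ.nm Q ⊓ N) := by
        apply Subgroup.card_le_of_le
        apply inf_le_inf_right
        intro g hg x hx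
        rw [hg x hx]
        exact hx
      have h6 : 0 < Nat.card ↥(CCQ.cn Q ⊓ N) := Nat.card_pos
      rw [← h3, ← h4] at hlt
      rw [← hπ] at hlt
      have h7 : Nat.card ((CCQ.nm Q).map π) * Nat.card ↥(CCQ.cn Q ⊓ N) <
          p * Nat.card ((CCQ.cn Q).map π) * Nat.card ↥(CCQ.cn Q ⊓ N) := by
        calc _ ≤ Nat.card ((CCQ.nm Q).map π) * Nat.card ↥(CCQ.nm Q ⊓ N) :=
              Nat.mul_le_mul_left _ h5
          _ < p * (Nat.card ((CCQ.cn Q).map π) * Nat.card ↥(CCQ.cn Q ⊓ N)) := hlt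
          _ = _ := by ring
      have h8 := lt_of_mul_lt_mul_right h7 (Nat.zero_le _)
      calc _ ≤ Nat.card ((CCQ.nm Q).map π) := h1
        _ < p * Nat.card ((CCQ.cn Q).map π) := h8
        _ ≤ _ := Nat.mul_le_mul_left _ h2

end Pool.Agent.Lib.MP_1aae89_al.W5
end

section
/-!
# CCT: subgroups of index prime to `p` of the groups in the class `CC`
-/
set_option autoImplicit false

namespace Pool.Agent.Lib.MP_1aae89_al.W5

namespace CCT

/-- a subgroup of index prime to `p` contains a Sylow `p`-subgroup -/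
theorem exists_sylow {p : ℕ} (hp : p.Prime) {X : Type} [Group X] [Finite X] (T : Subgroup X)
    (hT : ¬ p ∣ T.index) :
    ∃ P : Subgroup X, P ≤ T ∧ Nat.card P = p ^ (Nat.card X).factorization p ∧
      Nat.card P = p ^ (Nat.card T).factorization p := by
  have : Fact p.Prime := ⟨hp⟩
  have hT0 : Nat.card T ≠ 0 := Nat.card_pos.ne'
  have hI0 : T.index ≠ 0 := Subgroup.index_ne_zero_of_finite
  have hf : (Nat.card X).factorization p = (Nat.card T).factorization p := by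
    rw [← T.card_mul_index, Nat.factorization_mul hT0 hI0, Finsupp.add_apply,
      Nat.factorization_eq_zero_of_not_dvd hT, add_zero]
  obtain ⟨S⟩ : Nonempty (Sylow p T) := inferInstance
  have h1 : Nat.card (S : Subgroup T) = p ^ (Nat.card T).factorization p :=
    Sylow.card_eq_multiplicity S
  have h2 : Nat.card ((S : Subgroup T).map T.subtype) = Nat.card (S : Subgroup T) :=
    (Nat.card_congr ((S : Subgroup T).equivMapOfInjective T.subtype
      T.subtype_injective).toEquiv).symm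
  refine ⟨(S : Subgroup T).map T.subtype, Subgroup.map_subtype_le _, ?_, ?_⟩
  · rw [h2, h1, hf]
  · rw [h2, h1]

/-- conjugate subgroups have the same number of normalizing elements -/
theorem card_norm {X : Type} [Group X] [Finite X] {P Q : Subgroup X} (g : X)
    (hg : ∀ x, x ∈ Q ↔ g⁻¹ * x * g ∈ P) :
    Nat.card {h : X // ∀ x ∈ P, h * x * h⁻¹ ∈ P} =
      Nat.card {h : X // ∀ x ∈ Q, h * x * h⁻¹ ∈ Q} := by
  refine Nat.card_congr ((MulAut.conj g).toEquiv.subtypeEquiv fun h => ?_)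
  change _ ↔ ∀ x ∈ Q, (g * h * g⁻¹) * x * (g * h * g⁻¹)⁻¹ ∈ Q
  constructor
  · intro H x hx
    rw [hg]
    have e : g⁻¹ * ((g * h * g⁻¹) * x * (g * h * g⁻¹)⁻¹) * g = h * (g⁻¹ * x * g) * h⁻¹ := by group
    rw [e]
    exact H _ ((hg x).1 hx)
  · intro H x hx
    have h1 : g * x * g⁻¹ ∈ Q := by
      rw [hg]
      have e : g⁻¹ * (g * x * g⁻¹) * g = x := by group
      rw [e]
      exact hx
    have h2 := (hg _).1 (H _ h1)
    have e : g⁻¹ * ((g * h * g⁻¹) * (g * x * g⁻¹) * (g * h * g⁻¹)⁻¹) * g = h * x * h⁻¹ := by group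
    rwa [e] at h2

/-- conjugate subgroups have the same number of centralizing elements -/
theorem card_cent {X : Type} [Group X] [Finite X] {P Q : Subgroup X} (g : X)
    (hg : ∀ x, x ∈ Q ↔ g⁻¹ * x * g ∈ P) :
    Nat.card {h : X // ∀ x ∈ P, h * x * h⁻¹ = x} =
      Nat.card {h : X // ∀ x ∈ Q, h * x * h⁻¹ = x} := by
  refine Nat.card_congr ((MulAut.conj g).toEquiv.subtypeEquiv fun h => ?_)
  change _ ↔ ∀ x ∈ Q, (g * h * g⁻¹) * x * (g * h * g⁻¹)⁻¹ = x
  constructor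
  · intro H x hx
    have h1 := H _ ((hg x).1 hx)
    have e : (g * h * g⁻¹) * x * (g * h * g⁻¹)⁻¹ = g * (h * (g⁻¹ * x * g) * h⁻¹) * g⁻¹ := by group
    rw [e, h1]
    group
  · intro H x hx
    have h1 : g * x * g⁻¹ ∈ Q := by
      rw [hg]
      have e : g⁻¹ * (g * x * g⁻¹) * g = x := by group
      rw [e]
      exact hx
    have h2 := H _ h1
    have e : (g * h * g⁻¹) * (g * x * g⁻¹) * (g * h * g⁻¹)⁻¹ = g * (h * x * h⁻¹) * g⁻¹ := by group
    rw [e] at h2
    exact mul_left_cancel (mul_right_cancel h2)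

end CCT

theorem specCCT : SpecCCT := by
  intro p b hp X _ _ T hT h
  rcases h with ⟨e, he⟩ | h | ⟨Q, hQ, hab, hlt⟩
  · left
    have h1 : Nat.card T ∣ p ^ e := he ▸ Subgroup.card_subgroup_dvd_card T
    obtain ⟨j, _, hj⟩ := (Nat.dvd_prime_pow hp).1 h1
    exact ⟨j, hj⟩
  · right; left
    intro x hx
    have h1 : (x : X) ^ p ^ b = 1 := by
      rw [← Subgroup.coe_pow, hx, Subgroup.coe_one]
    apply Subtype.ext
    rw [Subgroup.coe_pow, Subgroup.coe_one]
    exact h x h1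
  · right; right
    obtain ⟨P, hPT, hP1, hP2⟩ := CCT.exists_sylow hp T hT
    obtain ⟨g, hg⟩ := CCN.conj hp hP1 hQ
    have habP : ∀ x ∈ P, ∀ y ∈ P, x * y = y * x := by
      have hm : ∀ x ∈ P, g * x * g⁻¹ ∈ Q := by
        intro x hx
        rw [hg]
        have e : g⁻¹ * (g * x * g⁻¹) * g = x := by group
        rw [e]
        exact hx
      intro x hx y hy
      have h1 := hab _ (hm x hx) _ (hm y hy)
      have e1 : (g * x * g⁻¹) * (g * y * g⁻¹) = g * (x * y) * g⁻¹ := by group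
      have e2 : (g * y * g⁻¹) * (g * x * g⁻¹) = g * (y * x) * g⁻¹ := by group
      rw [e1, e2] at h1
      exact mul_left_cancel (mul_right_cancel h1)
    rw [← CCT.card_norm g hg, ← CCT.card_cent g hg] at hlt
    refine ⟨P.subgroupOf T, ?_, ?_, ?_⟩
    · rw [← hP2]
      exact Nat.card_congr (Subgroup.subgroupOfEquivOfLe hPT).toEquiv
    · intro x hx y hy
      exact Subtype.ext (habP x hx y hy)
    · have h1 := CCN.count P T fun g _ hg' => ⟨g, fun x hx => by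
        exact (Subgroup.mem_inf.1 (hg' x (Subgroup.mem_inf.2 ⟨hx, hPT hx⟩))).1, fun x _ => rfl⟩
      set a := Nat.card {g : T // ∀ x ∈ P.subgroupOf T, g * x * g⁻¹ ∈ P.subgroupOf T}
      set c := Nat.card {g : X // ∀ x ∈ P, g * x * g⁻¹ = x}
      set d := Nat.card {g : X // ∀ x ∈ P, g * x * g⁻¹ ∈ P}
      set e := Nat.card {g : T // ∀ x ∈ P.subgroupOf T, g * x * g⁻¹ = x}
      have hepos : 0 < e := by
        have : Nonempty {g : T // ∀ x ∈ P.subgroupOf T, g * x * g⁻¹ = x} :=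
          ⟨⟨1, fun x _ => by simp⟩⟩
        exact Nat.card_pos
      have h2 : a * c < (p * e) * c := by
        calc a * c ≤ d * e := h1
          _ < (p * c) * e := Nat.mul_lt_mul_of_pos_right hlt hepos
          _ = (p * e) * c := by ring
      exact lt_of_mul_lt_mul_right h2 (Nat.zero_le c)

end Pool.Agent.Lib.MP_1aae89_al.W5
end

section
/-!
# W5, module PRJ: `P ∩ N = (P ∩ H₀) (P ∩ H')`
-/
set_option autoImplicit false

namespace Pool.Agent.Lib.MP_1aae89_al.W5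

open Pool.Agent.Lib.MP_1aae89_al Pool.Agent.Lib.MP_1aae89_al.BF Pool.Agent.Lib.MP_1aae89_al.W3
  Pool.Agent.Lib.MP_1aae89_al.W4 Finset

namespace PRJ

theorem card_sub {X : Type} [Group X] (P F : Subgroup X) :
    Nat.card (F.subgroupOf P) = Nat.card ↥(P ⊓ F) := by
  rw [← Subgroup.inf_subgroupOf_left F P]
  exact Nat.card_congr (Subgroup.subgroupOfEquivOfLe inf_le_left).toEquiv

theorem split {p : ℕ} (hp : p.Prime) {X : Type} [Group X] [Finite X] (S A B : Subgroup X)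
    [hA : A.Normal] [hB : B.Normal] (hS : Nat.card S = p ^ (Nat.card X).factorization p)
    (hAB : ∀ x : X, x ∈ B ⊔ A) : ∀ x ∈ S, ∃ a ∈ S ⊓ A, ∃ b ∈ S ⊓ B, x = a * b := by
  have hI : (A ⊓ B).Normal := inferInstance
  have c1 := W4.CNQ.card_inf hp S A hS
  have c2 := W4.CNQ.card_inf hp S B hS
  have c3 := W4.CNQ.card_inf hp S (A ⊓ B) hS
  have e1 := W4.CNQ.card_mul A B
  have hT : B ⊔ A = ⊤ := by
    rw [eq_top_iff]
    intro x _
    exact hAB x
  rw [hT, Subgroup.card_top] at e1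
  have hX0 : Nat.card X ≠ 0 := Nat.card_pos.ne'
  have hA0 : Nat.card A ≠ 0 := Nat.card_pos.ne'
  have hB0 : Nat.card B ≠ 0 := Nat.card_pos.ne'
  have hI0 : Nat.card ↥(A ⊓ B) ≠ 0 := Nat.card_pos.ne'
  have e2 := congrArg (fun n => n.factorization p) e1
  simp only [Nat.factorization_mul hX0 hI0, Nat.factorization_mul hB0 hA0, Finsupp.add_apply] at e2
  have e3 := W4.CNQ.card_mul (A.subgroupOf S) (B.subgroupOf S)
  have e4 : A.subgroupOf S ⊓ B.subgroupOf S = (A ⊓ B).subgroupOf S := rfl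
  rw [e4, card_sub, card_sub, card_sub, c1, c2, c3, ← pow_add, ← e2, pow_add] at e3
  have e5 : Nat.card ↥(B.subgroupOf S ⊔ A.subgroupOf S) = p ^ (Nat.card X).factorization p :=
    Nat.eq_of_mul_eq_mul_right (pow_pos hp.pos _) e3
  rw [← hS] at e5
  have e6 : A.subgroupOf S ⊔ B.subgroupOf S = ⊤ := by
    rw [sup_comm]
    exact Subgroup.eq_top_of_card_eq _ e5
  intro x hx
  have e7 : (⟨x, hx⟩ : S) ∈ A.subgroupOf S ⊔ B.subgroupOf S := by
    rw [e6]
    exact Subgroup.mem_top _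
  obtain ⟨a, ha, b, hb, hab⟩ := Subgroup.mem_sup_of_normal_right.1 e7
  refine ⟨a, ⟨a.2, ha⟩, b, ⟨b.2, hb⟩, ?_⟩
  exact (congrArg (fun z : S => (z : X)) hab).symm

end PRJ

open PRJ in
theorem specPRJ (hPRD : SpecPRD) : SpecPRJ := by
  intro p hp Y _ _ Y₁ H₀ P wy hP x hxP hxN
  obtain ⟨h1, h2, _, _, h5, h6, _⟩ := hPRD p hp Y₁ H₀ wy
  have hNn : (Subgroup.normalClosure (H₀ : Set Y)).Normal := Subgroup.normalClosure_normal
  set N : Subgroup Y := Subgroup.normalClosure (H₀ : Set Y) with hN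
  have hA : (H₀.subgroupOf N).Normal := by
    refine ⟨fun a ha g => ?_⟩
    exact wy.n0 g (h6 g.2) a ha
  have hB : ((HC Y₁ H₀).subgroupOf N).Normal := by
    refine ⟨fun a ha g => ?_⟩
    exact h2 g (h6 g.2) a ha
  have hS : Nat.card (P.subgroupOf N) = p ^ (Nat.card N).factorization p := by
    rw [card_sub, inf_comm]
    exact W4.CNQ.card_inf hp P N hP
  have hAB : ∀ y : N, y ∈ (HC Y₁ H₀).subgroupOf N ⊔ H₀.subgroupOf N := by
    intro y
    obtain ⟨a, ha, b, hb, hab⟩ := h5 y y.2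
    have haN : a ∈ N := Subgroup.subset_normalClosure ha
    have hbN : b ∈ N := by
      have : b = a⁻¹ * (y : Y) := by rw [hab]; group
      rw [this]
      exact N.mul_mem (N.inv_mem haN) y.2
    have hy : y = ⟨a, haN⟩ * ⟨b, hbN⟩ := Subtype.ext hab
    rw [hy]
    exact Subgroup.mul_mem _ (Subgroup.mem_sup_right ha) (Subgroup.mem_sup_left hb)
  obtain ⟨a, ha, b, hb, hab⟩ := split hp (P.subgroupOf N) (H₀.subgroupOf N)
    ((HC Y₁ H₀).subgroupOf N) hS hAB ⟨x, hxN⟩ hxP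
  exact ⟨a, ⟨ha.1, ha.2⟩, b, ⟨hb.1, hb.2⟩, congrArg (fun z : N => (z : Y)) hab⟩

end Pool.Agent.Lib.MP_1aae89_al.W5
end

section
/-!
# MCF: `ManyClasses` and the criterion `CrtF`
-/
set_option autoImplicit false

namespace Pool.Agent.Lib.MP_1aae89_al.W6

open Pool.Agent.Lib.MP_1aae89_al Pool.Agent.Lib.MP_1aae89_al.BF Pool.Agent.Lib.MP_1aae89_al.W3
  Pool.Agent.Lib.MP_1aae89_al.W4 Finset

namespace MCF

/-- the kernel of a character of order `p` is a maximal subgroup -/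
theorem ker_coatom {p : ℕ} (hp : p.Prime) {P : Type} [Group P] (α : Lin P) (h1 : α ^ p = 1)
    (hne : α ≠ 1) : IsCoatom (MonoidHom.ker (α : P →* ℂˣ)) := by
  have hpow : ∀ x, (α x) ^ p = 1 := fun x => by
    rw [← Lin.pow_apply, h1, Lin.one_apply]
  refine ⟨fun htop => hne ?_, fun K hK => ?_⟩
  · apply Lin.ext
    intro x
    have : x ∈ MonoidHom.ker (α : P →* ℂˣ) := by rw [htop]; exact Subgroup.mem_top x
    rw [Lin.one_apply]
    exact this
  · obtain ⟨y, hyK, hy⟩ := SetLike.exists_of_lt hK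
    have hy1 : α y ≠ 1 := hy
    have hprim : IsPrimitiveRoot (α y) p := by
      refine ⟨hpow y, fun l hl => ?_⟩
      rcases (Nat.Prime.eq_one_or_self_of_dvd hp _ (orderOf_dvd_of_pow_eq_one (hpow y))) with h | h
      · exact absurd (orderOf_eq_one_iff.1 h) hy1
      · rw [← h]
        exact orderOf_dvd_of_pow_eq_one hl
    have hne0 : NeZero p := ⟨hp.ne_zero⟩
    rw [eq_top_iff]
    intro z _
    obtain ⟨j, -, hj⟩ := IsPrimitiveRoot.eq_pow_of_pow_eq_one
      ((IsPrimitiveRoot.coe_units_iff).2 hprim) (ξ := ((α z : ℂˣ) : ℂ)) (by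
        have h3 := congrArg Units.val (hpow z)
        rwa [Units.val_pow_eq_pow_val, Units.val_one] at h3)
    have h2 : α (z * (y ^ j)⁻¹) = 1 := by
      rw [map_mul, map_inv, map_pow]
      have h3 : (α y) ^ j = α z := by
        apply Units.ext
        rw [Units.val_pow_eq_pow_val]
        exact hj
      rw [h3, mul_inv_cancel]
    have h4 : z * (y ^ j)⁻¹ ∈ K := hK.le h2
    have h5 : z = z * (y ^ j)⁻¹ * y ^ j := by group
    rw [h5]
    exact mul_mem h4 (pow_mem hyK j)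

/-- the Frattini subgroup of a `p`-group -/
theorem mem_frattini {p : ℕ} (hp : p.Prime) {P : Type} [Group P] [Finite P] {e : ℕ}
    (hP : Nat.card P = p ^ e) (x : P) : x ∈ frattini P ↔ x ∈ CFC.Ph p P := by
  constructor
  · intro hx α hα
    by_cases h1 : α = 1
    · rw [h1, Lin.one_apply]
    · exact frattini_le_coatom (ker_coatom hp α hα h1) hx
  · intro hx
    unfold frattini Order.radical
    rw [Subgroup.mem_iInf]
    intro H
    rw [Subgroup.mem_iInf]
    intro hH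
    have hco : IsCoatom H := hH
    have : Fact p.Prime := ⟨hp⟩
    have : Fintype P := Fintype.ofFinite P
    obtain ⟨ε, h1, h2, h3⟩ := exists_eps hP H hco.1
    have h4 : H ≤ MonoidHom.ker (ε : P →* ℂˣ) := fun y hy => h3 y hy
    have h5 : H = MonoidHom.ker (ε : P →* ℂˣ) := by
      rcases hco.le_iff.1 h4 with h6 | h6
      · exfalso
        apply h1
        apply Lin.ext
        intro y
        have : y ∈ MonoidHom.ker (ε : P →* ℂˣ) := by rw [h6]; exact Subgroup.mem_top y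
        rw [Lin.one_apply]
        exact this
      · exact h6.symm
    rw [h5]
    exact hx ε h2

theorem nF_eq_index {p : ℕ} (hp : p.Prime) {F : Type} [Group F] [Finite F] (P : Subgroup F) {e : ℕ}
    (hP : Nat.card P = p ^ e) : nF p P = (frattini P).index := by
  have h1 := CFC.card_Ph p (P := P)
  have h2 := (frattini P).card_mul_index
  have h3 : Nat.card (CFC.Ph p P) = Nat.card (frattini P) :=
    Nat.card_congr (Equiv.subtypeEquivRight fun x => (mem_frattini hp hP x).symm)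
  rw [h3] at h1
  have h4 : 0 < Nat.card (frattini P) := Nat.card_pos
  rw [← h2, mul_comm] at h1
  exact Nat.eq_of_mul_eq_mul_left h4 h1

theorem quot_eq {p : ℕ} (hp : p.Prime) {F : Type} [Group F] [Finite F] (P : Subgroup F) {e : ℕ}
    (hP : Nat.card P = p ^ e) {u v : F} (h : RelF p P u v) (hu : u ∈ P) :
    ∃ hv : v ∈ P, Quot.mk (Fus P) ⟨u, hu⟩ = Quot.mk (Fus P) ⟨v, hv⟩ := by
  have key : ∀ {x y : F}, Fq p P x y → ∃ (hx : x ∈ P) (hy : y ∈ P),
      Quot.mk (Fus P) ⟨x, hx⟩ = Quot.mk (Fus P) ⟨y, hy⟩ := by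
    rintro x y ⟨hx, hy, h⟩
    refine ⟨hx, hy, Quot.sound (Or.inr ?_)⟩
    rw [mem_frattini hp hP]
    intro α hα
    rw [map_mul, map_inv, h α hα, inv_mul_cancel]
  unfold RelF at h
  induction h with
  | refl => exact ⟨hu, rfl⟩
  | tail _ hstep ih =>
    obtain ⟨hw, h1⟩ := ih
    obtain ⟨x, g, h2, h3⟩ := hstep
    obtain ⟨_, hx, h4⟩ := key h2
    obtain ⟨hgx, hv, h5⟩ := key h3
    refine ⟨hv, h1.trans (h4.trans (Eq.trans ?_ h5))⟩
    exact Quot.sound (Or.inl ⟨g, rfl⟩)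

end MCF

open MCF in
/-- `ManyClasses` implies `CrtF` -/
theorem crtF_of_many {p : ℕ} (hp : p.Prime) {F : Type} [Group F] [Finite F] (h : ManyClasses p F) :
    ∃ P : Subgroup F, Nat.card P = p ^ (Nat.card F).factorization p ∧ CrtF p P := by
  classical
  have : Fact p.Prime := ⟨hp⟩
  obtain ⟨S, hS⟩ := h
  have hc : Nat.card (S : Subgroup F) = p ^ (Nat.card F).factorization p := S.card_eq_multiplicity
  have : Fintype (Quot (Fus (S : Subgroup F))) := Fintype.ofFinite _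
  let s : Quot (Fus (S : Subgroup F)) → F := fun q => ((Quot.out q : (S : Subgroup F)) : F)
  have hs : ∀ q : Quot (Fus (S : Subgroup F)), Quot.mk _ (Quot.out q) = q := fun q => Quot.out_eq q
  have hinj : Function.Injective s := by
    intro q q' h1
    have h2 : Quot.out q = Quot.out q' := Subtype.ext h1
    rw [← hs q, h2, hs]
  refine ⟨(S : Subgroup F), hc, Finset.univ.image s, ?_, ?_, ?_⟩
  · intro u hu
    obtain ⟨q, -, rfl⟩ := Finset.mem_image.1 hu
    exact (Quot.out q).2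
  · intro u hu v hv h1
    obtain ⟨q, -, rfl⟩ := Finset.mem_image.1 hu
    obtain ⟨q', -, rfl⟩ := Finset.mem_image.1 hv
    obtain ⟨h2, h3⟩ := quot_eq hp (S : Subgroup F) hc h1 (Quot.out q).2
    have h4 : Quot.mk (Fus (S : Subgroup F)) (Quot.out q) = Quot.mk _ (Quot.out q') := h3
    rw [hs, hs] at h4
    rw [h4]
  · rw [Finset.card_image_of_injective _ hinj, Finset.card_univ, ← Nat.card_eq_fintype_card,
      nF_eq_index hp (S : Subgroup F) hc, mul_comm]
    exact hS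

end Pool.Agent.Lib.MP_1aae89_al.W6
end
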