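import Pool.Agent.Lib.MP_1aae89_al.W6.SpecB
import Pool.Agent.Lib.MP_1aae89_al.W6.Q1D
import Pool.Agent.Lib.MP_1aae89_al.W.SCA

section
/-!
# Module IND: combinations of induced characters
-/
set_option autoImplicit false

namespace Pool.Agent.Lib.MP_1aae89_al.W6

open Pool.Agent.Lib.MP_1aae89_al Pool.Agent.Lib.MP_1aae89_al.BF Pool.Agent.Lib.MP_1aae89_al.W3 Finset
open Pool.Agent.Lib.MP1aae89 (Pex exists_pex)

namespace IND

open Classical in
/-- the functional `dl` in terms of sums -/
theorem dl_spec {P : Type} [Group P] [Fintype P] (q : ℕ) {f : P → ℂ} (hf : IsCharacter f) (k : Lin P) :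
    ((dl q f k : ℕ) : ℂ) = ∑ η ∈ univ.filter (fun η : Lin P => η ^ q = k),
      (Fintype.card P : ℂ)⁻¹ * ∑ x, f x * (((η x)⁻¹ : ℂˣ) : ℂ) := by
  unfold dl
  rw [Nat.cast_sum]
  refine sum_congr ?_ fun η _ => ml_spec hf η
  ext η
  simp only [mem_filter]

/-- the index of a subgroup which contains a conjugate of a Sylow subgroup -/
theorem index_not_dvd {p : ℕ} (hp : p.Prime) {Y : Type} [Group Y] [Finite Y] (T P : Subgroup Y)
    (hP : Nat.card P = p ^ (Nat.card Y).factorization p) (x : Y) (hx : ∀ y ∈ P, x⁻¹ * y * x ∈ T) :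
    ¬ p ∣ T.index := by
  let f : P →* T :=
    { toFun := fun y => ⟨x⁻¹ * (y : Y) * x, hx y y.2⟩
      map_one' := by
        refine Subtype.ext ?_
        change x⁻¹ * 1 * x = 1
        group
      map_mul' := fun y z => by
        refine Subtype.ext ?_
        change x⁻¹ * (y * z : Y) * x = (x⁻¹ * y * x) * (x⁻¹ * z * x)
        group }
  have hf : Function.Injective f := by
    intro y z h
    have h1 : x⁻¹ * (y : Y) * x = x⁻¹ * (z : Y) * x := congrArg Subtype.val h
    refine Subtype.ext ?_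
    exact mul_left_cancel (mul_right_cancel h1)
  have h1 : Nat.card P ∣ Nat.card T := Subgroup.card_dvd_of_injective f hf
  intro h2
  have h3 : p ^ (Nat.card Y).factorization p * p ∣ Nat.card T * T.index := by
    rw [← hP]
    exact mul_dvd_mul h1 h2
  rw [Subgroup.card_mul_index, ← pow_succ] at h3
  have h4 := (hp.pow_dvd_iff_le_factorization Nat.card_pos.ne').1 h3
  omega

end IND

open IND in
/-- **IND**. -/
theorem specIND (hSCK : SpecSCK) (hCMU : SpecCMU) (hLVF : SpecLVF) (hPRM : SpecPRM)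
    (hIDC : SpecIDC) : SpecIND := by
  intro p b hp hb Y _ _ P hP χ hχ K hcomb
  classical
  have : Fintype P := Fintype.ofFinite P
  obtain ⟨m, a, n, k, T, c, θ, hm, ha, hla, ha1, hn, hθ, hsum⟩ := hcomb
  have hpq : p ∣ p ^ (b - 1) := dvd_pow_self p (by omega)
  have hL : Nat.card Y ≠ 0 := Nat.card_pos.ne'
  obtain ⟨s0, hpex⟩ := exists_pex hp hL
  have hYL : ∀ y : Y, y ^ Nat.card Y = 1 := fun y => pow_card_eq_one'
  -- elements of `p`-power order are fixed by the power map `s0`
  have hs0 : ∀ (y : Y) (e : ℕ), y ^ p ^ e = 1 → y ^ s0 = y := fun y e h =>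
    (hPRM p hp _ s0 hL hpex).2.1 y e (hYL y) h
  -- (1) each term
  have step : ∀ j, p ∣ dl (p ^ (b - 1)) (fun x : P => ind (T j) (θ j) (x : Y)) (resL P K) := by
    intro j
    have : Fintype (T j) := Fintype.ofFinite (T j)
    obtain ⟨hθj, hcase⟩ := hθ j
    by_contra hcon
    obtain ⟨x, hx, hx2⟩ := hSCK p hp (T j) P _ hP (θ j) hθj K (p ^ (b - 1)) hpq hcon
    have hTi := index_not_dvd hp (T j) P hP x hx
    rcases hcase with h | ⟨α, β, hα, hlα, hαβ, t, i, ht, htK⟩
    · exact hTi h
    · have hP₁ : Nat.card (cjP (T j) P x) = p ^ (Nat.card (T j)).factorization p :=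
        INR_card (T j) P hP hTi x hx
      set P₁ := cjP (T j) P x with hP₁def
      have : Fintype P₁ := Fintype.ofFinite P₁
      have hTL : Nat.card (T j) ∣ Nat.card Y := Subgroup.card_subgroup_dvd_card (T j)
      have hfx := (hLVF p hp _ s0 hL hpex hTL α hα).1 (b - 1) (by omega) (by omega)
      have hP₁s0 : ∀ z : P₁, (z : T j) ^ s0 = z := by
        intro z
        refine Subtype.ext ?_
        rw [Subgroup.coe_pow]
        refine hs0 _ ((Nat.card (T j)).factorization p) ?_
        have h1 : z ^ Nat.card P₁ = 1 := pow_card_eq_one'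
        rw [hP₁] at h1
        have h2 := congrArg (fun w : P₁ => ((w : T j) : Y)) h1
        simpa using h2
      have hα2 : ∀ (t : ℕ) (z : P₁), α ((z ^ (1 + p ^ (b - 1) * t) : P₁) : T j) = α (z : T j) := by
        intro t z
        have h5 := hfx t (z : T j)
        rw [pow_add, mul_assoc, pow_mul, hP₁s0 z, ← pow_add] at h5
        rw [Subgroup.coe_pow]
        exact h5
      obtain ⟨nα, hnα⟩ := hα.one_nat
      have hβc : IsCharacter fun z : P₁ => ((β (z : T j) : ℂˣ) : ℂ) :=
        (isCharacter_linear β).comp P₁.subtype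
      have h6 := hCMU p hp _ hP₁ (fun z : P₁ => ((β (z : T j) : ℂˣ) : ℂ)) (fun z : P₁ => α (z : T j))
        hβc (hα.comp P₁.subtype) b hb hα2 nα (by
          change α ((1 : P₁) : T j) = nα
          rw [Subgroup.coe_one]
          exact hnα) (resL P₁ (resL (T j) K))
      have h7 : (fun z : P₁ => ((β (z : T j) : ℂˣ) : ℂ) * α (z : T j)) = fun z : P₁ => θ j (z : T j) := by
        funext z
        rw [hαβ]
        ring
      rw [h7] at h6
      have h8 : dl (p ^ (b - 1)) (fun z : P₁ => ((β (z : T j) : ℂˣ) : ℂ)) (resL P₁ (resL (T j) K)) ≠ 0 := by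
        intro h9
        rw [h9, mul_zero] at h6
        exact hx2 ((Nat.modEq_zero_iff_dvd).1 h6)
      unfold dl at h8
      obtain ⟨η, hη, hη0⟩ := Finset.exists_ne_zero_of_sum_ne_zero h8
      have hηq : η ^ p ^ (b - 1) = resL P₁ (resL (T j) K) := by
        simpa only [Finset.mem_filter, Finset.mem_univ, true_and] using hη
      -- `β = η` on `P₁`
      let β₁ : Lin P₁ := resL P₁ (β : Lin (T j))
      have hβη : ∀ z : P₁, ((β (z : T j) : ℂˣ) : ℂ) = ((η z : ℂˣ) : ℂ) := by
        intro z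
        have h9 := GPG_lin (GPG_rep_sch β₁) one_ne_zero η (by
          have h10 : (fun z : P₁ => (GPG_rep β₁ z).trace) = fun z : P₁ => ((β (z : T j) : ℂˣ) : ℂ) := by
            funext z
            rw [GPG_rep_trace]
            rfl
          rw [h10]
          exact hη0) z
        rw [GPG_rep_trace] at h9
        exact h9
      -- the element `t`
      obtain ⟨g, hg⟩ := GPG_conj hp P₁ hP₁ ht
      have h11 : β (g * t * g⁻¹) = β t := by
        rw [map_mul, map_mul, map_inv, mul_comm (β g), mul_assoc, mul_inv_cancel, mul_one]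
      have h12 : K ((g * t * g⁻¹ : T j) : Y) = K (t : Y) := by
        rw [Subgroup.coe_mul, Subgroup.coe_mul, Subgroup.coe_inv, map_mul, map_mul, map_inv,
          mul_comm (K (g : Y)), mul_assoc, mul_inv_cancel, mul_one]
      have h13 : β (g * t * g⁻¹) = η ⟨g * t * g⁻¹, hg⟩ := Units.ext (hβη ⟨g * t * g⁻¹, hg⟩)
      have h14 := congrArg (fun ν : Lin P₁ => ν ⟨g * t * g⁻¹, hg⟩) hηq
      rw [Lin.pow_apply, ← h13, h11] at h14
      apply htK
      rw [h14, resL_apply, resL_apply]
      exact h12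
  -- (2) linearity
  have hχP : IsCharacter fun x : P => χ (x : Y) := hχ.comp P.subtype
  have haP : IsCharacter fun x : P => a (x : Y) := ha.comp P.subtype
  have hprod : IsCharacter fun x : P => χ (x : Y) * a (x : Y) := W.specGCA1.1 _ _ hχP haP
  have hindP : ∀ j, IsCharacter fun x : P => ind (T j) (θ j) (x : Y) := fun j =>
    (hIDC (T j) (θ j) (hθ j).1).comp P.subtype
  have hlin : (m : ℂ) * ((dl (p ^ (b - 1)) (fun x : P => χ (x : Y) * a (x : Y)) (resL P K) : ℕ) : ℂ) =
      ∑ j, (c j : ℂ) * ((dl (p ^ (b - 1)) (fun x : P => ind (T j) (θ j) (x : Y)) (resL P K) : ℕ) : ℂ) := by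
    rw [dl_spec _ hprod, mul_sum]
    have h1 : ∀ j, (c j : ℂ) * ((dl (p ^ (b - 1)) (fun x : P => ind (T j) (θ j) (x : Y)) (resL P K) : ℕ) : ℂ) =
        ∑ η ∈ univ.filter (fun η : Lin P => η ^ p ^ (b - 1) = resL P K),
          (c j : ℂ) * ((Fintype.card P : ℂ)⁻¹ * ∑ x : P, ind (T j) (θ j) (x : Y) * (((η x)⁻¹ : ℂˣ) : ℂ)) := by
      intro j
      rw [dl_spec _ (hindP j), mul_sum]
    rw [sum_congr rfl fun j _ => h1 j, sum_comm]
    refine sum_congr rfl fun η _ => ?_
    have h2 : ∀ j, (c j : ℂ) * ((Fintype.card P : ℂ)⁻¹ * ∑ x : P, ind (T j) (θ j) (x : Y) * (((η x)⁻¹ : ℂˣ) : ℂ)) =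
        (Fintype.card P : ℂ)⁻¹ * ∑ x : P, ((c j : ℂ) * ind (T j) (θ j) (x : Y)) * (((η x)⁻¹ : ℂˣ) : ℂ) := by
      intro j
      rw [mul_left_comm, mul_sum (s := univ) (a := (c j : ℂ))]
      congr 1
      exact sum_congr rfl fun x _ => by ring
    rw [sum_congr rfl fun j _ => h2 j, ← mul_sum, mul_left_comm, mul_sum (s := univ) (a := (m : ℂ)), sum_comm]
    congr 1
    refine sum_congr rfl fun x _ => ?_
    rw [← sum_mul, ← hsum (x : Y)]
    ring
  have hint : m * ((dl (p ^ (b - 1)) (fun x : P => χ (x : Y) * a (x : Y)) (resL P K) : ℕ) : ℤ) =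
      ∑ j, c j * ((dl (p ^ (b - 1)) (fun x : P => ind (T j) (θ j) (x : Y)) (resL P K) : ℕ) : ℤ) := by
    exact_mod_cast hlin
  have hdvd : (p : ℤ) ∣ m * ((dl (p ^ (b - 1)) (fun x : P => χ (x : Y) * a (x : Y)) (resL P K) : ℕ) : ℤ) := by
    rw [hint]
    exact Finset.dvd_sum fun j _ => dvd_mul_of_dvd_right (Int.natCast_dvd_natCast.2 (step j)) _
  have hdvd2 : p ∣ dl (p ^ (b - 1)) (fun x : P => χ (x : Y) * a (x : Y)) (resL P K) := by
    rcases (Nat.prime_iff_prime_int.1 hp).dvd_or_dvd hdvd with h | h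
    · exact absurd h hm
    · exact Int.natCast_dvd_natCast.1 h
  -- (3) the factor `a`
  have hfxa := (hLVF p hp _ s0 hL hpex dvd_rfl a ha).1 (b - 1) (by omega) (by omega)
  have hPs0 : ∀ x : P, (x : Y) ^ s0 = x := by
    intro x
    refine hs0 _ ((Nat.card Y).factorization p) ?_
    have h1 : x ^ Nat.card P = 1 := pow_card_eq_one'
    rw [hP] at h1
    have h2 := congrArg Subtype.val h1
    rw [Subgroup.coe_pow] at h2
    exact h2
  have ha2 : ∀ (t : ℕ) (x : P), a ((x ^ (1 + p ^ (b - 1) * t) : P) : Y) = a (x : Y) := by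
    intro t x
    have h5 := hfxa t (x : Y)
    rw [pow_add, mul_assoc, pow_mul, hPs0 x, ← pow_add] at h5
    rw [Subgroup.coe_pow]
    exact h5
  have h6 := hCMU p hp _ hP (fun x : P => χ (x : Y)) (fun x : P => a (x : Y)) hχP haP b hb ha2 n (by
    change a ((1 : P) : Y) = n
    rw [Subgroup.coe_one]
    exact ha1) (resL P K)
  have h7 : p ∣ n * dl (p ^ (b - 1)) (fun x : P => χ (x : Y)) (resL P K) := (h6.dvd_iff dvd_rfl).1 hdvd2
  rcases hp.dvd_mul.1 h7 with h | h
  · exact absurd h hn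
  · exact h

end Pool.Agent.Lib.MP_1aae89_al.W6
end

section
/-!
# INI: characters induced from subgroups of index prime to `p`
-/
set_option autoImplicit false

namespace Pool.Agent.Lib.MP_1aae89_al.W6

open Pool.Agent.Lib.MP_1aae89_al Pool.Agent.Lib.MP_1aae89_al.BF Pool.Agent.Lib.MP_1aae89_al.W3 Finset
open Pool.Agent.Lib.MP1aae89 (Pex)

theorem specINI (hSCK : SpecSCK) (hINE : SpecINE) (hPWL : SpecPWL) (hPRM : SpecPRM)
    (hSU0 : SpecSU0) : SpecINI := by
  intro p hp L s0 hL hpex b hb X _ _ hX P hP n r hr hn T hTi k s hs hind hIC hFX K hK hne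
  classical
  have : Fintype P := Fintype.ofFinite P
  have hn0 : n ≠ 0 := by
    rintro rfl
    exact hn (dvd_zero p)
  have hXL : ∀ y : X, y ^ L = 1 := by
    intro y
    obtain ⟨c, hc⟩ := hX
    rw [hc, pow_mul, pow_card_eq_one', one_pow]
  have hidx : n = T.index * k := by
    have h1 := hind 1
    rw [Q1C_one, map_one, Matrix.trace_one, Fintype.card_fin, map_one, Matrix.trace_one,
      Fintype.card_fin] at h1
    exact_mod_cast h1
  have hk : ¬ p ∣ k := fun h => hn (hidx ▸ dvd_mul_of_dvd_right h T.index)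
  set ψ : T → ℂ := fun w => (s w).trace with hψ
  have hψc : IsCharacter ψ := isCharacter_trace s
  have hTL : Nat.card T ∣ L := (Subgroup.card_subgroup_dvd_card T).trans hX
  by_contra hcon
  have hcon2 : ∀ (q : ℕ) (K' : Lin X),
      ¬ p ∣ dl q (fun x : P => (r x).trace) (resL P K') →
      ¬ p ∣ dl q (fun x : P => ind T ψ (x : X)) (resL P K') := by
    intro q K' h
    have h1 : (fun x : P => ind T ψ (x : X)) = fun x : P => (r x).trace :=
      funext fun x => (hind x).symm
    rw [h1]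
    exact h
  by_cases hc : FX p s0 b ψ
  · -- first case
    obtain ⟨x, hx, hx2⟩ := hSCK p hp T P _ hP ψ hψc K (p ^ (b - 1))
      (dvd_pow_self p (by omega)) (hcon2 _ _ hcon)
    have h1 : ∀ y : T, ψ (y ^ (1 + s0 * p ^ (b - 1))) = ((K (y : X) : ℂˣ) : ℂ) * ψ y := by
      by_contra h2
      push Not at h2
      refine hx2 (hIC b le_rfl L s0 hL hTL hpex (cjP T P x) (INR_card T P hP hTi x hx) k
        s hs hk hc (resL T K) ?_ h2)
      refine Lin.ext fun y => ?_
      rw [Lin.pow_apply, resL_apply, ← Lin.pow_apply, hK]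
      rfl
    obtain ⟨y, hy⟩ := hne
    apply hy
    rw [hind, hind]
    exact hINE p hp L s0 hL hpex hX T ψ K (b - 1) (by omega) h1 y
  · -- second case
    have hex : ∃ b' : ℕ, b ≤ b' ∧ FX p s0 b' ψ :=
      ⟨max b (L.factorization p), le_max_left _ _, INR_level hpex (fun y => by
        refine Subtype.ext ?_
        rw [Subgroup.coe_pow, hXL]
        rfl) ψ (le_max_right _ _)⟩
    obtain ⟨hb1, hb2⟩ := Nat.find_spec hex
    have hmin := fun m => Nat.find_min hex (m := m)
    set b' := Nat.find hex with hb'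
    have hlt : b < b' := by
      rcases Nat.lt_or_ge b b' with h | h
      · exact h
      · have h1 : b' = b := le_antisymm h hb1
        rw [h1] at hb2
        exact absurd hb2 hc
    have hnl : ∃ y : T, ψ (y ^ (1 + s0 * p ^ (b' - 1))) ≠ ψ y := by
      by_contra h1
      push Not at h1
      have h2 := hPWL p hp L s0 hL hpex b' (by omega) ψ (fun y => by
        refine Subtype.ext ?_
        rw [Subgroup.coe_pow, hXL]
        rfl) hb2 h1
      exact hmin (b' - 1) (by omega) ⟨by omega, h2⟩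
    have hPpow : ∀ x : P, (x : X) ^ p ^ (Nat.card X).factorization p = 1 := by
      intro x
      have h1 : x ^ Nat.card P = 1 := pow_card_eq_one'
      rw [hP] at h1
      have h2 := congrArg (Subtype.val) h1
      rw [Subgroup.coe_pow] at h2
      exact h2
    have hPs0 : ∀ x : P, (x : X) ^ s0 = x := fun x =>
      (hPRM p hp L s0 hL hpex).2.1 (x : X) _ (hXL x) (hPpow x)
    have h3 : ∀ (t : ℕ) (x : P), (r ((x ^ (1 + p ^ (b' - 1) * t) : P) : X)).trace =
        (r (x : X)).trace := by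
      intro t x
      have h4 := hFX (p ^ (b' - 1 - b) * t) (x : X)
      simp only at h4
      have h5 : s0 * p ^ b * (p ^ (b' - 1 - b) * t) = s0 * (p ^ (b' - 1) * t) := by
        have h6 : p ^ (b' - 1) = p ^ b * p ^ (b' - 1 - b) := by
          rw [← pow_add]
          congr 1
          omega
        rw [h6]
        ring
      rw [h5, pow_add, pow_mul, hPs0 x, ← pow_add] at h4
      rw [Subgroup.coe_pow]
      exact h4
    have h7 : dl (p ^ (b' - 1)) (fun x : P => (r x).trace) 1 ≡ n [MOD p] :=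
      hSU0 p hp _ hP (fun x : P => (r x).trace) ((isCharacter_trace r).comp P.subtype) b'
        (by omega) h3 n (by
          change (r ((1 : P) : X)).trace = n
          rw [Subgroup.coe_one, map_one, Matrix.trace_one, Fintype.card_fin])
    have h8 : ¬ p ∣ dl (p ^ (b' - 1)) (fun x : P => (r x).trace) (resL P (1 : Lin X)) := by
      intro h9
      exact hn ((h7.dvd_iff dvd_rfl).1 h9)
    obtain ⟨x, hx, hx2⟩ := hSCK p hp T P _ hP ψ hψc 1 (p ^ (b' - 1))
      (dvd_pow_self p (by omega)) (hcon2 _ _ h8)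
    refine hx2 (hIC b' hb1 L s0 hL hTL hpex (cjP T P x) (INR_card T P hP hTi x hx) k
      s hs hk hb2 (resL T 1) ?_ ?_)
    · refine Lin.ext fun y => ?_
      rw [Lin.pow_apply, resL_apply, Lin.one_apply, Lin.one_apply, one_pow]
    · obtain ⟨y, hy⟩ := hnl
      refine ⟨y, ?_⟩
      rw [resL_apply, Lin.one_apply, Units.val_one, one_mul]
      exact hy

end Pool.Agent.Lib.MP_1aae89_al.W6
end
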