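import Pool.Agent.Lib.MP_1aae89_al.W5.SpecB
import Pool.Agent.Lib.MP_1aae89_al.W5.DefsC

/-!
# Normal subgroups of index `p`: specifications (MP_1aae89_al, Q1)
-/

set_option autoImplicit false

namespace Pool.Agent.Lib.MP_1aae89_al.W6

open Pool.Agent.Lib.MP_1aae89_al Pool.Agent.Lib.MP_1aae89_al.BF Pool.Agent.Lib.MP_1aae89_al.W3
  Pool.Agent.Lib.MP_1aae89_al.W4 Pool.Agent.Lib.MP_1aae89_al.W5 Finset
open Pool.Agent.Lib.MP1aae89 (Pex)

/-- XDL. Counting in a `p`-group `P` with a subgroup `R` of index `p` and an element `z ∉ R` whose `q`-th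
power is in the kernel of all linear characters.
PROOF. `ml (χ|R) μ = mlt (χ|R) μ` etc. Let `Λ = {λ : Lin P | λ^q = k}`, `Λ₀ = {μ : Lin R | μ^q = k|R}`. If
`k z ≠ 1` then `Λ` is empty, so `dl q χ k = 0`. Let `k z = 1`. `λ ∈ Λ` if and only if
`λ|R ∈ Λ₀`: if `λ^q = k` on `R` then also on `P = ⟨R, z⟩`, since both sides are `1` at `z` (the kernel of
`λ^q k⁻¹` contains `R` and `z`; the index of `R` is prime). So `dl q χ k = ∑_{λ ∈ Λ} ml χ λ =
∑_{μ ∈ Λ₀} ∑_{λ|R = μ} ml χ λ`. If `μ` is invariant (`cj R z μ = μ`, or under all `cj R x`) then it has an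
extension (`exists_ext`), and `∑_{λ|R = μ} ml χ λ = ml (χ|R) μ` (`mlt_restrict`); otherwise the sum is empty,
`0`. The sum of `ml (χ|R) μ` over the not invariant `μ ∈ Λ₀` is divisible by `p`: `μ ↦ cj R z μ` is a
permutation of order dividing `p` without fixed points (`dvd_sum`, `mlt_cj`, `cj_iterate`, `cj_of_mem`,
`pow_mem_of_index`; `Λ₀` is invariant since `k|R` is). Compare the proof of `deg` in `Deg.lean`, which is the
same argument without `q`. -/
def SpecXDL : Prop := ∀ (p : ℕ), p.Prime → ∀ {P : Type} [Group P] [Fintype P] (e : ℕ),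
  Nat.card P = p ^ e → ∀ (R : Subgroup P) [R.Normal], R.index = p → ∀ q : ℕ, p ∣ q → ∀ z : P, z ∉ R →
  (∀ l : Lin P, l z ^ q = 1) → ∀ χ : P → ℂ, IsCharacter χ → ∀ k : Lin P,
  p ∣ dl q (fun x : R => χ x) (resL R k) → p ∣ dl q χ k

/-- STP. A normal subgroup `N` of index `p`, and an element `z ∉ N` of a Sylow subgroup `P` whose image in
`P / P'` has order less than `p ^ b`.
PROOF. Let `f : Y → Z` be as in `SurG`, `b ≤ b'`, `q = p^(b'-1)`; by TWS it is enough to show `ICd p b' Y`.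
Let `L`, `s0`, `P`, `n`, `r`, `K` be as there, `χ = tr r`, `κ = 1 + s0 q`. `Y₁ = N.comap f` is normal of index
`p`. If `χ(y^κ) = χ(y)` for all `y`: by PWL `χ` has `FX p s0 (b'-1)`, so `χ(x^(1 + q t)) = χ(x)` for `x ∈ P`
(`x^s0 = x`, PRM (2)); `K ≠ 1`, so `K` is not trivial on `P` (`DIV.lin_one` in `W6/DIV.lean`), and SUG with
`c = b' - 1` gives the claim (this is the first case in the proof of `surG_of_cond`, `W6/DIV.lean`).
Otherwise: `θ = χ|Y₁` is the trace of `r.comp Y₁.subtype`, which is `Sch` (IR1). There is `y ∈ Y₁` with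
`θ(y^κ) ≠ K(y) θ(y)`: otherwise by DT2 (`a = b'-1`, for the group `Y₁`) `K = 1` on `Y₁`, so
`θ(y^κ) = θ(y)` on `Y₁`, and by GLA (`a = b'-1`, `t = 1`) `χ(y^κ) = χ(y)` on `Y`, a contradiction.
`Good p b N` for the homomorphism `Y₁ → N` (surjective, central kernel of order prime to `p`) gives
`IC p b' Y₁`. Let `P₁ = P.subgroupOf Y₁`, a Sylow subgroup of `Y₁`, and `R = Y₁.subgroupOf P`, normal of
index `p` in `P` (`P Y₁ = Y` as `|Y : P|` is prime to `p`); `P₁ ≅ R` (QDL), so `p ∣ dl q (χ|R) (K|R)`. `f` is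
injective on `P`, and `P.map f` is a Sylow subgroup of `Z`; after conjugation the Sylow subgroup in the
hypothesis is `P.map f`. So there is `x₁ ∈ P`, `x₁ ∉ Y₁`, with `f (x₁)^(p^(b-1)) ∈ [P.map f, P.map f]`, the
image of `[P, P]`, hence `x₁^(p^(b-1)) ∈ [P, P]`, and `l(x₁)^(p^(b-1)) = 1` for all linear characters `l` of
`P`. XDL. -/
def SpecSTP : Prop := ∀ (p b : ℕ), p.Prime → 2 ≤ b → ∀ {Z : Type} [Group Z] [Finite Z]
  (N : Subgroup Z) [N.Normal], N.index = p →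
  (∃ (P : Sylow p Z) (z : Z), z ∈ P ∧ z ∉ N ∧
    z ^ p ^ (b - 1) ∈ ⁅(P : Subgroup Z), (P : Subgroup Z)⁆) → Good p b N → SurG p b Z

end Pool.Agent.Lib.MP_1aae89_al.W6
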