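import Pool.Agent.Lib.MP_1aae89_al.W6.Stat
import Pool.Agent.Lib.MP_1aae89_al.W6.StatC
import Pool.Agent.Lib.MP_1aae89_al.HC.Defs

/-!
# Definitions for the statement on almost simple groups (MP_1aae89_al, Q1)
-/

set_option autoImplicit false

namespace Pool.Agent.Lib.MP_1aae89_al

/-- the number of the linear constituents `l` of the restriction of `χ` to `P` with `l ^ q = κ|P`,
counted with their multiplicities `|P|⁻¹ ∑ χ(x) l(x)⁻¹` -/
noncomputable def numLin {Y : Type} [Group Y] (P : Subgroup Y) (q : ℕ) (χ : Y → ℂ)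
    (κ : Y →* ℂˣ) : ℂ :=
  ∑ᶠ (l : P →* ℂˣ) (_ : ∀ x : P, l x ^ q = κ x),
    (Nat.card P : ℂ)⁻¹ * ∑ᶠ x : P, χ x * (((l x)⁻¹ : ℂˣ) : ℂ)

/-- `χ` is induced from an irreducible character of a proper subgroup of index prime to `p` -/
def Induced (p : ℕ) {Y : Type} [Group Y] [Fintype Y] (χ : Y → ℂ) : Prop :=
  ∃ (T : Subgroup Y) (W : Type) (_ : AddCommGroup W) (_ : Module ℂ W)
    (_ : FiniteDimensional ℂ W) (τ : Representation ℂ T W),
    T ≠ ⊤ ∧ ¬ p ∣ T.index ∧ τ.IsIrreducible ∧ ∀ y, χ y = ind T τ.character y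

/-- the divisibility condition for the group `F`. For all central extensions `Y` of `F` by groups of
order prime to `p`, all irreducible characters `χ` of `Y` of level `c ≥ b` whose degree and
determinantal order are prime to `p`, and all `κ : Y → ℂˣ` with `κ ^ p = 1`: `χ` satisfies `Induced`, or
`IndComb` for `κ`, or the number of the linear constituents `l` of the restriction of `χ` to each Sylow
`p`-subgroup `P` of `Y` with `l ^ (p ^ (c - 1)) = κ|P` is divisible by `p` -/
def LinCond (p b : ℕ) (F : Type) [Group F] : Prop :=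
  ∀ (Y : Type) [Group Y] [Fintype Y] (f : Y →* F), Function.Surjective f →
    f.ker ≤ Subgroup.center Y → (Nat.card f.ker).Coprime p →
    ∀ (U : Type) [AddCommGroup U] [Module ℂ U] [FiniteDimensional ℂ U]
      (θ : Representation ℂ Y U), θ.IsIrreducible → ¬ p ∣ Module.finrank ℂ U →
      (∃ m : ℕ, m.Coprime p ∧ ∀ y, LinearMap.det (θ y) ^ m = 1) → b ≤ lev p θ.character →
      ∀ κ : Y →* ℂˣ, κ ^ p = 1 →
        Induced p θ.character ∨ IndComb p (lev p θ.character) θ.character κ ∨
        ∀ P : Sylow p Y, ∃ k : ℕ,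
          numLin (P : Subgroup Y) (p ^ (lev p θ.character - 1)) θ.character κ = (p * k : ℕ)

/-- `Z` has a normal subgroup `N` of index `p` and a Sylow `p`-subgroup `P` with an element `z ∉ N` such
that `z ^ (p ^ (b - 1)) ∈ P'` -/
def SplitStep (p b : ℕ) (Z : Type) [Group Z] : Prop :=
  ∃ (N : Subgroup Z) (P : Sylow p Z) (z : Z), N.Normal ∧ N.index = p ∧ z ∈ P ∧ z ∉ N ∧
    z ^ p ^ (b - 1) ∈ ⁅(P : Subgroup Z), (P : Subgroup Z)⁆

/-- each central extension `Y` of `Z` by a group of order prime to `p` has a Sylow `p`-subgroup `P` and a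
subgroup `U` with the property `SplitDec` -/
def SplitCover (p : ℕ) (Z : Type) [Group Z] : Prop :=
  ∀ (Y : Type) [Group Y] [Finite Y] (f : Y →* Z), Function.Surjective f →
    f.ker ≤ Subgroup.center Y → (Nat.card f.ker).Coprime p →
    ∃ (P : Sylow p Y) (U : Subgroup Y), SplitDec p (P : Subgroup Y) U

/-- the conditions on an almost simple group `Z` with socle `S`: `S` satisfies `SmallFactor`, or `Z`
satisfies `ManyClasses`, or `SplitStep`, or `SplitCover`, or the divisibility condition -/
def AlmostSimpleCond (p b : ℕ) (Z : Type) [Group Z] (S : Subgroup Z) : Prop :=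
  SmallFactor p b S ∨ ManyClasses p Z ∨ SplitStep p b Z ∨ SplitCover p Z ∨ LinCond p b Z

/-- `C` is a class of groups which is closed under subgroups of index prime to `p`, normal subgroups of
index `p`, and homomorphic images, and each finite group `Z` in `C` with a simple normal subgroup `S`
such that `C_Z(S) = 1` and `Z / S` is a `p`-group satisfies `AlmostSimpleCond` -/
structure GoodClass (p b : ℕ) (C : (Z : Type) → [Group Z] → Prop) : Prop where
  sub : ∀ (Z : Type) [Group Z] [Finite Z], C Z → ∀ T : Subgroup Z, ¬ p ∣ T.index → C T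
  nrm : ∀ (Z : Type) [Group Z] [Finite Z], C Z → ∀ T : Subgroup Z, T.Normal → T.index = p → C T
  img : ∀ (Z Y : Type) [Group Z] [Finite Z] [Group Y] [Finite Y] (f : Z →* Y),
    Function.Surjective f → C Z → C Y
  alm : ∀ (Z : Type) [Group Z] [Finite Z], C Z → ∀ (S : Subgroup Z) [S.Normal],
    IsSimpleGroup S → Subgroup.centralizer (S : Set Z) = ⊥ → IsPGroup p (Z ⧸ S) →
    AlmostSimpleCond p b Z S

end Pool.Agent.Lib.MP_1aae89_al
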