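import Pool.Agent.Lib.MP_1aae89_al.W6.Spec
import Pool.Agent.Lib.MP_1aae89_al.W6.MCF
import Pool.Agent.Lib.MP_1aae89_al.W6.Stat2
import Pool.Agent.Lib.MP_1aae89_al.W3.SpecC
import Pool.Agent.Lib.MP_1aae89_al.W6.SpecB
import Pool.Agent.Lib.MP_1aae89_al.W6.SpecC
import Pool.Agent.Lib.MP_1aae89_al.HC.Spec
import Pool.Agent.Lib.MP_1aae89_al.BF.Top

section
/-!
# CHM: the chain theorem
-/
set_option autoImplicit false

namespace Pool.Agent.Lib.MP_1aae89_al.W6

open Pool.Agent.Lib.MP_1aae89_al Pool.Agent.Lib.MP_1aae89_al.BF Pool.Agent.Lib.MP_1aae89_al.W3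
  Pool.Agent.Lib.MP_1aae89_al.W4 Pool.Agent.Lib.MP_1aae89_al.W5 Finset

/-- groups with a series with small factors are good -/
theorem good_of_series (hCH4 : SpecCH4) (hD4I : SpecD4I) (hDG4 : SpecDG4) (hFOK : SpecFOK)
    {p b : ℕ} (hp : p.Prime) (hb : 2 ≤ b) {Z : Type} [Group Z] [Finite Z]
    (h : SmallSeries p b Z) : Good p b Z := by
  obtain ⟨l, R, h0, hl, hs⟩ := h
  have hn : (R 0).Normal := by
    rw [h0]
    infer_instance
  have h1 : D4 p b l (Z ⧸ R 0) := by
    refine hCH4 p b l R (fun i hi => (hs i hi).1) hl fun i hi => ?_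
    obtain ⟨-, h2, h3⟩ := hs i hi
    exact ⟨h2, hFOK p b hp hb h3⟩
  have h2 : D4 p b l Z :=
    hD4I p b l ((QuotientGroup.quotientMulEquivOfEq h0).trans QuotientGroup.quotientBot) h1
  exact hDG4 p b hp hb l h2

/-- groups with many fusion classes are good -/
theorem good_of_many (hGCF : SpecGCF) {p b : ℕ} (hp : p.Prime) (hb : 2 ≤ b) {Z : Type} [Group Z]
    [Finite Z] (h : ManyClasses p Z) : Good p b Z := by
  obtain ⟨P, h1, h2⟩ := crtF_of_many hp h
  exact hGCF p b hp hb P h1 h2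

/-- the chain theorem -/
theorem chain (hCH4 : SpecCH4) (hD4I : SpecD4I) (hDG4 : SpecDG4) (hFOK : SpecFOK)
    (hGCF : SpecGCF) (hCHG : SpecCHG) {p b : ℕ} (hp : p.Prime) (hb : 2 ≤ b) {M : Type} [Group M]
    [Finite M] (P : Sylow p M) (m : ℕ) (K : ℕ → Subgroup M) (hmono : ∀ i < m, K i ≤ K (i + 1))
    (hnorm : ∀ i < m, ((K i).subgroupOf (K (i + 1))).Normal)
    (hinv : ∀ i ≤ m, (P : Subgroup M) ≤ Subgroup.normalizer (K i : Set M)) (htop : K m = ⊤)
    (hbase : Fxd p b (K 0))
    (hstep : ∀ i < m, ∀ [_hN : ((K i).subgroupOf (K (i + 1) ⊔ (P : Subgroup M))).Normal],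
      SmallSeries p b (↥(K (i + 1) ⊔ (P : Subgroup M)) ⧸ (K i).subgroupOf (K (i + 1) ⊔ (P : Subgroup M))) ∨
      ManyClasses p (↥(K (i + 1) ⊔ (P : Subgroup M)) ⧸ (K i).subgroupOf (K (i + 1) ⊔ (P : Subgroup M)))) :
    IC p b M := by
  have : Fact p.Prime := ⟨hp⟩
  refine hCHG p b hp hb (P : Subgroup M) P.card_eq_multiplicity m K hmono ?_ ?_ htop hbase ?_
  · intro i hi g hg x hx
    exact (hnorm i hi).conj_mem ⟨x, hmono i hi hx⟩ hx ⟨g, hg⟩
  · intro i hi g hg x hx
    exact (Subgroup.mem_normalizer_iff.1 (hinv i hi hg) x).1 hx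
  · intro i hi _
    rcases hstep i hi with h | h
    · exact good_of_series hCH4 hD4I hDG4 hFOK hp hb h
    · exact good_of_many hGCF hp hb h

end Pool.Agent.Lib.MP_1aae89_al.W6
end

section
/-!
# DIV: the divisibility condition, and classes of groups
-/
set_option autoImplicit false

namespace Pool.Agent.Lib.MP_1aae89_al.W6

open Pool.Agent.Lib.MP_1aae89_al Pool.Agent.Lib.MP_1aae89_al.BF Pool.Agent.Lib.MP_1aae89_al.W3
  Pool.Agent.Lib.MP_1aae89_al.W4 Pool.Agent.Lib.MP_1aae89_al.W5 Finset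
open Pool.Agent.Lib.MP1aae89 (Pex)

namespace DIV

/-- `numLin` and `dl` -/
theorem numLin_eq {Y : Type} [Group Y] [Finite Y] (P : Subgroup Y) (q : ℕ) (χ : Y → ℂ)
    (hχ : IsCharacter fun x : P => χ x) (κ : Lin Y) :
    numLin P q χ κ = (dl q (fun x : P => χ x) (resL P κ) : ℂ) := by
  classical
  have : Fintype P := Fintype.ofFinite P
  unfold numLin dl
  rw [Nat.cast_sum]
  have h1 : ∀ l : Lin P, (∀ x : P, l x ^ q = κ x) ↔ l ^ q = resL P κ := by
    intro l
    constructor
    · intro h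
      apply Lin.ext
      intro x
      rw [Lin.pow_apply]
      exact h x
    · intro h x
      rw [← Lin.pow_apply, h]
      rfl
  have h2 := finsum_cond_eq_sum_of_cond_iff (α := Lin P) (M := ℂ)
    (f := fun l : Lin P => (Nat.card P : ℂ)⁻¹ * ∑ᶠ x : P, χ x * (((l x)⁻¹ : ℂˣ) : ℂ))
    (p := fun l : Lin P => ∀ x : P, l x ^ q = κ x)
    (t := univ.filter fun η : Lin P => η ^ q = resL P κ) (fun {l} _ => by
      rw [Finset.mem_filter]
      exact (h1 l).trans ⟨fun h => ⟨Finset.mem_univ _, h⟩, fun h => h.2⟩)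
  refine Eq.trans h2 (Finset.sum_congr (by ext; simp) fun l _ => ?_)
  rw [ml_spec hχ, finsum_eq_sum_of_fintype, Nat.card_eq_fintype_card]

theorem det_toRep {Y : Type} [Group Y] {n : ℕ} (r : Y →* Matrix (Fin n) (Fin n) ℂ) (y : Y) :
    LinearMap.det (toRep r y) = (r y).det := by
  change LinearMap.det (Matrix.toLin' (r y)) = _
  rw [LinearMap.det_toLin']

end DIV

/-- the kernel of a central homomorphism is contained in a subgroup from which an irreducible
character is induced -/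
theorem DIV.ker_le {Y : Type} [Group Y] [Fintype Y] {n : ℕ} (hn : n ≠ 0)
    {r : Y →* Matrix (Fin n) (Fin n) ℂ} (hr : Sch r) (T : Subgroup Y) (ψ : T → ℂ)
    (h : ∀ y, (r y).trace = ind T ψ y) (z : Y) (hz : ∀ y, z * y = y * z) : z ∈ T := by
  classical
  by_contra hzT
  have h1 : ind T ψ z = 0 := by
    unfold ind
    have h2 : ∀ x : Y, (if h : x⁻¹ * z * x ∈ T then ψ ⟨x⁻¹ * z * x, h⟩ else 0) = 0 := by
      intro x
      have h3 : x⁻¹ * z * x = z := by
        rw [mul_assoc, hz x, inv_mul_cancel_left]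
      rw [dif_neg (by rw [h3]; exact hzT)]
    rw [Finset.sum_eq_zero fun x _ => h2 x, mul_zero]
  rw [← h z] at h1
  obtain ⟨c, hc⟩ := hr (r z) fun y => by rw [← map_mul, ← map_mul, hz y]
  rw [hc, Matrix.trace_smul, Matrix.trace_one, Fintype.card_fin, smul_eq_mul] at h1
  have h4 : (n : ℂ) ≠ 0 := by exact_mod_cast hn
  have h5 : c = 0 := by
    rcases mul_eq_zero.1 h1 with h6 | h6
    · exact h6
    · exact absurd h6 h4
  rw [h5, zero_smul] at hc
  have h7 : r z * r z⁻¹ = 1 := by rw [← map_mul, mul_inv_cancel, map_one]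
  rw [hc, zero_mul] at h7
  have h8 := congrArg Matrix.trace h7
  rw [Matrix.trace_zero, Matrix.trace_one, Fintype.card_fin] at h8
  exact h4 h8.symm

/-- a linear character of order `p` which is trivial on a Sylow subgroup is trivial -/
theorem DIV.lin_one {p : ℕ} (hp : p.Prime) {Y : Type} [Group Y] [Finite Y] (P : Subgroup Y)
    (hP : ¬ p ∣ P.index) (K : Lin Y) (hK : K ^ p = 1) (h : ∀ x ∈ P, K x = 1) : K = 1 := by
  apply Lin.ext
  intro y
  rw [Lin.one_apply]
  have h1 : P ≤ MonoidHom.ker (K : Y →* ℂˣ) := fun x hx => h x hx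
  have h2 : ¬ p ∣ (MonoidHom.ker (K : Y →* ℂˣ)).index := fun h3 =>
    hP (h3.trans (Subgroup.index_dvd_of_le h1))
  have h4 : (K y) ^ (MonoidHom.ker (K : Y →* ℂˣ)).index = 1 := by
    have h5 : y ^ (MonoidHom.ker (K : Y →* ℂˣ)).index ∈ MonoidHom.ker (K : Y →* ℂˣ) :=
      Subgroup.pow_index_mem _ y
    have h6 : K (y ^ (MonoidHom.ker (K : Y →* ℂˣ)).index) = 1 := h5
    rw [← h6]
    exact (map_pow (K : Y →* ℂˣ) y _).symm
  have h7 : (K y) ^ p = 1 := by rw [← Lin.pow_apply, hK, Lin.one_apply]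
  have h8 : orderOf (K y) ∣ Nat.gcd p (MonoidHom.ker (K : Y →* ℂˣ)).index :=
    Nat.dvd_gcd (orderOf_dvd_of_pow_eq_one h7) (orderOf_dvd_of_pow_eq_one h4)
  rw [((Nat.Prime.coprime_iff_not_dvd hp).2 h2)] at h8
  exact orderOf_eq_one_iff.1 (Nat.dvd_one.1 h8)

open DIV in
/-- groups with the divisibility condition -/
theorem surG_of_cond (hLVF : SpecLVF) (hTWS : SpecTWS) (hSUG : SpecSUG) (hPRM : SpecPRM)
    (hINI : SpecINI) (hIND : SpecIND) {p b : ℕ} (hp : p.Prime) (hb : 2 ≤ b)
    {Z : Type} [Group Z] [Finite Z] (h : LinCond p b Z)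
    (hT : ∀ T : Subgroup Z, T ≠ ⊤ → ¬ p ∣ T.index → Good p b T) : SurG p b Z := by
  intro Y _ _ f hs hc hk b' hb'
  refine hTWS p b' hp (hb.trans hb') ?_
  intro L s0 hL hcard hpex P hP n r hr hn hdet hFX K hK hne
  have : Fintype Y := Fintype.ofFinite Y
  have : Fact p.Prime := ⟨hp⟩
  have hn0 : n ≠ 0 := by rintro rfl; exact hn (dvd_zero _)
  have hchar : (toRep r).character = fun y => (r y).trace := funext fun l => toRep_char r l
  have hisc : IsCharacter fun y => (r y).trace := isCharacter_trace r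
  obtain ⟨hl1, hl2⟩ := hLVF p hp L s0 hL hpex hcard _ hisc
  have hle : lev p (fun y => (r y).trace) ≤ b' := by
    by_contra hlt
    rw [not_le] at hlt
    obtain ⟨y, hy⟩ := hl2 _ (by omega) rfl
    refine hy ?_
    have h1 := hFX (p ^ (lev p (fun y => (r y).trace) - 1 - b')) y
    have h2 : s0 * p ^ b' * p ^ (lev p (fun y => (r y).trace) - 1 - b') =
        s0 * p ^ (lev p (fun y => (r y).trace) - 1) := by
      rw [mul_assoc, ← pow_add]
      congr 2
      omega
    rw [h2] at h1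
    exact h1
  have hYL : ∀ y : Y, y ^ L = 1 := by
    intro y
    obtain ⟨c, hc'⟩ := hcard
    rw [hc', pow_mul, pow_card_eq_one', one_pow]
  have hPi : ¬ p ∣ P.index := by
    have h1 := (Sylow.ofCard P hP).not_dvd_index
    exact h1
  rcases Nat.lt_or_ge (lev p fun y => (r y).trace) b' with hlt | hge
  · -- small level
    have hfx := hl1 (b' - 1) (by omega) (by omega)
    have hK1 : resL P K ≠ 1 := by
      intro h1
      have h2 : K = 1 := lin_one hp P hPi K hK fun x hx => by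
        have h3 := congrArg (fun l : Lin P => l ⟨x, hx⟩) h1
        rw [resL_apply, Lin.one_apply] at h3
        exact h3
      obtain ⟨y, hy⟩ := hne
      refine hy ?_
      have h4 := hfx 1 y
      rw [mul_one] at h4
      rw [h2, Lin.one_apply, Units.val_one, one_mul]
      exact h4
    have : Fintype P := Fintype.ofFinite P
    refine hSUG p hp _ hP (fun x : P => (r x).trace) b' (b' - 1) (by omega) (by omega) ?_
      (resL P K) ?_
    · intro t x
      have hxp : (x : Y) ^ p ^ (Nat.card Y).factorization p = 1 := by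
        have h1 : x ^ Nat.card P = 1 := pow_card_eq_one'
        rw [hP] at h1
        have h2 := congrArg (Subtype.val) h1
        rw [Subgroup.coe_pow] at h2
        exact h2
      have hxs : (x : Y) ^ s0 = x := (hPRM p hp L s0 hL hpex).2.1 (x : Y) _ (hYL x) hxp
      have h3 := hfx t (x : Y)
      simp only at h3
      rw [pow_add, mul_assoc, pow_mul, hxs, ← pow_add] at h3
      rw [Subgroup.coe_pow]
      exact h3
    · have h5 : b' - 1 + 1 - b' = 0 := by omega
      rw [h5, pow_zero, pow_one]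
      exact hK1
  · -- level `b'`
    have heq : lev p (fun y => (r y).trace) = b' := le_antisymm hle hge
    have hmcop : (ordCompl[p] L).Coprime p := (Nat.coprime_ordCompl hp hL).symm
    have h0 := h Y f hs (fun y hy => by
        rw [Subgroup.mem_center_iff]
        intro g
        exact (hc y ((MonoidHom.mem_ker).1 hy) g).symm) hk (Fin n → ℂ) (toRep r)
      (toRep_irr hn0 hr) (by rw [Module.finrank_fin_fun]; exact hn)
      ⟨ordCompl[p] L, hmcop, fun y => by rw [det_toRep]; exact hdet y⟩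
      (by rw [hchar, heq]; exact hb') K hK
    rw [hchar, heq] at h0
    rcases h0 with h0 | h0 | h0
    · obtain ⟨T, W, _, _, _, τ, hTtop, hTi, hτ, hind⟩ := h0
      obtain ⟨s, hs1, hs2⟩ := of_irr τ hτ
      have hτc : τ.character = fun t => (s t).trace := funext hs2
      have hind' : ∀ g, (r g).trace = ind T (fun t => (s t).trace) g := by
        intro g
        rw [← hτc]
        exact hind g
      have hker : f.ker ≤ T := fun z hz =>
        ker_le hn0 hr T _ hind' z (hc z ((MonoidHom.mem_ker).1 hz))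
      have hmap : T.map f ≠ ⊤ := by
        intro h1
        apply hTtop
        rw [eq_top_iff]
        intro y _
        have h2 : f y ∈ T.map f := by rw [h1]; exact Subgroup.mem_top _
        obtain ⟨t, ht, hty⟩ := Subgroup.mem_map.1 h2
        have h3 : t⁻¹ * y ∈ f.ker := by
          rw [MonoidHom.mem_ker, map_mul, map_inv, hty, inv_mul_cancel]
        have h4 : y = t * (t⁻¹ * y) := by group
        rw [h4]
        exact mul_mem ht (hker h3)
      have hidx : ¬ p ∣ (T.map f).index := fun h1 =>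
        hTi (h1.trans (Subgroup.index_map_dvd T hs))
      have hgood := hT (T.map f) hmap hidx
      refine hINI p hp L s0 hL hpex b' (hb.trans hb') hcard P hP n r hr hn T hTi _ s hs1 hind'
        (fun b'' hb'' => ?_) hFX K hK hne
      refine hgood T (f.subgroupMap T) (fun y hy z => ?_) ?_ ?_ b'' (hb'.trans hb'')
      · have h1 : f y = 1 := congrArg Subtype.val hy
        exact Subtype.ext (hc y h1 z)
      · have h1 : Nat.card (f.subgroupMap T).ker ∣ Nat.card f.ker := by
          refine Subgroup.card_dvd_of_injective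
            (((T.subtype).comp (f.subgroupMap T).ker.subtype).codRestrict f.ker fun w => ?_) ?_
          · rw [MonoidHom.mem_ker]
            exact congrArg Subtype.val ((MonoidHom.mem_ker).1 w.2)
          · intro u v huv
            exact Subtype.ext (Subtype.ext (congrArg (fun w : f.ker => (w : Y)) huv))
        exact Nat.Coprime.coprime_dvd_left h1 hk
      · rw [MonoidHom.range_eq_top.2 (f.subgroupMap_surjective T), Subgroup.index_top]
        exact fun h1 => hp.one_lt.ne' (Nat.dvd_one.1 h1)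
    · exact hIND p b' hp (hb.trans hb') P hP _ hisc K h0
    · obtain ⟨k, hk2⟩ := h0 (Sylow.ofCard P hP)
      have h3 : numLin P (p ^ (b' - 1)) (fun y => (r y).trace) K =
          (dl (p ^ (b' - 1)) (fun x : P => (r x).trace) (resL P K) : ℂ) :=
        numLin_eq P _ _ (isCharacter_trace (r.comp P.subtype)) K
      have h4 : numLin P (p ^ (b' - 1)) (fun y => (r y).trace) K = ((p * k : ℕ) : ℂ) := hk2
      rw [h3] at h4
      exact ⟨k, by exact_mod_cast h4⟩

/-- a `GoodClass` consists of good groups -/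
theorem good_of_class (hK4I : SpecK4I) (hD4E : SpecD4E) (hDG4 : SpecDG4) (hFOK : SpecFOK)
    (hGCF : SpecGCF) (hLVF : SpecLVF) (hTWS : SpecTWS) (hSUG : SpecSUG) (hPRM : SpecPRM)
    (hINI : SpecINI) (hIND : SpecIND) (hSTP : SpecSTP) (hHCS : HC.SpecHCS) (hRED : SpecRED)
    {p b : ℕ} (hp : p.Prime) (hb : 2 ≤ b) (C : (Z : Type) → [Group Z] → Prop)
    (hC : GoodClass p b C) {Z : Type} [Group Z] [Finite Z] (hZ : C Z) : Good p b Z := by
  have good_sur : ∀ (Z : Type) [Group Z] [Finite Z], Good p b Z → SurG p b Z := by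
    intro Z _ _ h Y _ _ f hs hc hk b' hb'
    refine h Y f hc hk ?_ b' hb'
    rw [MonoidHom.range_eq_top.2 hs, Subgroup.index_top]
    exact fun h1 => hp.one_lt.ne' (Nat.dvd_one.1 h1)
  refine hRED p b hp hb C ⟨fun T h1 h2 => hC.sub _ h2 T h1, fun T h1 h2 h3 => hC.nrm _ h3 T h1 h2,
    fun f h1 h2 => hC.img _ _ f h1 h2⟩ ?_ Z hZ
  intro Z _ _ hZ S hS hT hN
  have hSn : S.Normal := hS.norm
  have hnt : Nontrivial S := by
    by_contra h
    rw [not_nontrivial_iff_subsingleton] at h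
    refine hS.nab fun x hx y hy => ?_
    have h1 : (⟨x, hx⟩ : S) = ⟨y, hy⟩ := Subsingleton.elim _ _
    have h2 : x = y := congrArg Subtype.val h1
    rw [h2]
  have hsimple : IsSimpleGroup S := ⟨fun R hR => hS.smp R hR⟩
  have hcen : Subgroup.centralizer (S : Set Z) = ⊥ := by
    rw [eq_bot_iff]
    intro z hz
    rw [Subgroup.mem_centralizer_iff] at hz
    rw [Subgroup.mem_bot]
    exact hS.cen z fun x hx => (hz x hx).symm
  have hquo : IsPGroup p (Z ⧸ S) := by
    intro q
    induction q using QuotientGroup.induction_on with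
    | H z =>
      obtain ⟨j, hj⟩ := hS.quo z
      exact ⟨j, by rw [← QuotientGroup.mk_pow, (QuotientGroup.eq_one_iff _).2 hj]⟩
  rcases hC.alm Z hZ S hsimple hcen hquo with h | h | h | h | h
  · have h1 : CC4 p b S := hFOK p b hp hb h
    have h2 : D4 p b 1 S := by
      refine ⟨⊥, inferInstance, ?_, ?_⟩
      · show Subsingleton (⊥ : Subgroup S)
        infer_instance
      · exact hK4I p b (QuotientGroup.quotientBot (G := S)).symm h1
    exact good_sur Z (hDG4 p b hp hb 2 (hD4E p b hp 1 S h2 hS.quo))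
  · exact good_sur Z (good_of_many hGCF hp hb h)
  · obtain ⟨N, P, z, hNn, hNi, h1, h2, h3⟩ := h
    exact hSTP p b hp hb N hNi ⟨P, z, h1, h2, h3⟩ (hN N hNn hNi)
  · intro Y _ _ f hs hc hk b' hb'
    obtain ⟨P, U, hPU⟩ := h Y f hs (fun y hy => by
      rw [Subgroup.mem_center_iff]
      intro g
      exact (hc y ((MonoidHom.mem_ker).1 hy) g).symm) hk
    have : Fact p.Prime := ⟨hp⟩
    exact hHCS p b' hp (hb.trans hb') (P : Subgroup Y) U P.card_eq_multiplicity hPU
  · exact surG_of_cond hLVF hTWS hSUG hPRM hINI hIND hp hb h hT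

end Pool.Agent.Lib.MP_1aae89_al.W6
end

section
/-!
# Module STP: normal subgroups of index `p`
-/
set_option autoImplicit false

namespace Pool.Agent.Lib.MP_1aae89_al.W6

open Pool.Agent.Lib.MP_1aae89_al Pool.Agent.Lib.MP_1aae89_al.BF Pool.Agent.Lib.MP_1aae89_al.W3
  Pool.Agent.Lib.MP_1aae89_al.W4 Pool.Agent.Lib.MP_1aae89_al.W5 Finset
open Pool.Agent.Lib.MP1aae89 (Pex)
open scoped Pointwise

namespace STP_

/-- linear characters are trivial on the commutator subgroup -/
theorem lin_comm {Y : Type} [Group Y] (P : Subgroup Y) (l : Lin P) (w : Y) (hw : w ∈ ⁅P, P⁆) :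
    ∃ h : w ∈ P, l ⟨w, h⟩ = 1 := by
  have h1 : ⁅P, P⁆ ≤ (MonoidHom.ker (l : P →* ℂˣ)).map P.subtype := by
    rw [Subgroup.commutator_le]
    intro a ha b hb
    refine ⟨(⟨a, ha⟩ : P) * (⟨b, hb⟩ : P) * (⟨a, ha⟩ : P)⁻¹ * (⟨b, hb⟩ : P)⁻¹, ?_, rfl⟩
    change (l : P →* ℂˣ) ((⟨a, ha⟩ : P) * (⟨b, hb⟩ : P) * (⟨a, ha⟩ : P)⁻¹ * (⟨b, hb⟩ : P)⁻¹) = 1
    rw [map_mul, map_mul, map_mul, map_inv, map_inv, mul_comm ((l : P →* ℂˣ) ⟨a, ha⟩), mul_inv_cancel_right,
      mul_inv_cancel]
  obtain ⟨x, hx, rfl⟩ := h1 hw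
  exact ⟨x.2, hx⟩

/-- `f` is injective on `P` -/
theorem inj {p v : ℕ} {Y Z : Type} [Group Y] [Finite Y] [Group Z] (f : Y →* Z)
    (hk : (Nat.card f.ker).Coprime p) (P : Subgroup Y) (hP : Nat.card P = p ^ v) (x : Y) (hx : x ∈ P)
    (h : f x = 1) : x = 1 := by
  have h1 : orderOf x ∣ p ^ v := by
    rw [← hP]
    have := orderOf_dvd_natCard (⟨x, hx⟩ : P)
    rwa [Subgroup.orderOf_mk] at this
  have h2 : orderOf x ∣ Nat.card f.ker := by
    have := orderOf_dvd_natCard (⟨x, (MonoidHom.mem_ker).2 h⟩ : f.ker)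
    rwa [Subgroup.orderOf_mk] at this
  have h3 : orderOf x ∣ Nat.gcd (Nat.card f.ker) (p ^ v) := Nat.dvd_gcd h2 h1
  rw [Nat.Coprime.pow_right v hk] at h3
  exact orderOf_eq_one_iff.1 (Nat.dvd_one.1 h3)

/-- the element of small order -/
theorem exists_x {p v : ℕ} (hp : p.Prime) {Y Z : Type} [Group Y] [Finite Y] [Group Z] [Finite Z] (f : Y →* Z)
    (hs : Function.Surjective f) (hk : (Nat.card f.ker).Coprime p) (P : Subgroup Y)
    (hP : Nat.card P = p ^ v) (hPi : ¬ p ∣ P.index) (N : Subgroup Z) [N.Normal] (m : ℕ)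
    (h : ∃ (Q : Sylow p Z) (z : Z), z ∈ Q ∧ z ∉ N ∧ z ^ m ∈ ⁅(Q : Subgroup Z), (Q : Subgroup Z)⁆) :
    ∃ x ∈ P, f x ∉ N ∧ x ^ m ∈ ⁅P, P⁆ := by
  have : Fact p.Prime := ⟨hp⟩
  obtain ⟨Q, z, h1, h2, h3⟩ := h
  have hPp : IsPGroup p P := IsPGroup.of_card hP
  have hmp : IsPGroup p (P.map f) := hPp.map f
  have hmi : ¬ p ∣ (P.map f).index := fun h4 => hPi (h4.trans (Subgroup.index_map_dvd P hs))
  obtain ⟨g, hg⟩ := MulAction.exists_smul_eq Z Q (hmp.toSylow hmi)
  have hgm : (Q : Subgroup Z).map (MulAut.conj g).toMonoidHom = P.map f := by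
    have h5 : ((g • Q : Sylow p Z) : Subgroup Z) = P.map f := by rw [hg]; rfl
    exact h5
  have h4 : g * z * g⁻¹ ∈ P.map f := by
    rw [← hgm]
    exact ⟨z, h1, rfl⟩
  obtain ⟨x, hx, hxz⟩ := h4
  refine ⟨x, hx, ?_, ?_⟩
  · rw [hxz]
    intro h5
    apply h2
    have h6 := (inferInstance : N.Normal).conj_mem _ h5 g⁻¹
    have h7 : g⁻¹ * (g * z * g⁻¹) * g⁻¹⁻¹ = z := by group
    rwa [h7] at h6
  · have h5 : f (x ^ m) ∈ (⁅P, P⁆ : Subgroup Y).map f := by
      rw [Subgroup.map_commutator, ← hgm, ← Subgroup.map_commutator]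
      refine ⟨z ^ m, h3, ?_⟩
      rw [map_pow, map_pow, hxz]
      rfl
    obtain ⟨c, hc, hcx⟩ := h5
    have hcP : c ∈ P := (lin_comm P 1 c hc).1
    have h6 : c⁻¹ * x ^ m = 1 := by
      refine inj f hk P hP _ (mul_mem (inv_mem hcP) (pow_mem hx m)) ?_
      rw [map_mul, map_inv, hcx, inv_mul_cancel]
    rw [inv_mul_eq_one] at h6
    rw [← h6]
    exact hc

end STP_

open STP_

theorem specSTP (hTWS : SpecTWS) (hPWL : SpecPWL) (hPRM : SpecPRM) (hSUG : SpecSUG) (hIR1 : SpecIR1)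
    (hDT2 : SpecDT2) (hGLA : SpecGLA) (hQDL : SpecQDL) (hXDL : SpecXDL) : SpecSTP := by
  intro p b hp hb Z _ _ N hN hNi hQ hgood Y _ _ f hs hc hk b' hb'
  refine hTWS p b' hp (hb.trans hb') ?_
  intro L s0 hL hcard hpex P hP n r hr hn hdet hFX K hK hne
  have : Fact p.Prime := ⟨hp⟩
  have hYL : ∀ y : Y, y ^ L = 1 := by
    intro y
    obtain ⟨c, hc'⟩ := hcard
    rw [hc', pow_mul, pow_card_eq_one', one_pow]
  have hPi : ¬ p ∣ P.index := (Sylow.ofCard P hP).not_dvd_index
  by_cases hlow : ∀ y, (r (y ^ (1 + s0 * p ^ (b' - 1)))).trace = (r y).trace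
  · -- small level
    have hfx := hPWL p hp L s0 hL hpex b' (hb.trans hb') (fun y => (r y).trace) hYL hFX hlow
    have hK1 : resL P K ≠ 1 := by
      intro h1
      have h2 : K = 1 := DIV.lin_one hp P hPi K hK fun x hx => by
        have h3 := congrArg (fun l : Lin P => l ⟨x, hx⟩) h1
        rw [resL_apply, Lin.one_apply] at h3
        exact h3
      obtain ⟨y, hy⟩ := hne
      refine hy ?_
      rw [h2, Lin.one_apply, Units.val_one, one_mul]
      exact hlow y
    have : Fintype P := Fintype.ofFinite P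
    refine hSUG p hp _ hP (fun x : P => (r x).trace) b' (b' - 1) (by omega) (by omega) ?_
      (resL P K) ?_
    · intro t x
      have hxp : (x : Y) ^ p ^ (Nat.card Y).factorization p = 1 := by
        have h1 : x ^ Nat.card P = 1 := pow_card_eq_one'
        rw [hP] at h1
        have h2 := congrArg (Subtype.val) h1
        rw [Subgroup.coe_pow] at h2
        exact h2
      have hxs : (x : Y) ^ s0 = x := (hPRM p hp L s0 hL hpex).2.1 (x : Y) _ (hYL x) hxp
      have h3 := hfx t (x : Y)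
      simp only at h3
      rw [pow_add, mul_assoc, pow_mul, hxs, ← pow_add] at h3
      rw [Subgroup.coe_pow]
      exact h3
    · have h5 : b' - 1 + 1 - b' = 0 := by omega
      rw [h5, pow_zero, pow_one]
      exact hK1
  · -- the subgroup of index `p`
    have hY₁n : (N.comap f).Normal := hN.comap f
    have hY₁i : (N.comap f).index = p := (Subgroup.index_comap_of_surjective N hs).trans hNi
    obtain ⟨Y₁, hY₁⟩ : ∃ Y₁ : Subgroup Y, Y₁ = N.comap f := ⟨_, rfl⟩
    rw [← hY₁] at hY₁n hY₁i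
    have hmemY₁ : ∀ y, y ∈ Y₁ ↔ f y ∈ N := fun y => by rw [hY₁]; exact Subgroup.mem_comap
    have hr₁ := hIR1 p hp Y₁ hY₁i n r hr hn
    have hcard₁ : Nat.card Y₁ ∣ L := (Subgroup.card_subgroup_dvd_card Y₁).trans hcard
    have hK₁ : resL Y₁ K ^ p = 1 := by
      apply Lin.ext
      intro y
      rw [Lin.pow_apply, resL_apply, ← Lin.pow_apply, hK, Lin.one_apply, Lin.one_apply]
    have hne₁ : ∃ y : Y₁, ((r.comp Y₁.subtype) (y ^ (1 + s0 * p ^ (b' - 1)))).trace ≠
        ((resL Y₁ K y : ℂˣ) : ℂ) * ((r.comp Y₁.subtype) y).trace := by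
      by_contra hcon
      push Not at hcon
      have h1 := hDT2 p hp L s0 hL hpex hcard₁ n (r.comp Y₁.subtype) hn hr₁ (fun y => hdet y)
        (resL Y₁ K) hK₁ (b' - 1) (by omega) hcon
      apply hlow
      have h2 := hGLA p hp L s0 hL hpex hcard Y₁ n r hn hr₁ hdet (b' - 1) 1 (by omega) (by
        intro h hh
        have h3 := hcon ⟨h, hh⟩
        rw [h1 ⟨h, hh⟩, Units.val_one, one_mul] at h3
        rw [mul_one]
        exact h3)
      simpa only [mul_one] using h2
    -- the inductive statement for `Y₁`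
    have hIC : IC p b' Y₁ := by
      let f₁ : Y₁ →* N := (f.comp Y₁.subtype).codRestrict N fun y => (hmemY₁ y).1 y.2
      have hf₁ : ∀ y : Y₁, ((f₁ y : N) : Z) = f y := fun y => rfl
      refine hgood Y₁ f₁ ?_ ?_ ?_ b' hb'
      · intro y hy z
        have h1 : f y = 1 := by rw [← hf₁, hy]; rfl
        exact Subtype.ext (hc y h1 z)
      · have h1 : Nat.card f₁.ker ∣ Nat.card f.ker := by
          refine Subgroup.card_dvd_of_injective
            (((Y₁.subtype).comp f₁.ker.subtype).codRestrict f.ker fun w => ?_) ?_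
          · rw [MonoidHom.mem_ker]
            have h2 : f₁ w.1 = 1 := (MonoidHom.mem_ker).1 w.2
            have h3 := hf₁ w.1
            rw [h2] at h3
            exact h3.symm
          · intro u v huv
            exact Subtype.ext (Subtype.ext (congrArg (fun w : f.ker => (w : Y)) huv))
        exact Nat.Coprime.coprime_dvd_left h1 hk
      · have h1 : Function.Surjective f₁ := by
          intro z
          obtain ⟨y, hy⟩ := hs z
          exact ⟨⟨y, (hmemY₁ y).2 (by rw [hy]; exact z.2)⟩, Subtype.ext hy⟩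
        rw [MonoidHom.range_eq_top.2 h1, Subgroup.index_top]
        exact fun h2 => hp.one_lt.ne' (Nat.dvd_one.1 h2)
    -- the element `x₁`
    obtain ⟨x₁, hx₁, hx₁N, hx₁c⟩ := exists_x hp f hs hk P hP hPi N (p ^ (b - 1)) hQ
    have hx₁Y : x₁ ∉ Y₁ := fun h => hx₁N ((hmemY₁ x₁).1 h)
    -- the subgroup `R` of `P`
    have hRn : (Y₁.subgroupOf P).Normal := inferInstance
    have hRi : (Y₁.subgroupOf P).index = p := by
      have h1 : Y₁.relIndex P ∣ Y₁.index := Subgroup.relIndex_dvd_index_of_normal Y₁ P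
      rw [hY₁i] at h1
      rcases (Nat.dvd_prime hp).1 h1 with h2 | h2
      · exact absurd (Subgroup.relIndex_eq_one.1 h2 hx₁) hx₁Y
      · exact h2
    have hpi : Function.Bijective (fun x : Y₁.subgroupOf P =>
        (⟨⟨x.1.1, Subgroup.mem_subgroupOf.1 x.2⟩, Subgroup.mem_subgroupOf.2 x.1.2⟩ : P.subgroupOf Y₁)) := by
      constructor
      · intro u v huv
        apply Subtype.ext
        apply Subtype.ext
        exact congrArg (fun w : P.subgroupOf Y₁ => ((w : Y₁) : Y)) huv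
      · intro w
        exact ⟨⟨⟨w.1.1, Subgroup.mem_subgroupOf.1 w.2⟩, Subgroup.mem_subgroupOf.2 w.1.2⟩, rfl⟩
    let π : Y₁.subgroupOf P →* P.subgroupOf Y₁ := MonoidHom.mk' (fun x =>
        (⟨⟨x.1.1, Subgroup.mem_subgroupOf.1 x.2⟩, Subgroup.mem_subgroupOf.2 x.1.2⟩ : P.subgroupOf Y₁))
      (fun x y => rfl)
    have hcP₁ : Nat.card (P.subgroupOf Y₁) = p ^ (Nat.card Y₁).factorization p := by
      have h1 : Nat.card (Y₁.subgroupOf P) = Nat.card (P.subgroupOf Y₁) := Nat.card_eq_of_bijective _ hpi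
      have h2 := (Y₁.subgroupOf P).card_mul_index
      rw [hRi, hP] at h2
      have h3 := Y₁.card_mul_index
      rw [hY₁i] at h3
      have h4 : Nat.card Y₁ ≠ 0 := Nat.card_pos.ne'
      have h5 : (Nat.card Y).factorization p = (Nat.card Y₁).factorization p + 1 := by
        rw [← h3, Nat.factorization_mul h4 hp.ne_zero]
        simp [hp.factorization_self]
      rw [h5, pow_succ] at h2
      rw [← h1]
      exact Nat.eq_of_mul_eq_mul_right hp.pos h2
    have hdl := hIC L s0 hL hcard₁ hpex (P.subgroupOf Y₁) hcP₁ n (r.comp Y₁.subtype) hr₁ hn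
      (fun t y => hFX t y) (resL Y₁ K) hK₁ hne₁
    have : Fintype P := Fintype.ofFinite P
    refine hXDL p hp _ hP (Y₁.subgroupOf P) hRi (p ^ (b' - 1)) (dvd_pow_self p (by omega)) ⟨x₁, hx₁⟩
      (fun h => hx₁Y (Subgroup.mem_subgroupOf.1 h)) ?_ (fun x : P => (r x).trace)
      (isCharacter_trace (r.comp P.subtype)) (resL P K) ?_
    · intro l
      obtain ⟨h1, h2⟩ := lin_comm P l _ hx₁c
      have h3 : (l ⟨x₁, hx₁⟩) ^ p ^ (b - 1) = 1 := by
        rw [← h2]
        exact (map_pow (l : P →* ℂˣ) ⟨x₁, hx₁⟩ _).symm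
      have h4 : p ^ (b' - 1) = p ^ (b - 1) * p ^ (b' - b) := by
        rw [← pow_add]
        congr 1
        omega
      rw [h4, pow_mul, h3, one_pow]
    · have h1 := hQDL π hpi.2 (p ^ (b' - 1)) (fun x : P.subgroupOf Y₁ => ((r.comp Y₁.subtype) x).trace)
        (isCharacter_trace ((r.comp Y₁.subtype).comp (P.subgroupOf Y₁).subtype))
        (resL (P.subgroupOf Y₁) (resL Y₁ K))
      rw [← h1] at hdl
      exact hdl

end Pool.Agent.Lib.MP_1aae89_al.W6
end
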