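import Pool.Agent.Lib.MP_1aae89_al.W5.SpecE

/-!
# The reduction to almost simple groups: definitions and specifications (MP_1aae89_al, Q1)
-/

set_option autoImplicit false

namespace Pool.Agent.Lib.MP_1aae89_al.W6

open Pool.Agent.Lib.MP_1aae89_al Pool.Agent.Lib.MP_1aae89_al.BF Pool.Agent.Lib.MP_1aae89_al.W3
  Pool.Agent.Lib.MP_1aae89_al.W4 Pool.Agent.Lib.MP_1aae89_al.W5 Finset
open Pool.Agent.Lib.MP1aae89 (Pex)

/-- a class of groups closed under subgroups of index prime to `p`, normal subgroups of index `p`, and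
images -/
structure Clo (p : ℕ) (Cl : (Z : Type) → [Group Z] → Prop) : Prop where
  sub : ∀ {Z : Type} [Group Z] [Finite Z] (T : Subgroup Z), ¬ p ∣ T.index → Cl Z → Cl T
  nrm : ∀ {Z : Type} [Group Z] [Finite Z] (T : Subgroup Z), T.Normal → T.index = p → Cl Z → Cl T
  img : ∀ {Z Y : Type} [Group Z] [Finite Z] [Group Y] [Finite Y] (f : Z →* Y),
    Function.Surjective f → Cl Z → Cl Y

/-- `Z` has a nonabelian minimal normal subgroup `S` without proper normal subgroups, with trivial
centralizer, and `Z/S` is a `p`-group -/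
structure AS (p : ℕ) {Z : Type} [Group Z] (S : Subgroup Z) : Prop where
  norm : S.Normal
  nab : ¬ ∀ x ∈ S, ∀ y ∈ S, x * y = y * x
  smp : ∀ R : Subgroup S, R.Normal → R = ⊥ ∨ R = ⊤
  cen : ∀ z : Z, (∀ x ∈ S, z * x = x * z) → z = 1
  quo : ∀ z : Z, ∃ j : ℕ, z ^ p ^ j ∈ S

/-- RED. The reduction to almost simple groups.
PROOF. Strong induction on `|Z|`. Let `f : Y → Z` be as in `Good`, `T = f.range`. `T ≠ ⊤`: `T` is in the
class, so it is good; apply this to `f.rangeRestrict`. So let `f` be surjective. `Z` trivial: GPG. Let `P` be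
a Sylow subgroup of `Z`. If `Z` has a normal subgroup `N ≠ ⊥` with `N ⊔ P ≠ ⊤`: GEX (`Z/N` is an image,
`N ⊔ P` has index prime to `p`). Otherwise let `N ≠ ⊥` be a minimal normal subgroup; `Z/N` is a `p`-group.
`N` abelian: MAB. `N` not simple: SPL gives `X₁`, `N₀`; `X₁/HC` is an image of the normal subgroup `X₁` of
index `p`, so it is good; WZS. `N` simple: the centralizer `C` of `N` is a normal subgroup, `C ∩ N = 1`, so
`C` is a `p`-group, contained in `P`; `C ≠ 1` would give `C ⊔ P = P ≠ ⊤` (`N` is not a `p`-group: otherwise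
its centre is not trivial and `N` is abelian). So `C = 1` and the hypothesis applies (the proper subgroups of
index prime to `p` and the normal subgroups of index `p` are in the class, so they are good). -/
def SpecRED : Prop := ∀ (p b : ℕ), p.Prime → 2 ≤ b → ∀ Cl : (Z : Type) → [Group Z] → Prop,
  Clo p Cl → (∀ (Z : Type) [Group Z] [Finite Z], Cl Z → ∀ S : Subgroup Z, AS p S →
    (∀ T : Subgroup Z, T ≠ ⊤ → ¬ p ∣ T.index → Good p b T) →
    (∀ T : Subgroup Z, T.Normal → T.index = p → Good p b T) → SurG p b Z) →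
  ∀ (Z : Type) [Group Z] [Finite Z], Cl Z → Good p b Z

end Pool.Agent.Lib.MP_1aae89_al.W6
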